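import Mathlib

/-!
# Entropy of projections along nested partitions (window argument)
-/

set_option autoImplicit false

open Finset
open scoped Classical

noncomputable section

namespace Pool.Agent.V7H66.AK

variable {α β ρ χ : Type*}

/-- the class of `a` of level `n` -/
def cls (c : ℕ → α → β) (A : Finset α) (n : ℕ) (a : α) : Finset α :=
  A.filter fun b => c n b = c n a

lemma mem_cls {c : ℕ → α → β} {A : Finset α} {n : ℕ} {a b : α} :
    b ∈ cls c A n a ↔ b ∈ A ∧ c n b = c n a := by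
  simp [cls]

/-- nested partitions -/
structure Nested (c : ℕ → α → β) (A : Finset α) (T : ℕ) : Prop where
  mono : ∀ n, ∀ a ∈ A, ∀ b ∈ A, c (n + 1) a = c (n + 1) b → c n a = c n b
  top : ∀ a ∈ A, ∀ b ∈ A, c 0 a = c 0 b
  bot : ∀ a ∈ A, ∀ b ∈ A, c T a = c T b → a = b

lemma Nested.le {c : ℕ → α → β} {A : Finset α} {T : ℕ} (h : Nested c A T) {m n : ℕ}
    (hmn : m ≤ n) {a b : α} (ha : a ∈ A) (hb : b ∈ A) (hc : c n a = c n b) : c m a = c m b := by
  induction n, hmn using Nat.le_induction with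
  | base => exact hc
  | succ n hn ih => exact ih (h.mono n a ha b hb hc)

lemma Nested.inj {c : ℕ → α → β} {A : Finset α} {T : ℕ} (h : Nested c A T) {n : ℕ}
    (hn : T ≤ n) {a b : α} (ha : a ∈ A) (hb : b ∈ A) (hc : c n a = c n b) : a = b :=
  h.bot a ha b hb (h.le hn ha hb hc)

/-- number of points of the class -/
def cn (c : ℕ → α → β) (A : Finset α) (n : ℕ) (a : α) : ℝ := ((cls c A n a).card : ℝ)

/-- number of points of the class with the same projection -/
def pn (π : α → χ) (c : ℕ → α → β) (A : Finset α) (n : ℕ) (a : α) : ℝ :=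
  (((cls c A n a).filter fun b => π b = π a).card : ℝ)

section basic

variable {c : ℕ → α → β} {A : Finset α} {T : ℕ}

lemma self_mem_cls {n : ℕ} {a : α} (ha : a ∈ A) : a ∈ cls c A n a := mem_cls.2 ⟨ha, rfl⟩

lemma cls_sub (h : Nested c A T) {m n : ℕ} (hmn : m ≤ n) {a : α} (ha : a ∈ A) :
    cls c A n a ⊆ cls c A m a := by
  intro b hb
  rw [mem_cls] at hb ⊢
  exact ⟨hb.1, h.le hmn hb.1 ha hb.2⟩

lemma cls_eq {n : ℕ} {a b : α} (h : c n a = c n b) : cls c A n a = cls c A n b := by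
  unfold cls
  rw [h]

lemma cn_eq {n : ℕ} {a b : α} (h : c n a = c n b) : cn c A n a = cn c A n b := by
  unfold cn
  rw [cls_eq h]

lemma one_le_cn {n : ℕ} {a : α} (ha : a ∈ A) : 1 ≤ cn c A n a := by
  unfold cn
  have : 0 < (cls c A n a).card := card_pos.2 ⟨a, self_mem_cls ha⟩
  exact_mod_cast this

lemma cn_pos {n : ℕ} {a : α} (ha : a ∈ A) : 0 < cn c A n a :=
  lt_of_lt_of_le one_pos (one_le_cn ha)

lemma cn_anti (h : Nested c A T) {m n : ℕ} (hmn : m ≤ n) {a : α} (ha : a ∈ A) :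
    cn c A n a ≤ cn c A m a := by
  unfold cn
  exact_mod_cast card_le_card (cls_sub h hmn ha)

lemma one_le_pn {π : α → χ} {n : ℕ} {a : α} (ha : a ∈ A) : 1 ≤ pn π c A n a := by
  unfold pn
  have : 0 < ((cls c A n a).filter fun b => π b = π a).card :=
    card_pos.2 ⟨a, mem_filter.2 ⟨self_mem_cls ha, rfl⟩⟩
  exact_mod_cast this

lemma pn_pos {π : α → χ} {n : ℕ} {a : α} (ha : a ∈ A) : 0 < pn π c A n a :=
  lt_of_lt_of_le one_pos (one_le_pn ha)

lemma pn_anti {π : α → χ} (h : Nested c A T) {m n : ℕ} (hmn : m ≤ n) {a : α} (ha : a ∈ A) :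
    pn π c A n a ≤ pn π c A m a := by
  unfold pn
  exact_mod_cast card_le_card (filter_subset_filter _ (cls_sub h hmn ha))

lemma cn_zero (h : Nested c A T) {a : α} (ha : a ∈ A) : cn c A 0 a = A.card := by
  unfold cn cls
  rw [filter_true_of_mem fun b hb => h.top b hb a ha]

lemma pn_zero {π : α → χ} (h : Nested c A T) {a : α} (ha : a ∈ A) :
    pn π c A 0 a = ((A.filter fun b => π b = π a).card : ℝ) := by
  unfold pn cls
  rw [filter_true_of_mem fun b hb => h.top b hb a ha]

lemma cn_bot (h : Nested c A T) {n : ℕ} (hn : T ≤ n) {a : α} (ha : a ∈ A) : cn c A n a = 1 := by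
  unfold cn
  have : cls c A n a = {a} := by
    ext b
    rw [mem_cls, mem_singleton]
    constructor
    · rintro ⟨hb, hc⟩
      exact h.inj hn hb ha hc
    · rintro rfl
      exact ⟨ha, rfl⟩
  rw [this]
  simp

lemma pn_bot {π : α → χ} (h : Nested c A T) {n : ℕ} (hn : T ≤ n) {a : α} (ha : a ∈ A) :
    pn π c A n a = 1 := by
  refine le_antisymm ?_ (one_le_pn ha)
  have h1 : pn π c A n a ≤ cn c A n a := by
    unfold pn cn
    exact_mod_cast card_le_card (filter_subset _ _)
  rw [cn_bot h hn ha] at h1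
  exact h1

/-- comparison of sums class by class -/
lemma sum_le_of_class (n : ℕ) (f g : α → ℝ)
    (h : ∀ a₀ ∈ A, ∑ a ∈ cls c A n a₀, f a ≤ ∑ a ∈ cls c A n a₀, g a) :
    ∑ a ∈ A, f a ≤ ∑ a ∈ A, g a := by
  have h1 : ∀ f : α → ℝ, ∑ a ∈ A, f a = ∑ l ∈ A.image (c n), ∑ a ∈ A.filter (fun a => c n a = l), f a :=
    fun f => (sum_fiberwise_of_maps_to (fun a ha => mem_image_of_mem _ ha) f).symm
  rw [h1 f, h1 g]
  refine sum_le_sum fun l hl => ?_
  obtain ⟨a₀, ha₀, rfl⟩ := mem_image.1 hl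
  exact h a₀ ha₀

lemma sum_inv_cls {n : ℕ} {a₀ : α} (ha₀ : a₀ ∈ A) :
    ∑ a ∈ cls c A n a₀, 1 / cn c A n a = 1 := by
  have h1 : ∀ a ∈ cls c A n a₀, 1 / cn c A n a = 1 / cn c A n a₀ := fun a ha => by
    rw [cn_eq (mem_cls.1 ha).2]
  rw [sum_congr rfl h1, sum_const, nsmul_eq_mul]
  have h2 : ((cls c A n a₀).card : ℝ) = cn c A n a₀ := rfl
  rw [h2]
  exact mul_one_div_cancel (cn_pos ha₀).ne'

/-- telescoping sum over all windows of `s` levels -/
lemma tele (f : ℕ → ℝ) (T : ℕ) (hf : ∀ k, T ≤ k → f k = 0) (W : ℕ) :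
    ∀ s, T + s ≤ W → ∑ n ∈ range W, (f (n + 1 - s) - f (n + 1)) = s * f 0 := by
  intro s
  induction s with
  | zero => intro _; simp
  | succ s ih =>
    intro hs
    have h1 := ih (by omega)
    have h2 : ∑ n ∈ range W, (f (n - s) - f (n + 1 - s)) = f (0 - s) - f (W - s) := by
      have := sum_range_sub' (fun n => f (n - s)) W
      exact this
    have h3 : ∑ n ∈ range W, (f (n + 1 - (s + 1)) - f (n + 1)) =
        ∑ n ∈ range W, (f (n - s) - f (n + 1 - s)) + ∑ n ∈ range W, (f (n + 1 - s) - f (n + 1)) := by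
      rw [← sum_add_distrib]
      refine sum_congr rfl fun n _ => ?_
      have : n + 1 - (s + 1) = n - s := by omega
      rw [this]
      ring
    rw [h3, h1, h2, hf (W - s) (by omega)]
    simp
    ring

/-- Jensen's inequality in the classes of level `n` -/
lemma jensen (π : α → χ) (n : ℕ) (W : α → Finset α) (hWA : ∀ a ∈ A, W a ⊆ A)
    (hW : ∀ a ∈ A, ∀ b ∈ A, c n a = c n b → W a = W b) :
    ∑ a ∈ A, Real.log (1 + (((W a).filter fun b => π b = π a).card : ℝ) / pn π c A n a) ≤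
      ∑ a ∈ A, Real.log (1 + (((W a).filter fun b => ∃ x ∈ cls c A n a, π x = π b).card : ℝ) /
        cn c A n a) := by
  set V : α → ℝ := fun a => (((W a).filter fun b => π b = π a).card : ℝ) with hV
  set Q : α → ℝ := fun a => (((W a).filter fun b => ∃ x ∈ cls c A n a, π x = π b).card : ℝ) with hQ
  have hQ0 : ∀ a, 0 ≤ Q a := fun a => Nat.cast_nonneg _
  have hV0 : ∀ a, 0 ≤ V a := fun a => Nat.cast_nonneg _
  rw [← sub_nonpos, ← sum_sub_distrib]
  have key : ∀ a ∈ A, Real.log (1 + V a / pn π c A n a) - Real.log (1 + Q a / cn c A n a) ≤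
      (1 + V a / pn π c A n a) / (1 + Q a / cn c A n a) - 1 := by
    intro a ha
    have h1 : 0 < 1 + V a / pn π c A n a := by
      have := div_nonneg (hV0 a) (pn_pos (π := π) (c := c) (n := n) ha).le
      linarith
    have h2 : 0 < 1 + Q a / cn c A n a := by
      have := div_nonneg (hQ0 a) (cn_pos (c := c) (n := n) ha).le
      linarith
    rw [← Real.log_div h1.ne' h2.ne']
    exact Real.log_le_sub_one_of_pos (div_pos h1 h2)
  refine (sum_le_sum key).trans ?_
  rw [sum_sub_distrib, sub_nonpos]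
  refine sum_le_of_class (c := c) n _ _ fun a₀ ha₀ => ?_
  have hN : 0 < cn c A n a₀ := cn_pos ha₀
  -- on the class, `Q` and the size are constant
  have e1 : ∀ a ∈ cls c A n a₀, (1 + V a / pn π c A n a) / (1 + Q a / cn c A n a) =
      (1 + V a / pn π c A n a) / (1 + Q a₀ / cn c A n a₀) := by
    intro a ha
    have h1 := mem_cls.1 ha
    have h2 : Q a = Q a₀ := by
      simp only [hQ]
      rw [hW a h1.1 a₀ ha₀ h1.2, cls_eq h1.2]
    rw [h2, cn_eq h1.2]
  rw [sum_congr rfl e1, ← sum_div]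
  have h2 : 0 < 1 + Q a₀ / cn c A n a₀ := by
    have := div_nonneg (hQ0 a₀) hN.le
    linarith
  rw [div_le_iff₀ h2, sum_const, nsmul_eq_mul, mul_one]
  have h3 : ((cls c A n a₀).card : ℝ) = cn c A n a₀ := rfl
  rw [h3, sum_add_distrib, sum_const, nsmul_eq_mul, mul_one, h3, mul_add, mul_one,
    mul_div_cancel₀ _ hN.ne']
  refine add_le_add le_rfl ?_
  -- double counting
  have e2 : ∀ a ∈ cls c A n a₀, V a / pn π c A n a =
      ∑ b ∈ W a₀, if π b = π a then 1 / pn π c A n a else 0 := by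
    intro a ha
    have h1 := mem_cls.1 ha
    rw [← sum_filter, sum_const, nsmul_eq_mul]
    simp only [hV]
    rw [hW a h1.1 a₀ ha₀ h1.2]
    ring
  rw [sum_congr rfl e2, sum_comm]
  have e3 : Q a₀ = ∑ b ∈ W a₀, if (∃ x ∈ cls c A n a₀, π x = π b) then (1:ℝ) else 0 := by
    rw [← sum_filter, sum_const, nsmul_eq_mul, mul_one]
  rw [e3]
  refine sum_le_sum fun b hb => ?_
  rw [← sum_filter]
  split_ifs with hx
  · have e4 : ∀ a ∈ (cls c A n a₀).filter (fun a => π b = π a), 1 / pn π c A n a =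
        1 / (((cls c A n a₀).filter (fun a => π b = π a)).card : ℝ) := by
      intro a ha
      have h1 := mem_filter.1 ha
      have h4 := mem_cls.1 h1.1
      have : pn π c A n a = (((cls c A n a₀).filter (fun a => π b = π a)).card : ℝ) := by
        unfold pn
        rw [cls_eq h4.2, h1.2]
        congr 2
        refine filter_congr fun x _ => ?_
        exact ⟨fun h => h.symm, fun h => h.symm⟩
      rw [this]
    rw [sum_congr rfl e4, sum_const, nsmul_eq_mul]
    rcases Nat.eq_zero_or_pos ((cls c A n a₀).filter (fun a => π b = π a)).card with h0 | h0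
    · rw [h0]; simp
    · rw [mul_one_div_cancel]
      exact_mod_cast h0.ne'
  · have : (cls c A n a₀).filter (fun a => π b = π a) = ∅ := by
      rw [filter_eq_empty_iff]
      intro a ha h
      exact hx ⟨a, ha, h.symm⟩
    rw [this]
    simp

end basic

end Pool.Agent.V7H66.AK
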