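import Pool.Agent.V7H66.AK.Fin

/-!
# Shifted grids
-/

set_option autoImplicit false

open Finset
open scoped Classical

noncomputable section

namespace Pool.Agent.V7H66.AK

/-- the cell `(⌊x / q⌋, ⌊y / q⌋)` of side `q` which contains the point `(x, y)` -/
def cell (q : ℤ) (a : ℤ × ℤ) : ℤ × ℤ := (a.1 / q, a.2 / q)

/-- the cells of the shifted grid: side `b ^ (T + 1 - n)`; the whole plane for `n = 0` -/
def sh (b T : ℕ) (z : ℤ × ℤ) (n : ℕ) (a : ℤ × ℤ) : ℤ × ℤ :=
  if n = 0 then (0, 0) else cell ((b : ℤ) ^ (T + 1 - n)) (a + z)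

/-- distance less than `ρ` in the maximum norm -/
def Clo (ρ : ℤ) (a u : ℤ × ℤ) : Prop := |u.1 - a.1| < ρ ∧ |u.2 - a.2| < ρ

/-- `a` is near the boundary of its cell of side `b ^ i` -/
def near (b : ℕ) (z : ℤ × ℤ) (i ρ : ℕ) (a : ℤ × ℤ) : Prop :=
  ((a.1 + z.1) % (b : ℤ) ^ i < ρ ∨ (b : ℤ) ^ i < (a.1 + z.1) % (b : ℤ) ^ i + ρ) ∨
    ((a.2 + z.2) % (b : ℤ) ^ i < ρ ∨ (b : ℤ) ^ i < (a.2 + z.2) % (b : ℤ) ^ i + ρ)

lemma ediv_same {q x d ρ : ℤ} (hq : 0 < q) (h1 : ρ ≤ x % q) (h2 : x % q + ρ ≤ q) (hd : |d| < ρ) :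
    (x + d) / q = x / q := by
  rw [abs_lt] at hd
  have e := Int.mul_ediv_add_emod x q
  have h3 : x + d = q * (x / q) + (x % q + d) := by
    linear_combination -e
  refine ((Int.ediv_emod_unique (r := x % q + d) hq).2 ⟨?_, ?_, ?_⟩).1
  · linear_combination e
  · linarith
  · linarith

lemma not_near {b : ℕ} (hb : 2 ≤ b) {z : ℤ × ℤ} {i ρ : ℕ} {a u : ℤ × ℤ} (h : ¬ near b z i ρ a)
    (hu : Clo ρ a u) : cell ((b : ℤ) ^ i) (u + z) = cell ((b : ℤ) ^ i) (a + z) := by
  unfold near at h
  push Not at h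
  obtain ⟨⟨h1, h2⟩, ⟨h3, h4⟩⟩ := h
  have hq : (0:ℤ) < (b : ℤ) ^ i := by positivity
  unfold cell
  have e1 := ediv_same (d := u.1 - a.1) hq h1 h2 hu.1
  have e2 := ediv_same (d := u.2 - a.2) hq h3 h4 hu.2
  have e3 : (u + z).1 = a.1 + z.1 + (u.1 - a.1) := by rw [Prod.fst_add]; ring
  have e4 : (u + z).2 = a.2 + z.2 + (u.2 - a.2) := by rw [Prod.snd_add]; ring
  rw [e3, e4, e1, e2]
  rfl

lemma ediv_clo {q x y : ℤ} (hq : 0 < q) (h : x / q = y / q) : |x - y| < q := by
  have e1 := Int.mul_ediv_add_emod x q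
  have e2 := Int.mul_ediv_add_emod y q
  have h1 := Int.emod_nonneg x hq.ne'
  have h2 := Int.emod_lt_of_pos x hq
  have h3 := Int.emod_nonneg y hq.ne'
  have h4 := Int.emod_lt_of_pos y hq
  rw [h] at e1
  rw [abs_lt]
  constructor <;> linarith

lemma cell_clo {q : ℤ} (hq : 0 < q) {z a u : ℤ × ℤ} (h : cell q (u + z) = cell q (a + z)) :
    Clo q a u := by
  unfold cell at h
  rw [Prod.mk.injEq] at h
  have h1 := ediv_clo hq h.1
  have h2 := ediv_clo hq h.2
  rw [Prod.fst_add, Prod.fst_add, add_sub_add_right_eq_sub] at h1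
  rw [Prod.snd_add, Prod.snd_add, add_sub_add_right_eq_sub] at h2
  exact ⟨h1, h2⟩

lemma cell_cell {b : ℕ} (i l : ℕ) (a : ℤ × ℤ) :
    cell ((b : ℤ) ^ l) (cell ((b : ℤ) ^ i) a) = cell ((b : ℤ) ^ (i + l)) a := by
  unfold cell
  simp only
  rw [Int.ediv_ediv_of_nonneg (by positivity), Int.ediv_ediv_of_nonneg (by positivity), pow_add]

lemma cell_le {b : ℕ} {i j : ℕ} (hij : i ≤ j) {a u : ℤ × ℤ}
    (h : cell ((b : ℤ) ^ i) a = cell ((b : ℤ) ^ i) u) :
    cell ((b : ℤ) ^ j) a = cell ((b : ℤ) ^ j) u := by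
  obtain ⟨l, rfl⟩ := Nat.exists_eq_add_of_le hij
  rw [← cell_cell, ← cell_cell, h]

lemma sh_nested {b T : ℕ} (z : ℤ × ℤ) (A : Finset (ℤ × ℤ)) :
    Nested (sh b T z) A (T + 1) := by
  refine ⟨?_, ?_, ?_⟩
  · intro n a _ u _ h
    unfold sh at h ⊢
    rw [if_neg (Nat.succ_ne_zero n), if_neg (Nat.succ_ne_zero n)] at h
    split_ifs with hn
    · rfl
    · exact cell_le (by omega) h
  · intro a _ u _
    unfold sh
    rw [if_pos rfl, if_pos rfl]
  · intro a _ u _ h
    unfold sh at h
    rw [if_neg (Nat.succ_ne_zero T), if_neg (Nat.succ_ne_zero T), Nat.sub_self, pow_zero] at h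
    unfold cell at h
    rw [Int.ediv_one, Int.ediv_one, Int.ediv_one, Int.ediv_one] at h
    exact add_right_cancel h

/-- `R` times the projection with slope `r / R` -/
def prR (R r : ℕ) (a : ℤ × ℤ) : ℤ := R * a.1 + r * a.2

/-- a set of natural numbers of small diameter -/
lemma card_le_of_diam (F : Finset ℕ) (m : ℕ) (h : ∀ r ∈ F, ∀ r' ∈ F, r ≤ r' → r' ≤ r + m) :
    F.card ≤ m + 1 := by
  rcases F.eq_empty_or_nonempty with he | hne
  · rw [he]; simp
  · have h1 : F ⊆ Finset.Icc (F.min' hne) (F.min' hne + m) := by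
      intro r hr
      rw [Finset.mem_Icc]
      exact ⟨F.min'_le r hr, h _ (F.min'_mem hne) r hr (F.min'_le r hr)⟩
    have h2 := card_le_card h1
    rw [Nat.card_Icc] at h2
    omega

/-- the classes whose projections meet -/
lemma sh_wt {b : ℕ} (hb : 2 ≤ b) (T : ℕ) (z : ℤ × ℤ) (A : Finset (ℤ × ℤ)) (s m w n l : ℕ)
    (hwm : w ≤ m) (hml : m < l) (hls : l ≤ s) (hln : l ≤ n) (a x : ℤ × ℤ)
    (hg : n ≤ T + 1 → ¬ near b z (T + 1 - n + l - 1) (2 * b ^ (T + 1 - n + l - 1 - w)) a)
    (hc' : sh b T z (n - l + 1) a ≠ sh b T z (n - l + 1) x) :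
    wt (sh b T z) A (prR (b ^ s)) (range (b ^ s)) n a x ≤ 5 * (b : ℝ) ^ (w + 1) / (b : ℝ) ^ l := by
  have hb0 : 0 < b := by omega
  have hbz : (0:ℤ) < (b : ℤ) := by exact_mod_cast hb0
  have hbr : (1:ℝ) ≤ (b : ℝ) := by exact_mod_cast hb0
  set F := (range (b ^ s)).filter fun r => Rel (sh b T z) A (prR (b ^ s)) n r a x with hF
  have hmain : F.card ≤ 5 * b ^ (s - l + 1 + w) := by
    by_cases hn : n ≤ T + 1
    · -- the general case
      have hg' := hg hn
      set j := T + 1 - n with hj
      set i := j + l - 1 with hi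
      have hne : n ≠ 0 := by omega
      have hidx : T + 1 - (n - l + 1) = i := by omega
      unfold sh at hc'
      rw [if_neg (Nat.succ_ne_zero _), if_neg (Nat.succ_ne_zero _), hidx] at hc'
      -- the differences
      have hdiff : ∀ r ∈ F, ∃ u v : ℤ × ℤ,
          cell ((b : ℤ) ^ j) (u + z) = cell ((b : ℤ) ^ j) (a + z) ∧
          cell ((b : ℤ) ^ j) (v + z) = cell ((b : ℤ) ^ j) (x + z) ∧
          ((b ^ s : ℕ) : ℤ) * (u.1 - v.1) = - (r * (u.2 - v.2)) ∧
          (b : ℤ) ^ (i - w) ≤ |u.2 - v.2| := by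
        intro r hr
        rw [hF, mem_filter, mem_range] at hr
        obtain ⟨hrR, u, hu, v, hv, huv⟩ := hr
        have hu1 := (mem_cls.1 hu).2
        have hv1 := (mem_cls.1 hv).2
        unfold sh at hu1 hv1
        rw [if_neg hne, if_neg hne, ← hj] at hu1 hv1
        have hcu := cell_clo (by positivity) hu1
        have hcv := cell_clo (by positivity) hv1
        have heq : ((b ^ s : ℕ) : ℤ) * (u.1 - v.1) = - (r * (u.2 - v.2)) := by
          unfold prR at huv
          linear_combination huv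
        refine ⟨u, v, hu1, hv1, heq, ?_⟩
        -- v is far from a
        have hfar : ¬ Clo ((2 * b ^ (i - w) : ℕ) : ℤ) a v := by
          intro hclo
          apply hc'
          have h1 := not_near hb hg' hclo
          have h2 := cell_le (by omega : j ≤ i) hv1
          rw [← h1, h2]
        have hji : (b : ℤ) ^ j ≤ (b : ℤ) ^ (i - w) := pow_le_pow_right₀ (by linarith) (by omega)
        have hR : (0:ℤ) < ((b ^ s : ℕ) : ℤ) := by positivity
        have habs : |u.1 - v.1| ≤ |u.2 - v.2| := by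
          have h1 : ((b ^ s : ℕ) : ℤ) * |u.1 - v.1| = r * |u.2 - v.2| := by
            have h2 : |((b ^ s : ℕ) : ℤ) * (u.1 - v.1)| = |- ((r : ℤ) * (u.2 - v.2))| := by rw [heq]
            rw [abs_neg, abs_mul, abs_mul, abs_of_pos hR, abs_of_nonneg (Int.natCast_nonneg r)] at h2
            exact h2
          have h3 : (r : ℤ) * |u.2 - v.2| ≤ ((b ^ s : ℕ) : ℤ) * |u.2 - v.2| := by
            refine mul_le_mul_of_nonneg_right ?_ (abs_nonneg _)
            exact_mod_cast hrR.le
          rw [← h1] at h3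
          exact le_of_mul_le_mul_left h3 hR
        by_contra hcon
        have hcon2 : |u.2 - v.2| < (b : ℤ) ^ (i - w) := not_le.1 hcon
        have hcon1 : |u.1 - v.1| < (b : ℤ) ^ (i - w) := lt_of_le_of_lt habs hcon2
        apply hfar
        unfold Clo at hcu ⊢
        push_cast
        rw [abs_lt] at hcon1 hcon2
        obtain ⟨hcu1, hcu2⟩ := hcu
        rw [abs_lt] at hcu1 hcu2
        constructor
        · rw [abs_lt]
          constructor <;> linarith
        · rw [abs_lt]
          constructor <;> linarith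
      have h5 : F.card ≤ 4 * b ^ (s - l + 1 + w) + 1 := by
        refine card_le_of_diam F _ fun r hr r' hr' hrr => ?_
        obtain ⟨u, v, hu, hv, heq, hlow⟩ := hdiff r hr
        obtain ⟨u', v', hu', hv', heq', _⟩ := hdiff r' hr'
        have hr'R : r' < b ^ s := mem_range.1 (mem_filter.1 hr').1
        set Rz : ℤ := ((b ^ s : ℕ) : ℤ) with hRz
        have hR : (0:ℤ) < Rz := by positivity
        set q : ℤ := (b : ℤ) ^ j with hq
        have hq0 : 0 < q := by positivity
        -- the closeness of the differences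
        have cu := cell_clo hq0 (hu'.trans hu.symm)
        have cv := cell_clo hq0 (hv'.trans hv.symm)
        have c1 : |(u.1 - v.1) - (u'.1 - v'.1)| ≤ 2 * q := by
          have a1 := cu.1
          have a2 := cv.1
          rw [abs_lt] at a1 a2
          rw [abs_le]
          constructor <;> linarith
        have c2 : |(u.2 - v.2) - (u'.2 - v'.2)| ≤ 2 * q := by
          have a1 := cu.2
          have a2 := cv.2
          rw [abs_lt] at a1 a2
          rw [abs_le]
          constructor <;> linarith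
        have e1 : ((r : ℤ) - r') * (u.2 - v.2) =
            - (Rz * ((u.1 - v.1) - (u'.1 - v'.1))) - r' * ((u.2 - v.2) - (u'.2 - v'.2)) := by
          linear_combination heq - heq'
        have e2 : |(r : ℤ) - r'| * |u.2 - v.2| ≤ 4 * Rz * q := by
          rw [← abs_mul, e1]
          calc |- (Rz * ((u.1 - v.1) - (u'.1 - v'.1))) - r' * ((u.2 - v.2) - (u'.2 - v'.2))|
              ≤ |- (Rz * ((u.1 - v.1) - (u'.1 - v'.1)))| + |r' * ((u.2 - v.2) - (u'.2 - v'.2))| :=
                abs_sub _ _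
            _ = Rz * |(u.1 - v.1) - (u'.1 - v'.1)| + r' * |(u.2 - v.2) - (u'.2 - v'.2)| := by
                rw [abs_neg, abs_mul, abs_mul, abs_of_pos hR, abs_of_nonneg (Int.natCast_nonneg r')]
            _ ≤ Rz * (2 * q) + Rz * (2 * q) := by
                refine add_le_add (mul_le_mul_of_nonneg_left c1 hR.le) ?_
                refine mul_le_mul ?_ c2 (abs_nonneg _) hR.le
                rw [hRz]
                exact_mod_cast hr'R.le
            _ = _ := by ring
        have e3 : |(r : ℤ) - r'| * (b : ℤ) ^ (i - w) ≤ 4 * Rz * q :=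
          (mul_le_mul_of_nonneg_left hlow (abs_nonneg _)).trans e2
        have e4 : (b : ℤ) ^ (i - w) = q * (b : ℤ) ^ (l - 1 - w) := by
          rw [hq, ← pow_add]
          congr 1
          omega
        have e5 : Rz = (b : ℤ) ^ (s - l + 1 + w) * (b : ℤ) ^ (l - 1 - w) := by
          rw [hRz, ← pow_add]
          push_cast
          congr 1
          omega
        rw [e4, e5] at e3
        have e6 : |(r : ℤ) - r'| ≤ 4 * (b : ℤ) ^ (s - l + 1 + w) := by
          have hpos : (0:ℤ) < q * (b : ℤ) ^ (l - 1 - w) := by positivity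
          refine le_of_mul_le_mul_right ?_ hpos
          calc |(r : ℤ) - r'| * (q * (b : ℤ) ^ (l - 1 - w)) ≤
                4 * ((b : ℤ) ^ (s - l + 1 + w) * (b : ℤ) ^ (l - 1 - w)) * q := e3
            _ = _ := by ring
        have e7 : (r' : ℤ) - r ≤ 4 * (b : ℤ) ^ (s - l + 1 + w) := by
          have := neg_abs_le ((r : ℤ) - r')
          linarith
        have e8 : (r' : ℤ) ≤ ((r + 4 * b ^ (s - l + 1 + w) : ℕ) : ℤ) := by
          push_cast
          linarith
        exact_mod_cast e8
      have h6 : 1 ≤ b ^ (s - l + 1 + w) := Nat.one_le_pow _ _ hb0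
      omega
    · -- the classes are points
      have h5 : F.card ≤ 0 + 1 := by
        refine card_le_of_diam F 0 fun r hr r' hr' hrr => ?_
        have hne : n ≠ 0 := by omega
        have hpt : ∀ y u : ℤ × ℤ, sh b T z n u = sh b T z n y → u = y := by
          intro y u h
          unfold sh at h
          have h0 : T + 1 - n = 0 := by omega
          rw [if_neg hne, if_neg hne, h0, pow_zero] at h
          unfold cell at h
          rw [Int.ediv_one, Int.ediv_one, Int.ediv_one, Int.ediv_one] at h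
          exact add_right_cancel h
        have hdiff : ∀ r ∈ F, ((b ^ s : ℕ) : ℤ) * (a.1 - x.1) = - (r * (a.2 - x.2)) := by
          intro r hr
          rw [hF, mem_filter, mem_range] at hr
          obtain ⟨hrR, u, hu, v, hv, huv⟩ := hr
          rw [hpt a u (mem_cls.1 hu).2, hpt x v (mem_cls.1 hv).2] at huv
          unfold prR at huv
          linear_combination huv
        have e1 := hdiff r hr
        have e2 := hdiff r' hr'
        have hR : ((b ^ s : ℕ) : ℤ) ≠ 0 := by positivity
        by_contra hcon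
        have hlt : r < r' := by omega
        have e3 : ((r' : ℤ) - r) * (a.2 - x.2) = 0 := by linear_combination e2 - e1
        have e4 : ((r' : ℤ) - r) ≠ 0 := by omega
        have e5 : a.2 - x.2 = 0 := by
          rcases mul_eq_zero.1 e3 with h | h
          · exact absurd h e4
          · exact h
        rw [e5, mul_zero, neg_zero] at e1
        have e6 : a.1 - x.1 = 0 := by
          rcases mul_eq_zero.1 e1 with h | h
          · exact absurd h hR
          · exact h
        apply hc'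
        have e7 : a = x := Prod.ext (by omega) (by omega)
        rw [e7]
      have h6 : 1 ≤ b ^ (s - l + 1 + w) := Nat.one_le_pow _ _ hb0
      omega
  unfold wt
  rw [card_range, ← hF]
  have hR : (0:ℝ) < ((b ^ s : ℕ) : ℝ) := by positivity
  rw [div_le_div_iff₀ hR (by positivity)]
  have h1 : (F.card : ℝ) ≤ ((5 * b ^ (s - l + 1 + w) : ℕ) : ℝ) := by exact_mod_cast hmain
  calc (F.card : ℝ) * (b : ℝ) ^ l ≤ ((5 * b ^ (s - l + 1 + w) : ℕ) : ℝ) * (b : ℝ) ^ l :=
        mul_le_mul_of_nonneg_right h1 (by positivity)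
    _ = 5 * (b : ℝ) ^ (w + 1) * ((b ^ s : ℕ) : ℝ) := by
      push_cast
      rw [mul_assoc, mul_assoc, ← pow_add, ← pow_add]
      congr 2
      omega

end Pool.Agent.V7H66.AK
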