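import Pool.Agent.V7H66.AK.Arch1

/-!
# Shifted grids: number of cells, probability to be near a boundary
-/

set_option autoImplicit false

open Finset
open scoped Classical

noncomputable section

namespace Pool.Agent.V7H66.AK

/-- the cells of side `q` which meet `A` -/
def cells (q : ℤ) (A : Finset (ℤ × ℤ)) : Finset (ℤ × ℤ) := A.image (cell q)

/-- for `t ≤ s` every cell of side `b ^ t q` contains at most `C (b ^ t) ^ d` cells of side
`q = b ^ j` which meet `A` -/
def CellDimLE (b s : ℕ) (C d : ℝ) (A : Finset (ℤ × ℤ)) : Prop :=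
  ∀ (j t : ℕ) (z : ℤ × ℤ), t ≤ s → (((cells ((b : ℤ) ^ j) A).filter
    fun c => cell ((b : ℤ) ^ t) c = z).card : ℝ) ≤ C * ((b : ℝ) ^ t) ^ d

lemma ediv_bounds (x : ℤ) {q : ℤ} (hq : 0 < q) : q * (x / q) ≤ x ∧ x < q * (x / q) + q := by
  have e1 := Int.mul_ediv_add_emod x q
  have h1 := Int.emod_nonneg x hq.ne'
  have h2 := Int.emod_lt_of_pos x hq
  constructor <;> linarith

lemma ediv_add_cases (x z : ℤ) {q : ℤ} (hq : 0 < q) :
    (x + z) / q - x / q - z / q = 0 ∨ (x + z) / q - x / q - z / q = 1 := by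
  have h1 := ediv_bounds x hq
  have h2 := ediv_bounds z hq
  have h3 := ediv_bounds (x + z) hq
  have h4 : q * (x / q + z / q) < q * ((x + z) / q + 1) := by
    rw [mul_add, mul_add, mul_one]
    linarith
  have h5 : q * ((x + z) / q) < q * (x / q + z / q + 2) := by
    rw [mul_add, mul_add]
    linarith
  have h6 := lt_of_mul_lt_mul_left h4 hq.le
  have h7 := lt_of_mul_lt_mul_left h5 hq.le
  omega

lemma ediv_close {x y q : ℤ} (hq : 0 < q) (h : |y - x| < q) :
    x / q - 1 ≤ y / q ∧ y / q ≤ x / q + 1 := by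
  have h1 := ediv_bounds x hq
  have h2 := ediv_bounds y hq
  rw [abs_lt] at h
  have h4 : q * (y / q) < q * (x / q + 2) := by
    rw [mul_add]
    linarith
  have h5 : q * (x / q) < q * (y / q + 2) := by
    rw [mul_add]
    linarith
  have h6 := lt_of_mul_lt_mul_left h4 hq.le
  have h7 := lt_of_mul_lt_mul_left h5 hq.le
  omega

/-- the number of the cells in a ball -/
lemma card_cells_ball {b s : ℕ} (hb : 2 ≤ b) (A Y : Finset (ℤ × ℤ)) (C d : ℝ)
    (hdim : CellDimLE b s C d A) (j l : ℕ) (hl : l ≤ s) (x : ℤ × ℤ) (hYA : Y ⊆ A)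
    (hY : ∀ y ∈ Y, Clo ((b : ℤ) ^ (j + l)) x y) :
    ((Y.image (cell ((b : ℤ) ^ j))).card : ℝ) ≤ 9 * (C * ((b : ℝ) ^ l) ^ d) := by
  have hb0 : 0 < b := by omega
  set Q : ℤ := (b : ℤ) ^ (j + l) with hQ
  have hQ0 : 0 < Q := by positivity
  set nine : Finset (ℤ × ℤ) := (Finset.Icc (x.1 / Q - 1) (x.1 / Q + 1)) ×ˢ
    (Finset.Icc (x.2 / Q - 1) (x.2 / Q + 1)) with hnine
  have hcard : nine.card = 9 := by
    rw [hnine, card_product, Int.card_Icc, Int.card_Icc]
    have h1 : x.1 / Q + 1 + 1 - (x.1 / Q - 1) = 3 := by ring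
    have h2 : x.2 / Q + 1 + 1 - (x.2 / Q - 1) = 3 := by ring
    rw [h1, h2]
    rfl
  have hsub : Y.image (cell ((b : ℤ) ^ j)) ⊆
      nine.biUnion (fun Z => (cells ((b : ℤ) ^ j) A).filter fun c => cell ((b : ℤ) ^ l) c = Z) := by
    intro c hc
    obtain ⟨y, hy, rfl⟩ := mem_image.1 hc
    rw [mem_biUnion]
    refine ⟨cell Q y, ?_, ?_⟩
    · rw [hnine, mem_product, Finset.mem_Icc, Finset.mem_Icc]
      exact ⟨ediv_close hQ0 (hY y hy).1, ediv_close hQ0 (hY y hy).2⟩
    · rw [mem_filter]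
      refine ⟨mem_image_of_mem _ (hYA hy), ?_⟩
      rw [cell_cell]
  have h1 : (Y.image (cell ((b : ℤ) ^ j))).card ≤ ∑ Z ∈ nine,
      ((cells ((b : ℤ) ^ j) A).filter fun c => cell ((b : ℤ) ^ l) c = Z).card :=
    (card_le_card hsub).trans card_biUnion_le
  calc ((Y.image (cell ((b : ℤ) ^ j))).card : ℝ) ≤ ((∑ Z ∈ nine,
      ((cells ((b : ℤ) ^ j) A).filter fun c => cell ((b : ℤ) ^ l) c = Z).card : ℕ) : ℝ) := by
        exact_mod_cast h1
    _ = ∑ Z ∈ nine, (((cells ((b : ℤ) ^ j) A).filter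
          fun c => cell ((b : ℤ) ^ l) c = Z).card : ℝ) := by push_cast; rfl
    _ ≤ ∑ Z ∈ nine, C * ((b : ℝ) ^ l) ^ d := sum_le_sum fun Z _ => hdim j l Z hl
    _ = 9 * (C * ((b : ℝ) ^ l) ^ d) := by
        rw [sum_const, hcard, nsmul_eq_mul]
        norm_num

/-- cells of the shifted grid -/
lemma card_shifted (Y : Finset (ℤ × ℤ)) {q : ℤ} (hq : 0 < q) (z : ℤ × ℤ) :
    (Y.image (fun y => cell q (y + z))).card ≤ 4 * (Y.image (cell q)).card := by
  set four : Finset (ℤ × ℤ) := ({0, 1} : Finset ℤ) ×ˢ ({0, 1} : Finset ℤ) with hfour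
  have hsub : Y.image (fun y => cell q (y + z)) ⊆
      ((Y.image (cell q)) ×ˢ four).image (fun e => e.1 + cell q z + e.2) := by
    intro c hc
    obtain ⟨y, hy, rfl⟩ := mem_image.1 hc
    rw [mem_image]
    refine ⟨(cell q y, (cell q (y + z) - cell q y - cell q z)), ?_, ?_⟩
    · rw [mem_product]
      refine ⟨mem_image_of_mem _ hy, ?_⟩
      rw [hfour, mem_product]
      have h1 := ediv_add_cases y.1 z.1 hq
      have h2 := ediv_add_cases y.2 z.2 hq
      simp only [mem_insert, mem_singleton]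
      exact ⟨h1, h2⟩
    · simp only
      abel
  refine (card_le_card hsub).trans (card_image_le.trans ?_)
  rw [card_product]
  have : four.card = 4 := by rw [hfour, card_product]; rfl
  rw [this, mul_comm]

lemma sh_K {b s : ℕ} (hb : 2 ≤ b) (T : ℕ) (z : ℤ × ℤ) (A : Finset (ℤ × ℤ)) (C d : ℝ) (hd : 0 ≤ d)
    (hT : ∀ a ∈ A, ∀ u ∈ A, Clo ((b : ℤ) ^ (T + 1)) a u)
    (hC : 1 ≤ C) (hdim : CellDimLE b s C d A) (n l : ℕ) (hls : l ≤ s) (hln : l ≤ n) (x : ℤ × ℤ)
    (hx : x ∈ A) :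
    (((cls (sh b T z) A (n - l) x).image (sh b T z n)).card : ℝ) ≤
      36 * C * ((b : ℝ) ^ l) ^ d := by
  have hb0 : 0 < b := by omega
  have hbr : (1:ℝ) ≤ (b : ℝ) := by exact_mod_cast hb0
  have hbz : (1:ℤ) ≤ (b : ℤ) := by exact_mod_cast hb0
  have h2 : (1:ℝ) ≤ ((b : ℝ) ^ l) ^ d := Real.one_le_rpow (one_le_pow₀ hbr) hd
  rcases Nat.eq_zero_or_pos n with hn | hn
  · have h3 : ((cls (sh b T z) A (n - l) x).image (sh b T z n)).card ≤ 1 := by
      rw [card_le_one]
      intro y hy y' hy'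
      obtain ⟨u, _, rfl⟩ := mem_image.1 hy
      obtain ⟨u', _, rfl⟩ := mem_image.1 hy'
      rw [hn]
      rfl
    have h4 : (((cls (sh b T z) A (n - l) x).image (sh b T z n)).card : ℝ) ≤ 1 := by
      exact_mod_cast h3
    have h5 : (1:ℝ) ≤ 36 * C * ((b : ℝ) ^ l) ^ d := by
      calc (1:ℝ) = 1 * 1 := by ring
        _ ≤ _ := mul_le_mul (by linarith) h2 (by norm_num) (by linarith)
    linarith
  · set j := T + 1 - n with hj
    set Y := cls (sh b T z) A (n - l) x with hY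
    have hclo : ∀ y ∈ Y, Clo ((b : ℤ) ^ (j + l)) x y := by
      intro y hy
      have hy1 := mem_cls.1 hy
      by_cases h0 : n - l = 0
      · have h3 := hT x hx y hy1.1
        have h4 : (b : ℤ) ^ (T + 1) ≤ (b : ℤ) ^ (j + l) := pow_le_pow_right₀ hbz (by omega)
        exact ⟨lt_of_lt_of_le h3.1 h4, lt_of_lt_of_le h3.2 h4⟩
      · have h3 := hy1.2
        unfold sh at h3
        rw [if_neg h0, if_neg h0] at h3
        have h5 := cell_clo (by positivity) h3
        have h4 : (b : ℤ) ^ (T + 1 - (n - l)) ≤ (b : ℤ) ^ (j + l) :=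
          pow_le_pow_right₀ hbz (by omega)
        exact ⟨lt_of_lt_of_le h5.1 h4, lt_of_lt_of_le h5.2 h4⟩
    have h3 := card_cells_ball hb A Y C d hdim j l hls x (fun y hy => (mem_cls.1 hy).1) hclo
    have h4 : (Y.image (sh b T z n)).card ≤ 4 * (Y.image (cell ((b : ℤ) ^ j))).card := by
      have h5 : sh b T z n = fun y => cell ((b : ℤ) ^ j) (y + z) := by
        funext y
        unfold sh
        rw [if_neg (by omega)]
      rw [h5]
      have h6 := card_shifted Y (q := (b : ℤ) ^ j) (by positivity) z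
      refine le_trans (le_of_eq ?_) h6
      rw [card_image_irrel _ instDecidableEqProd]
    have h5 : ((Y.image (sh b T z n)).card : ℝ) ≤ 4 * ((Y.image (cell ((b : ℤ) ^ j))).card : ℝ) := by
      exact_mod_cast h4
    calc ((Y.image (sh b T z n)).card : ℝ) ≤ 4 * (9 * (C * ((b : ℝ) ^ l) ^ d)) := by linarith
      _ = _ := by ring

lemma exists_size' (A : Finset (ℤ × ℤ)) : ∃ M : ℕ, ∀ a ∈ A, a.1.natAbs ≤ M ∧ a.2.natAbs ≤ M := by
  refine ⟨∑ a ∈ A, (a.1.natAbs + a.2.natAbs), fun a ha => ?_⟩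
  have h1 : a.1.natAbs + a.2.natAbs ≤ ∑ a ∈ A, (a.1.natAbs + a.2.natAbs) :=
    single_le_sum (f := fun a : ℤ × ℤ => a.1.natAbs + a.2.natAbs) (fun _ _ => Nat.zero_le _) ha
  omega

/-- numbers with given residues -/
lemma cnt (q N : ℕ) (hq : 0 < q) (a₀ : ℤ) (P : Finset ℤ) :
    ((range (q * N)).filter (fun z : ℕ => (a₀ + z) % (q : ℤ) ∈ P)).card ≤ N * P.card := by
  calc ((range (q * N)).filter (fun z : ℕ => (a₀ + z) % (q : ℤ) ∈ P)).card
      ≤ (range N ×ˢ P).card := by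
        refine card_le_card_of_injOn (fun z : ℕ => (z / q, (a₀ + z) % (q : ℤ))) ?_ ?_
        · intro z hz
          have h1 := mem_filter.1 hz
          rw [mem_coe, mem_product]
          refine ⟨?_, h1.2⟩
          rw [mem_range]
          exact Nat.div_lt_of_lt_mul (mem_range.1 h1.1)
        · intro z hz z' hz' h
          simp only [Prod.mk.injEq] at h
          obtain ⟨h1, h2⟩ := h
          have h3 : a₀ + (z : ℤ) ≡ a₀ + z' [ZMOD (q : ℤ)] := h2
          have h4 : (z : ℤ) ≡ z' [ZMOD (q : ℤ)] := Int.ModEq.add_left_cancel' a₀ h3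
          have h5 : z % q = z' % q := Int.natCast_modEq_iff.1 h4
          rw [← Nat.div_add_mod z q, ← Nat.div_add_mod z' q, h1, h5]
    _ = N * P.card := by rw [card_product, card_range]

/-- the shifts -/
def shifts (b T : ℕ) : Finset (ℕ × ℕ) := range (b ^ T) ×ˢ range (b ^ T)

/-- a shift as a vector -/
def vec (z : ℕ × ℕ) : ℤ × ℤ := ((z.1 : ℤ), (z.2 : ℤ))

lemma near_count {b : ℕ} (hb : 2 ≤ b) (T i ρ : ℕ) (hi : i ≤ T) (a : ℤ × ℤ) :
    ((shifts b T).filter (fun z => near b (vec z) i ρ a)).card * b ^ i ≤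
      4 * ρ * (shifts b T).card := by
  have hb0 : 0 < b := by omega
  set q : ℕ := b ^ i with hq
  set N : ℕ := b ^ (T - i) with hN
  have hq0 : 0 < q := by positivity
  have hqN : b ^ T = q * N := by
    rw [hq, hN, ← pow_add]
    congr 1
    omega
  set P1 : Finset ℤ := Finset.Ico 0 (ρ : ℤ) with hP1
  set P2 : Finset ℤ := Finset.Ico ((q : ℤ) - ρ) q with hP2
  have hP1c : P1.card = ρ := by rw [hP1, Int.card_Ico]; simp
  have hP2c : P2.card = ρ := by rw [hP2, Int.card_Ico]; simp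
  set F : ℤ → Finset ℤ → Finset ℕ := fun a₀ P =>
    (range (b ^ T)).filter (fun z : ℕ => (a₀ + z) % (q : ℤ) ∈ P) with hF
  have hFc : ∀ a₀ P, (F a₀ P).card ≤ N * P.card := by
    intro a₀ P
    rw [hF]
    simp only
    rw [hqN]
    exact cnt q N hq0 a₀ P
  have hsub : (shifts b T).filter (fun z => near b (vec z) i ρ a) ⊆
      ((F a.1 P1 ∪ F a.1 P2) ×ˢ range (b ^ T)) ∪ (range (b ^ T) ×ˢ (F a.2 P1 ∪ F a.2 P2)) := by
    intro z hz
    rw [mem_filter] at hz
    obtain ⟨hz1, hz2⟩ := hz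
    unfold shifts at hz1
    rw [mem_product] at hz1
    have hqz : (0:ℤ) < (q : ℤ) := by exact_mod_cast hq0
    have hqe : (b : ℤ) ^ i = (q : ℤ) := by rw [hq]; push_cast; rfl
    unfold near vec at hz2
    simp only [hqe] at hz2
    have n1 := Int.emod_nonneg (a.1 + z.1) hqz.ne'
    have n2 := Int.emod_lt_of_pos (a.1 + z.1) hqz
    have n3 := Int.emod_nonneg (a.2 + z.2) hqz.ne'
    have n4 := Int.emod_lt_of_pos (a.2 + z.2) hqz
    rw [mem_union, mem_product, mem_product, mem_union, mem_union]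
    rcases hz2 with (h | h) | (h | h)
    · left
      refine ⟨Or.inl ?_, hz1.2⟩
      rw [hF, mem_filter]
      exact ⟨hz1.1, by rw [hP1, Finset.mem_Ico]; exact ⟨n1, h⟩⟩
    · left
      refine ⟨Or.inr ?_, hz1.2⟩
      rw [hF, mem_filter]
      exact ⟨hz1.1, by rw [hP2, Finset.mem_Ico]; exact ⟨by linarith, n2⟩⟩
    · right
      refine ⟨hz1.1, Or.inl ?_⟩
      rw [hF, mem_filter]
      exact ⟨hz1.2, by rw [hP1, Finset.mem_Ico]; exact ⟨n3, h⟩⟩
    · right
      refine ⟨hz1.1, Or.inr ?_⟩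
      rw [hF, mem_filter]
      exact ⟨hz1.2, by rw [hP2, Finset.mem_Ico]; exact ⟨by linarith, n4⟩⟩
  have h1 : ((shifts b T).filter (fun z => near b (vec z) i ρ a)).card ≤
      (N * ρ + N * ρ) * b ^ T + b ^ T * (N * ρ + N * ρ) := by
    refine (card_le_card hsub).trans ((card_union_le _ _).trans ?_)
    rw [card_product, card_product, card_range]
    have u1 : (F a.1 P1 ∪ F a.1 P2).card ≤ N * ρ + N * ρ := by
      refine (card_union_le _ _).trans ?_
      have e1 := hFc a.1 P1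
      have e2 := hFc a.1 P2
      rw [hP1c] at e1
      rw [hP2c] at e2
      omega
    have u2 : (F a.2 P1 ∪ F a.2 P2).card ≤ N * ρ + N * ρ := by
      refine (card_union_le _ _).trans ?_
      have e1 := hFc a.2 P1
      have e2 := hFc a.2 P2
      rw [hP1c] at e1
      rw [hP2c] at e2
      omega
    exact add_le_add (Nat.mul_le_mul_right _ u1) (Nat.mul_le_mul_left _ u2)
  calc ((shifts b T).filter (fun z => near b (vec z) i ρ a)).card * q
      ≤ ((N * ρ + N * ρ) * b ^ T + b ^ T * (N * ρ + N * ρ)) * q := Nat.mul_le_mul_right _ h1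
    _ = 4 * ρ * (b ^ T * (q * N)) := by ring
    _ = 4 * ρ * (shifts b T).card := by
      rw [← hqN]
      unfold shifts
      rw [card_product, card_range]

end Pool.Agent.V7H66.AK
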