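import Pool.Agent.V7H66.AK.Arch2

/-!
# Shifted grids: the points near the boundaries
-/

set_option autoImplicit false

open Finset
open scoped Classical

noncomputable section

namespace Pool.Agent.V7H66.AK

/-- number of points in the cell of side `b ^ k` of the shifted grid -/
def Ml (b T : ℕ) (A : Finset (ℤ × ℤ)) (z : ℕ × ℕ) (k : ℕ) (a : ℤ × ℤ) : ℝ :=
  cn (sh b T (vec z)) A (T + 1 - k) a

/-- number of points at distance less than `b ^ v` -/
def Bv (b : ℕ) (A : Finset (ℤ × ℤ)) (v : ℕ) (a : ℤ × ℤ) : ℝ :=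
  ((A.filter (fun u => Clo ((b : ℤ) ^ v) a u)).card : ℝ)

def gg (b : ℕ) (A : Finset (ℤ × ℤ)) (v : ℕ) (a : ℤ × ℤ) : ℝ :=
  Real.log (Bv b A (v + 1) a) - Real.log (Bv b A v a)

lemma Bv_mono {b : ℕ} (hb : 2 ≤ b) (A : Finset (ℤ × ℤ)) {v v' : ℕ} (h : v ≤ v') (a : ℤ × ℤ) :
    Bv b A v a ≤ Bv b A v' a := by
  have hbz : (1:ℤ) ≤ (b : ℤ) := by
    have : 1 ≤ b := by omega
    exact_mod_cast this
  unfold Bv
  have : (A.filter (fun u => Clo ((b : ℤ) ^ v) a u)).card ≤
      (A.filter (fun u => Clo ((b : ℤ) ^ v') a u)).card := by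
    refine card_le_card fun u hu => ?_
    rw [mem_filter] at hu ⊢
    have h1 : (b : ℤ) ^ v ≤ (b : ℤ) ^ v' := pow_le_pow_right₀ hbz h
    exact ⟨hu.1, lt_of_lt_of_le hu.2.1 h1, lt_of_lt_of_le hu.2.2 h1⟩
  exact_mod_cast this

lemma one_le_Bv {b : ℕ} (hb : 2 ≤ b) {A : Finset (ℤ × ℤ)} (v : ℕ) {a : ℤ × ℤ} (ha : a ∈ A) :
    1 ≤ Bv b A v a := by
  have hbz : (0:ℤ) < (b : ℤ) := by
    have : 0 < b := by omega
    exact_mod_cast this
  unfold Bv
  have : 0 < (A.filter (fun u => Clo ((b : ℤ) ^ v) a u)).card := by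
    refine card_pos.2 ⟨a, mem_filter.2 ⟨ha, ?_, ?_⟩⟩
    · rw [sub_self, abs_zero]; positivity
    · rw [sub_self, abs_zero]; positivity
  exact_mod_cast this

lemma Bv_zero {b : ℕ} (hb : 2 ≤ b) {A : Finset (ℤ × ℤ)} {a : ℤ × ℤ} (ha : a ∈ A) :
    Bv b A 0 a = 1 := by
  refine le_antisymm ?_ (one_le_Bv hb 0 ha)
  unfold Bv
  have : (A.filter (fun u => Clo ((b : ℤ) ^ 0) a u)) ⊆ {a} := by
    intro u hu
    rw [mem_filter] at hu
    obtain ⟨_, h1, h2⟩ := hu
    rw [pow_zero] at h1 h2
    rw [mem_singleton]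
    have h3 := Int.abs_lt_one_iff.1 h1
    have h4 := Int.abs_lt_one_iff.1 h2
    exact Prod.ext (by omega) (by omega)
  have h := card_le_card this
  rw [card_singleton] at h
  exact_mod_cast h

lemma Bv_top {b T : ℕ} {A : Finset (ℤ × ℤ)}
    (hT : ∀ a ∈ A, ∀ u ∈ A, Clo ((b : ℤ) ^ (T + 1)) a u) {a : ℤ × ℤ} (ha : a ∈ A) :
    Bv b A (T + 1) a = A.card := by
  unfold Bv
  rw [filter_true_of_mem fun u hu => hT a ha u hu]

lemma gg_nonneg {b : ℕ} (hb : 2 ≤ b) {A : Finset (ℤ × ℤ)} (v : ℕ) {a : ℤ × ℤ} (ha : a ∈ A) :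
    0 ≤ gg b A v a := by
  unfold gg
  rw [sub_nonneg]
  refine Real.log_le_log ?_ (Bv_mono hb A (Nat.le_succ v) a)
  have := one_le_Bv hb v ha
  linarith

lemma sum_gg {b : ℕ} (hb : 2 ≤ b) {A : Finset (ℤ × ℤ)} (V : ℕ) {a : ℤ × ℤ} (ha : a ∈ A) :
    ∑ v ∈ range V, gg b A v a = Real.log (Bv b A V a) := by
  unfold gg
  rw [sum_range_sub (fun v => Real.log (Bv b A v a)), Bv_zero hb ha, Real.log_one, sub_zero]

variable {b T : ℕ} {A : Finset (ℤ × ℤ)}

lemma one_le_Ml (z : ℕ × ℕ) (k : ℕ) {a : ℤ × ℤ} (ha : a ∈ A) : 1 ≤ Ml b T A z k a :=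
  one_le_cn ha

lemma Ml_mono (z : ℕ × ℕ) {k k' : ℕ} (h : k ≤ k') {a : ℤ × ℤ} (ha : a ∈ A) :
    Ml b T A z k a ≤ Ml b T A z k' a :=
  cn_anti (sh_nested (vec z) A) (by omega) ha

lemma Ml_le (hb : 2 ≤ b) (hT : ∀ a ∈ A, ∀ u ∈ A, Clo ((b : ℤ) ^ (T + 1)) a u) (z : ℕ × ℕ)
    {k : ℕ} (hk : k ≤ T + 1) {a : ℤ × ℤ} (ha : a ∈ A) : Ml b T A z k a ≤ Bv b A k a := by
  rcases Nat.lt_or_ge T k with h | h
  · have hk' : k = T + 1 := by omega
    subst hk'
    rw [Bv_top hT ha]
    unfold Ml cn
    have : (cls (sh b T (vec z)) A (T + 1 - (T + 1)) a).card ≤ A.card :=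
      card_le_card (fun u hu => (mem_cls.1 hu).1)
    exact_mod_cast this
  · unfold Ml cn Bv
    have : (cls (sh b T (vec z)) A (T + 1 - k) a).card ≤
        (A.filter (fun u => Clo ((b : ℤ) ^ k) a u)).card := by
      refine card_le_card fun u hu => ?_
      rw [mem_filter]
      have h1 := mem_cls.1 hu
      refine ⟨h1.1, ?_⟩
      have h2 := h1.2
      unfold sh at h2
      have h3 : T + 1 - k ≠ 0 := by omega
      have h4 : T + 1 - (T + 1 - k) = k := by omega
      rw [if_neg h3, if_neg h3, h4] at h2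
      exact cell_clo (by positivity) h2
    exact_mod_cast this

lemma Ml_ge (hb : 2 ≤ b) (z : ℕ × ℕ) {k : ℕ} (hk : k ≤ T) (V : ℕ) {a : ℤ × ℤ}
    (hn : ¬ near b (vec z) k (b ^ V) a) : Bv b A V a ≤ Ml b T A z k a := by
  unfold Ml cn Bv
  have : (A.filter (fun u => Clo ((b : ℤ) ^ V) a u)).card ≤
      (cls (sh b T (vec z)) A (T + 1 - k) a).card := by
    refine card_le_card fun u hu => ?_
    rw [mem_filter] at hu
    rw [mem_cls]
    refine ⟨hu.1, ?_⟩
    unfold sh
    have h3 : T + 1 - k ≠ 0 := by omega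
    have h4 : T + 1 - (T + 1 - k) = k := by omega
    rw [if_neg h3, if_neg h3, h4]
    refine not_near hb hn ?_
    have h5 : ((b ^ V : ℕ) : ℤ) = (b : ℤ) ^ V := by push_cast; rfl
    rw [h5]
    exact hu.2
  exact_mod_cast this

lemma log_Ml (hb : 2 ≤ b) (z : ℕ × ℕ) {k : ℕ} (hk : k ≤ T) {a : ℤ × ℤ} (ha : a ∈ A) (V : ℕ) :
    ∑ v ∈ range V, (if near b (vec z) k (b ^ (v + 1)) a then 0 else gg b A v a) ≤
      Real.log (Ml b T A z k a) := by
  induction V with
  | zero =>
    rw [range_zero, sum_empty]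
    exact Real.log_nonneg (one_le_Ml z k ha)
  | succ V ih =>
    by_cases hn : near b (vec z) k (b ^ (V + 1)) a
    · rw [sum_range_succ, if_pos hn, add_zero]
      exact ih
    · calc ∑ v ∈ range (V + 1), (if near b (vec z) k (b ^ (v + 1)) a then 0 else gg b A v a)
          ≤ ∑ v ∈ range (V + 1), gg b A v a := by
            refine sum_le_sum fun v _ => ?_
            split_ifs
            · exact gg_nonneg hb v ha
            · exact le_rfl
        _ = Real.log (Bv b A (V + 1) a) := sum_gg hb _ ha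
        _ ≤ Real.log (Ml b T A z k a) := by
            refine Real.log_le_log ?_ (Ml_ge hb z hk (V + 1) hn)
            have := one_le_Bv hb (V + 1) ha
            linarith

lemma step_le (hb : 2 ≤ b) (hT : ∀ a ∈ A, ∀ u ∈ A, Clo ((b : ℤ) ^ (T + 1)) a u) (z : ℕ × ℕ)
    {k : ℕ} (hk : k ≤ T) {a : ℤ × ℤ} (ha : a ∈ A) :
    Real.log (Ml b T A z (k + 1) a) - Real.log (Ml b T A z k a) ≤
      ∑ v ∈ range (k + 1), (if v = k ∨ near b (vec z) k (b ^ (v + 1)) a then gg b A v a else 0) := by
  have h1 : Real.log (Ml b T A z (k + 1) a) ≤ ∑ v ∈ range (k + 1), gg b A v a := by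
    rw [sum_gg hb _ ha]
    refine Real.log_le_log ?_ (Ml_le hb hT z (by omega) ha)
    have := one_le_Ml (b := b) (T := T) z (k + 1) ha
    linarith
  have h2 := log_Ml (T := T) hb z hk ha k
  rw [sum_range_succ] at h1 ⊢
  have h3 : (if k = k ∨ near b (vec z) k (b ^ (k + 1)) a then gg b A k a else 0) = gg b A k a :=
    if_pos (Or.inl rfl)
  rw [h3]
  have h4 : ∑ v ∈ range k, gg b A v a =
      ∑ v ∈ range k, (if near b (vec z) k (b ^ (v + 1)) a then 0 else gg b A v a) +
      ∑ v ∈ range k, (if v = k ∨ near b (vec z) k (b ^ (v + 1)) a then gg b A v a else 0) := by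
    rw [← sum_add_distrib]
    refine sum_congr rfl fun v hv => ?_
    have hvk : v ≠ k := (mem_range.1 hv).ne
    by_cases hn : near b (vec z) k (b ^ (v + 1)) a
    · rw [if_pos hn, if_pos (Or.inr hn), zero_add]
    · rw [if_neg hn, if_neg (by tauto), add_zero]
  linarith

/-- the bound of the probabilities -/
def mu (b w u : ℕ) : ℝ := min (8 / (b : ℝ) ^ w) (4 * b / (b : ℝ) ^ u)

lemma mu_nonneg (b w u : ℕ) : 0 ≤ mu b w u := le_min (by positivity) (by positivity)

lemma shifts_card_pos (hb : 2 ≤ b) : (0:ℝ) < ((shifts b T).card : ℝ) := by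
  have hb0 : 0 < b := by omega
  unfold shifts
  rw [card_product, card_range]
  push_cast
  positivity

lemma near_prob (hb : 2 ≤ b) {i : ℕ} (hi : i ≤ T) (ρ : ℕ) (a : ℤ × ℤ) :
    (((shifts b T).filter (fun z => near b (vec z) i ρ a)).card : ℝ) ≤
      (shifts b T).card * (4 * ρ / (b : ℝ) ^ i) := by
  have hb0 : (0:ℝ) < b := by
    have : 0 < b := by omega
    exact_mod_cast this
  have h1 : ((((shifts b T).filter (fun z => near b (vec z) i ρ a)).card * b ^ i : ℕ) : ℝ) ≤
      ((4 * ρ * (shifts b T).card : ℕ) : ℝ) := by exact_mod_cast near_count hb T i ρ hi a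
  push_cast at h1
  rw [mul_div_assoc', le_div_iff₀ (by positivity)]
  linarith

lemma pair_sum (hb : 2 ≤ b) (hT : ∀ a ∈ A, ∀ u ∈ A, Clo ((b : ℤ) ^ (T + 1)) a u) {w i k : ℕ}
    (hi : i ≤ T) (hk : k ≤ T) (hwi : w ≤ i) {a : ℤ × ℤ} (ha : a ∈ A) :
    ∑ z ∈ shifts b T, (if near b (vec z) i (2 * b ^ (i - w)) a then
      Real.log (Ml b T A z (k + 1) a) - Real.log (Ml b T A z k a) else 0) ≤
      (shifts b T).card * ∑ v ∈ range (k + 1), gg b A v a * mu b w (k - v) := by
  have hb0 : (0:ℝ) < b := by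
    have : 0 < b := by omega
    exact_mod_cast this
  have hb2 : (2:ℝ) ≤ b := by exact_mod_cast hb
  have hZ := shifts_card_pos (T := T) hb
  have h1 : ∀ z ∈ shifts b T, (if near b (vec z) i (2 * b ^ (i - w)) a then
      Real.log (Ml b T A z (k + 1) a) - Real.log (Ml b T A z k a) else 0) ≤
      ∑ v ∈ range (k + 1), (if near b (vec z) i (2 * b ^ (i - w)) a ∧
        (v = k ∨ near b (vec z) k (b ^ (v + 1)) a) then gg b A v a else 0) := by
    intro z _
    by_cases hn : near b (vec z) i (2 * b ^ (i - w)) a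
    · rw [if_pos hn]
      refine (step_le hb hT z hk ha).trans (le_of_eq ?_)
      refine sum_congr rfl fun v _ => ?_
      simp only [hn, true_and]
    · rw [if_neg hn]
      refine sum_nonneg fun v _ => ?_
      split_ifs
      · exact gg_nonneg hb v ha
      · exact le_rfl
  refine (sum_le_sum h1).trans ?_
  rw [sum_comm, mul_sum]
  refine sum_le_sum fun v hv => ?_
  have hvk : v ≤ k := Nat.lt_succ_iff.1 (mem_range.1 hv)
  rw [← sum_filter, sum_const, nsmul_eq_mul]
  have h2 : (((shifts b T).filter (fun z => near b (vec z) i (2 * b ^ (i - w)) a ∧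
        (v = k ∨ near b (vec z) k (b ^ (v + 1)) a))).card : ℝ) ≤
      (shifts b T).card * mu b w (k - v) := by
    unfold mu
    rw [mul_min_of_nonneg _ _ hZ.le]
    refine le_min ?_ ?_
    · calc (((shifts b T).filter (fun z => near b (vec z) i (2 * b ^ (i - w)) a ∧
            (v = k ∨ near b (vec z) k (b ^ (v + 1)) a))).card : ℝ)
          ≤ (((shifts b T).filter (fun z => near b (vec z) i (2 * b ^ (i - w)) a)).card : ℝ) := by
            have : ((shifts b T).filter (fun z => near b (vec z) i (2 * b ^ (i - w)) a ∧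
              (v = k ∨ near b (vec z) k (b ^ (v + 1)) a))).card ≤
              ((shifts b T).filter (fun z => near b (vec z) i (2 * b ^ (i - w)) a)).card := by
              refine card_le_card fun z hz => ?_
              rw [mem_filter] at hz ⊢
              exact ⟨hz.1, hz.2.1⟩
            exact_mod_cast this
        _ ≤ _ := near_prob hb hi _ a
        _ = _ := by
            have h3 : (b : ℝ) ^ i = (b : ℝ) ^ (i - w) * (b : ℝ) ^ w := by
              rw [← pow_add]
              congr 1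
              omega
            rw [h3]
            push_cast
            field_simp
            ring
    · rcases Nat.eq_or_lt_of_le hvk with h | h
      · have h4 : k - v = 0 := by omega
        rw [h4, pow_zero, div_one]
        have h5 : (((shifts b T).filter (fun z => near b (vec z) i (2 * b ^ (i - w)) a ∧
            (v = k ∨ near b (vec z) k (b ^ (v + 1)) a))).card : ℝ) ≤ (shifts b T).card := by
          exact_mod_cast card_le_card (filter_subset _ _)
        calc _ ≤ ((shifts b T).card : ℝ) := h5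
          _ = (shifts b T).card * 1 := by ring
          _ ≤ _ := mul_le_mul_of_nonneg_left (by linarith) hZ.le
      · calc (((shifts b T).filter (fun z => near b (vec z) i (2 * b ^ (i - w)) a ∧
                (v = k ∨ near b (vec z) k (b ^ (v + 1)) a))).card : ℝ)
              ≤ (((shifts b T).filter (fun z => near b (vec z) k (b ^ (v + 1)) a)).card : ℝ) := by
                have : ((shifts b T).filter (fun z => near b (vec z) i (2 * b ^ (i - w)) a ∧
                  (v = k ∨ near b (vec z) k (b ^ (v + 1)) a))).card ≤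
                  ((shifts b T).filter (fun z => near b (vec z) k (b ^ (v + 1)) a)).card := by
                  refine card_le_card fun z hz => ?_
                  rw [mem_filter] at hz ⊢
                  refine ⟨hz.1, ?_⟩
                  rcases hz.2.2 with h' | h'
                  · omega
                  · exact h'
                exact_mod_cast this
            _ ≤ _ := near_prob hb hk _ a
            _ = _ := by
                have h3 : (b : ℝ) ^ k = (b : ℝ) ^ (k - v) * (b : ℝ) ^ v := by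
                  rw [← pow_add]
                  congr 1
                  omega
                rw [h3, pow_succ]
                push_cast
                field_simp
  calc _ ≤ (shifts b T).card * mu b w (k - v) * gg b A v a :=
        mul_le_mul_of_nonneg_right h2 (gg_nonneg hb v ha)
    _ = _ := by ring

lemma mu_sum (hb : 2 ≤ b) {w : ℕ} (hw : 1 ≤ w) (U : ℕ) :
    ∑ u ∈ range U, mu b w u ≤ 56 * w / (b : ℝ) ^ w := by
  have hb0 : (0:ℝ) < b := by
    have : 0 < b := by omega
    exact_mod_cast this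
  have hb2 : (2:ℝ) ≤ b := by exact_mod_cast hb
  have hw1 : (1:ℝ) ≤ w := by exact_mod_cast hw
  have h1 : ∀ u ∈ range U, mu b w u ≤ (if u < w + 2 then 8 / (b : ℝ) ^ w else 0) +
      (if w + 2 ≤ u then 4 / (b : ℝ) ^ w * (1 / 2) ^ (u - (w + 1)) else 0) := by
    intro u _
    by_cases hu : u < w + 2
    · rw [if_pos hu, if_neg (by omega), add_zero]
      exact min_le_left _ _
    · rw [if_neg hu, if_pos (by omega), zero_add]
      refine (min_le_right _ _).trans ?_
      have h2 : (b : ℝ) ^ u = (b : ℝ) ^ w * b * (b : ℝ) ^ (u - (w + 1)) := by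
        rw [← pow_succ, ← pow_add]
        congr 1
        omega
      rw [h2]
      have h3 : 4 * (b : ℝ) / ((b : ℝ) ^ w * b * (b : ℝ) ^ (u - (w + 1))) =
          4 / (b : ℝ) ^ w * (1 / (b : ℝ) ^ (u - (w + 1))) := by
        field_simp
      rw [h3]
      refine mul_le_mul_of_nonneg_left ?_ (by positivity)
      rw [one_div_pow]
      exact one_div_le_one_div_of_le (by positivity) (pow_le_pow_left₀ (by norm_num) hb2 _)
  refine (sum_le_sum h1).trans ?_
  rw [sum_add_distrib, ← sum_filter, ← sum_filter, sum_const, nsmul_eq_mul, ← mul_sum]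
  have h4 : ((((range U).filter (fun u => u < w + 2)).card : ℕ) : ℝ) ≤ w + 2 := by
    have : ((range U).filter (fun u => u < w + 2)).card ≤ w + 2 := by
      calc ((range U).filter (fun u => u < w + 2)).card ≤ (range (w + 2)).card := by
            refine card_le_card fun u hu => ?_
            exact mem_range.2 (mem_filter.1 hu).2
        _ = w + 2 := card_range _
    exact_mod_cast this
  have h5 : ∑ u ∈ (range U).filter (fun u => w + 2 ≤ u), ((1:ℝ) / 2) ^ (u - (w + 1)) ≤ 2 := by
    calc ∑ u ∈ (range U).filter (fun u => w + 2 ≤ u), ((1:ℝ) / 2) ^ (u - (w + 1))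
        = ∑ t ∈ ((range U).filter (fun u => w + 2 ≤ u)).image (fun u => u - (w + 1)),
            ((1:ℝ) / 2) ^ t := by
          rw [sum_image]
          intro u hu u' hu' h
          have e1 := (mem_filter.1 hu).2
          have e2 := (mem_filter.1 hu').2
          simp only at h
          omega
      _ ≤ ∑ t ∈ range U, ((1:ℝ) / 2) ^ t := by
          refine sum_le_sum_of_subset_of_nonneg ?_ fun t _ _ => by positivity
          intro t ht
          obtain ⟨u, hu, rfl⟩ := mem_image.1 ht
          have := mem_range.1 (mem_filter.1 hu).1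
          exact mem_range.2 (by omega)
      _ ≤ 2 := sum_geometric_two_le U
  have h6 : (((range U).filter (fun u => u < w + 2)).card : ℝ) * (8 / (b : ℝ) ^ w) ≤
      (w + 2) * (8 / (b : ℝ) ^ w) := mul_le_mul_of_nonneg_right h4 (by positivity)
  have h7 : 4 / (b : ℝ) ^ w * ∑ u ∈ (range U).filter (fun u => w + 2 ≤ u),
      ((1:ℝ) / 2) ^ (u - (w + 1)) ≤ 4 / (b : ℝ) ^ w * 2 :=
    mul_le_mul_of_nonneg_left h5 (by positivity)
  have h8 : ((w : ℝ) + 2) * (8 / (b : ℝ) ^ w) + 4 / (b : ℝ) ^ w * 2 ≤ 56 * w / (b : ℝ) ^ w := by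
    have : ((w : ℝ) + 2) * (8 / (b : ℝ) ^ w) + 4 / (b : ℝ) ^ w * 2 =
        (8 * w + 24) / (b : ℝ) ^ w := by
      field_simp
      ring
    rw [this]
    refine div_le_div_of_nonneg_right ?_ (by positivity)
    linarith
  linarith

lemma G_sum (hb : 2 ≤ b) (hT : ∀ a ∈ A, ∀ u ∈ A, Clo ((b : ℤ) ^ (T + 1)) a u) {w : ℕ}
    (hw : 1 ≤ w) {a : ℤ × ℤ} (ha : a ∈ A) :
    ∑ k ∈ range (T + 1), ∑ v ∈ range (k + 1), gg b A v a * mu b w (k - v) ≤
      Real.log A.card * (56 * w / (b : ℝ) ^ w) := by
  have h1 : ∀ k ∈ range (T + 1), ∑ v ∈ range (k + 1), gg b A v a * mu b w (k - v) =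
      ∑ v ∈ range (T + 1), if v ≤ k then gg b A v a * mu b w (k - v) else 0 := by
    intro k hk
    rw [← sum_filter]
    refine sum_congr ?_ fun _ _ => rfl
    ext v
    have := mem_range.1 hk
    rw [mem_filter, mem_range, mem_range]
    omega
  rw [sum_congr rfl h1, sum_comm]
  have h2 : ∀ v ∈ range (T + 1), ∑ k ∈ range (T + 1),
      (if v ≤ k then gg b A v a * mu b w (k - v) else 0) ≤
      gg b A v a * (56 * w / (b : ℝ) ^ w) := by
    intro v hv
    calc ∑ k ∈ range (T + 1), (if v ≤ k then gg b A v a * mu b w (k - v) else 0)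
        = ∑ k ∈ Ico v (T + 1), gg b A v a * mu b w (k - v) := by
          rw [← sum_filter]
          refine sum_congr ?_ fun _ _ => rfl
          ext k
          rw [mem_filter, mem_range, mem_Ico]
          tauto
      _ = gg b A v a * ∑ u ∈ range (T + 1 - v), mu b w u := by
          rw [← mul_sum, sum_Ico_eq_sum_range]
          congr 1
          refine sum_congr rfl fun u _ => ?_
          congr 1
          omega
      _ ≤ _ := mul_le_mul_of_nonneg_left (mu_sum hb hw _) (gg_nonneg hb v ha)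
  refine (sum_le_sum h2).trans ?_
  rw [← sum_mul, sum_gg hb _ ha, Bv_top hT ha]

end Pool.Agent.V7H66.AK
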