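import Pool.Agent.V7H66.AK.Arch3

/-!
# Sets of local dimension at most `1 + η`
-/

set_option autoImplicit false

open Finset
open scoped Classical

noncomputable section

namespace Pool.Agent.V7H66.AK

/-- the point is near the boundary of one of the cells of the window -/
def bad (b T s m w : ℕ) (z : ℕ × ℕ) (n : ℕ) (a : ℤ × ℤ) : Prop :=
  n ≤ T + 1 ∧ ∃ i, i ≤ T ∧ T + 1 - n + m ≤ i ∧ i < T + 1 - n + s ∧
    near b (vec z) i (2 * b ^ (i - w)) a

variable {b T : ℕ} {A : Finset (ℤ × ℤ)}

lemma window_sum (z : ℕ × ℕ) (s j : ℕ) (a : ℤ × ℤ) :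
    Real.log (Ml b T A z (j + s) a) - Real.log (Ml b T A z j a) =
      ∑ k ∈ (range (T + 1)).filter (fun k => j ≤ k ∧ k < j + s),
        (Real.log (Ml b T A z (k + 1) a) - Real.log (Ml b T A z k a)) := by
  have h1 : Real.log (Ml b T A z (j + s) a) - Real.log (Ml b T A z j a) =
      ∑ k ∈ Ico j (j + s), (Real.log (Ml b T A z (k + 1) a) - Real.log (Ml b T A z k a)) := by
    rw [sum_Ico_eq_sum_range]
    have h2 := sum_range_sub (fun t => Real.log (Ml b T A z (j + t) a)) s
    rw [add_zero] at h2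
    rw [← h2]
    have h3 : j + s - j = s := by omega
    rw [h3]
    refine sum_congr rfl fun t _ => ?_
    rw [add_assoc]
  rw [h1]
  symm
  refine sum_subset ?_ ?_
  · intro k hk
    rw [mem_filter] at hk
    rw [mem_Ico]
    exact hk.2
  · intro k hk hk'
    rw [mem_Ico] at hk
    have hkT : T + 1 ≤ k := by
      by_contra hcon
      exact hk' (mem_filter.2 ⟨mem_range.2 (by omega), hk⟩)
    have e1 : T + 1 - k = 0 := by omega
    have e2 : T + 1 - (k + 1) = 0 := by omega
    unfold Ml
    rw [e1, e2, sub_self]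

lemma window_bad (z : ℕ × ℕ) (s m w j : ℕ) (hj : j ≤ T) {a : ℤ × ℤ} (ha : a ∈ A) :
    (if bad b T s m w z (T + 1 - j) a then
      Real.log (cn (sh b T (vec z)) A (T + 1 - j - s) a / cn (sh b T (vec z)) A (T + 1 - j) a)
      else 0) ≤
      ∑ i ∈ (range (T + 1)).filter (fun i => j + m ≤ i ∧ i < j + s),
        ∑ k ∈ (range (T + 1)).filter (fun k => j ≤ k ∧ k < j + s),
          (if near b (vec z) i (2 * b ^ (i - w)) a then
            Real.log (Ml b T A z (k + 1) a) - Real.log (Ml b T A z k a) else 0) := by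
  have hstep : ∀ k, 0 ≤ Real.log (Ml b T A z (k + 1) a) - Real.log (Ml b T A z k a) := by
    intro k
    rw [sub_nonneg]
    refine Real.log_le_log ?_ (Ml_mono z (Nat.le_succ k) ha)
    have := one_le_Ml (b := b) (T := T) z k ha
    linarith
  have hnn : ∀ i ∈ (range (T + 1)).filter (fun i => j + m ≤ i ∧ i < j + s),
      0 ≤ ∑ k ∈ (range (T + 1)).filter (fun k => j ≤ k ∧ k < j + s),
          (if near b (vec z) i (2 * b ^ (i - w)) a then
            Real.log (Ml b T A z (k + 1) a) - Real.log (Ml b T A z k a) else 0) := by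
    intro i _
    refine sum_nonneg fun k _ => ?_
    split_ifs
    · exact hstep k
    · exact le_rfl
  split_ifs with hbad
  · obtain ⟨_, i, hi1, hi2, hi3, hi4⟩ := hbad
    have hj' : T + 1 - (T + 1 - j) = j := by omega
    rw [hj'] at hi2 hi3
    have h1 : Real.log (cn (sh b T (vec z)) A (T + 1 - j - s) a /
        cn (sh b T (vec z)) A (T + 1 - j) a) =
        Real.log (Ml b T A z (j + s) a) - Real.log (Ml b T A z j a) := by
      rw [Real.log_div (cn_pos ha).ne' (cn_pos ha).ne']
      unfold Ml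
      have e1 : T + 1 - (j + s) = T + 1 - j - s := by omega
      rw [e1]
    rw [h1, window_sum]
    refine le_trans (le_of_eq ?_) (single_le_sum hnn
      (mem_filter.2 ⟨mem_range.2 (by omega), hi2, hi3⟩))
    refine sum_congr rfl fun k _ => ?_
    rw [if_pos hi4]
  · exact sum_nonneg hnn

lemma card_window (s m j : ℕ) :
    (((range (T + 1)).filter (fun i => j + m ≤ i ∧ i < j + s)).card : ℝ) ≤ s := by
  have : ((range (T + 1)).filter (fun i => j + m ≤ i ∧ i < j + s)).card ≤ s := by
    calc ((range (T + 1)).filter (fun i => j + m ≤ i ∧ i < j + s)).card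
        ≤ (Ico j (j + s)).card := by
          refine card_le_card fun i hi => ?_
          rw [mem_filter] at hi
          rw [mem_Ico]
          omega
      _ = s := by rw [Nat.card_Ico]; omega
  exact_mod_cast this

lemma card_window' (s k : ℕ) :
    (((range (T + 1)).filter (fun j => j ≤ k ∧ k < j + s)).card : ℝ) ≤ s := by
  have : ((range (T + 1)).filter (fun j => j ≤ k ∧ k < j + s)).card ≤ s := by
    calc ((range (T + 1)).filter (fun j => j ≤ k ∧ k < j + s)).card
        ≤ (Ico (k + 1 - s) (k + 1)).card := by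
          refine card_le_card fun i hi => ?_
          rw [mem_filter] at hi
          rw [mem_Ico]
          omega
      _ ≤ s := by rw [Nat.card_Ico]; omega
  exact_mod_cast this

lemma bad_point (hb : 2 ≤ b) (hT : ∀ a ∈ A, ∀ u ∈ A, Clo ((b : ℤ) ^ (T + 1)) a u) {s m w : ℕ}
    (hw : 1 ≤ w) (hwm : w ≤ m) {a : ℤ × ℤ} (ha : a ∈ A) :
    ∑ z ∈ shifts b T, ∑ n ∈ range (T + 1 + s), (if bad b T s m w z (n + 1) a then
      Real.log (cn (sh b T (vec z)) A (n + 1 - s) a / cn (sh b T (vec z)) A (n + 1) a) else 0) ≤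
      (shifts b T).card * (s * (s * (Real.log A.card * (56 * w / (b : ℝ) ^ w)))) := by
  have hZ := shifts_card_pos (T := T) hb
  have h1 : ∀ z ∈ shifts b T, ∑ n ∈ range (T + 1 + s), (if bad b T s m w z (n + 1) a then
      Real.log (cn (sh b T (vec z)) A (n + 1 - s) a / cn (sh b T (vec z)) A (n + 1) a) else 0) ≤
      ∑ j ∈ range (T + 1), ∑ i ∈ (range (T + 1)).filter (fun i => j + m ≤ i ∧ i < j + s),
        ∑ k ∈ (range (T + 1)).filter (fun k => j ≤ k ∧ k < j + s),
          (if near b (vec z) i (2 * b ^ (i - w)) a then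
            Real.log (Ml b T A z (k + 1) a) - Real.log (Ml b T A z k a) else 0) := by
    intro z _
    have h2 : ∑ n ∈ range (T + 1 + s), (if bad b T s m w z (n + 1) a then
        Real.log (cn (sh b T (vec z)) A (n + 1 - s) a / cn (sh b T (vec z)) A (n + 1) a) else 0) =
        ∑ n ∈ range (T + 1), (if bad b T s m w z (n + 1) a then
        Real.log (cn (sh b T (vec z)) A (n + 1 - s) a / cn (sh b T (vec z)) A (n + 1) a) else 0) := by
      symm
      refine sum_subset ?_ ?_
      · intro n hn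
        rw [mem_range] at hn ⊢
        omega
      · intro n _ hn
        rw [mem_range] at hn
        rw [if_neg]
        intro hbad
        have := hbad.1
        omega
    rw [h2, ← sum_range_reflect]
    refine sum_le_sum fun j hj => ?_
    have hjT : j ≤ T := Nat.lt_succ_iff.1 (mem_range.1 hj)
    have e1 : T + 1 - 1 - j + 1 = T + 1 - j := by omega
    rw [e1]
    exact window_bad z s m w j hjT ha
  refine (sum_le_sum h1).trans ?_
  rw [sum_comm]
  set G : ℕ → ℝ := fun k => ∑ v ∈ range (k + 1), gg b A v a * mu b w (k - v) with hG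
  have hG0 : ∀ k, 0 ≤ G k := fun k => sum_nonneg fun v _ =>
    mul_nonneg (gg_nonneg hb v ha) (mu_nonneg _ _ _)
  have h3 : ∀ j ∈ range (T + 1), ∑ z ∈ shifts b T,
      ∑ i ∈ (range (T + 1)).filter (fun i => j + m ≤ i ∧ i < j + s),
        ∑ k ∈ (range (T + 1)).filter (fun k => j ≤ k ∧ k < j + s),
          (if near b (vec z) i (2 * b ^ (i - w)) a then
            Real.log (Ml b T A z (k + 1) a) - Real.log (Ml b T A z k a) else 0) ≤
      s * ((shifts b T).card * ∑ k ∈ (range (T + 1)).filter (fun k => j ≤ k ∧ k < j + s), G k) := by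
    intro j _
    rw [sum_comm]
    have h4 : ∀ i ∈ (range (T + 1)).filter (fun i => j + m ≤ i ∧ i < j + s),
        ∑ z ∈ shifts b T, ∑ k ∈ (range (T + 1)).filter (fun k => j ≤ k ∧ k < j + s),
          (if near b (vec z) i (2 * b ^ (i - w)) a then
            Real.log (Ml b T A z (k + 1) a) - Real.log (Ml b T A z k a) else 0) ≤
        (shifts b T).card * ∑ k ∈ (range (T + 1)).filter (fun k => j ≤ k ∧ k < j + s), G k := by
      intro i hi
      rw [mem_filter, mem_range] at hi
      rw [sum_comm, mul_sum]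
      refine sum_le_sum fun k hk => ?_
      rw [mem_filter, mem_range] at hk
      exact pair_sum hb hT (by omega) (by omega) (by omega) ha
    refine (sum_le_sum h4).trans ?_
    rw [sum_const, nsmul_eq_mul]
    refine mul_le_mul_of_nonneg_right (card_window s m j) ?_
    exact mul_nonneg hZ.le (sum_nonneg fun k _ => hG0 k)
  refine (sum_le_sum h3).trans ?_
  rw [← mul_sum, ← mul_sum]
  have h5 : ∑ j ∈ range (T + 1), ∑ k ∈ (range (T + 1)).filter (fun k => j ≤ k ∧ k < j + s), G k ≤
      s * (Real.log A.card * (56 * w / (b : ℝ) ^ w)) := by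
    have h6 : ∑ j ∈ range (T + 1), ∑ k ∈ (range (T + 1)).filter (fun k => j ≤ k ∧ k < j + s), G k =
        ∑ k ∈ range (T + 1), (((range (T + 1)).filter (fun j => j ≤ k ∧ k < j + s)).card : ℝ) *
          G k := by
      simp only [sum_filter]
      rw [sum_comm]
      refine sum_congr rfl fun k _ => ?_
      rw [← sum_filter, sum_const, nsmul_eq_mul]
    rw [h6]
    calc ∑ k ∈ range (T + 1), (((range (T + 1)).filter (fun j => j ≤ k ∧ k < j + s)).card : ℝ) *
          G k ≤ ∑ k ∈ range (T + 1), (s : ℝ) * G k :=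
          sum_le_sum fun k _ => mul_le_mul_of_nonneg_right (card_window' s k) (hG0 k)
      _ = s * ∑ k ∈ range (T + 1), G k := by rw [mul_sum]
      _ ≤ _ := mul_le_mul_of_nonneg_left (G_sum hb hT hw ha) (Nat.cast_nonneg _)
  calc (s : ℝ) * ((shifts b T).card *
        ∑ j ∈ range (T + 1), ∑ k ∈ (range (T + 1)).filter (fun k => j ≤ k ∧ k < j + s), G k)
      ≤ (s : ℝ) * ((shifts b T).card * (s * (Real.log A.card * (56 * w / (b : ℝ) ^ w)))) := by
        refine mul_le_mul_of_nonneg_left ?_ (Nat.cast_nonneg _)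
        exact mul_le_mul_of_nonneg_left h5 hZ.le
    _ = _ := by ring

theorem arch (ε : ℝ) (hε : 0 < ε) : ∃ c : ℝ, 0 < c ∧ ∃ s₀ : ℕ, ∀ s : ℕ, s₀ ≤ s →
    ∀ b : ℕ, 2 ≤ b → ∀ (d : ℝ) (A : Finset (ℤ × ℤ)), 1 ≤ d → A.Nonempty →
      CellDimLE b s (((b : ℝ) ^ s) ^ c) d A →
      (1 / d - ε) * Real.log A.card ≤
        (∑ r ∈ range (b ^ s), Real.log ((A.image (prR (b ^ s) r)).card : ℝ)) /
          ((b ^ s : ℕ) : ℝ) := by
  obtain ⟨c, hc, k, s₀, hk, hpar⟩ := params ε hε
  refine ⟨c, hc, s₀, fun s hss b hb d A hd hA hdim => ?_⟩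
  obtain ⟨w, hw, hms, hpar⟩ := hpar s hss b hb
  have hb0 : 0 < b := by omega
  have hbr : (1:ℝ) ≤ b := by exact_mod_cast hb0
  have hC1 : (1:ℝ) ≤ ((b : ℝ) ^ s) ^ c := Real.one_le_rpow (one_le_pow₀ hbr) hc.le
  set m := 2 * k * w with hm
  have hkw : w ≤ k * w := Nat.le_mul_of_pos_left w (by omega)
  have hwm : w ≤ m := by
    rw [hm, mul_assoc]
    omega
  have hs1 : 1 ≤ s := by omega
  have hs0 : (0:ℝ) < s := by exact_mod_cast hs1
  have hAc : (0:ℝ) < A.card := by exact_mod_cast card_pos.2 hA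
  obtain ⟨M, hM⟩ := exists_size' A
  set T := 2 * M + 1 with hTdef
  have hT : ∀ a ∈ A, ∀ u ∈ A, Clo ((b : ℤ) ^ (T + 1)) a u := by
    intro a ha u hu
    have h1 := hM a ha
    have h2 := hM u hu
    have h3 : T + 1 < b ^ (T + 1) := Nat.lt_pow_self (by omega)
    have h4 : ((T + 1 : ℕ) : ℤ) < (b : ℤ) ^ (T + 1) := by exact_mod_cast h3
    push_cast at h4
    have h5 : (T : ℤ) = 2 * M + 1 := by rw [hTdef]; push_cast; ring
    rw [h5] at h4
    set X : ℤ := (b : ℤ) ^ (T + 1) with hX
    clear_value X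
    unfold Clo
    rw [abs_lt, abs_lt]
    refine ⟨⟨?_, ?_⟩, ⟨?_, ?_⟩⟩ <;> omega
  have hS : (range (b ^ s)).Nonempty := nonempty_range_iff.2 (by positivity)
  set Z : ℝ := 56 * (s : ℝ) * w / (b : ℝ) ^ w with hZdef
  set mean : ℝ := (∑ r ∈ range (b ^ s), Real.log ((A.image (prR (b ^ s) r)).card : ℝ)) /
    (range (b ^ s)).card with hmean
  have hZc := shifts_card_pos (T := T) hb
  -- one shift
  have one : ∀ z ∈ shifts b T, (A.card : ℝ) * ((1 / d - ε + Z) * Real.log A.card) ≤
      A.card * mean +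
      (∑ n ∈ range (T + 1 + s), ∑ a ∈ A, (if bad b T s m w z (n + 1) a then
        Real.log (cn (sh b T (vec z)) A (n + 1 - s) a / cn (sh b T (vec z)) A (n + 1) a)
          else 0)) / s := by
    intro z _
    have key := fin_ineq (sh_nested (b := b) (T := T) (vec z) A) hA (range (b ^ s)) hS (prR (b ^ s))
      k w b s hk hw hb hms (36 * ((b : ℝ) ^ s) ^ c) d (by linarith) hd (bad b T s m w z) ε
      hpar ?_ ?_
    · refine key.trans (le_of_eq ?_)
      congr 1
      · congr 1
        rw [hmean]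
        refine congrArg (· / ((range (b ^ s)).card : ℝ)) (sum_congr rfl fun r _ => ?_)
        rw [card_image_irrel _ Int.instDecidableEq]
      · congr 1
        refine sum_congr rfl fun n _ => ?_
        rw [sum_filter]
    · intro n a ha x hx hg l hl1 hl2 hl3 _ hc'
      refine sh_wt hb T (vec z) A s m w n l hwm hl1 hl2 hl3 a x ?_ hc'
      intro hn hnear
      refine hg ⟨hn, T + 1 - n + l - 1, ?_, ?_, ?_, hnear⟩
      · omega
      · omega
      · have : l ≤ s := hl2
        omega
    · intro n l hl hln x hx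
      have h1 := sh_K hb T (vec z) A (((b : ℝ) ^ s) ^ c) d (by linarith) hT hC1 hdim n l hl hln
        x hx
      refine le_trans (le_of_eq ?_) h1
      rw [card_image_irrel _ instDecidableEqProd]
  have hsum := sum_le_sum one
  rw [sum_const, nsmul_eq_mul, sum_add_distrib, sum_const, nsmul_eq_mul, ← sum_div] at hsum
  have hbad : ∑ z ∈ shifts b T, ∑ n ∈ range (T + 1 + s), ∑ a ∈ A,
      (if bad b T s m w z (n + 1) a then
        Real.log (cn (sh b T (vec z)) A (n + 1 - s) a / cn (sh b T (vec z)) A (n + 1) a)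
          else 0) ≤
      (shifts b T).card * (A.card * (s * (s * (Real.log A.card * (56 * w / (b : ℝ) ^ w))))) := by
    have e1 : ∑ z ∈ shifts b T, ∑ n ∈ range (T + 1 + s), ∑ a ∈ A,
      (if bad b T s m w z (n + 1) a then
        Real.log (cn (sh b T (vec z)) A (n + 1 - s) a / cn (sh b T (vec z)) A (n + 1) a)
          else 0) = ∑ a ∈ A, ∑ z ∈ shifts b T, ∑ n ∈ range (T + 1 + s),
      (if bad b T s m w z (n + 1) a then
        Real.log (cn (sh b T (vec z)) A (n + 1 - s) a / cn (sh b T (vec z)) A (n + 1) a)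
          else 0) := by
      rw [sum_comm (s := A)]
      refine sum_congr rfl fun z _ => ?_
      rw [sum_comm]
    rw [e1]
    refine (sum_le_sum fun a ha => bad_point hb hT hw hwm ha).trans (le_of_eq ?_)
    rw [sum_const, nsmul_eq_mul]
    ring
  have h7 : (A.card : ℝ) * ((1 / d - ε + Z) * Real.log A.card) ≤ A.card * mean +
      A.card * (s * (Real.log A.card * (56 * w / (b : ℝ) ^ w))) := by
    have h8 := div_le_div_of_nonneg_right hbad hs0.le
    have h9 : ((shifts b T).card : ℝ) * (A.card * (s * (s * (Real.log A.card *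
        (56 * w / (b : ℝ) ^ w))))) / s = (shifts b T).card * (A.card * (s * (Real.log A.card *
        (56 * w / (b : ℝ) ^ w)))) := by
      field_simp
    rw [h9] at h8
    refine le_of_mul_le_mul_left ?_ hZc
    rw [mul_add]
    linarith
  have h10 : (s : ℝ) * (Real.log A.card * (56 * w / (b : ℝ) ^ w)) = Z * Real.log A.card := by
    rw [hZdef]
    ring
  rw [h10, ← mul_add] at h7
  have h11 := le_of_mul_le_mul_left h7 hAc
  have h12 : (1 / d - ε) * Real.log A.card ≤ mean := by
    have : (1 / d - ε + Z) * Real.log A.card = (1 / d - ε) * Real.log A.card +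
        Z * Real.log A.card := by
      ring
    linarith
  rw [hmean, card_range] at h12
  exact h12

end Pool.Agent.V7H66.AK
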