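import Pool.Agent.V7H66.AK.Num

/-!
# The choice of the parameters, quantitative
-/

set_option autoImplicit false

open Finset Filter Topology

noncomputable section

namespace Pool.Agent.V7H66.AK

lemma E_bound2 : ∃ W : ℕ, 1 ≤ W ∧ ∀ w : ℕ, W ≤ w → ∀ ε : ℝ, 0 < ε → ε ≤ 1 →
    9 * Real.log (1 / ε) ≤ w → ∀ k : ℕ, 64 / ε ≤ k → (k : ℝ) ≤ 65 / ε →
    5 * (1 / (2:ℝ) ^ w) + (5 * (1 / (2:ℝ) ^ w) + Real.log (720 * k * k) + Real.log w) /
      (k * w * Real.log 2) + 112 * (k * k) * ((w : ℝ) ^ 2 / 2 ^ w) ≤ ε / 2 := by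
  have hlog2 : 0 < Real.log 2 := Real.log_pos one_lt_two
  have hl2 : (0.6931471803:ℝ) < Real.log 2 := Real.log_two_gt_d9
  have hsq2 : 1 < Real.sqrt 2 := by
    rw [Real.lt_sqrt (by norm_num)]
    norm_num
  have hlimA : Tendsto (fun w : ℕ => (w : ℝ) ^ 2 / Real.sqrt 2 ^ w) atTop (𝓝 0) :=
    tendsto_pow_const_div_const_pow_of_one_lt 2 hsq2
  have hlimB := lim1 0 0 1 0
  have hev := ((hlimA.eventually (gt_mem_nhds (show (0:ℝ) < 1 / 100000000 by norm_num))).and
    (hlimB.eventually (gt_mem_nhds (show (0:ℝ) < 1 / 9 by norm_num)))).and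
    (eventually_ge_atTop 135)
  obtain ⟨W, hW⟩ := eventually_atTop.1 hev
  refine ⟨max W 1, le_max_right _ _, fun w hw ε hε hε1 hwε k hk1 hk2 => ?_⟩
  obtain ⟨⟨hA, hB⟩, h135⟩ := hW w ((le_max_left _ _).trans hw)
  have hw135 : (135:ℝ) ≤ w := by exact_mod_cast h135
  have hw0 : (0:ℝ) < w := by linarith
  set r : ℝ := Real.sqrt 2 ^ w with hr
  have hr0 : 0 < r := by positivity
  have hrr : r * r = 2 ^ w := by
    rw [hr, ← mul_pow, Real.mul_self_sqrt (by norm_num)]
  have hrA : 100000000 * (w : ℝ) ^ 2 ≤ r := by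
    have h1 := hA
    rw [div_lt_div_iff₀ hr0 (by norm_num)] at h1
    linarith
  have hlogw : Real.log w ≤ w / 9 := by
    have h1 : Real.log w / w < 1 / 9 := by
      have h2 := hB
      simp only [zero_mul, zero_add, add_zero, one_mul] at h2
      exact h2
    rw [div_lt_div_iff₀ hw0 (by norm_num)] at h1
    linarith
  have hx0 : 0 < 1 / ε := by positivity
  have hx1 : 1 ≤ 1 / ε := by
    rw [le_div_iff₀ hε]
    linarith
  have hrx : (1 / ε) ^ 3 ≤ r := by
    rw [← Real.log_le_log_iff (by positivity) hr0, Real.log_pow, hr, Real.log_pow,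
      Real.log_sqrt (by norm_num)]
    push_cast
    have h1 : 3 * Real.log (1 / ε) ≤ w / 3 := by linarith
    have h2 : (w : ℝ) / 3 ≤ w * (Real.log 2 / 2) := by
      have : (w : ℝ) * (1 / 3) ≤ w * (Real.log 2 / 2) :=
        mul_le_mul_of_nonneg_left (by linarith) hw0.le
      linarith
    linarith
  have hprod : (1 / ε) ^ 3 * (100000000 * (w : ℝ) ^ 2) ≤ 2 ^ w := by
    rw [← hrr]
    exact mul_le_mul hrx hrA (by positivity) hr0.le
  have h2w : (0:ℝ) < 2 ^ w := by positivity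
  have hw2 : (1:ℝ) ≤ (w : ℝ) ^ 2 := one_le_pow₀ (by linarith)
  -- (a)
  have ha : 5 * (1 / (2:ℝ) ^ w) ≤ ε / 16 := by
    rw [mul_one_div, div_le_div_iff₀ h2w (by norm_num)]
    have h1 : 1 / ε ≤ (1 / ε) ^ 3 := by
      calc 1 / ε = (1 / ε) ^ 1 := (pow_one _).symm
        _ ≤ _ := pow_le_pow_right₀ hx1 (by norm_num)
    have h2 : (1 / ε) * (100000000 * 1) ≤ (1 / ε) ^ 3 * (100000000 * (w : ℝ) ^ 2) := by
      gcongr
    have h3 : ε * ((1 / ε) * (100000000 * 1)) ≤ ε * 2 ^ w :=
      mul_le_mul_of_nonneg_left (h2.trans hprod) hε.le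
    have h4 : ε * ((1 / ε) * (100000000 * 1)) = 100000000 := by field_simp
    rw [h4] at h3
    linarith
  have hk0 : (0:ℝ) < k := lt_of_lt_of_le (by positivity) hk1
  -- (c)
  have hc : 112 * (k * k) * ((w : ℝ) ^ 2 / 2 ^ w) ≤ ε / 16 := by
    have hkk : (k : ℝ) * k ≤ 4225 * (1 / ε) ^ 2 := by
      calc (k : ℝ) * k ≤ (65 / ε) * (65 / ε) := mul_le_mul hk2 hk2 hk0.le (by positivity)
        _ = _ := by ring
    calc 112 * ((k : ℝ) * k) * ((w : ℝ) ^ 2 / 2 ^ w)
        ≤ 112 * (4225 * (1 / ε) ^ 2) * ((w : ℝ) ^ 2 / 2 ^ w) := by gcongr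
      _ ≤ 112 * (4225 * (1 / ε) ^ 2) * ((w : ℝ) ^ 2 / ((1 / ε) ^ 3 * (100000000 * (w : ℝ) ^ 2))) := by
          gcongr
      _ = 473200 / 100000000 * ε := by
          field_simp
          norm_num
      _ ≤ ε / 16 := by
          have : (473200:ℝ) / 100000000 ≤ 1 / 16 := by norm_num
          calc (473200:ℝ) / 100000000 * ε ≤ 1 / 16 * ε := mul_le_mul_of_nonneg_right this hε.le
            _ = ε / 16 := by ring
  -- (b)
  have hb : (5 * (1 / (2:ℝ) ^ w) + Real.log (720 * k * k) + Real.log w) /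
      (k * w * Real.log 2) ≤ ε / 16 := by
    have h1 : 5 * (1 / (2:ℝ) ^ w) ≤ w / 9 := by linarith
    have h2 : Real.log (720 * k * k) ≤ 15 + 2 * Real.log (1 / ε) := by
      have h20 : (720:ℝ) * k * k ≤ 3042000 * (1 / ε) ^ 2 := by
        have hkk : (k : ℝ) * k ≤ (65 / ε) * (65 / ε) := mul_le_mul hk2 hk2 hk0.le (by positivity)
        calc (720:ℝ) * k * k = 720 * (k * k) := by ring
          _ ≤ 720 * ((65 / ε) * (65 / ε)) := mul_le_mul_of_nonneg_left hkk (by norm_num)
          _ = _ := by ring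
      have h21 : Real.log 3042000 ≤ 15 := by
        rw [Real.log_le_iff_le_exp (by norm_num)]
        have h22 : (2.7182818283:ℝ) < Real.exp 1 := Real.exp_one_gt_d9
        have h23 : Real.exp 15 = Real.exp 1 ^ 15 := by
          rw [← Real.exp_nat_mul]
          norm_num
        rw [h23]
        calc (3042000:ℝ) ≤ 2.7182818283 ^ 15 := by norm_num
          _ ≤ Real.exp 1 ^ 15 := pow_le_pow_left₀ (by norm_num) h22.le _
      calc Real.log (720 * k * k) ≤ Real.log (3042000 * (1 / ε) ^ 2) :=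
            Real.log_le_log (by positivity) h20
        _ = Real.log 3042000 + 2 * Real.log (1 / ε) := by
            rw [Real.log_mul (by norm_num) (by positivity), Real.log_pow]
            push_cast
            ring
        _ ≤ _ := by linarith
    have h3 : 5 * (1 / (2:ℝ) ^ w) + Real.log (720 * k * k) + Real.log w ≤ w := by linarith
    have hden : 0 < (k : ℝ) * w * Real.log 2 := by positivity
    rw [div_le_iff₀ hden]
    refine h3.trans ?_
    have h4 : 64 ≤ k * ε := by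
      rw [div_le_iff₀ hε] at hk1
      exact hk1
    calc (w : ℝ) = 16 / 16 * w := by ring
      _ ≤ (64 * Real.log 2) / 16 * w := by
          refine mul_le_mul_of_nonneg_right ?_ hw0.le
          refine div_le_div_of_nonneg_right ?_ (by norm_num)
          linarith
      _ ≤ ((k * ε) * Real.log 2) / 16 * w := by
          refine mul_le_mul_of_nonneg_right ?_ hw0.le
          refine div_le_div_of_nonneg_right ?_ (by norm_num)
          exact mul_le_mul_of_nonneg_right h4 hlog2.le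
      _ = _ := by ring
  linarith

lemma par_mono {b s w k : ℕ} {C C' : ℝ} (hb : 2 ≤ b) (hk : 1 ≤ k) (hw : 1 ≤ w) (hC : 0 ≤ C)
    (hCC : C ≤ C') : par b s w k C ≤ par b s w k C' := by
  have hb2 : (2:ℝ) ≤ b := by exact_mod_cast hb
  have hb0 : (0:ℝ) < b := by linarith
  unfold par
  have h0 : 0 < Real.log (1 / (1 / (b : ℝ) ^ (k * w))) := by
    rw [one_div_one_div]
    have : 0 < k * w := Nat.mul_pos hk hw
    exact Real.log_pos (one_lt_pow₀ (by linarith) (by omega))
  refine add_le_add (add_le_add le_rfl (add_le_add le_rfl ?_)) le_rfl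
  refine div_le_div_of_nonneg_right (add_le_add le_rfl ?_) h0.le
  refine Real.log_le_log (by positivity) (add_le_add le_rfl ?_)
  refine mul_le_mul_of_nonneg_left ?_ (Nat.cast_nonneg _)
  exact mul_le_mul_of_nonneg_left hCC (by positivity)

/-- the parameters -/
lemma paramsR : ∃ K : ℝ, 1 ≤ K ∧ ∀ ε : ℝ, 0 < ε → ε ≤ 1 → ∀ s : ℕ,
    K * (1 + Real.log (1 / ε)) / ε ^ 2 ≤ s →
    ∀ b : ℕ, 2 ≤ b → ∃ k w : ℕ, 2 ≤ k ∧ 1 ≤ w ∧ 2 * k * w + w ≤ s ∧
      (w : ℝ) ≤ ε ^ 2 / 4096 * s ∧
      par b s w k (36 * ((b : ℝ) ^ s) ^ (ε ^ 2 / 1040)) ≤ ε := by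
  obtain ⟨W, hW1, hW⟩ := E_bound2
  refine ⟨4225 * (W + 11), by
    have : (0:ℝ) ≤ W := Nat.cast_nonneg _
    linarith, fun ε hε hε1 s hs b hb => ?_⟩
  have hLnn : 0 ≤ Real.log (1 / ε) := Real.log_nonneg (by
    rw [le_div_iff₀ hε]
    linarith)
  set L := Real.log (1 / ε) with hL
  set k : ℕ := ⌈64 / ε⌉₊ with hk
  have hkl : 64 / ε ≤ k := Nat.le_ceil _
  have hku : (k : ℝ) ≤ 65 / ε := by
    have h1 : (k : ℝ) < 64 / ε + 1 := Nat.ceil_lt_add_one (by positivity)
    have h2 : (1:ℝ) ≤ 1 / ε := by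
      rw [le_div_iff₀ hε]
      linarith
    have h3 : (65:ℝ) / ε = 64 / ε + 1 / ε := by ring
    linarith
  have hkl' : 64 ≤ k * ε := by
    rw [div_le_iff₀ hε] at hkl
    exact hkl
  have hk64 : (64:ℝ) ≤ k := by
    refine le_trans ?_ hkl
    rw [le_div_iff₀ hε]
    nlinarith
  have hk64' : 64 ≤ k := by exact_mod_cast hk64
  have hk2 : 2 ≤ k := by omega
  have hk0 : (0:ℝ) < k := by linarith
  have hkε : 2 / (k : ℝ) ≤ ε / 8 := by
    rw [div_le_div_iff₀ hk0 (by norm_num)]
    linarith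
  have hlog2 : 0 < Real.log 2 := Real.log_pos one_lt_two
  set w₁ : ℕ := W + ⌈9 * L⌉₊ with hw₁
  have hw₁u : (w₁ : ℝ) ≤ (W + 11) * (1 + L) := by
    have h1 : ((⌈9 * L⌉₊ : ℕ) : ℝ) < 9 * L + 1 := Nat.ceil_lt_add_one (by positivity)
    have h4 : 0 ≤ (W : ℝ) * L := mul_nonneg (Nat.cast_nonneg _) hLnn
    rw [hw₁]
    push_cast
    nlinarith
  set w : ℕ := s / (k * k) with hwdef
  have hkk : 0 < k * k := by positivity
  have hww : w₁ ≤ w := by
    rw [hwdef, Nat.le_div_iff_mul_le hkk]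
    have h1 : (w₁ : ℝ) * (k * k) ≤ s := by
      calc (w₁ : ℝ) * (k * k) ≤ ((W + 11) * (1 + L)) * ((65 / ε) * (65 / ε)) := by
            refine mul_le_mul hw₁u ?_ (by positivity) (by positivity)
            exact mul_le_mul hku hku hk0.le (by positivity)
        _ = 4225 * (W + 11) * (1 + L) / ε ^ 2 := by
            field_simp
            ring
        _ ≤ s := hs
    exact_mod_cast h1
  have hw1 : 1 ≤ w := by omega
  have hwL : 9 * L ≤ w := by
    have h1 : 9 * L ≤ ((⌈9 * L⌉₊ : ℕ) : ℝ) := Nat.le_ceil _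
    have h2 : ⌈9 * L⌉₊ ≤ w := by omega
    have h3 : ((⌈9 * L⌉₊ : ℕ) : ℝ) ≤ w := by exact_mod_cast h2
    linarith
  have hw := hW w (by omega) ε hε hε1 hwL k hkl hku
  have hs1 : k * k * w ≤ s := by
    rw [hwdef]
    exact Nat.mul_div_le s (k * k)
  have hs2 : s ≤ 2 * (k * k * w) := by
    have h1 : s < k * k * (w + 1) := by
      rw [hwdef]
      exact Nat.lt_mul_div_succ s hkk
    have h2 : k * k * (w + 1) ≤ 2 * (k * k * w) := by
      have : w + 1 ≤ 2 * w := by omega
      calc k * k * (w + 1) ≤ k * k * (2 * w) := Nat.mul_le_mul_left _ this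
        _ = _ := by ring
    omega
  have hcc : ε ^ 2 / 1040 ≤ ε / (16 * k) := by
    rw [div_le_div_iff₀ (by norm_num) (by positivity)]
    rw [le_div_iff₀ hε] at hku
    calc ε ^ 2 * (16 * k) = 16 * ε * (k * ε) := by ring
      _ ≤ 16 * ε * 65 := mul_le_mul_of_nonneg_left hku (by positivity)
      _ = ε * 1040 := by ring
  refine ⟨k, w, hk2, hw1, ?_, ?_, ?_⟩
  · have h1 : 2 * k + 1 ≤ k * k := by nlinarith
    calc 2 * k * w + w = (2 * k + 1) * w := by ring
      _ ≤ k * k * w := Nat.mul_le_mul_right _ h1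
      _ ≤ s := hs1
  · have h2 : (k : ℝ) * k * w ≤ s := by exact_mod_cast hs1
    have h3 : (0:ℝ) ≤ w := Nat.cast_nonneg _
    have h5 : (4096:ℝ) ≤ (k * ε) * (k * ε) := by nlinarith
    calc (w : ℝ) = 4096 / 4096 * w := by ring
      _ ≤ ((k * ε) * (k * ε)) / 4096 * w := by
          refine mul_le_mul_of_nonneg_right ?_ h3
          exact div_le_div_of_nonneg_right h5 (by norm_num)
      _ = ε ^ 2 / 4096 * (k * k * w) := by ring
      _ ≤ ε ^ 2 / 4096 * s := mul_le_mul_of_nonneg_left h2 (by positivity)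
  have hbr1 : (1:ℝ) ≤ b := by
    have : 1 ≤ b := by omega
    exact_mod_cast this
  refine (par_mono (C' := 36 * ((b : ℝ) ^ s) ^ (ε / (16 * k))) hb (by omega) hw1 (by positivity)
    ?_).trans ?_
  · refine mul_le_mul_of_nonneg_left ?_ (by norm_num)
    exact Real.rpow_le_rpow_of_exponent_le (one_le_pow₀ hbr1) hcc
  have hw0 : (0:ℝ) < w := by exact_mod_cast hw1
  have hb2 : (2:ℝ) ≤ b := by exact_mod_cast hb
  have hb0 : (0:ℝ) < b := by linarith
  have hb1 : (1:ℝ) ≤ b := by linarith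
  have hlogb : Real.log 2 ≤ Real.log b := Real.log_le_log (by norm_num) hb2
  have hlogb0 : 0 < Real.log b := lt_of_lt_of_le hlog2 hlogb
  have hs1' : (k : ℝ) * k * w ≤ s := by exact_mod_cast hs1
  have hs2' : (s : ℝ) ≤ 2 * (k * k * w) := by exact_mod_cast hs2
  have hs0 : (0:ℝ) < s := lt_of_lt_of_le (by positivity) hs1'
  have hs1'' : (1:ℝ) ≤ s := by
    have : 1 ≤ s := by
      have : 0 < k * k * w := by positivity
      omega
    exact_mod_cast this
  unfold par
  -- first term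
  have e1 : ((2 * k * w : ℕ) : ℝ) / (s : ℝ) ≤ 2 / k := by
    rw [div_le_div_iff₀ hs0 hk0]
    push_cast
    calc 2 * (k : ℝ) * w * k = 2 * (k * k * w) := by ring
      _ ≤ 2 * s := by linarith
  -- kappa / lambda
  have e2 : 5 * (b : ℝ) ^ (w + 1) / b ^ (2 * k * w + 1) / (1 / (b : ℝ) ^ (k * w)) ≤ 5 * (1 / 2 ^ w) := by
    have h1 : 5 * (b : ℝ) ^ (w + 1) / b ^ (2 * k * w + 1) / (1 / (b : ℝ) ^ (k * w)) =
        5 * ((b : ℝ) ^ w / b ^ (k * w)) := by
      have h2 : (b : ℝ) ^ (2 * k * w + 1) = b ^ (k * w) * b ^ (k * w) * b := by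
        rw [← pow_add, pow_succ]
        congr 2
        ring
      rw [h2, pow_succ]
      field_simp
    rw [h1]
    refine mul_le_mul_of_nonneg_left ?_ (by norm_num)
    rw [div_le_div_iff₀ (by positivity) (by positivity), one_mul]
    calc (b : ℝ) ^ w * 2 ^ w ≤ b ^ w * b ^ w :=
          mul_le_mul_of_nonneg_left (pow_le_pow_left₀ (by norm_num) hb2 _) (by positivity)
      _ = (b : ℝ) ^ (2 * w) := by rw [← pow_add]; congr 1; ring
      _ ≤ b ^ (k * w) := pow_le_pow_right₀ hb1 (Nat.mul_le_mul_right _ hk2)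
  -- log (1 / lambda)
  have e3 : Real.log (1 / (1 / (b : ℝ) ^ (k * w))) = k * w * Real.log b := by
    rw [one_div_one_div, Real.log_pow]
    push_cast
    ring
  have e3' : 0 < k * w * Real.log b := by positivity
  -- log (1 + B)
  have hc0 : 0 < ε / (16 * k) := by positivity
  have e4 : Real.log (1 + s * (5 * (b : ℝ) ^ (w + 1) * (36 * ((b : ℝ) ^ s) ^ (ε / (16 * k))))) ≤
      Real.log (720 * k * k) + Real.log w + (w + 1) * Real.log b +
        ε / (16 * k) * (2 * (k * k * w)) * Real.log b := by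
    have h1 : (1:ℝ) ≤ ((b : ℝ) ^ s) ^ (ε / (16 * k)) :=
      Real.one_le_rpow (one_le_pow₀ hb1) hc0.le
    have h2 : (1:ℝ) ≤ (b:ℝ) ^ (w + 1) := one_le_pow₀ hb1
    set X : ℝ := ((b : ℝ) ^ s) ^ (ε / (16 * k)) with hX
    have h3 : (1:ℝ) ≤ s * (5 * (b : ℝ) ^ (w + 1) * (36 * X)) := by
      have h5 : (1:ℝ) ≤ 5 * (b : ℝ) ^ (w + 1) := by linarith
      have h6 : (1:ℝ) ≤ 5 * (b : ℝ) ^ (w + 1) * (36 * X) := by
        calc (1:ℝ) = 1 * 1 := by ring
          _ ≤ _ := mul_le_mul h5 (by linarith) (by norm_num) (by linarith)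
      calc (1:ℝ) = 1 * 1 := by ring
        _ ≤ _ := mul_le_mul hs1'' h6 (by norm_num) (by linarith)
    have hX0 : 0 < X := by linarith
    calc Real.log (1 + s * (5 * (b : ℝ) ^ (w + 1) * (36 * X)))
        ≤ Real.log ((720 * k * k) * w * b ^ (w + 1) * X) := by
          refine Real.log_le_log (by linarith) ?_
          have h7 : (s : ℝ) * (5 * (b : ℝ) ^ (w + 1) * (36 * X)) ≤
              (2 * (k * k * w)) * (5 * (b : ℝ) ^ (w + 1) * (36 * X)) :=
            mul_le_mul_of_nonneg_right hs2' (by positivity)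
          have h8 : (720 * (k:ℝ) * k) * w * b ^ (w + 1) * X =
              2 * ((2 * (k * k * w)) * (5 * (b : ℝ) ^ (w + 1) * (36 * X))) := by
            ring
          rw [h8]
          linarith
      _ = Real.log (720 * k * k) + Real.log w + (w + 1) * Real.log b +
            ε / (16 * k) * s * Real.log b := by
          rw [Real.log_mul (by positivity) hX0.ne', Real.log_mul (by positivity) (by positivity),
            Real.log_mul (by positivity) hw0.ne', Real.log_pow, hX, Real.log_rpow (by positivity),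
            Real.log_pow]
          push_cast
          ring
      _ ≤ _ := by
          refine add_le_add le_rfl ?_
          refine mul_le_mul_of_nonneg_right ?_ hlogb0.le
          exact mul_le_mul_of_nonneg_left hs2' hc0.le
  -- last term
  have e5 : 56 * (s : ℝ) * w / (b : ℝ) ^ w ≤ 112 * (k * k) * (w ^ 2 / 2 ^ w) := by
    calc 56 * (s : ℝ) * w / (b : ℝ) ^ w ≤ 56 * (2 * (k * k * w)) * w / (b : ℝ) ^ w := by
          refine div_le_div_of_nonneg_right ?_ (by positivity)
          refine mul_le_mul_of_nonneg_right ?_ hw0.le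
          linarith
      _ ≤ 56 * (2 * (k * k * w)) * w / 2 ^ w :=
          div_le_div_of_nonneg_left (by positivity) (by positivity)
            (pow_le_pow_left₀ (by norm_num) hb2 _)
      _ = _ := by ring
  rw [e3]
  set P : ℝ := 5 * (b : ℝ) ^ (w + 1) / b ^ (2 * k * w + 1) / (1 / (b : ℝ) ^ (k * w)) with hP
  set Q : ℝ := Real.log (1 + s * (5 * (b : ℝ) ^ (w + 1) *
    (36 * ((b : ℝ) ^ s) ^ (ε / (16 * k))))) with hQ
  have hP0 : 0 ≤ P := by positivity
  have e6 : (P + Q) / (k * w * Real.log b) ≤ (5 * (1 / 2 ^ w) + Real.log (720 * k * k) +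
      Real.log w) / (k * w * Real.log 2) + 2 / k + ε / 8 := by
    have hk1 : (1:ℝ) ≤ k := by
      have : 1 ≤ k := by omega
      exact_mod_cast this
    have hw1' : (1:ℝ) ≤ w := by exact_mod_cast hw1
    have h1 : (P + Q) / (k * w * Real.log b) ≤ (5 * (1 / 2 ^ w) + (Real.log (720 * k * k) +
        Real.log w + (w + 1) * Real.log b + ε / (16 * k) * (2 * (k * k * w)) * Real.log b)) /
          (k * w * Real.log b) :=
      div_le_div_of_nonneg_right (add_le_add e2 e4) e3'.le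
    refine h1.trans ?_
    have h2 : (5 * (1 / 2 ^ w) + (Real.log (720 * k * k) +
        Real.log w + (w + 1) * Real.log b + ε / (16 * k) * (2 * (k * k * w)) * Real.log b)) /
          (k * w * Real.log b) =
        (5 * (1 / 2 ^ w) + Real.log (720 * k * k) + Real.log w) / (k * w * Real.log b) +
        (w + 1) / (k * w) + ε / 8 := by
      field_simp
      ring
    rw [h2]
    have hlogC : 0 ≤ Real.log (720 * k * k) := Real.log_nonneg (by
      have h11 : (1:ℝ) ≤ 720 * k := by linarith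
      calc (1:ℝ) = 1 * 1 := by ring
          _ ≤ _ := mul_le_mul h11 hk1 (by norm_num) (by linarith))
    have hlogw : 0 ≤ Real.log w := Real.log_nonneg hw1'
    have hden2 : k * w * Real.log 2 ≤ k * w * Real.log b :=
      mul_le_mul_of_nonneg_left hlogb (by positivity)
    have h4 : (5 * (1 / 2 ^ w) + Real.log (720 * k * k) + Real.log w) / (k * w * Real.log b) ≤
        (5 * (1 / 2 ^ w) + Real.log (720 * k * k) + Real.log w) / (k * w * Real.log 2) :=
      div_le_div_of_nonneg_left (by positivity) (by positivity) hden2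
    have h6 : ((w : ℝ) + 1) / (k * w) ≤ 2 / k := by
      rw [div_le_div_iff₀ (by positivity) hk0]
      have : (w : ℝ) + 1 ≤ 2 * w := by linarith
      calc ((w : ℝ) + 1) * k ≤ (2 * w) * k := mul_le_mul_of_nonneg_right this hk0.le
        _ = _ := by ring
    linarith
  linarith

end Pool.Agent.V7H66.AK
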