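import Pool.Agent.V7H66.AK.Fin

/-!
# Residue classes
-/

set_option autoImplicit false

open Finset
open scoped Classical

noncomputable section

namespace Pool.Agent.V7H66.AK

/-- the residues of the coordinates modulo `q` -/
def res (q : ℤ) (a : ℤ × ℤ) : ℤ × ℤ := (a.1 % q, a.2 % q)

lemma res_eq {q : ℤ} {a b : ℤ × ℤ} : res q a = res q b ↔ q ∣ a.1 - b.1 ∧ q ∣ a.2 - b.2 := by
  unfold res
  rw [Prod.mk.injEq]
  constructor
  · rintro ⟨h1, h2⟩
    exact ⟨Int.ModEq.dvd (show b.1 ≡ a.1 [ZMOD q] from h1.symm),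
      Int.ModEq.dvd (show b.2 ≡ a.2 [ZMOD q] from h2.symm)⟩
  · rintro ⟨h1, h2⟩
    exact ⟨((Int.modEq_iff_dvd.2 h1 : b.1 ≡ a.1 [ZMOD q])).symm,
      ((Int.modEq_iff_dvd.2 h2 : b.2 ≡ a.2 [ZMOD q])).symm⟩

/-- for `t ≤ s` every residue class modulo `p ^ j` contains at most `C (p ^ t) ^ d` residue classes
modulo `p ^ (j + t)` which meet `A` -/
def ResDimLE (p s : ℕ) (C d : ℝ) (A : Finset (ℤ × ℤ)) : Prop :=
  ∀ (j t : ℕ) (z : ℤ × ℤ), t ≤ s → (((A.filter fun a => res ((p : ℤ) ^ j) a = z).image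
    (res ((p : ℤ) ^ (j + t)))).card : ℝ) ≤ C * ((p : ℝ) ^ t) ^ d

lemma exists_size (A : Finset (ℤ × ℤ)) : ∃ M : ℕ, ∀ a ∈ A, a.1.natAbs ≤ M ∧ a.2.natAbs ≤ M := by
  refine ⟨∑ a ∈ A, (a.1.natAbs + a.2.natAbs), fun a ha => ?_⟩
  have h1 : a.1.natAbs + a.2.natAbs ≤ ∑ a ∈ A, (a.1.natAbs + a.2.natAbs) :=
    single_le_sum (f := fun a : ℤ × ℤ => a.1.natAbs + a.2.natAbs) (fun _ _ => Nat.zero_le _) ha
  omega

lemma res_nested (p : ℕ) (hp : 2 ≤ p) (A : Finset (ℤ × ℤ)) :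
    ∃ T, Nested (fun n => res ((p : ℤ) ^ n)) A T := by
  obtain ⟨M, hM⟩ := exists_size A
  refine ⟨2 * M + 1, ?_, ?_, ?_⟩
  · intro n a _ b _ hab
    rw [res_eq] at hab ⊢
    have h1 : (p : ℤ) ^ n ∣ (p : ℤ) ^ (n + 1) := pow_dvd_pow _ (Nat.le_succ n)
    exact ⟨h1.trans hab.1, h1.trans hab.2⟩
  · intro a _ b _
    rw [res_eq]
    simp
  · intro a ha b hb hab
    rw [res_eq] at hab
    have h1 := hM a ha
    have h2 := hM b hb
    have h3 : 2 * M + 1 < p ^ (2 * M + 1) := Nat.lt_pow_self (by omega)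
    have h4 : ((2 * M + 1 : ℕ) : ℤ) < (p : ℤ) ^ (2 * M + 1) := by exact_mod_cast h3
    have h5 : a.1 - b.1 = 0 := Int.eq_zero_of_abs_lt_dvd hab.1 (by
      rw [abs_lt]
      push_cast at h4
      constructor <;> omega)
    have h6 : a.2 - b.2 = 0 := Int.eq_zero_of_abs_lt_dvd hab.2 (by
      rw [abs_lt]
      push_cast at h4
      constructor <;> omega)
    exact Prod.ext (by omega) (by omega)

/-- the projection with slope `r` -/
def prN (r : ℕ) (a : ℤ × ℤ) : ℤ := a.1 + r * a.2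

lemma res_wt (p : ℕ) (hp : p.Prime) (A : Finset (ℤ × ℤ)) (s n l : ℕ) (hl1 : 1 ≤ l) (hls : l ≤ s)
    (hln : l ≤ n) (a b : ℤ × ℤ) (hc : res ((p : ℤ) ^ (n - l)) a = res ((p : ℤ) ^ (n - l)) b)
    (hc' : res ((p : ℤ) ^ (n - l + 1)) a ≠ res ((p : ℤ) ^ (n - l + 1)) b) :
    wt (fun n => res ((p : ℤ) ^ n)) A prN (range (p ^ s)) n a b ≤ 1 / (p : ℝ) ^ l := by
  have hp0 : 0 < p := hp.pos
  have hpz : (p : ℤ) ≠ 0 := by exact_mod_cast hp0.ne'
  rw [res_eq] at hc
  obtain ⟨⟨g1, hg1⟩, ⟨g2, hg2⟩⟩ := hc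
  have hg : ¬ ((p : ℤ) ∣ g1 ∧ (p : ℤ) ∣ g2) := by
    rintro ⟨⟨x, hx⟩, ⟨y, hy⟩⟩
    apply hc'
    rw [res_eq]
    refine ⟨⟨x, ?_⟩, ⟨y, ?_⟩⟩
    · rw [hg1, hx, pow_succ]; ring
    · rw [hg2, hy, pow_succ]; ring
  -- the condition for the slopes
  have hcond : ∀ r : ℕ, Rel (fun n => res ((p : ℤ) ^ n)) A prN n r a b →
      (p : ℤ) ^ l ∣ g1 + r * g2 := by
    rintro r ⟨x, hx, y, hy, hxy⟩
    have hx1 := res_eq.1 (mem_cls.1 hx).2
    have hy1 := res_eq.1 (mem_cls.1 hy).2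
    have h1 : (p : ℤ) ^ n ∣ (a.1 - b.1) + r * (a.2 - b.2) := by
      have e : (a.1 - b.1) + r * (a.2 - b.2) =
          ((y.1 - b.1) + r * (y.2 - b.2)) - ((x.1 - a.1) + r * (x.2 - a.2)) := by
        unfold prN at hxy
        linear_combination hxy
      rw [e]
      exact dvd_sub (dvd_add hy1.1 (Dvd.dvd.mul_left hy1.2 _))
        (dvd_add hx1.1 (Dvd.dvd.mul_left hx1.2 _))
    rw [hg1, hg2] at h1
    have e2 : (p : ℤ) ^ (n - l) * g1 + r * ((p : ℤ) ^ (n - l) * g2) =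
        (p : ℤ) ^ (n - l) * (g1 + r * g2) := by ring
    have e3 : (p : ℤ) ^ n = (p : ℤ) ^ (n - l) * (p : ℤ) ^ l := by
      rw [← pow_add]
      congr 1
      omega
    rw [e2, e3] at h1
    exact (mul_dvd_mul_iff_left (pow_ne_zero _ hpz)).1 h1
  have hpl : (p : ℤ) ∣ (p : ℤ) ^ l := dvd_pow_self _ (by omega)
  have hcard : ((range (p ^ s)).filter fun r => Rel (fun n => res ((p : ℤ) ^ n)) A prN n r a b).card ≤
      p ^ (s - l) := by
    rcases Finset.eq_empty_or_nonempty ((range (p ^ s)).filter fun r =>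
      Rel (fun n => res ((p : ℤ) ^ n)) A prN n r a b) with he | ⟨r₀, hr₀⟩
    · rw [he]; simp
    · have hr₀' := hcond r₀ (mem_filter.1 hr₀).2
      have hg2' : ¬ (p : ℤ) ∣ g2 := by
        intro h
        refine hg ⟨?_, h⟩
        have h1 := hpl.trans hr₀'
        have h2 : (p : ℤ) ∣ r₀ * g2 := Dvd.dvd.mul_left h _
        exact (dvd_add_left h2).1 h1
      have hcop : IsCoprime ((p : ℤ) ^ l) g2 := by
        refine IsCoprime.pow_left ?_
        exact (Nat.prime_iff_prime_int.1 hp).coprime_iff_not_dvd.2 hg2'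
      have hmod : ∀ r ∈ (range (p ^ s)).filter (fun r =>
          Rel (fun n => res ((p : ℤ) ^ n)) A prN n r a b), r % p ^ l = r₀ % p ^ l := by
        intro r hr
        have h1 := hcond r (mem_filter.1 hr).2
        have h2 : (p : ℤ) ^ l ∣ ((r₀ : ℤ) - r) * g2 := by
          have := dvd_sub hr₀' h1
          have e : g1 + (r₀ : ℤ) * g2 - (g1 + r * g2) = ((r₀ : ℤ) - r) * g2 := by ring
          rwa [e] at this
        have h3 : (p : ℤ) ^ l ∣ ((r₀ : ℤ) - r) := hcop.dvd_of_dvd_mul_right h2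
        have h4 : (r : ℤ) ≡ r₀ [ZMOD ((p ^ l : ℕ) : ℤ)] := by
          rw [Int.modEq_iff_dvd]
          push_cast
          exact h3
        exact (Int.natCast_modEq_iff.1 h4)
      calc ((range (p ^ s)).filter fun r => Rel (fun n => res ((p : ℤ) ^ n)) A prN n r a b).card
          ≤ (range (p ^ (s - l))).card := by
            refine card_le_card_of_injOn (fun r => r / p ^ l) ?_ ?_
            · intro r hr
              have h1 := mem_range.1 (mem_filter.1 hr).1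
              rw [mem_coe, mem_range]
              rw [Nat.div_lt_iff_lt_mul (by positivity), ← pow_add]
              have : s - l + l = s := by omega
              rw [this]
              exact h1
            · intro r hr r' hr' hrr
              simp only at hrr
              have h1 := hmod r hr
              have h2 := hmod r' hr'
              rw [← Nat.div_add_mod r (p ^ l), ← Nat.div_add_mod r' (p ^ l), hrr, h1, h2]
        _ = p ^ (s - l) := card_range _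
  unfold wt
  rw [card_range]
  have hR : (0:ℝ) < ((p ^ s : ℕ) : ℝ) := by
    have : 0 < p ^ s := by positivity
    exact_mod_cast this
  rw [div_le_div_iff₀ hR (by
    have : (0:ℝ) < p := by exact_mod_cast hp0
    positivity), one_mul]
  have h1 : (((range (p ^ s)).filter fun r => Rel (fun n => res ((p : ℤ) ^ n)) A prN n r a b).card : ℝ) ≤
      ((p ^ (s - l) : ℕ) : ℝ) := by exact_mod_cast hcard
  calc _ ≤ ((p ^ (s - l) : ℕ) : ℝ) * (p : ℝ) ^ l := mul_le_mul_of_nonneg_right h1 (by positivity)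
    _ = ((p ^ s : ℕ) : ℝ) := by
      push_cast
      rw [← pow_add]
      congr 1
      omega

theorem padic (ε : ℝ) (hε : 0 < ε) : ∃ c : ℝ, 0 < c ∧ ∃ s₀ : ℕ, ∀ s : ℕ, s₀ ≤ s →
    ∀ p : ℕ, p.Prime → ∀ (d : ℝ) (A : Finset (ℤ × ℤ)), 1 ≤ d → A.Nonempty →
      ResDimLE p s (((p : ℝ) ^ s) ^ c) d A →
      (1 / d - ε) * Real.log A.card ≤
        (∑ r ∈ range (p ^ s), Real.log ((A.image (prN r)).card : ℝ)) / ((p ^ s : ℕ) : ℝ) := by
  obtain ⟨c, hc, k, s₀, hk, hpar⟩ := params ε hε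
  refine ⟨c, hc, s₀, fun s hs p hp d A hd hA hdim => ?_⟩
  obtain ⟨w, hw, hws, hpar⟩ := hpar s hs p hp.two_le
  have hp0 : 0 < p := hp.pos
  have hp1 : (1:ℝ) ≤ p := by exact_mod_cast hp0
  obtain ⟨T, hT⟩ := res_nested p hp.two_le A
  have hS : (range (p ^ s)).Nonempty := nonempty_range_iff.2 (by positivity)
  have hC1 : (1:ℝ) ≤ ((p : ℝ) ^ s) ^ c := Real.one_le_rpow (one_le_pow₀ hp1) hc.le
  have key := fin_ineq' hT hA (range (p ^ s)) hS prN k w p s hk hw hp.two_le hws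
    (36 * ((p : ℝ) ^ s) ^ c) d (by linarith) hd ε hpar ?_ ?_
  · rw [card_range] at key
    refine key.trans (le_of_eq ?_)
    refine congrArg (· / ((p ^ s : ℕ) : ℝ)) (sum_congr rfl fun r _ => ?_)
    rw [card_image_irrel _ Int.instDecidableEq]
  · intro n a _ x _ l hl1 hl2 hl3 hc hc'
    refine (res_wt p hp A s n l (by omega) hl2 hl3 a x hc hc').trans ?_
    refine div_le_div_of_nonneg_right ?_ (by positivity)
    have : (1:ℝ) ≤ (p : ℝ) ^ (w + 1) := one_le_pow₀ hp1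
    linarith
  · intro n l hl hln x _
    have h1 := hdim (n - l) l (res ((p : ℤ) ^ (n - l)) x) hl
    have h2 : n - l + l = n := by omega
    rw [h2] at h1
    have h3 : (((cls (fun n => res ((p : ℤ) ^ n)) A (n - l) x).image
        (res ((p : ℤ) ^ n))).card : ℝ) ≤ ((p : ℝ) ^ s) ^ c * ((p : ℝ) ^ l) ^ d := by
      refine le_trans (le_of_eq ?_) h1
      rw [card_image_irrel _ instDecidableEqProd]
      refine congrArg (fun t : Finset (ℤ × ℤ) => ((t.image (res ((p : ℤ) ^ n))).card : ℝ)) ?_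
      ext y
      rw [mem_cls, mem_filter]
    refine le_trans ?_ (h3.trans ?_)
    · exact le_of_eq (by rw [card_image_irrel _ instDecidableEqProd])
    · refine mul_le_mul_of_nonneg_right (by linarith) (by positivity)

end Pool.Agent.V7H66.AK
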