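import Pool.Agent.V7H66.AK.FinY
import Pool.Agent.V7H66.AK.Padic

/-!
# Residue classes: all sets, with the excess
-/

set_option autoImplicit false

open Finset
open scoped Classical

noncomputable section

namespace Pool.Agent.V7H66.AK

/-- the number of the points of `A` which are congruent to `a` modulo `q` -/
def resNum (A : Finset (ℤ × ℤ)) (a : ℤ × ℤ) (q : ℤ) : ℝ :=
  ((A.filter fun x => res q x = res q a).card : ℝ)

/-- the excess -/
def resExcess (p s : ℕ) (M : ℝ) (A : Finset (ℤ × ℤ)) : ℝ :=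
  (∑' n : ℕ, ∑ a ∈ A, growth p M s fun l => resNum A a ((p : ℤ) ^ (n - l))) / (s * A.card)

lemma resNum_eq (p : ℕ) (A : Finset (ℤ × ℤ)) (a : ℤ × ℤ) (n : ℕ) :
    resNum A a ((p : ℤ) ^ n) = cn (fun n => res ((p : ℤ) ^ n)) A n a := by
  unfold resNum cn
  refine congrArg (fun t : Finset (ℤ × ℤ) => (t.card : ℝ)) ?_
  ext x
  rw [mem_filter, mem_cls]

theorem padicY (ε : ℝ) (hε : 0 < ε) : ∃ c : ℝ, 0 < c ∧ ∃ s₀ : ℕ, ∀ s : ℕ, s₀ ≤ s →
    ∀ p : ℕ, p.Prime → ∀ (M : ℝ), 1 ≤ M → M ≤ ((p : ℝ) ^ s) ^ c →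
      ∀ (A : Finset (ℤ × ℤ)), A.Nonempty →
      (1 - ε) * Real.log A.card ≤
        (∑ r ∈ range (p ^ s), Real.log ((A.image (prN r)).card : ℝ)) / ((p ^ s : ℕ) : ℝ) +
          resExcess p s M A := by
  obtain ⟨c, hc, hcε, k, s₀, hk, hpar⟩ := params2 (ε / 2) (by positivity)
  refine ⟨c, hc, s₀, fun s hs p hp M hM1 hMR A hA => ?_⟩
  obtain ⟨w, hw, hws, hwc, hpar⟩ := hpar s hs p hp.two_le
  have hp0 : 0 < p := hp.pos
  have hp1 : (1:ℝ) ≤ p := by exact_mod_cast hp0
  obtain ⟨T, hT⟩ := res_nested p hp.two_le A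
  have hS : (range (p ^ s)).Nonempty := nonempty_range_iff.2 (by positivity)
  have hM0 : 0 < M := by linarith
  have hs1 : 1 ≤ s := by omega
  have hs0 : (0:ℝ) < s := by exact_mod_cast hs1
  have hAc : (0:ℝ) < A.card := by exact_mod_cast card_pos.2 hA
  set g : ℕ → ℤ × ℤ → ℕ → ℝ := fun n a l => resNum A a ((p : ℤ) ^ (n - l)) with hg
  have hg0 : ∀ n, ∀ a ∈ A, 0 < g n a 0 := by
    intro n a ha
    simp only [hg]
    rw [resNum_eq]
    exact cn_pos ha
  obtain ⟨bad, hbad⟩ : ∃ bad : ℕ → ℤ × ℤ → Prop, ∀ n a, ¬ bad n a :=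
    ⟨fun _ _ => False, fun _ _ h => h⟩
  have key := finY_ineq hT hA (range (p ^ s)) hS prN k w p s s hk hw hp.two_le (by omega) le_rfl
    (by omega) (36 * ((p : ℝ) ^ s) ^ c) M hM0.le (by
      have : (0:ℝ) ≤ ((p : ℝ) ^ s) ^ c := by positivity
      linarith) bad
    (fun n a => growth p M s (g n a)) (fun n a _ => growth_nonneg _ _ _ _) (ε / 2) hpar ?_ ?_
  · have h0 : (∑ n ∈ range (T + s), ∑ a ∈ A.filter (bad (n + 1)),
        Real.log (cn (fun n => res ((p : ℤ) ^ n)) A (n + 1 - s) a /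
          cn (fun n => res ((p : ℤ) ^ n)) A (n + 1) a)) = 0 := by
      refine sum_eq_zero fun n _ => ?_
      rw [filter_false_of_mem (fun a _ => hbad (n + 1) a)]
      rfl
    rw [h0, zero_div, add_zero, card_range] at key
    -- the series
    have hz : ∀ n, T + s ≤ n → ∑ a ∈ A, growth p M s (g n a) = 0 := by
      intro n hn
      refine sum_eq_zero fun a ha => growth_zero hp1 hM1 (hg0 n a ha) (fun l => Nat.cast_nonneg _) ?_
      intro l hl
      simp only [hg]
      rw [resNum_eq, resNum_eq, cn_bot hT (by omega) ha, cn_bot hT (by omega) ha]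
    have h1 : ∑ n ∈ range (T + s), ∑ a ∈ A, growth p M s (g (n + 1) a) ≤
        ∑' n, ∑ a ∈ A, growth p M s (g n a) := by
      rw [← sum_eq_tsum (fun n => ∑ a ∈ A, growth p M s (g n a)) (T + s + 1)
        (fun n hn => hz n (by omega)), sum_range_succ']
      have : 0 ≤ ∑ a ∈ A, growth p M s (g 0 a) := sum_nonneg fun a _ => growth_nonneg _ _ _ _
      linarith
    have h2 : (A.card : ℝ) * ((1 - ε) * Real.log A.card) ≤
        A.card * ((1 - w / s - ε / 2 + 56 * s * w / (p : ℝ) ^ w) * Real.log A.card) := by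
      refine mul_le_mul_of_nonneg_left ?_ hAc.le
      refine mul_le_mul_of_nonneg_right ?_ (Real.log_natCast_nonneg _)
      have h3 : (w : ℝ) / s ≤ ε / 2 := by
        rw [div_le_iff₀ hs0]
        refine hwc.trans (mul_le_mul_of_nonneg_right ?_ hs0.le)
        linarith
      have h4 : (0:ℝ) ≤ 56 * s * w / (p : ℝ) ^ w := by positivity
      linarith
    have h5 : (∑ r ∈ range (p ^ s), Real.log ((A.image (prN r)).card : ℝ)) / ((p ^ s : ℕ) : ℝ) =
        (∑ r ∈ range (p ^ s), Real.log ((@image _ _ (fun a b => Classical.propDecidable (a = b))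
          (prN r) A).card : ℝ)) / ((p ^ s : ℕ) : ℝ) := by
      refine congrArg (· / ((p ^ s : ℕ) : ℝ)) (sum_congr rfl fun r _ => ?_)
      exact congrArg (fun k : ℕ => Real.log (k : ℝ)) (card_image_irrel _ _ _ _)
    rw [h5]
    have h6 := h2.trans key
    have h7 := div_le_div_of_nonneg_right h1 hs0.le
    refine le_of_mul_le_mul_left ?_ hAc
    refine h6.trans ?_
    rw [mul_add]
    refine add_le_add le_rfl (h7.trans (le_of_eq ?_))
    unfold resExcess
    field_simp
    rfl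
  · intro n a _ x _ _ l hl1 hl2 hl3 hc hc'
    refine (res_wt p hp A s n l (by omega) hl2 hl3 a x hc hc').trans ?_
    refine div_le_div_of_nonneg_right ?_ (by positivity)
    have : (1:ℝ) ≤ (p : ℝ) ^ (w + 1) := one_le_pow₀ hp1
    linarith
  · intro n a ha _ l _ hl hln
    have h1 := growth_spec (q := (p : ℝ)) (M := M) (s := s) (g := g n a) (by linarith) hM0
      (hg0 n a ha) hl
    simp only [hg] at h1 ⊢
    rw [resNum_eq, Nat.sub_zero, resNum_eq] at h1
    exact h1

end Pool.Agent.V7H66.AK
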