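import Pool.Agent.V7H66.AK.ArchY
import Pool.Agent.V7H66.AK.PadicY
import Pool.Agent.V7H66.AK.NumR

/-!
# The inequalities with given parameters
-/

set_option autoImplicit false

open Finset
open scoped Classical

noncomputable section

namespace Pool.Agent.V7H66.AK

theorem archQ (ε c : ℝ) (hc : 0 < c) (k w s b : ℕ) (hk : 2 ≤ k) (hw : 1 ≤ w)
    (hms : 2 * k * w ≤ s) (hb : 2 ≤ b) (hpar : par b s w k (36 * ((b : ℝ) ^ s) ^ c) ≤ ε)
    (d : ℝ) (A : Finset (ℤ × ℤ)) (hd : 1 ≤ d) (hA : A.Nonempty)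
    (hdim : CellDimLE b s (((b : ℝ) ^ s) ^ c) d A) :
      (1 / d - ε) * Real.log A.card ≤
        (∑ r ∈ range (b ^ s), Real.log ((A.image (prR (b ^ s) r)).card : ℝ)) /
          ((b ^ s : ℕ) : ℝ) := by
  have hb0 : 0 < b := by omega
  have hbr : (1:ℝ) ≤ b := by exact_mod_cast hb0
  have hC1 : (1:ℝ) ≤ ((b : ℝ) ^ s) ^ c := Real.one_le_rpow (one_le_pow₀ hbr) hc.le
  set m := 2 * k * w with hm
  have hkw : w ≤ k * w := Nat.le_mul_of_pos_left w (by omega)
  have hwm : w ≤ m := by
    rw [hm, mul_assoc]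
    omega
  have hs1 : 1 ≤ s := by omega
  have hs0 : (0:ℝ) < s := by exact_mod_cast hs1
  have hAc : (0:ℝ) < A.card := by exact_mod_cast card_pos.2 hA
  obtain ⟨M, hM⟩ := exists_size' A
  set T := 2 * M + 1 with hTdef
  have hT : ∀ a ∈ A, ∀ u ∈ A, Clo ((b : ℤ) ^ (T + 1)) a u := by
    intro a ha u hu
    have h1 := hM a ha
    have h2 := hM u hu
    have h3 : T + 1 < b ^ (T + 1) := Nat.lt_pow_self (by omega)
    have h4 : ((T + 1 : ℕ) : ℤ) < (b : ℤ) ^ (T + 1) := by exact_mod_cast h3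
    push_cast at h4
    have h5 : (T : ℤ) = 2 * M + 1 := by rw [hTdef]; push_cast; ring
    rw [h5] at h4
    set X : ℤ := (b : ℤ) ^ (T + 1) with hX
    clear_value X
    unfold Clo
    rw [abs_lt, abs_lt]
    refine ⟨⟨?_, ?_⟩, ⟨?_, ?_⟩⟩ <;> omega
  have hS : (range (b ^ s)).Nonempty := nonempty_range_iff.2 (by positivity)
  set Z : ℝ := 56 * (s : ℝ) * w / (b : ℝ) ^ w with hZdef
  set mean : ℝ := (∑ r ∈ range (b ^ s), Real.log ((A.image (prR (b ^ s) r)).card : ℝ)) /
    (range (b ^ s)).card with hmean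
  have hZc := shifts_card_pos (T := T) hb
  -- one shift
  have one : ∀ z ∈ shifts b T, (A.card : ℝ) * ((1 / d - ε + Z) * Real.log A.card) ≤
      A.card * mean +
      (∑ n ∈ range (T + 1 + s), ∑ a ∈ A, (if bad b T s m w z (n + 1) a then
        Real.log (cn (sh b T (vec z)) A (n + 1 - s) a / cn (sh b T (vec z)) A (n + 1) a)
          else 0)) / s := by
    intro z _
    have key := fin_ineq (sh_nested (b := b) (T := T) (vec z) A) hA (range (b ^ s)) hS (prR (b ^ s))
      k w b s hk hw hb hms (36 * ((b : ℝ) ^ s) ^ c) d (by linarith) hd (bad b T s m w z) ε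
      hpar ?_ ?_
    · refine key.trans (le_of_eq ?_)
      congr 1
      · congr 1
        rw [hmean]
        refine congrArg (· / ((range (b ^ s)).card : ℝ)) (sum_congr rfl fun r _ => ?_)
        rw [card_image_irrel _ Int.instDecidableEq]
      · congr 1
        refine sum_congr rfl fun n _ => ?_
        rw [sum_filter]
    · intro n a ha x hx hg l hl1 hl2 hl3 _ hc'
      refine sh_wt hb T (vec z) A s m w n l hwm hl1 hl2 hl3 a x ?_ hc'
      intro hn hnear
      refine hg ⟨hn, T + 1 - n + l - 1, ?_, ?_, ?_, hnear⟩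
      · omega
      · omega
      · have : l ≤ s := hl2
        omega
    · intro n l hl hln x hx
      have h1 := sh_K hb T (vec z) A (((b : ℝ) ^ s) ^ c) d (by linarith) hT hC1 hdim n l hl hln
        x hx
      refine le_trans (le_of_eq ?_) h1
      rw [card_image_irrel _ instDecidableEqProd]
  have hsum := sum_le_sum one
  rw [sum_const, nsmul_eq_mul, sum_add_distrib, sum_const, nsmul_eq_mul, ← sum_div] at hsum
  have hbad : ∑ z ∈ shifts b T, ∑ n ∈ range (T + 1 + s), ∑ a ∈ A,
      (if bad b T s m w z (n + 1) a then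
        Real.log (cn (sh b T (vec z)) A (n + 1 - s) a / cn (sh b T (vec z)) A (n + 1) a)
          else 0) ≤
      (shifts b T).card * (A.card * (s * (s * (Real.log A.card * (56 * w / (b : ℝ) ^ w))))) := by
    have e1 : ∑ z ∈ shifts b T, ∑ n ∈ range (T + 1 + s), ∑ a ∈ A,
      (if bad b T s m w z (n + 1) a then
        Real.log (cn (sh b T (vec z)) A (n + 1 - s) a / cn (sh b T (vec z)) A (n + 1) a)
          else 0) = ∑ a ∈ A, ∑ z ∈ shifts b T, ∑ n ∈ range (T + 1 + s),
      (if bad b T s m w z (n + 1) a then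
        Real.log (cn (sh b T (vec z)) A (n + 1 - s) a / cn (sh b T (vec z)) A (n + 1) a)
          else 0) := by
      rw [sum_comm (s := A)]
      refine sum_congr rfl fun z _ => ?_
      rw [sum_comm]
    rw [e1]
    refine (sum_le_sum fun a ha => bad_point hb hT hw hwm ha).trans (le_of_eq ?_)
    rw [sum_const, nsmul_eq_mul]
    ring
  have h7 : (A.card : ℝ) * ((1 / d - ε + Z) * Real.log A.card) ≤ A.card * mean +
      A.card * (s * (Real.log A.card * (56 * w / (b : ℝ) ^ w))) := by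
    have h8 := div_le_div_of_nonneg_right hbad hs0.le
    have h9 : ((shifts b T).card : ℝ) * (A.card * (s * (s * (Real.log A.card *
        (56 * w / (b : ℝ) ^ w))))) / s = (shifts b T).card * (A.card * (s * (Real.log A.card *
        (56 * w / (b : ℝ) ^ w)))) := by
      field_simp
    rw [h9] at h8
    refine le_of_mul_le_mul_left ?_ hZc
    rw [mul_add]
    linarith
  have h10 : (s : ℝ) * (Real.log A.card * (56 * w / (b : ℝ) ^ w)) = Z * Real.log A.card := by
    rw [hZdef]
    ring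
  rw [h10, ← mul_add] at h7
  have h11 := le_of_mul_le_mul_left h7 hAc
  have h12 : (1 / d - ε) * Real.log A.card ≤ mean := by
    have : (1 / d - ε + Z) * Real.log A.card = (1 / d - ε) * Real.log A.card +
        Z * Real.log A.card := by
      ring
    linarith
  rw [hmean, card_range] at h12
  exact h12

theorem padicQ (ε c : ℝ) (hc : 0 < c) (k w s p : ℕ) (hk : 2 ≤ k) (hw : 1 ≤ w)
    (hws : 2 * k * w ≤ s) (hp : p.Prime) (hpar : par p s w k (36 * ((p : ℝ) ^ s) ^ c) ≤ ε)
    (d : ℝ) (A : Finset (ℤ × ℤ)) (hd : 1 ≤ d) (hA : A.Nonempty)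
    (hdim : ResDimLE p s (((p : ℝ) ^ s) ^ c) d A) :
      (1 / d - ε) * Real.log A.card ≤
        (∑ r ∈ range (p ^ s), Real.log ((A.image (prN r)).card : ℝ)) / ((p ^ s : ℕ) : ℝ) := by
  have hp0 : 0 < p := hp.pos
  have hp1 : (1:ℝ) ≤ p := by exact_mod_cast hp0
  obtain ⟨T, hT⟩ := res_nested p hp.two_le A
  have hS : (range (p ^ s)).Nonempty := nonempty_range_iff.2 (by positivity)
  have hC1 : (1:ℝ) ≤ ((p : ℝ) ^ s) ^ c := Real.one_le_rpow (one_le_pow₀ hp1) hc.le
  have key := fin_ineq' hT hA (range (p ^ s)) hS prN k w p s hk hw hp.two_le hws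
    (36 * ((p : ℝ) ^ s) ^ c) d (by linarith) hd ε hpar ?_ ?_
  · rw [card_range] at key
    refine key.trans (le_of_eq ?_)
    refine congrArg (· / ((p ^ s : ℕ) : ℝ)) (sum_congr rfl fun r _ => ?_)
    rw [card_image_irrel _ Int.instDecidableEq]
  · intro n a _ x _ l hl1 hl2 hl3 hc hc'
    refine (res_wt p hp A s n l (by omega) hl2 hl3 a x hc hc').trans ?_
    refine div_le_div_of_nonneg_right ?_ (by positivity)
    have : (1:ℝ) ≤ (p : ℝ) ^ (w + 1) := one_le_pow₀ hp1
    linarith
  · intro n l hl hln x _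
    have h1 := hdim (n - l) l (res ((p : ℤ) ^ (n - l)) x) hl
    have h2 : n - l + l = n := by omega
    rw [h2] at h1
    have h3 : (((cls (fun n => res ((p : ℤ) ^ n)) A (n - l) x).image
        (res ((p : ℤ) ^ n))).card : ℝ) ≤ ((p : ℝ) ^ s) ^ c * ((p : ℝ) ^ l) ^ d := by
      refine le_trans (le_of_eq ?_) h1
      rw [card_image_irrel _ instDecidableEqProd]
      refine congrArg (fun t : Finset (ℤ × ℤ) => ((t.image (res ((p : ℤ) ^ n))).card : ℝ)) ?_
      ext y
      rw [mem_cls, mem_filter]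
    refine le_trans ?_ (h3.trans ?_)
    · exact le_of_eq (by rw [card_image_irrel _ instDecidableEqProd])
    · refine mul_le_mul_of_nonneg_right (by linarith) (by positivity)

theorem archYQ (ε c e : ℝ) (hc : 0 < c) (k w s b : ℕ) (hk : 2 ≤ k) (hw : 1 ≤ w)
    (hms : 2 * k * w + w ≤ s) (hb : 2 ≤ b) (hwc : (w : ℝ) ≤ c / 2 * s) (hcε : c ≤ ε / 2)
    (he : e ≤ c / 2)
    (hpar : par b s w k (36 * ((b : ℝ) ^ s) ^ c) ≤ ε / 2)
    (M : ℝ) (hM1 : 1 ≤ M) (hMR' : M ≤ ((b : ℝ) ^ s) ^ e) (A : Finset (ℤ × ℤ)) (hA : A.Nonempty) :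
      (1 - ε) * Real.log A.card ≤
        (∑ r ∈ range (b ^ s), Real.log ((A.image (prR (b ^ s) r)).card : ℝ)) /
          ((b ^ s : ℕ) : ℝ) + cellExcess b s M A := by
  have hb0 : 0 < b := by omega
  have hbr : (1:ℝ) ≤ b := by exact_mod_cast hb0
  have hb0r : (0:ℝ) < b := by linarith
  have hM0 : 0 < M := by linarith
  have hMR : M ≤ ((b : ℝ) ^ s) ^ (c / 2) :=
    hMR'.trans (Real.rpow_le_rpow_of_exponent_le (one_le_pow₀ hbr) he)
  obtain ⟨s', hs'⟩ : ∃ s', s' + w = s := ⟨s - w, by omega⟩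
  set m := 2 * k * w with hm
  have hkw : w ≤ k * w := Nat.le_mul_of_pos_left w (by omega)
  have hwm : w ≤ m := by
    rw [hm, mul_assoc]
    omega
  have hs1 : 1 ≤ s := by omega
  have hs'1 : 1 ≤ s' := by omega
  have hs0 : (0:ℝ) < s := by exact_mod_cast hs1
  have hAc : (0:ℝ) < A.card := by exact_mod_cast card_pos.2 hA
  -- the constant
  have hMb : M * (b : ℝ) ^ w ≤ 36 * ((b : ℝ) ^ s) ^ c := by
    have h1 : (b : ℝ) ^ w ≤ ((b : ℝ) ^ s) ^ (c / 2) := by
      rw [← Real.rpow_natCast, ← Real.rpow_natCast, ← Real.rpow_mul hb0r.le]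
      refine Real.rpow_le_rpow_of_exponent_le hbr ?_
      linarith
    have h2 : ((b : ℝ) ^ s) ^ c = ((b : ℝ) ^ s) ^ (c / 2) * ((b : ℝ) ^ s) ^ (c / 2) := by
      rw [← Real.rpow_add (by positivity)]
      congr 1
      ring
    rw [h2]
    have h3 : M * (b : ℝ) ^ w ≤ ((b : ℝ) ^ s) ^ (c / 2) * ((b : ℝ) ^ s) ^ (c / 2) :=
      mul_le_mul hMR h1 (by positivity) (by positivity)
    have h4 : 0 ≤ ((b : ℝ) ^ s) ^ (c / 2) * ((b : ℝ) ^ s) ^ (c / 2) := by positivity
    linarith
  obtain ⟨K, hK⟩ := exists_size' A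
  set T := 2 * K + 1 with hTdef
  have hT : ∀ a ∈ A, ∀ u ∈ A, Clo ((b : ℤ) ^ (T + 1)) a u := by
    intro a ha u hu
    have h1 := hK a ha
    have h2 := hK u hu
    have h3 : T + 1 < b ^ (T + 1) := Nat.lt_pow_self (by omega)
    have h4 : ((T + 1 : ℕ) : ℤ) < (b : ℤ) ^ (T + 1) := by exact_mod_cast h3
    push_cast at h4
    have h5 : (T : ℤ) = 2 * K + 1 := by rw [hTdef]; push_cast; ring
    rw [h5] at h4
    set X : ℤ := (b : ℤ) ^ (T + 1) with hX
    clear_value X
    unfold Clo
    rw [abs_lt, abs_lt]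
    refine ⟨⟨?_, ?_⟩, ⟨?_, ?_⟩⟩ <;> omega
  have hS : (range (b ^ s)).Nonempty := nonempty_range_iff.2 (by positivity)
  set Z : ℝ := 56 * (s : ℝ) * w / (b : ℝ) ^ w with hZdef
  set mean : ℝ := (∑ r ∈ range (b ^ s), Real.log ((A.image (prR (b ^ s) r)).card : ℝ)) /
    (range (b ^ s)).card with hmean
  have hZc := shifts_card_pos (T := T) hb
  set g : ℕ → ℤ × ℤ → ℕ → ℝ := fun i a t => ballNum b s A a (i + t) with hg
  have hg0 : ∀ i, ∀ a ∈ A, 0 < g i a 0 := fun i a ha =>
    lt_of_lt_of_le one_pos (one_le_ballNum hb ha _)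
  set F : ℕ → ℝ := fun i => ∑ a ∈ A, growth b M s (g i a) with hF
  have hF0 : ∀ i, 0 ≤ F i := fun i => sum_nonneg fun a _ => growth_nonneg _ _ _ _
  have hFz : ∀ i, T + 1 + s ≤ i → F i = 0 := by
    intro i hi
    refine sum_eq_zero fun a ha => growth_zero hbr hM1 (hg0 i a ha) (fun l => Nat.cast_nonneg _) ?_
    intro l _
    have hall : ∀ i', T + 1 + s ≤ i' → ballNum b s A a i' = A.card := by
      intro i' hi'
      unfold ballNum
      rw [filter_true_of_mem]
      intro x hx
      have h1 := hT a ha x hx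
      have hbz : (1:ℤ) ≤ (b : ℤ) := by exact_mod_cast hb0
      have h2 : (0:ℤ) < (b : ℤ) ^ s := by positivity
      have h4 : (b : ℤ) ^ s * (b : ℤ) ^ (T + 1) ≤ (b : ℤ) ^ i' := by
        rw [← pow_add]
        exact pow_le_pow_right₀ hbz (by omega)
      constructor
      · calc (b : ℤ) ^ s * |x.1 - a.1| < (b : ℤ) ^ s * (b : ℤ) ^ (T + 1) :=
            mul_lt_mul_of_pos_left h1.1 h2
          _ ≤ _ := h4
      · calc (b : ℤ) ^ s * |x.2 - a.2| < (b : ℤ) ^ s * (b : ℤ) ^ (T + 1) :=
            mul_lt_mul_of_pos_left h1.2 h2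
          _ ≤ _ := h4
    simp only [hg]
    rw [hall _ (by omega), hall _ (by omega)]
  set X : ℝ := ∑' i, F i with hX
  -- one shift
  have one : ∀ z ∈ shifts b T, (A.card : ℝ) * ((1 - w / s - ε / 2 + Z) * Real.log A.card) ≤
      A.card * mean +
      (∑ n ∈ range (T + 1 + s'), ∑ a ∈ A, (if badY b T s' w z (n + 1) a then
        Real.log (cn (sh b T (vec z)) A (n + 1 - s') a / cn (sh b T (vec z)) A (n + 1) a)
          else 0)) / s + X / s := by
    intro z _
    have key := finY_ineq (sh_nested (b := b) (T := T) (vec z) A) hA (range (b ^ s)) hS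
      (prR (b ^ s)) k w b s s' hk hw hb (by omega) (by omega) (by omega) (36 * ((b : ℝ) ^ s) ^ c)
      (M * (b : ℝ) ^ w) (by positivity) hMb (badY b T s' w z)
      (fun n a => growth b M s (g (T + 1 + s' - n) a)) (fun n a _ => growth_nonneg _ _ _ _)
      (ε / 2) hpar ?_ ?_
    · have hE : ∑ n ∈ range (T + 1 + s'), ∑ a ∈ A, growth b M s (g (T + 1 + s' - (n + 1)) a) ≤
          X := by
        have h1 : ∑ n ∈ range (T + 1 + s'), ∑ a ∈ A, growth b M s (g (T + 1 + s' - (n + 1)) a) =
            ∑ n ∈ range (T + 1 + s'), F n := by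
          rw [← sum_range_reflect F (T + 1 + s')]
          refine sum_congr rfl fun n _ => ?_
          simp only [hF]
          have : T + 1 + s' - (n + 1) = T + 1 + s' - 1 - n := by omega
          rw [this]
        rw [h1, hX, ← sum_eq_tsum F (T + 1 + s) hFz]
        refine sum_le_sum_of_subset_of_nonneg ?_ fun i _ _ => hF0 i
        exact range_subset_range.2 (by omega)
      have hE' := div_le_div_of_nonneg_right hE hs0.le
      refine (key.trans (add_le_add_right hE' _)).trans (le_of_eq ?_)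
      congr 1
      congr 1
      · congr 1
        rw [hmean]
        refine congrArg (· / ((range (b ^ s)).card : ℝ)) (sum_congr rfl fun r _ => ?_)
        exact congrArg (fun k : ℕ => Real.log (k : ℝ)) (card_image_irrel _ _ _ _)
      · congr 1
        refine sum_congr rfl fun n _ => ?_
        rw [sum_filter]
    · intro n a ha x hx hgd l hl1 hl2 hl3 _ hc'
      refine sh_wt hb T (vec z) A s m w n l hwm hl1 (by omega) hl3 a x ?_ hc'
      intro hn hnear
      refine hgd ⟨hn, T + 1 - n + l - 1, ?_, ?_, ?_, ?_, hnear⟩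
      · omega
      · omega
      · omega
      · omega
    · intro n a ha hgd l hl1 hl2 hl3
      have hn1 : 1 ≤ n := by omega
      by_cases hn : n ≤ T + 1 + s'
      · have h1 : cn (sh b T (vec z)) A (n - l) a ≤
            ballNum b s A a (T + 1 + s' - n + (l + w)) :=
          cls_le_ball hb hT (vec z) (Or.inl (by omega)) ha
        have h2 : ballNum b s A a (T + 1 + s' - n) ≤ cn (sh b T (vec z)) A n a :=
          ball_le_cls hb z hs'1 hn1 (Or.inl (by omega)) ha hgd
        have h3 := growth_spec (q := (b : ℝ)) (M := M) (s := s) (g := g (T + 1 + s' - n) a) hb0r hM0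
          (hg0 _ a ha) (show l + w ≤ s by omega)
        have h4 : g (T + 1 + s' - n) a 0 = ballNum b s A a (T + 1 + s' - n) := rfl
        have h5 : g (T + 1 + s' - n) a (l + w) = ballNum b s A a (T + 1 + s' - n + (l + w)) := rfl
        rw [h4, h5] at h3
        calc cn (sh b T (vec z)) A (n - l) a ≤ _ := h1
          _ ≤ _ := h3
          _ ≤ M * (b : ℝ) ^ (l + w) * Real.exp (growth b M s (g (T + 1 + s' - n) a)) *
                cn (sh b T (vec z)) A n a := mul_le_mul_of_nonneg_left h2 (by positivity)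
          _ = _ := by rw [pow_add]; ring
      · rw [cn_bot (sh_nested (b := b) (T := T) (vec z) A) (by omega) ha,
          cn_bot (sh_nested (b := b) (T := T) (vec z) A) (by omega) ha, mul_one]
        have h1 : (1:ℝ) ≤ (b : ℝ) ^ w := one_le_pow₀ hbr
        have h2 : (1:ℝ) ≤ (b : ℝ) ^ l := one_le_pow₀ hbr
        have h3 : (1:ℝ) ≤ Real.exp (growth b M s (g (T + 1 + s' - n) a)) :=
          Real.one_le_exp (growth_nonneg _ _ _ _)
        calc (1:ℝ) = 1 * 1 * 1 * 1 := by norm_num
          _ ≤ M * (b : ℝ) ^ w * (b : ℝ) ^ l * Real.exp (growth b M s (g (T + 1 + s' - n) a)) := by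
            gcongr
  have hsum := sum_le_sum one
  rw [sum_const, nsmul_eq_mul, sum_add_distrib, sum_add_distrib, sum_const, nsmul_eq_mul,
    ← sum_div, sum_const, nsmul_eq_mul] at hsum
  have hbad : ∑ z ∈ shifts b T, ∑ n ∈ range (T + 1 + s'), ∑ a ∈ A,
      (if badY b T s' w z (n + 1) a then
        Real.log (cn (sh b T (vec z)) A (n + 1 - s') a / cn (sh b T (vec z)) A (n + 1) a)
          else 0) ≤
      (shifts b T).card * (A.card * (s * (s * (Real.log A.card * (56 * w / (b : ℝ) ^ w))))) := by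
    have e1 : ∑ z ∈ shifts b T, ∑ n ∈ range (T + 1 + s'), ∑ a ∈ A,
      (if badY b T s' w z (n + 1) a then
        Real.log (cn (sh b T (vec z)) A (n + 1 - s') a / cn (sh b T (vec z)) A (n + 1) a)
          else 0) = ∑ a ∈ A, ∑ z ∈ shifts b T, ∑ n ∈ range (T + 1 + s'),
      (if badY b T s' w z (n + 1) a then
        Real.log (cn (sh b T (vec z)) A (n + 1 - s') a / cn (sh b T (vec z)) A (n + 1) a)
          else 0) := by
      rw [sum_comm (s := A)]
      refine sum_congr rfl fun z _ => ?_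
      rw [sum_comm]
    rw [e1]
    refine (sum_le_sum fun a ha => bad_pointY hb hT hw ha).trans ?_
    rw [sum_const, nsmul_eq_mul]
    have hs's : (s' : ℝ) ≤ s := by
      have : s' ≤ s := by omega
      exact_mod_cast this
    have h0 : 0 ≤ Real.log A.card * (56 * w / (b : ℝ) ^ w) :=
      mul_nonneg (Real.log_natCast_nonneg _) (by positivity)
    have h1 : (s' : ℝ) * (s' * (Real.log A.card * (56 * w / (b : ℝ) ^ w))) ≤
        s * (s * (Real.log A.card * (56 * w / (b : ℝ) ^ w))) :=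
      mul_le_mul hs's (mul_le_mul_of_nonneg_right hs's h0) (by positivity) hs0.le
    calc (A.card : ℝ) * ((shifts b T).card * (s' * (s' * (Real.log A.card *
          (56 * w / (b : ℝ) ^ w))))) ≤ (A.card : ℝ) * ((shifts b T).card * (s * (s *
          (Real.log A.card * (56 * w / (b : ℝ) ^ w))))) := by
          refine mul_le_mul_of_nonneg_left ?_ hAc.le
          exact mul_le_mul_of_nonneg_left h1 hZc.le
      _ = _ := by ring
  have h7 : (A.card : ℝ) * ((1 - w / s - ε / 2 + Z) * Real.log A.card) ≤ A.card * mean +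
      A.card * (s * (Real.log A.card * (56 * w / (b : ℝ) ^ w))) + X / s := by
    have h8 := div_le_div_of_nonneg_right hbad hs0.le
    have h9 : ((shifts b T).card : ℝ) * (A.card * (s * (s * (Real.log A.card *
        (56 * w / (b : ℝ) ^ w))))) / s = (shifts b T).card * (A.card * (s * (Real.log A.card *
        (56 * w / (b : ℝ) ^ w)))) := by
      field_simp
    rw [h9] at h8
    refine le_of_mul_le_mul_left ?_ hZc
    rw [mul_add, mul_add]
    linarith
  have h10 : (s : ℝ) * (Real.log A.card * (56 * w / (b : ℝ) ^ w)) = Z * Real.log A.card := by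
    rw [hZdef]
    ring
  rw [h10] at h7
  have hX' : X / s = A.card * cellExcess b s M A := by
    unfold cellExcess
    rw [hX]
    field_simp
    rfl
  rw [hX', ← mul_add, ← mul_add] at h7
  have h11 := le_of_mul_le_mul_left h7 hAc
  have hws : (w : ℝ) / s ≤ ε / 2 := by
    rw [div_le_iff₀ hs0]
    refine hwc.trans (mul_le_mul_of_nonneg_right ?_ hs0.le)
    linarith
  have h12 : (1 - ε) * Real.log A.card ≤ mean + cellExcess b s M A := by
    have e1 : (1 - w / s - ε / 2 + Z) * Real.log A.card = (1 - w / s - ε / 2) * Real.log A.card +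
        Z * Real.log A.card := by
      ring
    have e2 : (1 - ε) * Real.log A.card ≤ (1 - w / s - ε / 2) * Real.log A.card :=
      mul_le_mul_of_nonneg_right (by linarith) (Real.log_natCast_nonneg _)
    linarith
  rw [hmean, card_range] at h12
  exact h12

theorem padicYQ (ε c e : ℝ) (hc : 0 < c) (k w s p : ℕ) (hk : 2 ≤ k) (hw : 1 ≤ w)
    (hws : 2 * k * w + w ≤ s) (hp : p.Prime) (hwc : (w : ℝ) ≤ c / 2 * s) (hcε : c ≤ ε / 2)
    (he : e ≤ c / 2)
    (hpar : par p s w k (36 * ((p : ℝ) ^ s) ^ c) ≤ ε / 2)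
    (M : ℝ) (hM1 : 1 ≤ M) (hMR' : M ≤ ((p : ℝ) ^ s) ^ e) (A : Finset (ℤ × ℤ)) (hA : A.Nonempty) :
      (1 - ε) * Real.log A.card ≤
        (∑ r ∈ range (p ^ s), Real.log ((A.image (prN r)).card : ℝ)) / ((p ^ s : ℕ) : ℝ) +
          resExcess p s M A := by
  have hp0 : 0 < p := hp.pos
  have hp1 : (1:ℝ) ≤ p := by exact_mod_cast hp0
  obtain ⟨T, hT⟩ := res_nested p hp.two_le A
  have hS : (range (p ^ s)).Nonempty := nonempty_range_iff.2 (by positivity)
  have hM0 : 0 < M := by linarith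
  have hMR : M ≤ ((p : ℝ) ^ s) ^ c :=
    hMR'.trans (Real.rpow_le_rpow_of_exponent_le (one_le_pow₀ hp1) (by linarith))
  have hs1 : 1 ≤ s := by omega
  have hs0 : (0:ℝ) < s := by exact_mod_cast hs1
  have hAc : (0:ℝ) < A.card := by exact_mod_cast card_pos.2 hA
  set g : ℕ → ℤ × ℤ → ℕ → ℝ := fun n a l => resNum A a ((p : ℤ) ^ (n - l)) with hg
  have hg0 : ∀ n, ∀ a ∈ A, 0 < g n a 0 := by
    intro n a ha
    simp only [hg]
    rw [resNum_eq]
    exact cn_pos ha
  obtain ⟨bad, hbad⟩ : ∃ bad : ℕ → ℤ × ℤ → Prop, ∀ n a, ¬ bad n a :=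
    ⟨fun _ _ => False, fun _ _ h => h⟩
  have key := finY_ineq hT hA (range (p ^ s)) hS prN k w p s s hk hw hp.two_le (by omega) le_rfl
    (by omega) (36 * ((p : ℝ) ^ s) ^ c) M hM0.le (by
      have : (0:ℝ) ≤ ((p : ℝ) ^ s) ^ c := by positivity
      linarith) bad
    (fun n a => growth p M s (g n a)) (fun n a _ => growth_nonneg _ _ _ _) (ε / 2) hpar ?_ ?_
  · have h0 : (∑ n ∈ range (T + s), ∑ a ∈ A.filter (bad (n + 1)),
        Real.log (cn (fun n => res ((p : ℤ) ^ n)) A (n + 1 - s) a /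
          cn (fun n => res ((p : ℤ) ^ n)) A (n + 1) a)) = 0 := by
      refine sum_eq_zero fun n _ => ?_
      rw [filter_false_of_mem (fun a _ => hbad (n + 1) a)]
      rfl
    rw [h0, zero_div, add_zero, card_range] at key
    -- the series
    have hz : ∀ n, T + s ≤ n → ∑ a ∈ A, growth p M s (g n a) = 0 := by
      intro n hn
      refine sum_eq_zero fun a ha => growth_zero hp1 hM1 (hg0 n a ha) (fun l => Nat.cast_nonneg _) ?_
      intro l hl
      simp only [hg]
      rw [resNum_eq, resNum_eq, cn_bot hT (by omega) ha, cn_bot hT (by omega) ha]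
    have h1 : ∑ n ∈ range (T + s), ∑ a ∈ A, growth p M s (g (n + 1) a) ≤
        ∑' n, ∑ a ∈ A, growth p M s (g n a) := by
      rw [← sum_eq_tsum (fun n => ∑ a ∈ A, growth p M s (g n a)) (T + s + 1)
        (fun n hn => hz n (by omega)), sum_range_succ']
      have : 0 ≤ ∑ a ∈ A, growth p M s (g 0 a) := sum_nonneg fun a _ => growth_nonneg _ _ _ _
      linarith
    have h2 : (A.card : ℝ) * ((1 - ε) * Real.log A.card) ≤
        A.card * ((1 - w / s - ε / 2 + 56 * s * w / (p : ℝ) ^ w) * Real.log A.card) := by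
      refine mul_le_mul_of_nonneg_left ?_ hAc.le
      refine mul_le_mul_of_nonneg_right ?_ (Real.log_natCast_nonneg _)
      have h3 : (w : ℝ) / s ≤ ε / 2 := by
        rw [div_le_iff₀ hs0]
        refine hwc.trans (mul_le_mul_of_nonneg_right ?_ hs0.le)
        linarith
      have h4 : (0:ℝ) ≤ 56 * s * w / (p : ℝ) ^ w := by positivity
      linarith
    have h5 : (∑ r ∈ range (p ^ s), Real.log ((A.image (prN r)).card : ℝ)) / ((p ^ s : ℕ) : ℝ) =
        (∑ r ∈ range (p ^ s), Real.log ((@image _ _ (fun a b => Classical.propDecidable (a = b))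
          (prN r) A).card : ℝ)) / ((p ^ s : ℕ) : ℝ) := by
      refine congrArg (· / ((p ^ s : ℕ) : ℝ)) (sum_congr rfl fun r _ => ?_)
      exact congrArg (fun k : ℕ => Real.log (k : ℝ)) (card_image_irrel _ _ _ _)
    rw [h5]
    have h6 := h2.trans key
    have h7 := div_le_div_of_nonneg_right h1 hs0.le
    refine le_of_mul_le_mul_left ?_ hAc
    refine h6.trans ?_
    rw [mul_add]
    refine add_le_add le_rfl (h7.trans (le_of_eq ?_))
    unfold resExcess
    field_simp
    rfl
  · intro n a _ x _ _ l hl1 hl2 hl3 hc hc'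
    refine (res_wt p hp A s n l (by omega) hl2 hl3 a x hc hc').trans ?_
    refine div_le_div_of_nonneg_right ?_ (by positivity)
    have : (1:ℝ) ≤ (p : ℝ) ^ (w + 1) := one_le_pow₀ hp1
    linarith
  · intro n a ha _ l _ hl hln
    have h1 := growth_spec (q := (p : ℝ)) (M := M) (s := s) (g := g n a) (by linarith) hM0
      (hg0 n a ha) hl
    simp only [hg] at h1 ⊢
    rw [resNum_eq, Nat.sub_zero, resNum_eq] at h1
    exact h1

end Pool.Agent.V7H66.AK
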