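import Pool.Agent.V7H66.AK.FinY
import Pool.Agent.V7H66.AK.Arch4

/-!
# Shifted grids: all sets, with the excess
-/

set_option autoImplicit false

open Finset
open scoped Classical

noncomputable section

namespace Pool.Agent.V7H66.AK

/-- the point is near the boundary of one of the cells of the window -/
def badY (b T s w : ℕ) (z : ℕ × ℕ) (n : ℕ) (a : ℤ × ℤ) : Prop :=
  n ≤ T + 1 ∧ ∃ i, i ≤ T ∧ w ≤ i ∧ T + 1 - n ≤ i ∧ i < T + 1 - n + s ∧
    near b (vec z) i (2 * b ^ (i - w)) a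

variable {b T : ℕ} {A : Finset (ℤ × ℤ)}

lemma window_badY (z : ℕ × ℕ) (s w j : ℕ) (hj : j ≤ T) {a : ℤ × ℤ} (ha : a ∈ A) :
    (if badY b T s w z (T + 1 - j) a then
      Real.log (cn (sh b T (vec z)) A (T + 1 - j - s) a / cn (sh b T (vec z)) A (T + 1 - j) a)
      else 0) ≤
      ∑ i ∈ (range (T + 1)).filter (fun i => w ≤ i ∧ j ≤ i ∧ i < j + s),
        ∑ k ∈ (range (T + 1)).filter (fun k => j ≤ k ∧ k < j + s),
          (if near b (vec z) i (2 * b ^ (i - w)) a then
            Real.log (Ml b T A z (k + 1) a) - Real.log (Ml b T A z k a) else 0) := by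
  have hstep : ∀ k, 0 ≤ Real.log (Ml b T A z (k + 1) a) - Real.log (Ml b T A z k a) := by
    intro k
    rw [sub_nonneg]
    refine Real.log_le_log ?_ (Ml_mono z (Nat.le_succ k) ha)
    have := one_le_Ml (b := b) (T := T) z k ha
    linarith
  have hnn : ∀ i ∈ (range (T + 1)).filter (fun i => w ≤ i ∧ j ≤ i ∧ i < j + s),
      0 ≤ ∑ k ∈ (range (T + 1)).filter (fun k => j ≤ k ∧ k < j + s),
          (if near b (vec z) i (2 * b ^ (i - w)) a then
            Real.log (Ml b T A z (k + 1) a) - Real.log (Ml b T A z k a) else 0) := by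
    intro i _
    refine sum_nonneg fun k _ => ?_
    split_ifs
    · exact hstep k
    · exact le_rfl
  split_ifs with hbad
  · obtain ⟨_, i, hi1, hiw, hi2, hi3, hi4⟩ := hbad
    have hj' : T + 1 - (T + 1 - j) = j := by omega
    rw [hj'] at hi2 hi3
    have h1 : Real.log (cn (sh b T (vec z)) A (T + 1 - j - s) a /
        cn (sh b T (vec z)) A (T + 1 - j) a) =
        Real.log (Ml b T A z (j + s) a) - Real.log (Ml b T A z j a) := by
      rw [Real.log_div (cn_pos ha).ne' (cn_pos ha).ne']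
      unfold Ml
      have e1 : T + 1 - (j + s) = T + 1 - j - s := by omega
      rw [e1]
    rw [h1, window_sum]
    refine le_trans (le_of_eq ?_) (single_le_sum hnn
      (mem_filter.2 ⟨mem_range.2 (by omega), hiw, hi2, hi3⟩))
    refine sum_congr rfl fun k _ => ?_
    rw [if_pos hi4]
  · exact sum_nonneg hnn

lemma card_windowY (s w j : ℕ) :
    (((range (T + 1)).filter (fun i => w ≤ i ∧ j ≤ i ∧ i < j + s)).card : ℝ) ≤ s := by
  have : ((range (T + 1)).filter (fun i => w ≤ i ∧ j ≤ i ∧ i < j + s)).card ≤ s := by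
    calc ((range (T + 1)).filter (fun i => w ≤ i ∧ j ≤ i ∧ i < j + s)).card
        ≤ (Ico j (j + s)).card := by
          refine card_le_card fun i hi => ?_
          rw [mem_filter] at hi
          rw [mem_Ico]
          omega
      _ = s := by rw [Nat.card_Ico]; omega
  exact_mod_cast this

lemma bad_pointY (hb : 2 ≤ b) (hT : ∀ a ∈ A, ∀ u ∈ A, Clo ((b : ℤ) ^ (T + 1)) a u) {s w : ℕ}
    (hw : 1 ≤ w) {a : ℤ × ℤ} (ha : a ∈ A) :
    ∑ z ∈ shifts b T, ∑ n ∈ range (T + 1 + s), (if badY b T s w z (n + 1) a then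
      Real.log (cn (sh b T (vec z)) A (n + 1 - s) a / cn (sh b T (vec z)) A (n + 1) a) else 0) ≤
      (shifts b T).card * (s * (s * (Real.log A.card * (56 * w / (b : ℝ) ^ w)))) := by
  have hZ := shifts_card_pos (T := T) hb
  have h1 : ∀ z ∈ shifts b T, ∑ n ∈ range (T + 1 + s), (if badY b T s w z (n + 1) a then
      Real.log (cn (sh b T (vec z)) A (n + 1 - s) a / cn (sh b T (vec z)) A (n + 1) a) else 0) ≤
      ∑ j ∈ range (T + 1), ∑ i ∈ (range (T + 1)).filter (fun i => w ≤ i ∧ j ≤ i ∧ i < j + s),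
        ∑ k ∈ (range (T + 1)).filter (fun k => j ≤ k ∧ k < j + s),
          (if near b (vec z) i (2 * b ^ (i - w)) a then
            Real.log (Ml b T A z (k + 1) a) - Real.log (Ml b T A z k a) else 0) := by
    intro z _
    have h2 : ∑ n ∈ range (T + 1 + s), (if badY b T s w z (n + 1) a then
        Real.log (cn (sh b T (vec z)) A (n + 1 - s) a / cn (sh b T (vec z)) A (n + 1) a) else 0) =
        ∑ n ∈ range (T + 1), (if badY b T s w z (n + 1) a then
        Real.log (cn (sh b T (vec z)) A (n + 1 - s) a / cn (sh b T (vec z)) A (n + 1) a) else 0) := by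
      symm
      refine sum_subset ?_ ?_
      · intro n hn
        rw [mem_range] at hn ⊢
        omega
      · intro n _ hn
        rw [mem_range] at hn
        rw [if_neg]
        intro hbad
        have := hbad.1
        omega
    rw [h2, ← sum_range_reflect]
    refine sum_le_sum fun j hj => ?_
    have hjT : j ≤ T := Nat.lt_succ_iff.1 (mem_range.1 hj)
    have e1 : T + 1 - 1 - j + 1 = T + 1 - j := by omega
    rw [e1]
    exact window_badY z s w j hjT ha
  refine (sum_le_sum h1).trans ?_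
  rw [sum_comm]
  set G : ℕ → ℝ := fun k => ∑ v ∈ range (k + 1), gg b A v a * mu b w (k - v) with hG
  have hG0 : ∀ k, 0 ≤ G k := fun k => sum_nonneg fun v _ =>
    mul_nonneg (gg_nonneg hb v ha) (mu_nonneg _ _ _)
  have h3 : ∀ j ∈ range (T + 1), ∑ z ∈ shifts b T,
      ∑ i ∈ (range (T + 1)).filter (fun i => w ≤ i ∧ j ≤ i ∧ i < j + s),
        ∑ k ∈ (range (T + 1)).filter (fun k => j ≤ k ∧ k < j + s),
          (if near b (vec z) i (2 * b ^ (i - w)) a then
            Real.log (Ml b T A z (k + 1) a) - Real.log (Ml b T A z k a) else 0) ≤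
      s * ((shifts b T).card * ∑ k ∈ (range (T + 1)).filter (fun k => j ≤ k ∧ k < j + s), G k) := by
    intro j _
    rw [sum_comm]
    have h4 : ∀ i ∈ (range (T + 1)).filter (fun i => w ≤ i ∧ j ≤ i ∧ i < j + s),
        ∑ z ∈ shifts b T, ∑ k ∈ (range (T + 1)).filter (fun k => j ≤ k ∧ k < j + s),
          (if near b (vec z) i (2 * b ^ (i - w)) a then
            Real.log (Ml b T A z (k + 1) a) - Real.log (Ml b T A z k a) else 0) ≤
        (shifts b T).card * ∑ k ∈ (range (T + 1)).filter (fun k => j ≤ k ∧ k < j + s), G k := by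
      intro i hi
      rw [mem_filter, mem_range] at hi
      rw [sum_comm, mul_sum]
      refine sum_le_sum fun k hk => ?_
      rw [mem_filter, mem_range] at hk
      exact pair_sum hb hT (by omega) (by omega) (by omega) ha
    refine (sum_le_sum h4).trans ?_
    rw [sum_const, nsmul_eq_mul]
    refine mul_le_mul_of_nonneg_right (card_windowY s w j) ?_
    exact mul_nonneg hZ.le (sum_nonneg fun k _ => hG0 k)
  refine (sum_le_sum h3).trans ?_
  rw [← mul_sum, ← mul_sum]
  have h5 : ∑ j ∈ range (T + 1), ∑ k ∈ (range (T + 1)).filter (fun k => j ≤ k ∧ k < j + s), G k ≤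
      s * (Real.log A.card * (56 * w / (b : ℝ) ^ w)) := by
    have h6 : ∑ j ∈ range (T + 1), ∑ k ∈ (range (T + 1)).filter (fun k => j ≤ k ∧ k < j + s), G k =
        ∑ k ∈ range (T + 1), (((range (T + 1)).filter (fun j => j ≤ k ∧ k < j + s)).card : ℝ) *
          G k := by
      simp only [sum_filter]
      rw [sum_comm]
      refine sum_congr rfl fun k _ => ?_
      rw [← sum_filter, sum_const, nsmul_eq_mul]
    rw [h6]
    calc ∑ k ∈ range (T + 1), (((range (T + 1)).filter (fun j => j ≤ k ∧ k < j + s)).card : ℝ) *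
          G k ≤ ∑ k ∈ range (T + 1), (s : ℝ) * G k :=
          sum_le_sum fun k _ => mul_le_mul_of_nonneg_right (card_window' s k) (hG0 k)
      _ = s * ∑ k ∈ range (T + 1), G k := by rw [mul_sum]
      _ ≤ _ := mul_le_mul_of_nonneg_left (G_sum hb hT hw ha) (Nat.cast_nonneg _)
  calc (s : ℝ) * ((shifts b T).card *
        ∑ j ∈ range (T + 1), ∑ k ∈ (range (T + 1)).filter (fun k => j ≤ k ∧ k < j + s), G k)
      ≤ (s : ℝ) * ((shifts b T).card * (s * (Real.log A.card * (56 * w / (b : ℝ) ^ w)))) := by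
        refine mul_le_mul_of_nonneg_left ?_ (Nat.cast_nonneg _)
        exact mul_le_mul_of_nonneg_left h5 hZ.le
    _ = _ := by ring


/-- the number of the points `x` of `A` with `b ^ s |x - a| < b ^ i` (maximum norm) -/
def ballNum (b s : ℕ) (A : Finset (ℤ × ℤ)) (a : ℤ × ℤ) (i : ℕ) : ℝ :=
  ((A.filter fun x => (b : ℤ) ^ s * |x.1 - a.1| < (b : ℤ) ^ i ∧
    (b : ℤ) ^ s * |x.2 - a.2| < (b : ℤ) ^ i).card : ℝ)

/-- the excess -/
def cellExcess (b s : ℕ) (M : ℝ) (A : Finset (ℤ × ℤ)) : ℝ :=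
  (∑' i : ℕ, ∑ a ∈ A, growth b M s fun t => ballNum b s A a (i + t)) / (s * A.card)

lemma small_of {b s i : ℕ} (hb : 2 ≤ b) (hi : i ≤ s) {x a : ℤ × ℤ}
    (h : (b : ℤ) ^ s * |x.1 - a.1| < (b : ℤ) ^ i ∧ (b : ℤ) ^ s * |x.2 - a.2| < (b : ℤ) ^ i) :
    x = a := by
  have hbz : (1:ℤ) ≤ (b : ℤ) := by
    have : 1 ≤ b := by omega
    exact_mod_cast this
  have h1 : (b : ℤ) ^ i ≤ (b : ℤ) ^ s := pow_le_pow_right₀ hbz hi
  have h2 : (0:ℤ) < (b : ℤ) ^ s := by positivity
  have key : ∀ d : ℤ, (b : ℤ) ^ s * |d| < (b : ℤ) ^ i → d = 0 := by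
    intro d hd
    have h3 : (b : ℤ) ^ s * |d| < (b : ℤ) ^ s * 1 := by linarith
    exact Int.abs_lt_one_iff.1 (lt_of_mul_lt_mul_left h3 h2.le)
  have h3 := key _ h.1
  have h4 := key _ h.2
  exact Prod.ext (by omega) (by omega)

lemma one_le_ballNum {b s : ℕ} (hb : 2 ≤ b) {A : Finset (ℤ × ℤ)} {a : ℤ × ℤ} (ha : a ∈ A) (i : ℕ) :
    1 ≤ ballNum b s A a i := by
  have hbz : (0:ℤ) < (b : ℤ) := by
    have : 0 < b := by omega
    exact_mod_cast this
  unfold ballNum
  have : 0 < (A.filter fun x => (b : ℤ) ^ s * |x.1 - a.1| < (b : ℤ) ^ i ∧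
    (b : ℤ) ^ s * |x.2 - a.2| < (b : ℤ) ^ i).card := by
    refine card_pos.2 ⟨a, mem_filter.2 ⟨ha, ?_, ?_⟩⟩
    · rw [sub_self, abs_zero, mul_zero]; positivity
    · rw [sub_self, abs_zero, mul_zero]; positivity
  exact_mod_cast this

lemma cls_le_ball (hb : 2 ≤ b) (hT : ∀ a ∈ A, ∀ u ∈ A, Clo ((b : ℤ) ^ (T + 1)) a u) (z : ℤ × ℤ)
    {s i n l : ℕ} (hi : T + 1 + s ≤ i + (n - l) ∨ T + 1 < n - l) {a : ℤ × ℤ} (ha : a ∈ A) :
    cn (sh b T z) A (n - l) a ≤ ballNum b s A a i := by
  have hbz : (1:ℤ) ≤ (b : ℤ) := by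
    have : 1 ≤ b := by omega
    exact_mod_cast this
  have h2 : (0:ℤ) < (b : ℤ) ^ s := by positivity
  unfold cn ballNum
  have : (cls (sh b T z) A (n - l) a).card ≤
      (A.filter fun x => (b : ℤ) ^ s * |x.1 - a.1| < (b : ℤ) ^ i ∧
        (b : ℤ) ^ s * |x.2 - a.2| < (b : ℤ) ^ i).card := by
    refine card_le_card fun x hx => ?_
    have hx1 := mem_cls.1 hx
    rw [mem_filter]
    refine ⟨hx1.1, ?_⟩
    by_cases hn : T + 1 < n - l
    · have h3 : x = a := (sh_nested z A).inj hn.le hx1.1 ha hx1.2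
      rw [h3, sub_self, sub_self, abs_zero, mul_zero]
      constructor <;> positivity
    · have hi' : T + 1 + s ≤ i + (n - l) := by
        rcases hi with h | h
        · exact h
        · exact absurd h hn
      have hclo : Clo ((b : ℤ) ^ (T + 1 - (n - l))) a x := by
        by_cases h0 : n - l = 0
        · rw [h0, Nat.sub_zero]
          exact hT a ha x hx1.1
        · have h3 := hx1.2
          unfold sh at h3
          rw [if_neg h0, if_neg h0] at h3
          exact cell_clo (by positivity) h3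
      have h4 : (b : ℤ) ^ s * (b : ℤ) ^ (T + 1 - (n - l)) ≤ (b : ℤ) ^ i := by
        rw [← pow_add]
        exact pow_le_pow_right₀ hbz (by omega)
      constructor
      · calc (b : ℤ) ^ s * |x.1 - a.1| < (b : ℤ) ^ s * (b : ℤ) ^ (T + 1 - (n - l)) :=
            mul_lt_mul_of_pos_left hclo.1 h2
          _ ≤ _ := h4
      · calc (b : ℤ) ^ s * |x.2 - a.2| < (b : ℤ) ^ s * (b : ℤ) ^ (T + 1 - (n - l)) :=
            mul_lt_mul_of_pos_left hclo.2 h2
          _ ≤ _ := h4
  exact_mod_cast this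

lemma ball_le_cls (hb : 2 ≤ b) (z : ℕ × ℕ) {s s' w i n : ℕ} (hs' : 1 ≤ s') (hn1 : 1 ≤ n)
    (hi : i + n + w ≤ T + 1 + s ∨ i ≤ s) {a : ℤ × ℤ} (ha : a ∈ A)
    (hg : ¬ badY b T s' w z n a) :
    ballNum b s A a i ≤ cn (sh b T (vec z)) A n a := by
  have hbz : (1:ℤ) ≤ (b : ℤ) := by
    have : 1 ≤ b := by omega
    exact_mod_cast this
  have h2 : (0:ℤ) < (b : ℤ) ^ s := by positivity
  unfold cn ballNum
  have : (A.filter fun x => (b : ℤ) ^ s * |x.1 - a.1| < (b : ℤ) ^ i ∧
        (b : ℤ) ^ s * |x.2 - a.2| < (b : ℤ) ^ i).card ≤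
      (cls (sh b T (vec z)) A n a).card := by
    refine card_le_card fun x hx => ?_
    obtain ⟨hxA, hx⟩ := mem_filter.1 hx
    by_cases his : i ≤ s
    · rw [small_of hb his hx]
      exact self_mem_cls ha
    · have hi' : i + n + w ≤ T + 1 + s := by
        rcases hi with h | h
        · exact h
        · exact absurd h his
      have hng : ¬ near b (vec z) (T + 1 - n) (2 * b ^ (T + 1 - n - w)) a := by
        intro hnear
        exact hg ⟨by omega, T + 1 - n, by omega, by omega, le_rfl, by omega, hnear⟩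
      rw [mem_cls]
      refine ⟨hxA, ?_⟩
      unfold sh
      have h3 : n ≠ 0 := by omega
      rw [if_neg h3, if_neg h3]
      refine not_near hb hng ?_
      have h4 : (b : ℤ) ^ i ≤ (b : ℤ) ^ s * (b : ℤ) ^ (T + 1 - n - w) := by
        rw [← pow_add]
        exact pow_le_pow_right₀ hbz (by omega)
      have h5 : ((2 * b ^ (T + 1 - n - w) : ℕ) : ℤ) = 2 * (b : ℤ) ^ (T + 1 - n - w) := by
        push_cast; rfl
      have h6 : (0:ℤ) < (b : ℤ) ^ (T + 1 - n - w) := by positivity
      unfold Clo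
      rw [h5]
      constructor
      · have h7 : (b : ℤ) ^ s * |x.1 - a.1| < (b : ℤ) ^ s * (b : ℤ) ^ (T + 1 - n - w) :=
          lt_of_lt_of_le hx.1 h4
        have := lt_of_mul_lt_mul_left h7 h2.le
        linarith
      · have h7 : (b : ℤ) ^ s * |x.2 - a.2| < (b : ℤ) ^ s * (b : ℤ) ^ (T + 1 - n - w) :=
          lt_of_lt_of_le hx.2 h4
        have := lt_of_mul_lt_mul_left h7 h2.le
        linarith
  exact_mod_cast this

end Pool.Agent.V7H66.AK
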