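import Pool.Agent.V7H66.AK.ArchY

/-!
# Shifted grids: the general inequality
-/

set_option autoImplicit false

open Finset
open scoped Classical

noncomputable section

namespace Pool.Agent.V7H66.AK

theorem archY (ε : ℝ) (hε : 0 < ε) : ∃ c : ℝ, 0 < c ∧ ∃ s₀ : ℕ, ∀ s : ℕ, s₀ ≤ s →
    ∀ b : ℕ, 2 ≤ b → ∀ (M : ℝ), 1 ≤ M → M ≤ ((b : ℝ) ^ s) ^ c →
      ∀ (A : Finset (ℤ × ℤ)), A.Nonempty →
      (1 - ε) * Real.log A.card ≤
        (∑ r ∈ range (b ^ s), Real.log ((A.image (prR (b ^ s) r)).card : ℝ)) /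
          ((b ^ s : ℕ) : ℝ) + cellExcess b s M A := by
  obtain ⟨c, hc, hcε, k, s₀, hk, hpar⟩ := params2 (ε / 2) (by positivity)
  refine ⟨c / 2, by positivity, s₀, fun s hss b hb M hM1 hMR A hA => ?_⟩
  obtain ⟨w, hw, hms, hwc, hpar⟩ := hpar s hss b hb
  have hb0 : 0 < b := by omega
  have hbr : (1:ℝ) ≤ b := by exact_mod_cast hb0
  have hb0r : (0:ℝ) < b := by linarith
  have hM0 : 0 < M := by linarith
  obtain ⟨s', hs'⟩ : ∃ s', s' + w = s := ⟨s - w, by omega⟩
  set m := 2 * k * w with hm
  have hkw : w ≤ k * w := Nat.le_mul_of_pos_left w (by omega)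
  have hwm : w ≤ m := by
    rw [hm, mul_assoc]
    omega
  have hs1 : 1 ≤ s := by omega
  have hs'1 : 1 ≤ s' := by omega
  have hs0 : (0:ℝ) < s := by exact_mod_cast hs1
  have hAc : (0:ℝ) < A.card := by exact_mod_cast card_pos.2 hA
  -- the constant
  have hMb : M * (b : ℝ) ^ w ≤ 36 * ((b : ℝ) ^ s) ^ c := by
    have h1 : (b : ℝ) ^ w ≤ ((b : ℝ) ^ s) ^ (c / 2) := by
      rw [← Real.rpow_natCast, ← Real.rpow_natCast, ← Real.rpow_mul hb0r.le]
      refine Real.rpow_le_rpow_of_exponent_le hbr ?_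
      linarith
    have h2 : ((b : ℝ) ^ s) ^ c = ((b : ℝ) ^ s) ^ (c / 2) * ((b : ℝ) ^ s) ^ (c / 2) := by
      rw [← Real.rpow_add (by positivity)]
      congr 1
      ring
    rw [h2]
    have h3 : M * (b : ℝ) ^ w ≤ ((b : ℝ) ^ s) ^ (c / 2) * ((b : ℝ) ^ s) ^ (c / 2) :=
      mul_le_mul hMR h1 (by positivity) (by positivity)
    have h4 : 0 ≤ ((b : ℝ) ^ s) ^ (c / 2) * ((b : ℝ) ^ s) ^ (c / 2) := by positivity
    linarith
  obtain ⟨K, hK⟩ := exists_size' A
  set T := 2 * K + 1 with hTdef
  have hT : ∀ a ∈ A, ∀ u ∈ A, Clo ((b : ℤ) ^ (T + 1)) a u := by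
    intro a ha u hu
    have h1 := hK a ha
    have h2 := hK u hu
    have h3 : T + 1 < b ^ (T + 1) := Nat.lt_pow_self (by omega)
    have h4 : ((T + 1 : ℕ) : ℤ) < (b : ℤ) ^ (T + 1) := by exact_mod_cast h3
    push_cast at h4
    have h5 : (T : ℤ) = 2 * K + 1 := by rw [hTdef]; push_cast; ring
    rw [h5] at h4
    set X : ℤ := (b : ℤ) ^ (T + 1) with hX
    clear_value X
    unfold Clo
    rw [abs_lt, abs_lt]
    refine ⟨⟨?_, ?_⟩, ⟨?_, ?_⟩⟩ <;> omega
  have hS : (range (b ^ s)).Nonempty := nonempty_range_iff.2 (by positivity)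
  set Z : ℝ := 56 * (s : ℝ) * w / (b : ℝ) ^ w with hZdef
  set mean : ℝ := (∑ r ∈ range (b ^ s), Real.log ((A.image (prR (b ^ s) r)).card : ℝ)) /
    (range (b ^ s)).card with hmean
  have hZc := shifts_card_pos (T := T) hb
  set g : ℕ → ℤ × ℤ → ℕ → ℝ := fun i a t => ballNum b s A a (i + t) with hg
  have hg0 : ∀ i, ∀ a ∈ A, 0 < g i a 0 := fun i a ha =>
    lt_of_lt_of_le one_pos (one_le_ballNum hb ha _)
  set F : ℕ → ℝ := fun i => ∑ a ∈ A, growth b M s (g i a) with hF
  have hF0 : ∀ i, 0 ≤ F i := fun i => sum_nonneg fun a _ => growth_nonneg _ _ _ _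
  have hFz : ∀ i, T + 1 + s ≤ i → F i = 0 := by
    intro i hi
    refine sum_eq_zero fun a ha => growth_zero hbr hM1 (hg0 i a ha) (fun l => Nat.cast_nonneg _) ?_
    intro l _
    have hall : ∀ i', T + 1 + s ≤ i' → ballNum b s A a i' = A.card := by
      intro i' hi'
      unfold ballNum
      rw [filter_true_of_mem]
      intro x hx
      have h1 := hT a ha x hx
      have hbz : (1:ℤ) ≤ (b : ℤ) := by exact_mod_cast hb0
      have h2 : (0:ℤ) < (b : ℤ) ^ s := by positivity
      have h4 : (b : ℤ) ^ s * (b : ℤ) ^ (T + 1) ≤ (b : ℤ) ^ i' := by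
        rw [← pow_add]
        exact pow_le_pow_right₀ hbz (by omega)
      constructor
      · calc (b : ℤ) ^ s * |x.1 - a.1| < (b : ℤ) ^ s * (b : ℤ) ^ (T + 1) :=
            mul_lt_mul_of_pos_left h1.1 h2
          _ ≤ _ := h4
      · calc (b : ℤ) ^ s * |x.2 - a.2| < (b : ℤ) ^ s * (b : ℤ) ^ (T + 1) :=
            mul_lt_mul_of_pos_left h1.2 h2
          _ ≤ _ := h4
    simp only [hg]
    rw [hall _ (by omega), hall _ (by omega)]
  set X : ℝ := ∑' i, F i with hX
  -- one shift
  have one : ∀ z ∈ shifts b T, (A.card : ℝ) * ((1 - w / s - ε / 2 + Z) * Real.log A.card) ≤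
      A.card * mean +
      (∑ n ∈ range (T + 1 + s'), ∑ a ∈ A, (if badY b T s' w z (n + 1) a then
        Real.log (cn (sh b T (vec z)) A (n + 1 - s') a / cn (sh b T (vec z)) A (n + 1) a)
          else 0)) / s + X / s := by
    intro z _
    have key := finY_ineq (sh_nested (b := b) (T := T) (vec z) A) hA (range (b ^ s)) hS
      (prR (b ^ s)) k w b s s' hk hw hb (by omega) (by omega) (by omega) (36 * ((b : ℝ) ^ s) ^ c)
      (M * (b : ℝ) ^ w) (by positivity) hMb (badY b T s' w z)
      (fun n a => growth b M s (g (T + 1 + s' - n) a)) (fun n a _ => growth_nonneg _ _ _ _)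
      (ε / 2) hpar ?_ ?_
    · have hE : ∑ n ∈ range (T + 1 + s'), ∑ a ∈ A, growth b M s (g (T + 1 + s' - (n + 1)) a) ≤
          X := by
        have h1 : ∑ n ∈ range (T + 1 + s'), ∑ a ∈ A, growth b M s (g (T + 1 + s' - (n + 1)) a) =
            ∑ n ∈ range (T + 1 + s'), F n := by
          rw [← sum_range_reflect F (T + 1 + s')]
          refine sum_congr rfl fun n _ => ?_
          simp only [hF]
          have : T + 1 + s' - (n + 1) = T + 1 + s' - 1 - n := by omega
          rw [this]
        rw [h1, hX, ← sum_eq_tsum F (T + 1 + s) hFz]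
        refine sum_le_sum_of_subset_of_nonneg ?_ fun i _ _ => hF0 i
        exact range_subset_range.2 (by omega)
      have hE' := div_le_div_of_nonneg_right hE hs0.le
      refine (key.trans (add_le_add_right hE' _)).trans (le_of_eq ?_)
      congr 1
      congr 1
      · congr 1
        rw [hmean]
        refine congrArg (· / ((range (b ^ s)).card : ℝ)) (sum_congr rfl fun r _ => ?_)
        exact congrArg (fun k : ℕ => Real.log (k : ℝ)) (card_image_irrel _ _ _ _)
      · congr 1
        refine sum_congr rfl fun n _ => ?_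
        rw [sum_filter]
    · intro n a ha x hx hgd l hl1 hl2 hl3 _ hc'
      refine sh_wt hb T (vec z) A s m w n l hwm hl1 (by omega) hl3 a x ?_ hc'
      intro hn hnear
      refine hgd ⟨hn, T + 1 - n + l - 1, ?_, ?_, ?_, ?_, hnear⟩
      · omega
      · omega
      · omega
      · omega
    · intro n a ha hgd l hl1 hl2 hl3
      have hn1 : 1 ≤ n := by omega
      by_cases hn : n ≤ T + 1 + s'
      · have h1 : cn (sh b T (vec z)) A (n - l) a ≤
            ballNum b s A a (T + 1 + s' - n + (l + w)) :=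
          cls_le_ball hb hT (vec z) (Or.inl (by omega)) ha
        have h2 : ballNum b s A a (T + 1 + s' - n) ≤ cn (sh b T (vec z)) A n a :=
          ball_le_cls hb z hs'1 hn1 (Or.inl (by omega)) ha hgd
        have h3 := growth_spec (q := (b : ℝ)) (M := M) (s := s) (g := g (T + 1 + s' - n) a) hb0r hM0
          (hg0 _ a ha) (show l + w ≤ s by omega)
        have h4 : g (T + 1 + s' - n) a 0 = ballNum b s A a (T + 1 + s' - n) := rfl
        have h5 : g (T + 1 + s' - n) a (l + w) = ballNum b s A a (T + 1 + s' - n + (l + w)) := rfl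
        rw [h4, h5] at h3
        calc cn (sh b T (vec z)) A (n - l) a ≤ _ := h1
          _ ≤ _ := h3
          _ ≤ M * (b : ℝ) ^ (l + w) * Real.exp (growth b M s (g (T + 1 + s' - n) a)) *
                cn (sh b T (vec z)) A n a := mul_le_mul_of_nonneg_left h2 (by positivity)
          _ = _ := by rw [pow_add]; ring
      · rw [cn_bot (sh_nested (b := b) (T := T) (vec z) A) (by omega) ha,
          cn_bot (sh_nested (b := b) (T := T) (vec z) A) (by omega) ha, mul_one]
        have h1 : (1:ℝ) ≤ (b : ℝ) ^ w := one_le_pow₀ hbr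
        have h2 : (1:ℝ) ≤ (b : ℝ) ^ l := one_le_pow₀ hbr
        have h3 : (1:ℝ) ≤ Real.exp (growth b M s (g (T + 1 + s' - n) a)) :=
          Real.one_le_exp (growth_nonneg _ _ _ _)
        calc (1:ℝ) = 1 * 1 * 1 * 1 := by norm_num
          _ ≤ M * (b : ℝ) ^ w * (b : ℝ) ^ l * Real.exp (growth b M s (g (T + 1 + s' - n) a)) := by
            gcongr
  have hsum := sum_le_sum one
  rw [sum_const, nsmul_eq_mul, sum_add_distrib, sum_add_distrib, sum_const, nsmul_eq_mul,
    ← sum_div, sum_const, nsmul_eq_mul] at hsum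
  have hbad : ∑ z ∈ shifts b T, ∑ n ∈ range (T + 1 + s'), ∑ a ∈ A,
      (if badY b T s' w z (n + 1) a then
        Real.log (cn (sh b T (vec z)) A (n + 1 - s') a / cn (sh b T (vec z)) A (n + 1) a)
          else 0) ≤
      (shifts b T).card * (A.card * (s * (s * (Real.log A.card * (56 * w / (b : ℝ) ^ w))))) := by
    have e1 : ∑ z ∈ shifts b T, ∑ n ∈ range (T + 1 + s'), ∑ a ∈ A,
      (if badY b T s' w z (n + 1) a then
        Real.log (cn (sh b T (vec z)) A (n + 1 - s') a / cn (sh b T (vec z)) A (n + 1) a)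
          else 0) = ∑ a ∈ A, ∑ z ∈ shifts b T, ∑ n ∈ range (T + 1 + s'),
      (if badY b T s' w z (n + 1) a then
        Real.log (cn (sh b T (vec z)) A (n + 1 - s') a / cn (sh b T (vec z)) A (n + 1) a)
          else 0) := by
      rw [sum_comm (s := A)]
      refine sum_congr rfl fun z _ => ?_
      rw [sum_comm]
    rw [e1]
    refine (sum_le_sum fun a ha => bad_pointY hb hT hw ha).trans ?_
    rw [sum_const, nsmul_eq_mul]
    have hs's : (s' : ℝ) ≤ s := by
      have : s' ≤ s := by omega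
      exact_mod_cast this
    have h0 : 0 ≤ Real.log A.card * (56 * w / (b : ℝ) ^ w) :=
      mul_nonneg (Real.log_natCast_nonneg _) (by positivity)
    have h1 : (s' : ℝ) * (s' * (Real.log A.card * (56 * w / (b : ℝ) ^ w))) ≤
        s * (s * (Real.log A.card * (56 * w / (b : ℝ) ^ w))) :=
      mul_le_mul hs's (mul_le_mul_of_nonneg_right hs's h0) (by positivity) hs0.le
    calc (A.card : ℝ) * ((shifts b T).card * (s' * (s' * (Real.log A.card *
          (56 * w / (b : ℝ) ^ w))))) ≤ (A.card : ℝ) * ((shifts b T).card * (s * (s *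
          (Real.log A.card * (56 * w / (b : ℝ) ^ w))))) := by
          refine mul_le_mul_of_nonneg_left ?_ hAc.le
          exact mul_le_mul_of_nonneg_left h1 hZc.le
      _ = _ := by ring
  have h7 : (A.card : ℝ) * ((1 - w / s - ε / 2 + Z) * Real.log A.card) ≤ A.card * mean +
      A.card * (s * (Real.log A.card * (56 * w / (b : ℝ) ^ w))) + X / s := by
    have h8 := div_le_div_of_nonneg_right hbad hs0.le
    have h9 : ((shifts b T).card : ℝ) * (A.card * (s * (s * (Real.log A.card *
        (56 * w / (b : ℝ) ^ w))))) / s = (shifts b T).card * (A.card * (s * (Real.log A.card *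
        (56 * w / (b : ℝ) ^ w)))) := by
      field_simp
    rw [h9] at h8
    refine le_of_mul_le_mul_left ?_ hZc
    rw [mul_add, mul_add]
    linarith
  have h10 : (s : ℝ) * (Real.log A.card * (56 * w / (b : ℝ) ^ w)) = Z * Real.log A.card := by
    rw [hZdef]
    ring
  rw [h10] at h7
  have hX' : X / s = A.card * cellExcess b s M A := by
    unfold cellExcess
    rw [hX]
    field_simp
    rfl
  rw [hX', ← mul_add, ← mul_add] at h7
  have h11 := le_of_mul_le_mul_left h7 hAc
  have hws : (w : ℝ) / s ≤ ε / 2 := by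
    rw [div_le_iff₀ hs0]
    refine hwc.trans (mul_le_mul_of_nonneg_right ?_ hs0.le)
    linarith
  have h12 : (1 - ε) * Real.log A.card ≤ mean + cellExcess b s M A := by
    have e1 : (1 - w / s - ε / 2 + Z) * Real.log A.card = (1 - w / s - ε / 2) * Real.log A.card +
        Z * Real.log A.card := by
      ring
    have e2 : (1 - ε) * Real.log A.card ≤ (1 - w / s - ε / 2) * Real.log A.card :=
      mul_le_mul_of_nonneg_right (by linarith) (Real.log_natCast_nonneg _)
    linarith
  rw [hmean, card_range] at h12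
  exact h12

end Pool.Agent.V7H66.AK
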