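import Pool.Agent.V7H66.AK.Abs

/-!
# One window: the mean loss of entropy
-/

set_option autoImplicit false

open Finset
open scoped Classical

noncomputable section

namespace Pool.Agent.V7H66.AK

variable {α β ρ χ : Type*}

/-- the projections of the classes of level `n` of `a` and `b` meet -/
def Rel (c : ℕ → α → β) (A : Finset α) (π : ρ → α → χ) (n : ℕ) (r : ρ) (a b : α) : Prop :=
  ∃ x ∈ cls c A n a, ∃ y ∈ cls c A n b, π r x = π r y

/-- the proportion of the slopes for which the projections of the classes meet -/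
def wt (c : ℕ → α → β) (A : Finset α) (π : ρ → α → χ) (S : Finset ρ) (n : ℕ) (a b : α) : ℝ :=
  ((S.filter fun r => Rel c A π n r a b).card : ℝ) / S.card

/-- the points of the class of level `u` of `a` which are not in the class of level `e` -/
def sep (c : ℕ → α → β) (A : Finset α) (u e : ℕ) (a : α) : Finset α :=
  cls c A u a \ cls c A e a

lemma mem_sep {c : ℕ → α → β} {A : Finset α} {u e : ℕ} {a b : α} :
    b ∈ sep c A u e a ↔ b ∈ A ∧ c u b = c u a ∧ c e b ≠ c e a := by
  unfold sep
  rw [mem_sdiff, mem_cls, mem_cls]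
  tauto

lemma sep_symm {c : ℕ → α → β} {A : Finset α} {u e : ℕ} {a b : α} (ha : a ∈ A)
    (hb : b ∈ sep c A u e a) : a ∈ sep c A u e b := by
  rw [mem_sep] at hb ⊢
  exact ⟨ha, hb.2.1.symm, fun h => hb.2.2 h.symm⟩

lemma wt_nonneg (c : ℕ → α → β) (A : Finset α) (π : ρ → α → χ) (S : Finset ρ) (n : ℕ) (a b : α) :
    0 ≤ wt c A π S n a b := by
  unfold wt
  positivity

variable {c : ℕ → α → β} {A : Finset α} {T : ℕ}

lemma block (h : Nested c A T) {u e n : ℕ} (hue : u ≤ e) (hen : e ≤ n) (S : Finset ρ)
    (hS : S.Nonempty) (π : ρ → α → χ) (bad : α → Prop) (θ κ B lam : ℝ) (hθ : 0 ≤ θ) (hκ : 0 ≤ κ)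
    (hB : 0 ≤ B) (hl0 : 0 < lam) (hl1 : lam < 1)
    (H1 : ∀ a ∈ A, ¬ bad a → ∀ b ∈ sep c A u e a, wt c A π S n a b ≤ κ)
    (H2 : ∀ b ∈ A, ∑ a ∈ (sep c A u e b).filter (fun a => ¬ bad a),
      wt c A π S n a b / cn c A n a * (cn c A n a / cn c A u a) ^ θ ≤ B) :
    ∑ a ∈ A, ∑ r ∈ S, Real.log (1 + (((sep c A u e a).filter
        (fun b => Rel c A π n r a b)).card : ℝ) / cn c A n a) ≤
      S.card * (∑ a ∈ A.filter bad, Real.log (cn c A u a / cn c A n a) +
        (θ + κ / lam + (κ / lam + Real.log (1 + B)) / Real.log (1 / lam)) *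
          ∑ a ∈ A, Real.log (cn c A u a / cn c A n a)) := by
  have hun : u ≤ n := hue.trans hen
  have hSc : (0:ℝ) < S.card := by exact_mod_cast card_pos.2 hS
  set N : α → ℝ := fun a => cn c A n a with hN
  set U : α → ℝ := fun a => cn c A u a with hU
  set hh : α → ℝ := fun a => Real.log (U a / N a) with hhh
  set q : ρ → α → ℝ := fun r a => (((sep c A u e a).filter
        (fun b => Rel c A π n r a b)).card : ℝ) with hq
  set heavy : α → Prop := fun a => lam * U a ≤ N a with hheavy
  set ql : ρ → α → ℝ := fun r a => (((sep c A u e a).filter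
        (fun b => Rel c A π n r a b ∧ ¬ heavy b)).card : ℝ) with hql
  set Hr : ρ → α → ℝ := fun r a => ∑ b ∈ (sep c A u e a).filter
        (fun b => Rel c A π n r a b ∧ heavy b), 1 / N b with hHr
  have Npos : ∀ a ∈ A, 0 < N a := fun a ha => cn_pos ha
  have Upos : ∀ a ∈ A, 0 < U a := fun a ha => cn_pos ha
  have NU : ∀ a ∈ A, N a ≤ U a := fun a ha => cn_anti h hun ha
  have hh0 : ∀ a ∈ A, 0 ≤ hh a := fun a ha => Real.log_nonneg (by
    rw [le_div_iff₀ (Npos a ha), one_mul]
    exact NU a ha)
  have ql0 : ∀ r a, 0 ≤ ql r a := fun r a => Nat.cast_nonneg _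
  have Hr0 : ∀ r, ∀ a, 0 ≤ Hr r a := fun r a => sum_nonneg fun b _ => by
    simp only [hN]
    unfold cn
    positivity
  -- c1
  have c1 : ∀ r, ∀ a ∈ A, Real.log (1 + q r a / N a) ≤ hh a := by
    intro r a ha
    have h1 : (sep c A u e a).card + (cls c A n a).card ≤ (cls c A u a).card := by
      rw [← card_union_of_disjoint]
      · refine card_le_card ?_
        intro b hb
        rcases mem_union.1 hb with hb | hb
        · exact (mem_sdiff.1 hb).1
        · exact cls_sub h hun ha hb
      · rw [disjoint_left]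
        intro b hb hb'
        exact (mem_sdiff.1 hb).2 (cls_sub h hen ha hb')
    have h2 : q r a + N a ≤ U a := by
      have h3 : q r a ≤ ((sep c A u e a).card : ℝ) := by
        simp only [hq]
        exact_mod_cast card_le_card (filter_subset _ _)
      have h4 : ((sep c A u e a).card : ℝ) + N a ≤ U a := by
        simp only [hN, hU]
        unfold cn
        exact_mod_cast h1
      linarith
    have hq0 : 0 ≤ q r a := Nat.cast_nonneg _
    refine Real.log_le_log ?_ ?_
    · have := div_nonneg hq0 (Npos a ha).le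
      linarith
    · rw [le_div_iff₀ (Npos a ha), add_mul, one_mul, div_mul_cancel₀ _ (Npos a ha).ne']
      linarith
  -- c2
  have c2 : ∀ r, ∀ a ∈ A, Real.log (1 + q r a / N a) ≤ Hr r a * hh a + Real.log (1 + ql r a / N a) := by
    intro r a ha
    have hlog0 : 0 ≤ Real.log (1 + ql r a / N a) := Real.log_nonneg (by
      have := div_nonneg (ql0 r a) (Npos a ha).le
      linarith)
    by_cases hex : ∃ b ∈ sep c A u e a, Rel c A π n r a b ∧ heavy b
    · obtain ⟨b, hb, hrel, hhv⟩ := hex
      have hb' := mem_sep.1 hb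
      have h1 : 1 ≤ Hr r a := by
        simp only [hHr]
        calc (1:ℝ) = ∑ x ∈ cls c A n b, 1 / N x := (sum_inv_cls hb'.1).symm
          _ ≤ _ := by
            refine sum_le_sum_of_subset_of_nonneg ?_ ?_
            · intro x hx
              have hx' := mem_cls.1 hx
              rw [mem_filter, mem_sep]
              refine ⟨⟨hx'.1, ?_, ?_⟩, ?_, ?_⟩
              · rw [← hb'.2.1]
                exact h.le hun hx'.1 hb'.1 hx'.2
              · rw [h.le hen hx'.1 hb'.1 hx'.2]
                exact hb'.2.2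
              · obtain ⟨x1, hx1, y1, hy1, hxy⟩ := hrel
                refine ⟨x1, hx1, y1, ?_, hxy⟩
                rw [cls_eq hx'.2]
                exact hy1
              · simp only [hheavy, hU, hN] at hhv ⊢
                rw [cn_eq (h.le hun hx'.1 hb'.1 hx'.2), cn_eq hx'.2]
                exact hhv
            · intro x hx _
              have hx' := mem_sep.1 (mem_filter.1 hx).1
              exact div_nonneg zero_le_one (Npos x hx'.1).le
      have h2 : hh a ≤ Hr r a * hh a := by
        have := mul_le_mul_of_nonneg_right h1 (hh0 a ha)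
        linarith
      have := c1 r a ha
      linarith
    · have h1 : q r a = ql r a := by
        simp only [hq, hql]
        congr 2
        refine filter_congr fun b hb => ?_
        constructor
        · intro h'
          exact ⟨h', fun h'' => hex ⟨b, hb, h', h''⟩⟩
        · intro h'
          exact h'.1
      rw [h1]
      have := mul_nonneg (Hr0 r a) (hh0 a ha)
      linarith
  -- c3
  have c3 : ∀ a ∈ A, ¬ bad a → ∑ r ∈ S, Hr r a ≤ S.card * (κ / lam) := by
    intro a ha hg
    have h1 : ∑ r ∈ S, Hr r a = ∑ b ∈ (sep c A u e a).filter heavy,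
        ((S.filter fun r => Rel c A π n r a b).card : ℝ) / N b := by
      have e1 : ∀ r ∈ S, Hr r a = ∑ b ∈ (sep c A u e a).filter heavy,
          if Rel c A π n r a b then 1 / N b else 0 := by
        intro r _
        simp only [hHr]
        rw [← sum_filter, filter_filter]
        refine sum_congr ?_ fun _ _ => rfl
        refine filter_congr fun b _ => ?_
        tauto
      rw [sum_congr rfl e1, sum_comm]
      refine sum_congr rfl fun b _ => ?_
      rw [← sum_filter, sum_const, nsmul_eq_mul]
      ring
    rw [h1]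
    have h2 : ∀ b ∈ (sep c A u e a).filter heavy,
        ((S.filter fun r => Rel c A π n r a b).card : ℝ) / N b ≤ S.card * κ * (1 / (lam * U a)) := by
      intro b hb
      have hb1 := mem_filter.1 hb
      have hb2 := mem_sep.1 hb1.1
      have h3 := H1 a ha hg b hb1.1
      unfold wt at h3
      rw [div_le_iff₀ hSc] at h3
      have hUb : U b = U a := by
        simp only [hU]
        exact cn_eq hb2.2.1
      have h4 : lam * U a ≤ N b := by
        have := hb1.2
        simp only [hheavy] at this
        rw [← hUb]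
        exact this
      have h5 : 0 < lam * U a := mul_pos hl0 (Upos a ha)
      rw [div_eq_mul_one_div]
      refine mul_le_mul ?_ ?_ ?_ ?_
      · linarith
      · exact one_div_le_one_div_of_le h5 h4
      · exact div_nonneg zero_le_one (Npos b hb2.1).le
      · positivity
    refine (sum_le_sum h2).trans ?_
    rw [sum_const, nsmul_eq_mul]
    have h6 : (((sep c A u e a).filter heavy).card : ℝ) ≤ U a := by
      simp only [hU]
      unfold cn
      have : ((sep c A u e a).filter heavy).card ≤ (cls c A u a).card :=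
        card_le_card (fun b hb => (mem_sdiff.1 (mem_filter.1 hb).1).1)
      exact_mod_cast this
    have h7 : 0 < U a := Upos a ha
    calc (((sep c A u e a).filter heavy).card : ℝ) * (S.card * κ * (1 / (lam * U a)))
        ≤ U a * (S.card * κ * (1 / (lam * U a))) := by
          refine mul_le_mul_of_nonneg_right h6 ?_
          positivity
      _ = S.card * (κ / lam) := by
          field_simp
  set L : ℝ := ((A.filter fun a => ¬ heavy a).card : ℝ) with hL
  have L0 : 0 ≤ L := Nat.cast_nonneg _
  -- sum over r of ql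
  have sql : ∀ a, ∑ r ∈ S, ql r a = ∑ b ∈ (sep c A u e a).filter (fun b => ¬ heavy b),
      S.card * wt c A π S n a b := by
    intro a
    have e1 : ∀ r ∈ S, ql r a = ∑ b ∈ (sep c A u e a).filter (fun b => ¬ heavy b),
        if Rel c A π n r a b then (1:ℝ) else 0 := by
      intro r _
      simp only [hql]
      rw [← sum_filter, filter_filter, sum_const, nsmul_eq_mul, mul_one]
      congr 2
      refine filter_congr fun b _ => ?_
      tauto
    rw [sum_congr rfl e1, sum_comm]
    refine sum_congr rfl fun b _ => ?_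
    rw [← sum_filter, sum_const, nsmul_eq_mul, mul_one]
    unfold wt
    rw [mul_div_cancel₀ _ hSc.ne']
  -- swapping
  have swap : ∀ (p : α → Prop) [DecidablePred p] (f : α → ℝ), ∑ a ∈ A.filter p,
      ∑ b ∈ (sep c A u e a).filter (fun b => ¬ heavy b), S.card * wt c A π S n a b * f a =
      ∑ b ∈ A.filter (fun b => ¬ heavy b), ∑ a ∈ (sep c A u e b).filter p,
        S.card * wt c A π S n a b * f a := by
    intro p _ f
    have e1 : ∀ a ∈ A.filter p, ∑ b ∈ (sep c A u e a).filter (fun b => ¬ heavy b),
        S.card * wt c A π S n a b * f a = ∑ b ∈ A.filter (fun b => ¬ heavy b),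
          if b ∈ sep c A u e a then S.card * wt c A π S n a b * f a else 0 := by
      intro a _
      rw [← sum_filter]
      refine sum_congr ?_ fun _ _ => rfl
      ext b
      simp only [mem_filter]
      constructor
      · rintro ⟨h1, h2⟩
        exact ⟨⟨(mem_sep.1 h1).1, h2⟩, h1⟩
      · rintro ⟨⟨_, h2⟩, h1⟩
        exact ⟨h1, h2⟩
    rw [sum_congr rfl e1, sum_comm]
    refine sum_congr rfl fun b hb => ?_
    rw [← sum_filter]
    refine sum_congr ?_ fun _ _ => rfl
    have hbA := (mem_filter.1 hb).1
    ext a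
    simp only [mem_filter]
    constructor
    · rintro ⟨⟨h1, h2⟩, h3⟩
      exact ⟨sep_symm h1 h3, h2⟩
    · rintro ⟨h1, h2⟩
      exact ⟨⟨(mem_sep.1 h1).1, h2⟩, sep_symm hbA h1⟩
  -- c4
  have c4 : ∑ a ∈ A.filter (fun a => ¬ bad a ∧ heavy a), ∑ r ∈ S, Real.log (1 + ql r a / N a) ≤
      S.card * (κ / lam * L) := by
    have h1 : ∀ a ∈ A.filter (fun a => ¬ bad a ∧ heavy a), ∑ r ∈ S, Real.log (1 + ql r a / N a) ≤
        ∑ b ∈ (sep c A u e a).filter (fun b => ¬ heavy b), S.card * wt c A π S n a b * (1 / N a) := by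
      intro a ha
      have haA := (mem_filter.1 ha).1
      calc ∑ r ∈ S, Real.log (1 + ql r a / N a) ≤ ∑ r ∈ S, ql r a / N a := by
            refine sum_le_sum fun r _ => ?_
            have h2 := div_nonneg (ql0 r a) (Npos a haA).le
            have := Real.log_le_sub_one_of_pos (show 0 < 1 + ql r a / N a by linarith)
            linarith
        _ = _ := by
            rw [← sum_div, sql a, sum_div]
            refine sum_congr rfl fun b _ => ?_
            ring
    refine (sum_le_sum h1).trans ?_
    rw [swap (fun a => ¬ bad a ∧ heavy a) (fun a => 1 / N a)]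
    have h3 : ∀ b ∈ A.filter (fun b => ¬ heavy b),
        ∑ a ∈ (sep c A u e b).filter (fun a => ¬ bad a ∧ heavy a),
          S.card * wt c A π S n a b * (1 / N a) ≤ S.card * (κ / lam) := by
      intro b hb
      have hbA := (mem_filter.1 hb).1
      have h4 : ∀ a ∈ (sep c A u e b).filter (fun a => ¬ bad a ∧ heavy a),
          S.card * wt c A π S n a b * (1 / N a) ≤ S.card * κ * (1 / (lam * U b)) := by
        intro a ha
        have ha1 := mem_filter.1 ha
        have ha2 := mem_sep.1 ha1.1
        have h5 := H1 a ha2.1 ha1.2.1 b (sep_symm hbA ha1.1)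
        have hUa : U a = U b := by
          simp only [hU]
          exact cn_eq ha2.2.1
        have h6 : lam * U b ≤ N a := by
          have := ha1.2.2
          simp only [hheavy] at this
          rw [← hUa]
          exact this
        have h7 : 0 < lam * U b := mul_pos hl0 (Upos b hbA)
        refine mul_le_mul ?_ ?_ ?_ ?_
        · exact mul_le_mul_of_nonneg_left h5 hSc.le
        · exact one_div_le_one_div_of_le h7 h6
        · exact div_nonneg zero_le_one (Npos a ha2.1).le
        · positivity
      refine (sum_le_sum h4).trans ?_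
      rw [sum_const, nsmul_eq_mul]
      have h8 : (((sep c A u e b).filter (fun a => ¬ bad a ∧ heavy a)).card : ℝ) ≤ U b := by
        simp only [hU]
        unfold cn
        have : ((sep c A u e b).filter (fun a => ¬ bad a ∧ heavy a)).card ≤ (cls c A u b).card :=
          card_le_card (fun x hx => (mem_sdiff.1 (mem_filter.1 hx).1).1)
        exact_mod_cast this
      have h9 : 0 < U b := Upos b hbA
      calc (((sep c A u e b).filter (fun a => ¬ bad a ∧ heavy a)).card : ℝ) *
            (S.card * κ * (1 / (lam * U b)))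
          ≤ U b * (S.card * κ * (1 / (lam * U b))) := by
            refine mul_le_mul_of_nonneg_right h8 ?_
            positivity
        _ = S.card * (κ / lam) := by
            field_simp
    refine (sum_le_sum h3).trans ?_
    rw [sum_const, nsmul_eq_mul]
    simp only [hL]
    exact le_of_eq (by ring)
  -- c5
  have hlogB : 0 ≤ Real.log (1 + B) := Real.log_nonneg (by linarith)
  have h1B : (0:ℝ) < 1 + B := by linarith
  have c5 : ∑ a ∈ A.filter (fun a => ¬ bad a ∧ ¬ heavy a), ∑ r ∈ S, Real.log (1 + ql r a / N a) ≤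
      S.card * (L * Real.log (1 + B) + θ * ∑ a ∈ A, hh a) := by
    set G : ℝ := ((A.filter fun a => ¬ bad a ∧ ¬ heavy a).card : ℝ) with hG
    have hGL : G ≤ L := by
      simp only [hG, hL]
      have : (A.filter fun a => ¬ bad a ∧ ¬ heavy a).card ≤ (A.filter fun a => ¬ heavy a).card :=
        card_le_card (fun a ha => by
          rw [mem_filter] at ha ⊢
          exact ⟨ha.1, ha.2.2⟩)
      exact_mod_cast this
    set f : α → ℝ := fun a => (1 / N a) * (N a / U a) ^ θ / (1 + B) with hf
    have h1 : ∀ a ∈ A.filter (fun a => ¬ bad a ∧ ¬ heavy a),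
        ∑ r ∈ S, Real.log (1 + ql r a / N a) ≤
        S.card * (Real.log (1 + B) + 1 / (1 + B) - 1) + S.card * (θ * hh a) +
        ∑ b ∈ (sep c A u e a).filter (fun b => ¬ heavy b), S.card * wt c A π S n a b * f a := by
      intro a ha
      have haA := (mem_filter.1 ha).1
      have hNU : 0 < N a / U a := div_pos (Npos a haA) (Upos a haA)
      have hNU1 : N a / U a ≤ 1 := by
        rw [div_le_one (Upos a haA)]
        exact NU a haA
      have hy0 : 0 < (N a / U a) ^ θ := Real.rpow_pos_of_pos hNU θ
      have hy1 : (N a / U a) ^ θ ≤ 1 := Real.rpow_le_one hNU.le hNU1 hθ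
      have hlogy : Real.log ((N a / U a) ^ θ) = - (θ * hh a) := by
        rw [Real.log_rpow hNU]
        simp only [hhh]
        rw [Real.log_div (Npos a haA).ne' (Upos a haA).ne',
          Real.log_div (Upos a haA).ne' (Npos a haA).ne']
        ring
      set y := (N a / U a) ^ θ with hy
      have h2 : ∀ r ∈ S, Real.log (1 + ql r a / N a) ≤
          (Real.log (1 + B) + 1 / (1 + B) - 1) + θ * hh a + ql r a * f a := by
        intro r _
        have h30 := div_nonneg (ql0 r a) (Npos a haA).le
        have h3 : 0 < 1 + ql r a / N a := by linarith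
        have h5 := Real.log_le_sub_one_of_pos (mul_pos h3 (div_pos hy0 h1B))
        rw [Real.log_mul h3.ne' (div_pos hy0 h1B).ne', Real.log_div hy0.ne' h1B.ne', hlogy] at h5
        have h6 : (1 + ql r a / N a) * (y / (1 + B)) = y / (1 + B) + ql r a * f a := by
          simp only [hf]
          ring
        rw [h6] at h5
        have h7 : y / (1 + B) ≤ 1 / (1 + B) := div_le_div_of_nonneg_right hy1 h1B.le
        linarith
      refine (sum_le_sum h2).trans (le_of_eq ?_)
      rw [sum_add_distrib, sum_const, nsmul_eq_mul, ← sum_mul, sql a, sum_mul, mul_add]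
    refine (sum_le_sum h1).trans ?_
    rw [sum_add_distrib, sum_add_distrib, sum_const, nsmul_eq_mul,
      swap (fun a => ¬ bad a ∧ ¬ heavy a) f]
    have f0 : ∀ a ∈ A, 0 ≤ f a := fun a ha => by
      simp only [hf]
      have := Npos a ha
      have := Upos a ha
      positivity
    have h7 : ∀ b ∈ A.filter (fun b => ¬ heavy b),
        ∑ a ∈ (sep c A u e b).filter (fun a => ¬ bad a ∧ ¬ heavy a),
          S.card * wt c A π S n a b * f a ≤ S.card * (B / (1 + B)) := by
      intro b hb
      have hbA := (mem_filter.1 hb).1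
      calc ∑ a ∈ (sep c A u e b).filter (fun a => ¬ bad a ∧ ¬ heavy a),
            S.card * wt c A π S n a b * f a
          ≤ ∑ a ∈ (sep c A u e b).filter (fun a => ¬ bad a), S.card * wt c A π S n a b * f a := by
            refine sum_le_sum_of_subset_of_nonneg ?_ ?_
            · intro a ha
              rw [mem_filter] at ha ⊢
              exact ⟨ha.1, ha.2.1⟩
            · intro a ha _
              have ha2 := mem_sep.1 (mem_filter.1 ha).1
              exact mul_nonneg (mul_nonneg hSc.le (wt_nonneg _ _ _ _ _ _ _)) (f0 a ha2.1)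
        _ = S.card * ((∑ a ∈ (sep c A u e b).filter (fun a => ¬ bad a),
              wt c A π S n a b / N a * (N a / U a) ^ θ) / (1 + B)) := by
            rw [sum_div, mul_sum]
            refine sum_congr rfl fun a _ => ?_
            simp only [hf]
            ring
        _ ≤ S.card * (B / (1 + B)) := by
            refine mul_le_mul_of_nonneg_left ?_ hSc.le
            exact div_le_div_of_nonneg_right (H2 b hbA) h1B.le
    have h8 := sum_le_sum h7
    rw [sum_const, nsmul_eq_mul] at h8
    have h11 : B / (1 + B) ≤ Real.log (1 + B) := by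
      have h12 := Real.log_le_sub_one_of_pos (show 0 < 1 / (1 + B) by positivity)
      rw [one_div, Real.log_inv] at h12
      have h13 : B / (1 + B) = 1 - (1 + B)⁻¹ := by
        field_simp
        ring
      rw [h13]
      linarith
    have h16 : G * (S.card * (Real.log (1 + B) + 1 / (1 + B) - 1)) =
        S.card * (G * (Real.log (1 + B) - B / (1 + B))) := by
      have h15 : (1:ℝ) / (1 + B) - 1 = - (B / (1 + B)) := by
        field_simp
        ring
      have : Real.log (1 + B) + 1 / (1 + B) - 1 = Real.log (1 + B) - B / (1 + B) := by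
        linarith
      rw [this]
      ring
    have h17 : G * (Real.log (1 + B) - B / (1 + B)) ≤ L * (Real.log (1 + B) - B / (1 + B)) :=
      mul_le_mul_of_nonneg_right hGL (by linarith)
    have h18 : ∑ a ∈ A.filter (fun a => ¬ bad a ∧ ¬ heavy a), S.card * (θ * hh a) ≤
        S.card * (θ * ∑ a ∈ A, hh a) := by
      rw [← mul_sum, ← mul_sum]
      refine mul_le_mul_of_nonneg_left ?_ hSc.le
      refine mul_le_mul_of_nonneg_left ?_ hθ
      exact sum_le_sum_of_subset_of_nonneg (filter_subset _ _) fun a ha _ => hh0 a ha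
    calc _ ≤ G * (S.card * (Real.log (1 + B) + 1 / (1 + B) - 1)) +
          S.card * (θ * ∑ a ∈ A, hh a) + L * (S.card * (B / (1 + B))) :=
          add_le_add (add_le_add le_rfl h18) h8
      _ = S.card * (G * (Real.log (1 + B) - B / (1 + B)) + L * (B / (1 + B)) +
            θ * ∑ a ∈ A, hh a) := by
          rw [h16]
          ring
      _ ≤ S.card * (L * (Real.log (1 + B) - B / (1 + B)) + L * (B / (1 + B)) +
            θ * ∑ a ∈ A, hh a) := by
          refine mul_le_mul_of_nonneg_left ?_ hSc.le
          linarith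
      _ = _ := by ring
  -- c6
  have hlogl : 0 < Real.log (1 / lam) := Real.log_pos (by
    rw [lt_div_iff₀ hl0, one_mul]
    exact hl1)
  have c6 : L * Real.log (1 / lam) ≤ ∑ a ∈ A, hh a := by
    calc L * Real.log (1 / lam) = ∑ a ∈ A.filter (fun a => ¬ heavy a), Real.log (1 / lam) := by
          rw [sum_const, nsmul_eq_mul]
      _ ≤ ∑ a ∈ A.filter (fun a => ¬ heavy a), hh a := by
          refine sum_le_sum fun a ha => ?_
          have ha1 := mem_filter.1 ha
          have h1 : N a < lam * U a := not_le.1 ha1.2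
          refine Real.log_le_log (by positivity) ?_
          rw [div_le_div_iff₀ hl0 (Npos a ha1.1)]
          linarith
      _ ≤ ∑ a ∈ A, hh a :=
          sum_le_sum_of_subset_of_nonneg (filter_subset _ _) fun a ha _ => hh0 a ha
  -- assembly
  have a1 : ∑ a ∈ A, ∑ r ∈ S, Real.log (1 + q r a / N a) =
      ∑ a ∈ A.filter bad, ∑ r ∈ S, Real.log (1 + q r a / N a) +
      ∑ a ∈ A.filter (fun a => ¬ bad a), ∑ r ∈ S, Real.log (1 + q r a / N a) :=
    (sum_filter_add_sum_filter_not _ _ _).symm
  have a2 : ∑ a ∈ A.filter bad, ∑ r ∈ S, Real.log (1 + q r a / N a) ≤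
      S.card * ∑ a ∈ A.filter bad, hh a := by
    rw [mul_sum]
    refine sum_le_sum fun a ha => ?_
    calc ∑ r ∈ S, Real.log (1 + q r a / N a) ≤ ∑ r ∈ S, hh a :=
          sum_le_sum fun r _ => c1 r a (mem_filter.1 ha).1
      _ = _ := by rw [sum_const, nsmul_eq_mul]
  have a3 : ∑ a ∈ A.filter (fun a => ¬ bad a), ∑ r ∈ S, Real.log (1 + q r a / N a) ≤
      ∑ a ∈ A.filter (fun a => ¬ bad a), (S.card * (κ / lam) * hh a) +
      ∑ a ∈ A.filter (fun a => ¬ bad a), ∑ r ∈ S, Real.log (1 + ql r a / N a) := by
    rw [← sum_add_distrib]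
    refine sum_le_sum fun a ha => ?_
    have ha1 := mem_filter.1 ha
    calc ∑ r ∈ S, Real.log (1 + q r a / N a)
        ≤ ∑ r ∈ S, (Hr r a * hh a + Real.log (1 + ql r a / N a)) :=
          sum_le_sum fun r _ => c2 r a ha1.1
      _ = (∑ r ∈ S, Hr r a) * hh a + ∑ r ∈ S, Real.log (1 + ql r a / N a) := by
          rw [sum_add_distrib, sum_mul]
      _ ≤ _ := add_le_add (mul_le_mul_of_nonneg_right (c3 a ha1.1 ha1.2) (hh0 a ha1.1)) le_rfl
  have a4 : ∑ a ∈ A.filter (fun a => ¬ bad a), (S.card * (κ / lam) * hh a) ≤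
      S.card * (κ / lam) * ∑ a ∈ A, hh a := by
    rw [← mul_sum]
    refine mul_le_mul_of_nonneg_left ?_ (by positivity)
    exact sum_le_sum_of_subset_of_nonneg (filter_subset _ _) fun a ha _ => hh0 a ha
  have a5 : ∑ a ∈ A.filter (fun a => ¬ bad a), ∑ r ∈ S, Real.log (1 + ql r a / N a) =
      ∑ a ∈ A.filter (fun a => ¬ bad a ∧ heavy a), ∑ r ∈ S, Real.log (1 + ql r a / N a) +
      ∑ a ∈ A.filter (fun a => ¬ bad a ∧ ¬ heavy a), ∑ r ∈ S, Real.log (1 + ql r a / N a) := by
    rw [← sum_filter_add_sum_filter_not (A.filter fun a => ¬ bad a) heavy, filter_filter,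
      filter_filter]
  have a6 : κ / lam * L + L * Real.log (1 + B) ≤
      (κ / lam + Real.log (1 + B)) / Real.log (1 / lam) * ∑ a ∈ A, hh a := by
    have h1 : 0 ≤ κ / lam + Real.log (1 + B) := by positivity
    calc κ / lam * L + L * Real.log (1 + B) =
          (κ / lam + Real.log (1 + B)) / Real.log (1 / lam) * (L * Real.log (1 / lam)) := by
          field_simp
      _ ≤ _ := mul_le_mul_of_nonneg_left c6 (div_nonneg h1 hlogl.le)
  change ∑ a ∈ A, ∑ r ∈ S, Real.log (1 + q r a / N a) ≤ S.card * (∑ a ∈ A.filter bad, hh a +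
    (θ + κ / lam + (κ / lam + Real.log (1 + B)) / Real.log (1 / lam)) * ∑ a ∈ A, hh a)
  have a7 := mul_le_mul_of_nonneg_left a6 hSc.le
  have e1 : (S.card : ℝ) * (∑ a ∈ A.filter bad, hh a +
      (θ + κ / lam + (κ / lam + Real.log (1 + B)) / Real.log (1 / lam)) * ∑ a ∈ A, hh a) =
      S.card * ∑ a ∈ A.filter bad, hh a + S.card * (κ / lam) * ∑ a ∈ A, hh a +
      S.card * ((κ / lam + Real.log (1 + B)) / Real.log (1 / lam) * ∑ a ∈ A, hh a) +
      S.card * (θ * ∑ a ∈ A, hh a) := by
    ring
  have e2 : (S.card : ℝ) * (κ / lam * L + L * Real.log (1 + B)) =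
      S.card * (κ / lam * L) + S.card * (L * Real.log (1 + B)) := by ring
  rw [mul_add] at c5
  rw [e2] at a7
  rw [e1, a1]
  linarith

end Pool.Agent.V7H66.AK
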