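import Pool.Agent.V7H66.AK.Arch4
import Pool.Agent.V7H66.AK.Padic

/-!
# Consequences for the arithmetic Kakeya conjecture
-/

set_option autoImplicit false

open Finset

noncomputable section

namespace Pool.Agent.V7H66.AK

/-- the projection `π_r(A)` -/
def proj (r : ℚ) (A : Finset (ℤ × ℤ)) : Finset ℚ :=
  A.image (fun p : ℤ × ℤ => (p.1 : ℚ) + r * (p.2 : ℚ))

/-- the projection `π_∞(A)` -/
def projInf (A : Finset (ℤ × ℤ)) : Finset ℚ := A.image (fun p : ℤ × ℤ => (p.2 : ℚ))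

/-- the largest size of a projection of `A` with slope `∞` or in `S` -/
def big (S : Finset ℚ) (A : Finset (ℤ × ℤ)) : ℕ :=
  max (projInf A).card (S.sup fun r => (proj r A).card)

lemma card_proj_R {R : ℕ} (hR : 0 < R) (r : ℕ) (A : Finset (ℤ × ℤ)) :
    (proj ((r : ℚ) / R) A).card = (A.image (prR R r)).card := by
  have hR' : (R : ℚ) ≠ 0 := by positivity
  have h : proj ((r : ℚ) / R) A = (A.image (prR R r)).image (fun v : ℤ => (v : ℚ) / R) := by
    unfold proj
    rw [image_image]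
    refine image_congr fun p _ => ?_
    simp only [Function.comp_apply]
    unfold prR
    push_cast
    field_simp
  rw [h, card_image_of_injective]
  intro v v' hv
  simp only at hv
  rw [div_left_inj' hR'] at hv
  exact_mod_cast hv

lemma card_proj_N (r : ℕ) (A : Finset (ℤ × ℤ)) :
    (proj (r : ℚ) A).card = (A.image (prN r)).card := by
  have h : proj (r : ℚ) A = (A.image (prN r)).image (fun v : ℤ => (v : ℚ)) := by
    unfold proj
    rw [image_image]
    refine image_congr fun p _ => ?_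
    simp only [Function.comp_apply]
    unfold prN
    push_cast
    ring
  rw [h, card_image_of_injective _ Int.cast_injective]

lemma geo {A : Finset (ℤ × ℤ)} (hA : A.Nonempty) {R : ℕ} (f : ℕ → ℝ) (hf : ∀ r ∈ range R, 0 < f r)
    (δ : ℝ) (h : δ * Real.log A.card ≤ (∑ r ∈ range R, Real.log (f r)) / R) :
    (A.card : ℝ) ^ δ ≤ (∏ r ∈ range R, f r) ^ (1 / (R : ℝ)) := by
  have hAc : (0:ℝ) < A.card := by exact_mod_cast card_pos.2 hA
  have hP : 0 < ∏ r ∈ range R, f r := prod_pos hf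
  rw [Real.rpow_def_of_pos hAc, Real.rpow_def_of_pos hP]
  refine Real.exp_le_exp.2 ?_
  rw [Real.log_prod (fun r hr => (hf r hr).ne')]
  rw [mul_comm, mul_one_div]
  exact h

theorem arch_geo (ε : ℝ) (hε : 0 < ε) : ∃ c : ℝ, 0 < c ∧ ∃ s₀ : ℕ, ∀ s : ℕ, s₀ ≤ s →
    ∀ b : ℕ, 2 ≤ b → ∀ (d : ℝ) (A : Finset (ℤ × ℤ)), 1 ≤ d → A.Nonempty →
      CellDimLE b s (((b : ℝ) ^ s) ^ c) d A →
      (A.card : ℝ) ^ (1 / d - ε) ≤
        (∏ r ∈ range (b ^ s), ((proj ((r : ℚ) / ((b ^ s : ℕ) : ℚ)) A).card : ℝ)) ^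
          (1 / ((b ^ s : ℕ) : ℝ)) := by
  obtain ⟨c, hc, s₀, h⟩ := arch ε hε
  refine ⟨c, hc, s₀, fun s hs b hb d A hd hA hdim => geo hA _ (fun r _ => ?_) _ ?_⟩
  · have : 0 < (proj ((r : ℚ) / ((b ^ s : ℕ) : ℚ)) A).card := card_pos.2 (hA.image _)
    exact_mod_cast this
  · refine (h s hs b hb d A hd hA hdim).trans (le_of_eq ?_)
    congr 1
    refine sum_congr rfl fun r _ => ?_
    have hb0 : 0 < b := by omega
    rw [card_proj_R (by positivity : 0 < b ^ s)]

theorem padic_geo (ε : ℝ) (hε : 0 < ε) : ∃ c : ℝ, 0 < c ∧ ∃ s₀ : ℕ, ∀ s : ℕ, s₀ ≤ s →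
    ∀ p : ℕ, p.Prime → ∀ (d : ℝ) (A : Finset (ℤ × ℤ)), 1 ≤ d → A.Nonempty →
      ResDimLE p s (((p : ℝ) ^ s) ^ c) d A →
      (A.card : ℝ) ^ (1 / d - ε) ≤
        (∏ r ∈ range (p ^ s), ((proj (r : ℚ) A).card : ℝ)) ^ (1 / ((p ^ s : ℕ) : ℝ)) := by
  obtain ⟨c, hc, s₀, h⟩ := padic ε hε
  refine ⟨c, hc, s₀, fun s hs p hp d A hd hA hdim => geo hA _ (fun r _ => ?_) _ ?_⟩
  · have : 0 < (proj (r : ℚ) A).card := card_pos.2 (hA.image _)
    exact_mod_cast this
  · refine (h s hs p hp d A hd hA hdim).trans (le_of_eq ?_)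
    congr 1
    refine sum_congr rfl fun r _ => ?_
    rw [card_proj_N]

/-- one slope from the geometric mean -/
lemma big_of_geo {R : ℕ} (hR : 0 < R) (g : ℕ → ℚ) {A : Finset (ℤ × ℤ)} {x : ℝ}
    (h : x ≤ (∏ r ∈ range R, ((proj (g r) A).card : ℝ)) ^ (1 / (R : ℝ))) :
    x ≤ (big ((range R).image g) A : ℝ) := by
  refine h.trans ?_
  set M := big ((range R).image g) A with hM
  have h1 : ∏ r ∈ range R, ((proj (g r) A).card : ℝ) ≤ (M : ℝ) ^ R := by
    calc ∏ r ∈ range R, ((proj (g r) A).card : ℝ) ≤ ∏ _r ∈ range R, (M : ℝ) := by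
          refine prod_le_prod (fun _ _ => Nat.cast_nonneg _) fun r hr => ?_
          have : (proj (g r) A).card ≤ M := by
            rw [hM]
            unfold big
            exact le_max_of_le_right (le_sup (f := fun r => (proj r A).card)
              (mem_image_of_mem g hr))
          exact_mod_cast this
      _ = (M : ℝ) ^ R := by rw [prod_const, card_range]
  have hR0 : (R : ℝ) ≠ 0 := by positivity
  calc (∏ r ∈ range R, ((proj (g r) A).card : ℝ)) ^ (1 / (R : ℝ)) ≤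
        ((M : ℝ) ^ R) ^ (1 / (R : ℝ)) :=
        Real.rpow_le_rpow (prod_nonneg fun _ _ => Nat.cast_nonneg _) h1 (by positivity)
    _ = M := by
        rw [← Real.rpow_natCast, ← Real.rpow_mul (Nat.cast_nonneg _), mul_one_div_cancel hR0,
          Real.rpow_one]

lemma big_mono {S S' : Finset ℚ} (h : S ⊆ S') (A : Finset (ℤ × ℤ)) : big S A ≤ big S' A := by
  unfold big
  exact max_le_max le_rfl (sup_mono h)

lemma one_le_big (S : Finset ℚ) {A : Finset (ℤ × ℤ)} (hA : A.Nonempty) : 1 ≤ big S A := by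
  unfold big
  refine le_max_of_le_left ?_
  exact card_pos.2 (hA.image _)

/-- from the exponent `d` for `A` to the inequality of the conjecture -/
lemma conj_of_exponent {S : Finset ℚ} {A : Finset (ℤ × ℤ)} {d e ε η : ℝ} (he0 : 0 < e)
    (he1 : e ≤ 1) (heε : e ≤ ε) (hη : η ≤ e / 8) (hd : 1 ≤ d) (hd2 : d ≤ 2) (hA : A.Nonempty)
    (h : (A.card : ℝ) ^ (1 / d - e / 16) ≤ (big S A : ℝ))
    (hcard : ((proj (-1) A).card : ℝ) ^ (d - η) ≤ A.card) :
    ((proj (-1) A).card : ℝ) ≤ (big S A : ℝ) ^ (1 + ε) := by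
  set B : ℝ := (big S A : ℝ) with hB
  have hB1 : 1 ≤ B := by
    have := one_le_big S hA
    rw [hB]
    exact_mod_cast this
  set X : ℝ := ((proj (-1) A).card : ℝ) with hX
  have hX1 : 1 ≤ X := by
    have : 0 < (proj (-1) A).card := card_pos.2 (hA.image _)
    rw [hX]
    exact_mod_cast this
  have hX0 : 0 < X := by linarith
  have hd0 : 0 < d := by linarith
  have hexp : 0 ≤ 1 / d - e / 16 := by
    have : 1 / 2 ≤ 1 / d := one_div_le_one_div_of_le hd0 hd2
    linarith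
  have h2 : X ^ ((d - η) * (1 / d - e / 16)) ≤ B := by
    rw [Real.rpow_mul hX0.le]
    exact (Real.rpow_le_rpow (by positivity) hcard hexp).trans h
  -- the exponent
  have h3 : 1 / (1 + e) ≤ (d - η) * (1 / d - e / 16) := by
    have h30 : (d - e / 8) * (1 / d - e / 16) ≤ (d - η) * (1 / d - e / 16) :=
      mul_le_mul_of_nonneg_right (by linarith) hexp
    refine le_trans ?_ h30
    have h4 : 1 - e / 8 ≤ (d - e / 8) * (1 / d) := by
      rw [mul_one_div, le_div_iff₀ hd0]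
      have : (e / 8) * 1 ≤ (e / 8) * d := mul_le_mul_of_nonneg_left hd (by positivity)
      linarith
    have h5 : (d - e / 8) * (e / 16) ≤ e / 8 := by
      calc (d - e / 8) * (e / 16) ≤ 2 * (e / 16) :=
            mul_le_mul_of_nonneg_right (by linarith) (by positivity)
        _ = e / 8 := by ring
    have h6 : (d - e / 8) * (1 / d - e / 16) =
        (d - e / 8) * (1 / d) - (d - e / 8) * (e / 16) := by ring
    rw [h6, div_le_iff₀ (by linarith)]
    have h7 : 1 - e / 4 ≤ (d - e / 8) * (1 / d) - (d - e / 8) * (e / 16) := by linarith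
    have h8 : (1 - e / 4) * (1 + e) ≤
        ((d - e / 8) * (1 / d) - (d - e / 8) * (e / 16)) * (1 + e) :=
      mul_le_mul_of_nonneg_right h7 (by linarith)
    have h9 : 1 ≤ (1 - e / 4) * (1 + e) := by nlinarith
    linarith
  have h10 : X ^ (1 / (1 + e)) ≤ B := (Real.rpow_le_rpow_of_exponent_le hX1 h3).trans h2
  calc X = (X ^ (1 / (1 + e))) ^ (1 + e) := by
        rw [← Real.rpow_mul hX0.le, one_div_mul_cancel (by linarith), Real.rpow_one]
    _ ≤ B ^ (1 + e) := Real.rpow_le_rpow (by positivity) h10 (by linarith)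
    _ ≤ B ^ (1 + ε) := Real.rpow_le_rpow_of_exponent_le hB1 (by linarith)

/-- the slopes `r / R`, `0 ≤ r < R` -/
def slopes (R : ℕ) : Finset ℚ := (range R).image (fun r : ℕ => (r : ℚ) / (R : ℚ))

lemma neg_one_notMem_slopes (R : ℕ) : (-1 : ℚ) ∉ slopes R := by
  unfold slopes
  rw [mem_image]
  rintro ⟨r, _, hr⟩
  have : (0:ℚ) ≤ (r : ℚ) / R := by positivity
  linarith

lemma conj_empty (S : Finset ℚ) (x : ℝ) :
    ((proj (-1) (∅ : Finset (ℤ × ℤ))).card : ℝ) ≤ (big S (∅ : Finset (ℤ × ℤ)) : ℝ) ^ x := by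
  have : (proj (-1) (∅ : Finset (ℤ × ℤ))).card = 0 := by
    unfold proj
    rw [image_empty, card_empty]
  rw [this]
  push_cast
  exact Real.rpow_nonneg (Nat.cast_nonneg _) _

theorem arch_conj (ε : ℝ) (hε : 0 < ε) : ∃ c : ℝ, 0 < c ∧ ∃ s₀ : ℕ, ∀ s : ℕ, s₀ ≤ s →
    ∀ b : ℕ, 2 ≤ b → ∀ (d : ℝ) (A : Finset (ℤ × ℤ)), 1 ≤ d → d ≤ 2 →
      CellDimLE b s (((b : ℝ) ^ s) ^ c) d A → ((proj (-1) A).card : ℝ) ^ (d - c) ≤ A.card →
      ((proj (-1) A).card : ℝ) ≤ (big (slopes (b ^ s)) A : ℝ) ^ (1 + ε) := by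
  set e : ℝ := min ε 1 with he
  have he0 : 0 < e := lt_min hε one_pos
  have he1 : e ≤ 1 := min_le_right _ _
  have heε : e ≤ ε := min_le_left _ _
  obtain ⟨c, hc, s₀, h⟩ := arch_geo (e / 16) (by positivity)
  refine ⟨min c (e / 8), lt_min hc (by positivity), s₀, fun s hs b hb d A hd hd2 hdim hcard => ?_⟩
  rcases A.eq_empty_or_nonempty with rfl | hA
  · exact conj_empty _ _
  have hb0 : 0 < b := by omega
  have hbr : (1:ℝ) ≤ b := by exact_mod_cast hb0
  have hdim' : CellDimLE b s (((b : ℝ) ^ s) ^ c) d A := by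
    intro j t z ht
    refine (hdim j t z ht).trans ?_
    refine mul_le_mul_of_nonneg_right ?_ (by positivity)
    exact Real.rpow_le_rpow_of_exponent_le (one_le_pow₀ hbr) (min_le_left _ _)
  have h1 := h s hs b hb d A hd hA hdim'
  have h2 := big_of_geo (by positivity : 0 < b ^ s) (fun r : ℕ => (r : ℚ) / ((b ^ s : ℕ) : ℚ)) h1
  exact conj_of_exponent he0 he1 heε (min_le_right _ _) hd hd2 hA h2 hcard

theorem padic_conj (ε : ℝ) (hε : 0 < ε) : ∃ c : ℝ, 0 < c ∧ ∃ s₀ : ℕ, ∀ s : ℕ, s₀ ≤ s →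
    ∀ p : ℕ, p.Prime → ∀ (d : ℝ) (A : Finset (ℤ × ℤ)), 1 ≤ d → d ≤ 2 →
      ResDimLE p s (((p : ℝ) ^ s) ^ c) d A → ((proj (-1) A).card : ℝ) ^ (d - c) ≤ A.card →
      ((proj (-1) A).card : ℝ) ≤
        (big ((range (p ^ s)).image (fun r : ℕ => (r : ℚ))) A : ℝ) ^ (1 + ε) := by
  set e : ℝ := min ε 1 with he
  have he0 : 0 < e := lt_min hε one_pos
  have he1 : e ≤ 1 := min_le_right _ _
  have heε : e ≤ ε := min_le_left _ _
  obtain ⟨c, hc, s₀, h⟩ := padic_geo (e / 16) (by positivity)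
  refine ⟨min c (e / 8), lt_min hc (by positivity), s₀, fun s hs p hp d A hd hd2 hdim hcard => ?_⟩
  rcases A.eq_empty_or_nonempty with rfl | hA
  · exact conj_empty _ _
  have hb0 : 0 < p := hp.pos
  have hbr : (1:ℝ) ≤ p := by exact_mod_cast hb0
  have hdim' : ResDimLE p s (((p : ℝ) ^ s) ^ c) d A := by
    intro j t z ht
    refine (hdim j t z ht).trans ?_
    refine mul_le_mul_of_nonneg_right ?_ (by positivity)
    exact Real.rpow_le_rpow_of_exponent_le (one_le_pow₀ hbr) (min_le_left _ _)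
  have h1 := h s hs p hp d A hd hA hdim'
  have h2 := big_of_geo (by positivity : 0 < p ^ s) (fun r : ℕ => (r : ℚ)) h1
  exact conj_of_exponent he0 he1 heε (min_le_right _ _) hd hd2 hA h2 hcard

/-- sticky sets -/
def Sticky (b C : ℕ) (A : Finset (ℤ × ℤ)) : Prop :=
  ∀ (j : ℕ) (e : ℤ), ((A.filter fun p => (p.1 - p.2) / (b : ℤ) ^ j = e).image
    fun p => p.2 / (b : ℤ) ^ j).card ≤ C

lemma cellDim_of_sticky {b C : ℕ} (hb : 2 ≤ b) {A : Finset (ℤ × ℤ)} (h : Sticky b C A) (s : ℕ) :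
    CellDimLE b s (6 * C) 1 A := by
  intro j t z _
  have hb0 : 0 < b := by omega
  set q : ℤ := (b : ℤ) ^ j with hq
  set Q : ℤ := (b : ℤ) ^ t with hQ
  have hq0 : 0 < q := by positivity
  have hQ0 : 0 < Q := by positivity
  set E : Finset ℤ := Finset.Icc (z.1 * Q - z.2 * Q - Q) (z.1 * Q - z.2 * Q + Q) with hE
  have hEc : E.card = 2 * b ^ t + 1 := by
    rw [hE, Int.card_Icc]
    have h1 : z.1 * Q - z.2 * Q + Q + 1 - (z.1 * Q - z.2 * Q - Q) = ((2 * b ^ t + 1 : ℕ) : ℤ) := by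
      rw [hQ]
      push_cast
      ring
    rw [h1, Int.toNat_natCast]
  set F : ℤ → Finset ℤ := fun e => (A.filter fun p => (p.1 - p.2) / q = e).image
    fun p => p.2 / q with hF
  have hsub : ((cells q A).filter fun c => cell Q c = z) ⊆
      E.biUnion (fun e => ((F e) ×ˢ ({0, 1} : Finset ℤ)).image
        (fun y => (e + y.1 + y.2, y.1))) := by
    intro c hc
    rw [mem_filter] at hc
    obtain ⟨hc1, hc2⟩ := hc
    unfold cells at hc1
    obtain ⟨p, hp, rfl⟩ := mem_image.1 hc1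
    unfold cell at hc2
    simp only [Prod.ext_iff] at hc2
    obtain ⟨h1, h2⟩ := hc2
    rw [mem_biUnion]
    have h3 := ediv_add_cases (p.1 - p.2) p.2 hq0
    rw [sub_add_cancel] at h3
    have b1 := ediv_bounds (p.1 / q) hQ0
    have b2 := ediv_bounds (p.2 / q) hQ0
    rw [h1] at b1
    rw [h2] at b2
    refine ⟨(p.1 - p.2) / q, ?_, ?_⟩
    · rw [hE, Finset.mem_Icc]
      have e1 : Q * z.1 = z.1 * Q := mul_comm _ _
      have e2 : Q * z.2 = z.2 * Q := mul_comm _ _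
      rw [e1] at b1
      rw [e2] at b2
      constructor
      · rcases h3 with h3 | h3 <;> linarith [b1.1, b1.2, b2.1, b2.2, Int.le_sub_one_of_lt b2.2]
      · rcases h3 with h3 | h3 <;> linarith [b1.1, b1.2, b2.1, b2.2]
    · rw [mem_image]
      refine ⟨(p.2 / q, p.1 / q - (p.1 - p.2) / q - p.2 / q), ?_, ?_⟩
      · rw [mem_product]
        refine ⟨?_, ?_⟩
        · simp only [hF]
          exact mem_image.2 ⟨p, mem_filter.2 ⟨hp, rfl⟩, rfl⟩
        · simp only [mem_insert, mem_singleton]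
          exact h3
      · unfold cell
        simp only [Prod.mk.injEq, and_true]
        ring
  have h1 : ((cells q A).filter fun c => cell Q c = z).card ≤ (2 * b ^ t + 1) * (C * 2) := by
    refine (card_le_card hsub).trans (card_biUnion_le.trans ?_)
    calc ∑ e ∈ E, (((F e) ×ˢ ({0, 1} : Finset ℤ)).image (fun y => (e + y.1 + y.2, y.1))).card
        ≤ ∑ _e ∈ E, C * 2 := by
          refine sum_le_sum fun e _ => card_image_le.trans ?_
          rw [card_product]
          have h2 : ({0, 1} : Finset ℤ).card = 2 := rfl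
          rw [h2]
          exact Nat.mul_le_mul_right _ (h j e)
      _ = _ := by rw [sum_const, hEc, smul_eq_mul]
  have hbt : 1 ≤ b ^ t := Nat.one_le_pow _ _ hb0
  have h2 : ((cells q A).filter fun c => cell Q c = z).card ≤ 6 * C * b ^ t := by
    calc _ ≤ (2 * b ^ t + 1) * (C * 2) := h1
      _ ≤ (3 * b ^ t) * (C * 2) := Nat.mul_le_mul_right _ (by omega)
      _ = _ := by ring
  rw [Real.rpow_one]
  exact_mod_cast h2

theorem sticky_conj (ε : ℝ) (hε : 0 < ε) : ∃ c : ℝ, 0 < c ∧ ∃ s₀ : ℕ, ∀ s : ℕ, s₀ ≤ s →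
    ∀ b : ℕ, 2 ≤ b → ∀ C : ℕ, (C : ℝ) ≤ ((b : ℝ) ^ s) ^ c → ∀ A : Finset (ℤ × ℤ), Sticky b C A →
      ((proj (-1) A).card : ℝ) ≤ (big (slopes (b ^ s)) A : ℝ) ^ (1 + ε) := by
  obtain ⟨c, hc, s₀, h⟩ := arch_conj ε hε
  obtain ⟨s₁, hs₁⟩ := exists_nat_gt (Real.log 6 / (Real.log 2 * (c / 2)))
  have hlog2 : 0 < Real.log 2 := Real.log_pos one_lt_two
  refine ⟨c / 2, by positivity, max s₀ s₁, fun s hs b hb C hC A hA => ?_⟩
  rcases A.eq_empty_or_nonempty with rfl | hne
  · exact conj_empty _ _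
  have hs0 : s₀ ≤ s := (le_max_left _ _).trans hs
  have hs1 : s₁ ≤ s := (le_max_right _ _).trans hs
  have hb0 : 0 < b := by omega
  have hb2 : (2:ℝ) ≤ b := by exact_mod_cast hb
  have hbr : (1:ℝ) ≤ b := by exact_mod_cast hb0
  have h6 : (6:ℝ) ≤ ((b : ℝ) ^ s) ^ (c / 2) := by
    have h7 : Real.log 6 ≤ s * (Real.log 2 * (c / 2)) := by
      rw [div_lt_iff₀ (by positivity)] at hs₁
      have : (s₁ : ℝ) ≤ s := by exact_mod_cast hs1
      have h8 : (s₁ : ℝ) * (Real.log 2 * (c / 2)) ≤ s * (Real.log 2 * (c / 2)) :=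
        mul_le_mul_of_nonneg_right this (by positivity)
      linarith
    calc (6:ℝ) = Real.exp (Real.log 6) := (Real.exp_log (by norm_num)).symm
      _ ≤ Real.exp (s * (Real.log 2 * (c / 2))) := Real.exp_le_exp.2 h7
      _ = ((2:ℝ) ^ s) ^ (c / 2) := by
          rw [Real.rpow_def_of_pos (by positivity), Real.log_pow]
          congr 1
          ring
      _ ≤ ((b : ℝ) ^ s) ^ (c / 2) :=
          Real.rpow_le_rpow (by positivity) (pow_le_pow_left₀ (by norm_num) hb2 _) (by positivity)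
  have h7 : (6:ℝ) * C ≤ ((b : ℝ) ^ s) ^ c := by
    have h8 : ((b : ℝ) ^ s) ^ c = ((b : ℝ) ^ s) ^ (c / 2) * ((b : ℝ) ^ s) ^ (c / 2) := by
      rw [← Real.rpow_add (by positivity)]
      congr 1
      ring
    rw [h8]
    exact mul_le_mul h6 hC (Nat.cast_nonneg _) (by positivity)
  refine h s hs0 b hb 1 A le_rfl one_le_two ?_ ?_
  · intro j t z ht
    refine (cellDim_of_sticky hb hA s j t z ht).trans ?_
    exact mul_le_mul_of_nonneg_right h7 (by positivity)
  · have h1 : (proj (-1) A).card ≤ A.card := card_image_le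
    have h2 : (1:ℝ) ≤ ((proj (-1) A).card : ℝ) := by
      have : 0 < (proj (-1) A).card := card_pos.2 (hne.image _)
      exact_mod_cast this
    calc ((proj (-1) A).card : ℝ) ^ (1 - c) ≤ ((proj (-1) A).card : ℝ) ^ (1:ℝ) :=
          Real.rpow_le_rpow_of_exponent_le h2 (by linarith)
      _ = ((proj (-1) A).card : ℝ) := Real.rpow_one _
      _ ≤ A.card := by exact_mod_cast h1

/-- sets of local dimension at most `1 + η` -/
theorem local_one (ε : ℝ) (hε : 0 < ε) : ∃ η : ℝ, 0 < η ∧ ∀ b : ℕ, 2 ≤ b → ∀ C : ℝ,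
    ∃ S : Finset ℚ, (-1 : ℚ) ∉ S ∧ ∀ A : Finset (ℤ × ℤ), (∀ s, CellDimLE b s C (1 + η) A) →
      ((proj (-1) A).card : ℝ) ≤ (big S A : ℝ) ^ (1 + ε) := by
  obtain ⟨c, hc, s₀, h⟩ := arch_conj ε hε
  refine ⟨min c 1, lt_min hc one_pos, fun b hb C => ?_⟩
  have hlog2 : 0 < Real.log 2 := Real.log_pos one_lt_two
  have hb0 : 0 < b := by omega
  have hb2 : (2:ℝ) ≤ b := by exact_mod_cast hb
  have hC0 : 0 < max C 1 := lt_of_lt_of_le one_pos (le_max_right _ _)
  obtain ⟨s₁, hs₁⟩ := exists_nat_gt (Real.log (max C 1) / (Real.log 2 * c))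
  set s := max s₀ s₁ with hs
  have hs0 : s₀ ≤ s := le_max_left _ _
  have hs1 : s₁ ≤ s := le_max_right _ _
  have hCs : C ≤ ((b : ℝ) ^ s) ^ c := by
    have h7 : Real.log (max C 1) ≤ s * (Real.log 2 * c) := by
      rw [div_lt_iff₀ (by positivity)] at hs₁
      have : (s₁ : ℝ) ≤ s := by exact_mod_cast hs1
      have h8 : (s₁ : ℝ) * (Real.log 2 * c) ≤ s * (Real.log 2 * c) :=
        mul_le_mul_of_nonneg_right this (by positivity)
      linarith
    calc C ≤ max C 1 := le_max_left _ _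
      _ = Real.exp (Real.log (max C 1)) := (Real.exp_log hC0).symm
      _ ≤ Real.exp (s * (Real.log 2 * c)) := Real.exp_le_exp.2 h7
      _ = ((2:ℝ) ^ s) ^ c := by
          rw [Real.rpow_def_of_pos (by positivity), Real.log_pow]
          congr 1
          ring
      _ ≤ ((b : ℝ) ^ s) ^ c :=
          Real.rpow_le_rpow (by positivity) (pow_le_pow_left₀ (by norm_num) hb2 _) hc.le
  refine ⟨slopes (b ^ s), neg_one_notMem_slopes _, fun A hA => ?_⟩
  rcases A.eq_empty_or_nonempty with rfl | hne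
  · exact conj_empty _ _
  have hm0 : 0 < min c 1 := lt_min hc one_pos
  have hm1 : min c 1 ≤ 1 := min_le_right _ _
  have hmc : min c 1 ≤ c := min_le_left _ _
  refine h s hs0 b hb (1 + min c 1) A (by linarith) (by linarith) ?_ ?_
  · intro j t z ht
    refine (hA s j t z ht).trans ?_
    exact mul_le_mul_of_nonneg_right hCs (by positivity)
  · have h1 : (proj (-1) A).card ≤ A.card := card_image_le
    have h2 : (1:ℝ) ≤ ((proj (-1) A).card : ℝ) := by
      have : 0 < (proj (-1) A).card := card_pos.2 (hne.image _)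
      exact_mod_cast this
    calc ((proj (-1) A).card : ℝ) ^ (1 + min c 1 - c) ≤ ((proj (-1) A).card : ℝ) ^ (1:ℝ) :=
          Real.rpow_le_rpow_of_exponent_le h2 (by linarith)
      _ = ((proj (-1) A).card : ℝ) := Real.rpow_one _
      _ ≤ A.card := by exact_mod_cast h1

end Pool.Agent.V7H66.AK
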