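import Pool.Agent.V7H66.AK.ArchZ
import Pool.Agent.V7H66.AK.PadicY
import Pool.Agent.V7H66.AK.Cor

/-!
# Consequences of the general inequality
-/

set_option autoImplicit false

open Finset

noncomputable section

namespace Pool.Agent.V7H66.AK

/-- the general inequality, cells -/
theorem arch_all (ε : ℝ) (hε : 0 < ε) : ∃ c : ℝ, 0 < c ∧ ∃ s₀ : ℕ, ∀ s : ℕ, s₀ ≤ s →
    ∀ b : ℕ, 2 ≤ b → ∀ A : Finset (ℤ × ℤ), A.Nonempty →
      (1 - ε) * Real.log A.card ≤
        (∑ r ∈ range (b ^ s), Real.log ((proj ((r : ℚ) / ((b ^ s : ℕ) : ℚ)) A).card : ℝ)) /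
          ((b ^ s : ℕ) : ℝ) + cellExcess b s (((b : ℝ) ^ s) ^ c) A := by
  obtain ⟨c, hc, s₀, h⟩ := archY ε hε
  refine ⟨c, hc, s₀, fun s hs b hb A hA => ?_⟩
  have hb0 : 0 < b := by omega
  have hbr : (1:ℝ) ≤ b := by exact_mod_cast hb0
  refine (h s hs b hb _ (Real.one_le_rpow (one_le_pow₀ hbr) hc.le) le_rfl A hA).trans
    (le_of_eq ?_)
  congr 2
  refine sum_congr rfl fun r _ => ?_
  rw [card_proj_R (by positivity : 0 < b ^ s)]

/-- the general inequality, residue classes -/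
theorem padic_all (ε : ℝ) (hε : 0 < ε) : ∃ c : ℝ, 0 < c ∧ ∃ s₀ : ℕ, ∀ s : ℕ, s₀ ≤ s →
    ∀ p : ℕ, p.Prime → ∀ A : Finset (ℤ × ℤ), A.Nonempty →
      (1 - ε) * Real.log A.card ≤
        (∑ r ∈ range (p ^ s), Real.log ((proj (r : ℚ) A).card : ℝ)) / ((p ^ s : ℕ) : ℝ) +
          resExcess p s (((p : ℝ) ^ s) ^ c) A := by
  obtain ⟨c, hc, s₀, h⟩ := padicY ε hε
  refine ⟨c, hc, s₀, fun s hs p hp A hA => ?_⟩
  have hbr : (1:ℝ) ≤ p := by exact_mod_cast hp.pos
  refine (h s hs p hp _ (Real.one_le_rpow (one_le_pow₀ hbr) hc.le) le_rfl A hA).trans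
    (le_of_eq ?_)
  congr 2
  refine sum_congr rfl fun r _ => ?_
  rw [card_proj_N]

/-- the mean is at most the logarithm of the largest projection -/
lemma mean_le_big {R : ℕ} (hR : 0 < R) (g : ℕ → ℚ) {A A' : Finset (ℤ × ℤ)} (hAA : A' ⊆ A)
    (hA : A'.Nonempty) :
    (∑ r ∈ range R, Real.log ((proj (g r) A').card : ℝ)) / (R : ℝ) ≤
      Real.log (big ((range R).image g) A : ℝ) := by
  have hR0 : (0:ℝ) < R := by exact_mod_cast hR
  rw [div_le_iff₀ hR0]
  calc ∑ r ∈ range R, Real.log ((proj (g r) A').card : ℝ)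
      ≤ ∑ _r ∈ range R, Real.log (big ((range R).image g) A : ℝ) := by
        refine sum_le_sum fun r hr => Real.log_le_log ?_ ?_
        · have : 0 < (proj (g r) A').card := card_pos.2 (hA.image _)
          exact_mod_cast this
        · have h1 : (proj (g r) A').card ≤ (proj (g r) A).card := card_le_card (image_subset_image hAA)
          have h2 : (proj (g r) A).card ≤ big ((range R).image g) A := by
            unfold big
            exact le_max_of_le_right (le_sup (f := fun r => (proj r A).card)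
              (mem_image_of_mem g hr))
          exact_mod_cast h1.trans h2
    _ = Real.log (big ((range R).image g) A : ℝ) * R := by
        rw [sum_const, card_range, nsmul_eq_mul, mul_comm]

/-- from the general inequality to the inequality of the conjecture -/
lemma conj_of_excess {S : Finset ℚ} {A A' : Finset (ℤ × ℤ)} {e ε η X : ℝ} (he0 : 0 < e)
    (he1 : e ≤ 1) (heε : e ≤ ε) (hη0 : 0 < η) (hη : η ≤ e / 8) (hAA : A' ⊆ A) (hA : A'.Nonempty)
    (h : (1 - e / 8) * Real.log A'.card ≤ Real.log (big S A : ℝ) + X)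
    (hX : X ≤ η * Real.log A'.card)
    (hcard : ((proj (-1) A).card : ℝ) ≤ (A'.card : ℝ) ^ (1 + η)) :
    ((proj (-1) A).card : ℝ) ≤ (big S A : ℝ) ^ (1 + ε) := by
  have hA0 : A.Nonempty := hA.mono hAA
  set L := Real.log (A'.card : ℝ) with hL
  have hA'c : (0:ℝ) < A'.card := by exact_mod_cast card_pos.2 hA
  have hL0 : 0 ≤ L := Real.log_natCast_nonneg _
  set B : ℝ := (big S A : ℝ) with hB
  have hB1 : 1 ≤ B := by
    have := one_le_big S hA0
    rw [hB]
    exact_mod_cast this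
  have hB0 : 0 < B := by linarith
  have hP0 : (0:ℝ) < ((proj (-1) A).card : ℝ) := by
    have : 0 < (proj (-1) A).card := card_pos.2 (hA0.image _)
    exact_mod_cast this
  have h1 : (1 - e / 4) * L ≤ Real.log B := by
    have : η * L ≤ e / 8 * L := mul_le_mul_of_nonneg_right hη hL0
    linarith
  have h2 : Real.log ((proj (-1) A).card : ℝ) ≤ (1 + η) * L := by
    have := Real.log_le_log hP0 hcard
    rwa [Real.log_rpow hA'c] at this
  have h3 : Real.log ((proj (-1) A).card : ℝ) ≤ (1 + ε) * Real.log B := by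
    have h4 : (1 + η) * L ≤ (1 + e / 8) * L := mul_le_mul_of_nonneg_right (by linarith) hL0
    have h5 : (1 + e / 8) * L ≤ (1 + e) * ((1 - e / 4) * L) := by
      rw [← mul_assoc]
      refine mul_le_mul_of_nonneg_right ?_ hL0
      nlinarith
    have h6 : (1 + e) * ((1 - e / 4) * L) ≤ (1 + e) * Real.log B :=
      mul_le_mul_of_nonneg_left h1 (by linarith)
    have h7 : (1 + e) * Real.log B ≤ (1 + ε) * Real.log B :=
      mul_le_mul_of_nonneg_right (by linarith) (Real.log_nonneg hB1)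
    linarith
  calc ((proj (-1) A).card : ℝ) = Real.exp (Real.log ((proj (-1) A).card : ℝ)) :=
        (Real.exp_log hP0).symm
    _ ≤ Real.exp ((1 + ε) * Real.log B) := Real.exp_le_exp.2 h3
    _ = B ^ (1 + ε) := by rw [Real.rpow_def_of_pos hB0, mul_comm]

theorem arch_excess_conj (ε : ℝ) (hε : 0 < ε) : ∃ c : ℝ, 0 < c ∧ ∃ s₀ : ℕ, ∀ s : ℕ, s₀ ≤ s →
    ∀ b : ℕ, 2 ≤ b → ∀ A A' : Finset (ℤ × ℤ), A' ⊆ A → A'.Nonempty →
      ((proj (-1) A).card : ℝ) ≤ (A'.card : ℝ) ^ (1 + c) →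
      cellExcess b s (((b : ℝ) ^ s) ^ c) A' ≤ c * Real.log A'.card →
      ((proj (-1) A).card : ℝ) ≤ (big (slopes (b ^ s)) A : ℝ) ^ (1 + ε) := by
  set e : ℝ := min ε 1 with he
  have he0 : 0 < e := lt_min hε one_pos
  have he1 : e ≤ 1 := min_le_right _ _
  have heε : e ≤ ε := min_le_left _ _
  obtain ⟨c, hc, s₀, h⟩ := archY (e / 8) (by positivity)
  refine ⟨min c (e / 8), lt_min hc (by positivity), s₀, fun s hs b hb A A' hAA hA hcard hX => ?_⟩
  have hb0 : 0 < b := by omega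
  have hbr : (1:ℝ) ≤ b := by exact_mod_cast hb0
  have hm0 : 0 < min c (e / 8) := lt_min hc (by positivity)
  have h1 := h s hs b hb (((b : ℝ) ^ s) ^ min c (e / 8))
    (Real.one_le_rpow (one_le_pow₀ hbr) hm0.le)
    (Real.rpow_le_rpow_of_exponent_le (one_le_pow₀ hbr) (min_le_left _ _)) A' hA
  have h2 : (∑ r ∈ range (b ^ s), Real.log ((A'.image (prR (b ^ s) r)).card : ℝ)) /
      ((b ^ s : ℕ) : ℝ) ≤ Real.log (big (slopes (b ^ s)) A : ℝ) := by
    refine le_trans (le_of_eq ?_) (mean_le_big (by positivity : 0 < b ^ s)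
      (fun r : ℕ => (r : ℚ) / ((b ^ s : ℕ) : ℚ)) hAA hA)
    congr 1
    refine sum_congr rfl fun r _ => ?_
    rw [card_proj_R (by positivity : 0 < b ^ s)]
  exact conj_of_excess he0 he1 heε hm0 (min_le_right _ _) hAA hA
    (h1.trans (add_le_add h2 le_rfl)) hX hcard

theorem padic_excess_conj (ε : ℝ) (hε : 0 < ε) : ∃ c : ℝ, 0 < c ∧ ∃ s₀ : ℕ, ∀ s : ℕ, s₀ ≤ s →
    ∀ p : ℕ, p.Prime → ∀ A A' : Finset (ℤ × ℤ), A' ⊆ A → A'.Nonempty →
      ((proj (-1) A).card : ℝ) ≤ (A'.card : ℝ) ^ (1 + c) →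
      resExcess p s (((p : ℝ) ^ s) ^ c) A' ≤ c * Real.log A'.card →
      ((proj (-1) A).card : ℝ) ≤
        (big ((range (p ^ s)).image (fun r : ℕ => (r : ℚ))) A : ℝ) ^ (1 + ε) := by
  set e : ℝ := min ε 1 with he
  have he0 : 0 < e := lt_min hε one_pos
  have he1 : e ≤ 1 := min_le_right _ _
  have heε : e ≤ ε := min_le_left _ _
  obtain ⟨c, hc, s₀, h⟩ := padicY (e / 8) (by positivity)
  refine ⟨min c (e / 8), lt_min hc (by positivity), s₀, fun s hs p hp A A' hAA hA hcard hX => ?_⟩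
  have hb0 : 0 < p := hp.pos
  have hbr : (1:ℝ) ≤ p := by exact_mod_cast hb0
  have hm0 : 0 < min c (e / 8) := lt_min hc (by positivity)
  have h1 := h s hs p hp (((p : ℝ) ^ s) ^ min c (e / 8))
    (Real.one_le_rpow (one_le_pow₀ hbr) hm0.le)
    (Real.rpow_le_rpow_of_exponent_le (one_le_pow₀ hbr) (min_le_left _ _)) A' hA
  have h2 : (∑ r ∈ range (p ^ s), Real.log ((A'.image (prN r)).card : ℝ)) /
      ((p ^ s : ℕ) : ℝ) ≤
      Real.log (big ((range (p ^ s)).image (fun r : ℕ => (r : ℚ))) A : ℝ) := by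
    refine le_trans (le_of_eq ?_) (mean_le_big (by positivity : 0 < p ^ s)
      (fun r : ℕ => (r : ℚ)) hAA hA)
    congr 1
    refine sum_congr rfl fun r _ => ?_
    rw [card_proj_N]
  exact conj_of_excess he0 he1 heε hm0 (min_le_right _ _) hAA hA
    (h1.trans (add_le_add h2 le_rfl)) hX hcard

end Pool.Agent.V7H66.AK
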