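import Pool.Agent.V7H66.AK.ArchQ
import Pool.Agent.V7H66.AK.CorY

/-!
# Quantitative statements
-/

set_option autoImplicit false

open Finset

noncomputable section

namespace Pool.Agent.V7H66.AK

lemma CellDimLE.mono {b s : ℕ} {C C' d : ℝ} {A : Finset (ℤ × ℤ)} (h : CellDimLE b s C d A)
    (hC : C ≤ C') : CellDimLE b s C' d A := fun j t z ht =>
  (h j t z ht).trans (mul_le_mul_of_nonneg_right hC (by positivity))

lemma ResDimLE.mono {p s : ℕ} {C C' d : ℝ} {A : Finset (ℤ × ℤ)} (h : ResDimLE p s C d A)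
    (hC : C ≤ C') : ResDimLE p s C' d A := fun j t z ht =>
  (h j t z ht).trans (mul_le_mul_of_nonneg_right hC (by positivity))

lemma pow_c {b s : ℕ} (hb : 1 ≤ b) {c c' : ℝ} (h : c ≤ c') :
    ((b : ℝ) ^ s) ^ c ≤ ((b : ℝ) ^ s) ^ c' := by
  have hbr : (1:ℝ) ≤ b := by exact_mod_cast hb
  exact Real.rpow_le_rpow_of_exponent_le (one_le_pow₀ hbr) h

/-- all statements, with the parameters `K₀` of `paramsQ` -/
theorem quant : ∃ K : ℝ, 0 < K ∧ ∀ ε : ℝ, 0 < ε → ε ≤ 1 → ∀ s : ℕ,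
      K * (1 + Real.log (1 / ε)) / ε ^ 2 ≤ s →
    (∀ b : ℕ, 2 ≤ b →
      (∀ A : Finset (ℤ × ℤ), A.Nonempty →
        (1 - ε) * Real.log A.card ≤
          (∑ r ∈ range (b ^ s), Real.log ((proj ((r : ℚ) / ((b ^ s : ℕ) : ℚ)) A).card : ℝ)) /
            ((b ^ s : ℕ) : ℝ) + cellExcess b s (((b : ℝ) ^ s) ^ (ε ^ 2 / K)) A) ∧
      (∀ A A' : Finset (ℤ × ℤ), A' ⊆ A → A'.Nonempty →
        ((proj (-1) A).card : ℝ) ≤ (A'.card : ℝ) ^ (1 + ε / 8) →
        cellExcess b s (((b : ℝ) ^ s) ^ (ε ^ 2 / K)) A' ≤ ε / 8 * Real.log A'.card →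
        ((proj (-1) A).card : ℝ) ≤ (big (slopes (b ^ s)) A : ℝ) ^ (1 + ε)) ∧
      (∀ (d : ℝ) (A : Finset (ℤ × ℤ)), 1 ≤ d → A.Nonempty →
        CellDimLE b s (((b : ℝ) ^ s) ^ (ε ^ 2 / K)) d A →
        (A.card : ℝ) ^ (1 / d - ε) ≤
          (∏ r ∈ range (b ^ s), ((proj ((r : ℚ) / ((b ^ s : ℕ) : ℚ)) A).card : ℝ)) ^
            (1 / ((b ^ s : ℕ) : ℝ))) ∧
      (∀ (d : ℝ) (A : Finset (ℤ × ℤ)), 1 ≤ d → d ≤ 2 →
        CellDimLE b s (((b : ℝ) ^ s) ^ (ε ^ 2 / K)) d A →
        ((proj (-1) A).card : ℝ) ^ (d - ε / 8) ≤ A.card →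
        ((proj (-1) A).card : ℝ) ≤ (big (slopes (b ^ s)) A : ℝ) ^ (1 + ε)) ∧
      (∀ (C : ℕ) (A : Finset (ℤ × ℤ)), (C : ℝ) ≤ ((b : ℝ) ^ s) ^ (ε ^ 2 / K) → Sticky b C A →
        ((proj (-1) A).card : ℝ) ≤ (big (slopes (b ^ s)) A : ℝ) ^ (1 + ε))) ∧
    (∀ p : ℕ, p.Prime →
      (∀ A : Finset (ℤ × ℤ), A.Nonempty →
        (1 - ε) * Real.log A.card ≤
          (∑ r ∈ range (p ^ s), Real.log ((proj (r : ℚ) A).card : ℝ)) / ((p ^ s : ℕ) : ℝ) +
            resExcess p s (((p : ℝ) ^ s) ^ (ε ^ 2 / K)) A) ∧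
      (∀ A A' : Finset (ℤ × ℤ), A' ⊆ A → A'.Nonempty →
        ((proj (-1) A).card : ℝ) ≤ (A'.card : ℝ) ^ (1 + ε / 8) →
        resExcess p s (((p : ℝ) ^ s) ^ (ε ^ 2 / K)) A' ≤ ε / 8 * Real.log A'.card →
        ((proj (-1) A).card : ℝ) ≤
          (big ((range (p ^ s)).image (fun r : ℕ => (r : ℚ))) A : ℝ) ^ (1 + ε)) ∧
      (∀ (d : ℝ) (A : Finset (ℤ × ℤ)), 1 ≤ d → A.Nonempty →
        ResDimLE p s (((p : ℝ) ^ s) ^ (ε ^ 2 / K)) d A →
        (A.card : ℝ) ^ (1 / d - ε) ≤
          (∏ r ∈ range (p ^ s), ((proj (r : ℚ) A).card : ℝ)) ^ (1 / ((p ^ s : ℕ) : ℝ))) ∧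
      (∀ (d : ℝ) (A : Finset (ℤ × ℤ)), 1 ≤ d → d ≤ 2 →
        ResDimLE p s (((p : ℝ) ^ s) ^ (ε ^ 2 / K)) d A →
        ((proj (-1) A).card : ℝ) ^ (d - ε / 8) ≤ A.card →
        ((proj (-1) A).card : ℝ) ≤
          (big ((range (p ^ s)).image (fun r : ℕ => (r : ℚ))) A : ℝ) ^ (1 + ε))) := by
  obtain ⟨K₀, hK₀, hpar⟩ := paramsR
  refine ⟨10000000 * K₀, by linarith, fun ε hε hε1 s hs => ?_⟩
  set K := 10000000 * K₀ with hK
  have hK1 : 10000000 ≤ K := by linarith
  have hK0 : 0 < K := by linarith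
  have hL0 : 0 ≤ Real.log (1 / ε) := Real.log_nonneg (by
    rw [le_div_iff₀ hε]
    linarith)
  set L := Real.log (1 / ε) with hL
  have hl2 : Real.log 2 < 0.6931471808 := Real.log_two_lt_d9
  have hsj : ∀ j : ℕ, j ≤ 4 → K₀ * (1 + Real.log (1 / (ε / 2 ^ j))) / (ε / 2 ^ j) ^ 2 ≤ s := by
    intro j hj
    refine le_trans ?_ hs
    have h2j : (0:ℝ) < 2 ^ j := by positivity
    have h1 : Real.log (1 / (ε / 2 ^ j)) ≤ 3 + L := by
      have e1 : 1 / (ε / 2 ^ j) = 2 ^ j * (1 / ε) := by field_simp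
      rw [e1, Real.log_mul h2j.ne' (by positivity), Real.log_pow]
      have hj' : (j : ℝ) ≤ 4 := by exact_mod_cast hj
      have h0 : 0 < Real.log 2 := Real.log_pos one_lt_two
      have : (j : ℝ) * Real.log 2 ≤ 4 * Real.log 2 := mul_le_mul_of_nonneg_right hj' h0.le
      linarith
    have h2 : (2:ℝ) ^ j ≤ 16 := by
      calc (2:ℝ) ^ j ≤ 2 ^ 4 := pow_le_pow_right₀ (by norm_num) hj
        _ = 16 := by norm_num
    have e2 : K₀ * (1 + Real.log (1 / (ε / 2 ^ j))) / (ε / 2 ^ j) ^ 2 =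
        (K₀ * (1 + Real.log (1 / (ε / 2 ^ j))) * ((2 ^ j) * (2 ^ j))) / ε ^ 2 := by
      field_simp
    rw [e2]
    refine div_le_div_of_nonneg_right ?_ (by positivity)
    have h4 : (1:ℝ) + Real.log (1 / (ε / 2 ^ j)) ≤ 4 * (1 + L) := by linarith
    have h5 : (2:ℝ) ^ j * 2 ^ j ≤ 16 * 16 := mul_le_mul h2 h2 h2j.le (by norm_num)
    calc K₀ * (1 + Real.log (1 / (ε / 2 ^ j))) * ((2 ^ j) * (2 ^ j))
        ≤ K₀ * (4 * (1 + L)) * (16 * 16) := by
          refine mul_le_mul ?_ h5 (by positivity) (by positivity)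
          exact mul_le_mul_of_nonneg_left h4 (by linarith)
      _ = 1024 * K₀ * (1 + L) := by ring
      _ ≤ K * (1 + L) := mul_le_mul_of_nonneg_right (by linarith) (by linarith)
  have hs16 : K₀ * (1 + Real.log (1 / (ε / 16))) / (ε / 16) ^ 2 ≤ s := by
    have := hsj 4 le_rfl
    norm_num at this ⊢
    exact this
  have hs2 : K₀ * (1 + Real.log (1 / (ε / 2))) / (ε / 2) ^ 2 ≤ s := by
    have := hsj 1 (by norm_num)
    rw [pow_one] at this
    exact this
  have hs1 : K₀ * (1 + Real.log (1 / ε)) / ε ^ 2 ≤ s := by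
    have := hsj 0 (by norm_num)
    rw [pow_zero, div_one] at this
    exact this
  have hεε : 0 < ε ^ 2 := by positivity
  have hcK : ∀ x : ℝ, 0 < x → x ≤ 10000000 → ε ^ 2 / K ≤ ε ^ 2 / x := fun x hx0 hx =>
    div_le_div_of_nonneg_left hεε.le hx0 (by linarith)
  have hε2 : ε ^ 2 ≤ ε := by nlinarith
  have hc0 : 0 < ε ^ 2 / K := by positivity
  -- the conjecture for the dimension d, cells
  have conjA : ∀ b : ℕ, 2 ≤ b → ∀ (d : ℝ) (A : Finset (ℤ × ℤ)), 1 ≤ d → d ≤ 2 →
        CellDimLE b s (((b : ℝ) ^ s) ^ (ε ^ 2 / 266240)) d A →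
        ((proj (-1) A).card : ℝ) ^ (d - ε / 8) ≤ A.card →
        ((proj (-1) A).card : ℝ) ≤ (big (slopes (b ^ s)) A : ℝ) ^ (1 + ε) := by
    intro b hb d A hd hd2 hdim hcard
    rcases A.eq_empty_or_nonempty with rfl | hA
    · exact conj_empty _ _
    have hb0 : 0 < b := by omega
    obtain ⟨k, w, hk, hw, hkw, _, hp⟩ := hpar (ε / 16) (by positivity) (by linarith) s hs16 b hb
    have e1 : (ε / 16) ^ 2 / 1040 = ε ^ 2 / 266240 := by ring
    rw [e1] at hp
    have h1 := archQ (ε / 16) (ε ^ 2 / 266240) (by positivity) k w s b hk hw (by omega) hb hp d A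
      hd hA hdim
    have h2 : (∑ r ∈ range (b ^ s), Real.log ((A.image (prR (b ^ s) r)).card : ℝ)) =
        ∑ r ∈ range (b ^ s), Real.log ((proj ((r : ℚ) / ((b ^ s : ℕ) : ℚ)) A).card : ℝ) := by
      refine sum_congr rfl fun r _ => ?_
      rw [card_proj_R (by positivity : 0 < b ^ s)]
    rw [h2] at h1
    have h3 := geo hA _ (fun r _ => by
      have : 0 < (proj ((r : ℚ) / ((b ^ s : ℕ) : ℚ)) A).card := card_pos.2 (hA.image _)
      exact_mod_cast this) _ h1
    have h4 := big_of_geo (by positivity : 0 < b ^ s) (fun r : ℕ => (r : ℚ) / ((b ^ s : ℕ) : ℚ)) h3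
    exact conj_of_exponent hε hε1 le_rfl le_rfl hd hd2 hA h4 hcard
  refine ⟨fun b hb => ⟨?_, ?_, ?_, ?_, ?_⟩, fun p hp => ⟨?_, ?_, ?_, ?_⟩⟩
  · -- general inequality, cells
    intro A hA
    have hb0 : 0 < b := by omega
    have hbr : (1:ℝ) ≤ b := by exact_mod_cast hb0
    obtain ⟨k, w, hk, hw, hkw, hwc, hp⟩ := hpar (ε / 2) (by positivity) (by linarith) s hs2 b hb
    have hs0 : (0:ℝ) ≤ s := Nat.cast_nonneg _
    have h1 := archYQ ε ((ε / 2) ^ 2 / 1040) (ε ^ 2 / K) (by positivity) k w s b hk hw hkw hb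
      (hwc.trans (mul_le_mul_of_nonneg_right (by nlinarith) hs0)) (by nlinarith) (by
        have := hcK 8320 (by norm_num) (by norm_num)
        have e1 : (ε / 2) ^ 2 / 1040 / 2 = ε ^ 2 / 8320 := by ring
        rw [e1]
        exact this) hp _ (Real.one_le_rpow (one_le_pow₀ hbr) hc0.le) le_rfl A hA
    refine h1.trans (le_of_eq ?_)
    congr 2
    refine sum_congr rfl fun r _ => ?_
    rw [card_proj_R (by positivity : 0 < b ^ s)]
  · -- the conjecture for small excess, cells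
    intro A A' hAA hA hcard hX
    have hb0 : 0 < b := by omega
    have hbr : (1:ℝ) ≤ b := by exact_mod_cast hb0
    obtain ⟨k, w, hk, hw, hkw, hwc, hp⟩ := hpar (ε / 16) (by positivity) (by linarith) s hs16 b hb
    have hs0 : (0:ℝ) ≤ s := Nat.cast_nonneg _
    have h1 := archYQ (ε / 8) ((ε / 16) ^ 2 / 1040) (ε ^ 2 / K) (by positivity) k w s b hk hw hkw hb
      (hwc.trans (mul_le_mul_of_nonneg_right (by nlinarith) hs0)) (by nlinarith) (by
        have := hcK 532480 (by norm_num) (by norm_num)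
        have e1 : (ε / 16) ^ 2 / 1040 / 2 = ε ^ 2 / 532480 := by ring
        rw [e1]
        exact this) (by
          have e1 : ε / 8 / 2 = ε / 16 := by ring
          rw [e1]
          exact hp) _ (Real.one_le_rpow (one_le_pow₀ hbr) hc0.le) le_rfl A' hA
    have h2 : (∑ r ∈ range (b ^ s), Real.log ((A'.image (prR (b ^ s) r)).card : ℝ)) /
        ((b ^ s : ℕ) : ℝ) ≤ Real.log (big (slopes (b ^ s)) A : ℝ) := by
      refine le_trans (le_of_eq ?_) (mean_le_big (by positivity : 0 < b ^ s)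
        (fun r : ℕ => (r : ℚ) / ((b ^ s : ℕ) : ℚ)) hAA hA)
      congr 1
      refine sum_congr rfl fun r _ => ?_
      rw [card_proj_R (by positivity : 0 < b ^ s)]
    exact conj_of_excess hε hε1 le_rfl (by positivity) le_rfl hAA hA
      (h1.trans (add_le_add h2 le_rfl)) hX hcard
  · -- dimension d, cells
    intro d A hd hA hdim
    have hb0 : 0 < b := by omega
    obtain ⟨k, w, hk, hw, hkw, _, hp⟩ := hpar ε hε hε1 s hs1 b hb
    have h1 := archQ ε (ε ^ 2 / 1040) (by positivity) k w s b hk hw (by omega) hb hp d A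
      hd hA (hdim.mono (pow_c (by omega) (hcK 1040 (by norm_num) (by norm_num))))
    have h2 : (∑ r ∈ range (b ^ s), Real.log ((A.image (prR (b ^ s) r)).card : ℝ)) =
        ∑ r ∈ range (b ^ s), Real.log ((proj ((r : ℚ) / ((b ^ s : ℕ) : ℚ)) A).card : ℝ) := by
      refine sum_congr rfl fun r _ => ?_
      rw [card_proj_R (by positivity : 0 < b ^ s)]
    rw [h2] at h1
    exact geo hA _ (fun r _ => by
      have : 0 < (proj ((r : ℚ) / ((b ^ s : ℕ) : ℚ)) A).card := card_pos.2 (hA.image _)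
      exact_mod_cast this) _ h1
  · -- the conjecture, cells
    intro d A hd hd2 hdim hcard
    exact conjA b hb d A hd hd2
      (hdim.mono (pow_c (by omega) (hcK 266240 (by norm_num) (by norm_num)))) hcard
  · -- sticky sets
    intro C A hC hA
    rcases A.eq_empty_or_nonempty with rfl | hne
    · exact conj_empty _ _
    have hb0 : 0 < b := by omega
    have hb2 : (2:ℝ) ≤ b := by exact_mod_cast hb
    have hlog2 : 0 < Real.log 2 := Real.log_pos one_lt_two
    have h6 : (6:ℝ) ≤ ((b : ℝ) ^ s) ^ (ε ^ 2 / 532480) := by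
      have h7 : Real.log 6 ≤ s * (Real.log 2 * (ε ^ 2 / 532480)) := by
        have h70 : Real.log 6 ≤ 3 * Real.log 2 := by
          rw [← Real.log_rpow (by norm_num)]
          exact Real.log_le_log (by norm_num) (by norm_num)
        have h71 : 3 ≤ (s : ℝ) * (ε ^ 2 / 532480) := by
          have h72 : 10000000 / ε ^ 2 ≤ s := by
            refine le_trans ?_ hs
            refine div_le_div_of_nonneg_right ?_ (by positivity)
            have : 0 ≤ K * L := mul_nonneg hK0.le hL0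
            linarith
          have h74 : 10000000 / ε ^ 2 * (ε ^ 2 / 532480) ≤ (s : ℝ) * (ε ^ 2 / 532480) :=
            mul_le_mul_of_nonneg_right h72 (by positivity)
          have h75 : 10000000 / ε ^ 2 * (ε ^ 2 / 532480) = 10000000 / 532480 := by field_simp
          rw [h75] at h74
          refine le_trans ?_ h74
          norm_num
        calc Real.log 6 ≤ 3 * Real.log 2 := h70
          _ ≤ ((s : ℝ) * (ε ^ 2 / 532480)) * Real.log 2 :=
              mul_le_mul_of_nonneg_right h71 hlog2.le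
          _ = _ := by ring
      calc (6:ℝ) = Real.exp (Real.log 6) := (Real.exp_log (by norm_num)).symm
        _ ≤ Real.exp (s * (Real.log 2 * (ε ^ 2 / 532480))) := Real.exp_le_exp.2 h7
        _ = ((2:ℝ) ^ s) ^ (ε ^ 2 / 532480) := by
            rw [Real.rpow_def_of_pos (by positivity), Real.log_pow]
            congr 1
            ring
        _ ≤ ((b : ℝ) ^ s) ^ (ε ^ 2 / 532480) :=
            Real.rpow_le_rpow (by positivity) (pow_le_pow_left₀ (by norm_num) hb2 _)
              (by positivity)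
    have hC' : (C : ℝ) ≤ ((b : ℝ) ^ s) ^ (ε ^ 2 / 532480) :=
      hC.trans (pow_c (by omega) (hcK 532480 (by norm_num) (by norm_num)))
    have h7 : (6:ℝ) * C ≤ ((b : ℝ) ^ s) ^ (ε ^ 2 / 266240) := by
      have h8 : ((b : ℝ) ^ s) ^ (ε ^ 2 / 266240) =
          ((b : ℝ) ^ s) ^ (ε ^ 2 / 532480) * ((b : ℝ) ^ s) ^ (ε ^ 2 / 532480) := by
        rw [← Real.rpow_add (by positivity)]
        congr 1
        ring
      rw [h8]
      exact mul_le_mul h6 hC' (Nat.cast_nonneg _) (by positivity)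
    refine conjA b hb 1 A le_rfl one_le_two ((cellDim_of_sticky hb hA s).mono h7) ?_
    have h1 : (proj (-1) A).card ≤ A.card := card_image_le
    have h2 : (1:ℝ) ≤ ((proj (-1) A).card : ℝ) := by
      have : 0 < (proj (-1) A).card := card_pos.2 (hne.image _)
      exact_mod_cast this
    calc ((proj (-1) A).card : ℝ) ^ (1 - ε / 8) ≤ ((proj (-1) A).card : ℝ) ^ (1:ℝ) :=
          Real.rpow_le_rpow_of_exponent_le h2 (by linarith)
      _ = ((proj (-1) A).card : ℝ) := Real.rpow_one _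
      _ ≤ A.card := by exact_mod_cast h1
  · -- general inequality, residues
    intro A hA
    have hbr : (1:ℝ) ≤ p := by exact_mod_cast hp.pos
    obtain ⟨k, w, hk, hw, hkw, hwc, hpp⟩ := hpar (ε / 2) (by positivity) (by linarith) s hs2 p
      hp.two_le
    have hs0 : (0:ℝ) ≤ s := Nat.cast_nonneg _
    have h1 := padicYQ ε ((ε / 2) ^ 2 / 1040) (ε ^ 2 / K) (by positivity) k w s p hk hw hkw hp
      (hwc.trans (mul_le_mul_of_nonneg_right (by nlinarith) hs0)) (by nlinarith) (by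
        have := hcK 8320 (by norm_num) (by norm_num)
        have e1 : (ε / 2) ^ 2 / 1040 / 2 = ε ^ 2 / 8320 := by ring
        rw [e1]
        exact this) hpp _ (Real.one_le_rpow (one_le_pow₀ hbr) hc0.le) le_rfl A hA
    refine h1.trans (le_of_eq ?_)
    congr 2
    refine sum_congr rfl fun r _ => ?_
    rw [card_proj_N]
  · -- the conjecture for small excess, residues
    intro A A' hAA hA hcard hX
    have hb0 : 0 < p := hp.pos
    have hbr : (1:ℝ) ≤ p := by exact_mod_cast hp.pos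
    obtain ⟨k, w, hk, hw, hkw, hwc, hpp⟩ := hpar (ε / 16) (by positivity) (by linarith) s hs16 p
      hp.two_le
    have hs0 : (0:ℝ) ≤ s := Nat.cast_nonneg _
    have h1 := padicYQ (ε / 8) ((ε / 16) ^ 2 / 1040) (ε ^ 2 / K) (by positivity) k w s p hk hw hkw
      hp (hwc.trans (mul_le_mul_of_nonneg_right (by nlinarith) hs0)) (by nlinarith) (by
        have := hcK 532480 (by norm_num) (by norm_num)
        have e1 : (ε / 16) ^ 2 / 1040 / 2 = ε ^ 2 / 532480 := by ring
        rw [e1]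
        exact this) (by
          have e1 : ε / 8 / 2 = ε / 16 := by ring
          rw [e1]
          exact hpp) _ (Real.one_le_rpow (one_le_pow₀ hbr) hc0.le) le_rfl A' hA
    have h2 : (∑ r ∈ range (p ^ s), Real.log ((A'.image (prN r)).card : ℝ)) /
        ((p ^ s : ℕ) : ℝ) ≤
        Real.log (big ((range (p ^ s)).image (fun r : ℕ => (r : ℚ))) A : ℝ) := by
      refine le_trans (le_of_eq ?_) (mean_le_big (by positivity : 0 < p ^ s)
        (fun r : ℕ => (r : ℚ)) hAA hA)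
      congr 1
      refine sum_congr rfl fun r _ => ?_
      rw [card_proj_N]
    exact conj_of_excess hε hε1 le_rfl (by positivity) le_rfl hAA hA
      (h1.trans (add_le_add h2 le_rfl)) hX hcard
  · -- dimension d, residues
    intro d A hd hA hdim
    obtain ⟨k, w, hk, hw, hkw, _, hpp⟩ := hpar ε hε hε1 s hs1 p hp.two_le
    have h1 := padicQ ε (ε ^ 2 / 1040) (by positivity) k w s p hk hw (by omega) hp hpp d A
      hd hA (hdim.mono (pow_c hp.pos (hcK 1040 (by norm_num) (by norm_num))))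
    have h2 : (∑ r ∈ range (p ^ s), Real.log ((A.image (prN r)).card : ℝ)) =
        ∑ r ∈ range (p ^ s), Real.log ((proj (r : ℚ) A).card : ℝ) := by
      refine sum_congr rfl fun r _ => ?_
      rw [card_proj_N]
    rw [h2] at h1
    exact geo hA _ (fun r _ => by
      have : 0 < (proj (r : ℚ) A).card := card_pos.2 (hA.image _)
      exact_mod_cast this) _ h1
  · -- the conjecture, residues
    intro d A hd hd2 hdim hcard
    rcases A.eq_empty_or_nonempty with rfl | hA
    · exact conj_empty _ _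
    have hp0 : 0 < p := hp.pos
    obtain ⟨k, w, hk, hw, hkw, _, hpp⟩ := hpar (ε / 16) (by positivity) (by linarith) s hs16 p
      hp.two_le
    have e1 : (ε / 16) ^ 2 / 1040 = ε ^ 2 / 266240 := by ring
    rw [e1] at hpp
    have h1 := padicQ (ε / 16) (ε ^ 2 / 266240) (by positivity) k w s p hk hw (by omega) hp hpp d A
      hd hA (hdim.mono (pow_c hp.pos (hcK 266240 (by norm_num) (by norm_num))))
    have h2 : (∑ r ∈ range (p ^ s), Real.log ((A.image (prN r)).card : ℝ)) =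
        ∑ r ∈ range (p ^ s), Real.log ((proj (r : ℚ) A).card : ℝ) := by
      refine sum_congr rfl fun r _ => ?_
      rw [card_proj_N]
    rw [h2] at h1
    have h3 := geo hA _ (fun r _ => by
      have : 0 < (proj (r : ℚ) A).card := card_pos.2 (hA.image _)
      exact_mod_cast this) _ h1
    have h4 := big_of_geo (by positivity : 0 < p ^ s) (fun r : ℕ => (r : ℚ)) h3
    exact conj_of_exponent hε hε1 le_rfl le_rfl hd hd2 hA h4 hcard

end Pool.Agent.V7H66.AK
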