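import Pool.Agent.V7H66.AK.Gen
import Pool.Agent.V7H66.AK.Num

/-!
# The windows with the chosen parameters
-/

set_option autoImplicit false

open Finset
open scoped Classical

noncomputable section

namespace Pool.Agent.V7H66.AK

/-- the number of elements of an image does not depend on the instance of decidable equality -/
lemma card_image_irrel {α β : Type} (i₁ i₂ : DecidableEq β) (f : α → β) (s : Finset α) :
    (@image α β i₁ f s).card = (@image α β i₂ f s).card := by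
  rw [Subsingleton.elim i₁ i₂]

lemma sumB (q D C d : ℝ) (s m : ℕ) (hq : 1 ≤ q) (hD : 0 ≤ D) (hC : 1 ≤ C) (hd : 1 ≤ d) :
    ∑ l ∈ Ioc m s, D / q ^ l * (C * (q ^ l) ^ d) ^ (1 - (1 - 1 / d)) ≤ s * (D * C) := by
  have hq0 : 0 < q := by linarith
  have hd0 : 0 < d := by linarith
  have h1 : ∀ l ∈ Ioc m s, D / q ^ l * (C * (q ^ l) ^ d) ^ (1 - (1 - 1 / d)) ≤ D * C := by
    intro l hl
    have h2 : (0:ℝ) < q ^ l := by positivity
    have h3 : (C * (q ^ l) ^ d) ^ (1 - (1 - 1 / d)) = C ^ (1 / d) * q ^ l := by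
      rw [sub_sub_cancel, Real.mul_rpow (by linarith) (by positivity), ← Real.rpow_mul h2.le,
        mul_one_div_cancel hd0.ne', Real.rpow_one]
    have h4 : C ^ (1 / d) ≤ C := by
      calc C ^ (1 / d) ≤ C ^ (1:ℝ) := by
            refine Real.rpow_le_rpow_of_exponent_le hC ?_
            rw [div_le_one hd0]
            exact hd
        _ = C := Real.rpow_one C
    rw [h3]
    calc D / q ^ l * (C ^ (1 / d) * q ^ l) = D * C ^ (1 / d) := by field_simp
      _ ≤ D * C := mul_le_mul_of_nonneg_left h4 hD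
  refine (sum_le_sum h1).trans ?_
  rw [sum_const, nsmul_eq_mul, Nat.card_Ioc]
  refine mul_le_mul_of_nonneg_right ?_ (by positivity)
  have : s - m ≤ s := Nat.sub_le _ _
  exact_mod_cast this

variable {α β ρ χ : Type*}

variable {c : ℕ → α → β} {A : Finset α} {T : ℕ}

theorem fin_ineq (h : Nested c A T) (hA : A.Nonempty) (S : Finset ρ) (hS : S.Nonempty)
    (π : ρ → α → χ) (k w b s : ℕ) (hk : 2 ≤ k) (hw : 1 ≤ w) (hb : 2 ≤ b)
    (hs : 2 * k * w ≤ s) (C d : ℝ) (hC : 1 ≤ C) (hd : 1 ≤ d) (bad : ℕ → α → Prop) (ε : ℝ)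
    (hpar : par b s w k C ≤ ε)
    (hP : ∀ n, ∀ a ∈ A, ∀ x ∈ A, ¬ bad n a → ∀ l, 2 * k * w < l → l ≤ s → l ≤ n →
      c (n - l) a = c (n - l) x → c (n - l + 1) a ≠ c (n - l + 1) x →
      wt c A π S n a x ≤ 5 * (b : ℝ) ^ (w + 1) / (b : ℝ) ^ l)
    (hK : ∀ n l, l ≤ s → l ≤ n → ∀ x ∈ A,
      (((cls c A (n - l) x).image (c n)).card : ℝ) ≤ C * ((b : ℝ) ^ l) ^ d) :
    (A.card : ℝ) * ((1 / d - ε + 56 * s * w / (b : ℝ) ^ w) * Real.log A.card) ≤
      A.card * ((∑ r ∈ S, Real.log ((A.image (π r)).card : ℝ)) / S.card) +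
      (∑ n ∈ range (T + s), ∑ a ∈ A.filter (bad (n + 1)),
        Real.log (cn c A (n + 1 - s) a / cn c A (n + 1) a)) / s := by
  have hb2 : (2:ℝ) ≤ b := by exact_mod_cast hb
  have hb0 : (0:ℝ) < b := by linarith
  have hb1 : (1:ℝ) < b := by linarith
  have hkw : 1 ≤ k * w := Nat.mul_pos (by omega) hw
  have hs1 : 1 ≤ s := by
    have : 2 * k * w = 2 * (k * w) := by ring
    omega
  have hl0 : (0:ℝ) < 1 / (b : ℝ) ^ (k * w) := by positivity
  have hl1 : 1 / (b : ℝ) ^ (k * w) < 1 := by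
    rw [div_lt_one (by positivity)]
    exact one_lt_pow₀ hb1 (by omega)
  have hd0 : 0 < d := by linarith
  have hd1 : 1 / d ≤ 1 := by
    rw [div_le_one hd0]
    exact hd
  have hd2 : 0 < 1 / d := by positivity
  have key := total_pow h hA S hS π s (2 * k * w) hs1 hs bad (1 - 1 / d)
    (5 * (b : ℝ) ^ (w + 1)) b
    (1 / (b : ℝ) ^ (k * w)) (fun l => C * ((b : ℝ) ^ l) ^ d) (by linarith) (by linarith)
    (by positivity) hb1 hl0 hl1 (fun l => by positivity) hP hK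
  refine le_trans ?_ key
  refine mul_le_mul_of_nonneg_left ?_ (Nat.cast_nonneg _)
  refine mul_le_mul_of_nonneg_right ?_ (Real.log_nonneg ?_)
  · have h1 := sumB (b : ℝ) (5 * (b : ℝ) ^ (w + 1)) C d s (2 * k * w) hb1.le
      (by positivity) hC hd
    have h2 : Real.log (1 + ∑ l ∈ Ioc (2 * k * w) s,
        5 * (b : ℝ) ^ (w + 1) / (b : ℝ) ^ l * (C * ((b : ℝ) ^ l) ^ d) ^ (1 - (1 - 1 / d))) ≤
        Real.log (1 + s * (5 * (b : ℝ) ^ (w + 1) * C)) := by
      refine Real.log_le_log ?_ (add_le_add le_rfl h1)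
      have : 0 ≤ ∑ l ∈ Ioc (2 * k * w) s,
        5 * (b : ℝ) ^ (w + 1) / (b : ℝ) ^ l * (C * ((b : ℝ) ^ l) ^ d) ^ (1 - (1 - 1 / d)) :=
        sum_nonneg fun l _ => by positivity
      linarith
    have h3 : 0 < Real.log (1 / (1 / (b : ℝ) ^ (k * w))) := by
      rw [one_div_one_div]
      exact Real.log_pos (one_lt_pow₀ hb1 (by omega))
    have h4 := div_le_div_of_nonneg_right (add_le_add
      (le_refl (5 * (b : ℝ) ^ (w + 1) / b ^ (2 * k * w + 1) / (1 / (b : ℝ) ^ (k * w)))) h2) h3.le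
    unfold par at hpar
    linarith
  · have : 1 ≤ A.card := card_pos.2 hA
    exact_mod_cast this

theorem fin_ineq' (h : Nested c A T) (hA : A.Nonempty) (S : Finset ρ) (hS : S.Nonempty)
    (π : ρ → α → χ) (k w b s : ℕ) (hk : 2 ≤ k) (hw : 1 ≤ w) (hb : 2 ≤ b)
    (hs : 2 * k * w ≤ s) (C d : ℝ) (hC : 1 ≤ C) (hd : 1 ≤ d) (ε : ℝ)
    (hpar : par b s w k C ≤ ε)
    (hP : ∀ n, ∀ a ∈ A, ∀ x ∈ A, ∀ l, 2 * k * w < l → l ≤ s → l ≤ n →
      c (n - l) a = c (n - l) x → c (n - l + 1) a ≠ c (n - l + 1) x →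
      wt c A π S n a x ≤ 5 * (b : ℝ) ^ (w + 1) / (b : ℝ) ^ l)
    (hK : ∀ n l, l ≤ s → l ≤ n → ∀ x ∈ A,
      (((cls c A (n - l) x).image (c n)).card : ℝ) ≤ C * ((b : ℝ) ^ l) ^ d) :
    (1 / d - ε) * Real.log A.card ≤
      (∑ r ∈ S, Real.log ((A.image (π r)).card : ℝ)) / S.card := by
  obtain ⟨bad, hbad⟩ : ∃ bad : ℕ → α → Prop, ∀ n a, ¬ bad n a :=
    ⟨fun _ _ => False, fun _ _ h => h⟩
  have key := fin_ineq h hA S hS π k w b s hk hw hb hs C d hC hd bad ε hpar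
    (fun n a ha x hx _ => hP n a ha x hx) hK
  have h0 : (∑ n ∈ range (T + s), ∑ a ∈ A.filter (bad (n + 1)),
        Real.log (cn c A (n + 1 - s) a / cn c A (n + 1) a)) = 0 := by
    refine sum_eq_zero fun n _ => ?_
    rw [filter_false_of_mem (fun a _ => hbad (n + 1) a)]
    rfl
  rw [h0, zero_div, add_zero] at key
  have hAc : (0:ℝ) < A.card := by exact_mod_cast card_pos.2 hA
  have h2 := le_of_mul_le_mul_left key hAc
  refine le_trans ?_ h2
  refine mul_le_mul_of_nonneg_right ?_ (Real.log_nonneg ?_)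
  · have : (0:ℝ) ≤ 56 * s * w / (b : ℝ) ^ w := by positivity
    linarith
  · have : 1 ≤ A.card := card_pos.2 hA
    exact_mod_cast this

/-- from the mean over the slopes to one slope -/
lemma exists_slope (hA : A.Nonempty) (S : Finset ρ) (hS : S.Nonempty)
    (π : ρ → α → χ) (δ : ℝ) (hm : δ * Real.log A.card ≤
      (∑ r ∈ S, Real.log ((A.image (π r)).card : ℝ)) / S.card) :
    ∃ r ∈ S, (A.card : ℝ) ^ δ ≤ ((A.image (π r)).card : ℝ) := by
  have hSc : (0:ℝ) < S.card := by exact_mod_cast card_pos.2 hS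
  have hAc : (0:ℝ) < A.card := by exact_mod_cast card_pos.2 hA
  have h1 : ∃ r ∈ S, δ * Real.log A.card ≤ Real.log ((A.image (π r)).card : ℝ) := by
    refine exists_le_of_sum_le hS ?_
    rw [sum_const, nsmul_eq_mul]
    rw [le_div_iff₀ hSc] at hm
    linarith
  obtain ⟨r, hr, h2⟩ := h1
  refine ⟨r, hr, ?_⟩
  have h3 : (0:ℝ) < ((A.image (π r)).card : ℝ) := by exact_mod_cast card_pos.2 (hA.image _)
  rw [Real.rpow_def_of_pos hAc, ← Real.exp_log h3]
  refine Real.exp_le_exp.2 ?_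
  linarith

end Pool.Agent.V7H66.AK
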