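import Pool.Agent.V7H66.AK.Num

/-!
# The choice of the parameters, with room for one more factor
-/

set_option autoImplicit false

open Finset Filter Topology

noncomputable section

namespace Pool.Agent.V7H66.AK

/-- the parameters -/
lemma params2 (ε : ℝ) (hε : 0 < ε) : ∃ c : ℝ, 0 < c ∧ c ≤ ε ∧ ∃ k s₀ : ℕ, 2 ≤ k ∧
    ∀ s : ℕ, s₀ ≤ s → ∀ b : ℕ, 2 ≤ b → ∃ w : ℕ, 1 ≤ w ∧ 2 * k * w + w ≤ s ∧
      (w : ℝ) ≤ c / 2 * s ∧
      par b s w k (36 * ((b : ℝ) ^ s) ^ c) ≤ ε := by
  obtain ⟨K, hK⟩ := exists_nat_gt (32 / ε)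
  set k : ℕ := K + 2 with hk
  have hk2 : 2 ≤ k := by omega
  have hk0 : (0:ℝ) < k := by positivity
  have hkε : 2 / (k : ℝ) ≤ ε / 8 := by
    have h1 : 32 / ε < (k : ℝ) := hK.trans (by rw [hk]; push_cast; linarith)
    rw [div_lt_iff₀ hε] at h1
    rw [div_le_div_iff₀ hk0 (by norm_num)]
    linarith
  have hlog2 : 0 < Real.log 2 := Real.log_pos one_lt_two
  have hlim := lim1 (5 + 5 / Real.log 2) (Real.log (720 * k * k) / Real.log 2) (1 / Real.log 2)
    (112 * (k * k))
  have hev := (hlim.eventually (gt_mem_nhds (show (0:ℝ) < ε / 2 by positivity))).and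
    (eventually_ge_atTop 1)
  obtain ⟨w₀, hw₀⟩ := eventually_atTop.1 hev
  have hk3 : 3 ≤ k := by
    have h1 : (0:ℝ) < K := lt_trans (by positivity) hK
    have h2 : 0 < K := by exact_mod_cast h1
    omega
  have hcε : ε / (16 * k) ≤ ε := by
    refine div_le_self hε.le ?_
    have : (1:ℝ) ≤ k := by
      have : 1 ≤ k := by omega
      exact_mod_cast this
    linarith
  refine ⟨ε / (16 * k), by positivity, hcε, k, k * k * (w₀ + 1), hk2, fun s hs b hb => ?_⟩
  set w : ℕ := s / (k * k) with hwdef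
  have hkk : 0 < k * k := by positivity
  have hww : w₀ + 1 ≤ w := by
    rw [hwdef, Nat.le_div_iff_mul_le hkk]
    linarith
  obtain ⟨hw, hw1⟩ := hw₀ w (by omega)
  have hs1 : k * k * w ≤ s := by
    rw [hwdef]
    exact Nat.mul_div_le s (k * k)
  have hs2 : s ≤ 2 * (k * k * w) := by
    have h1 : s < k * k * (w + 1) := by
      rw [hwdef]
      exact Nat.lt_mul_div_succ s hkk
    have h2 : k * k * (w + 1) ≤ 2 * (k * k * w) := by
      have : w + 1 ≤ 2 * w := by omega
      calc k * k * (w + 1) ≤ k * k * (2 * w) := Nat.mul_le_mul_left _ this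
        _ = _ := by ring
    omega
  refine ⟨w, hw1, ?_, ?_, ?_⟩
  · have h1 : 2 * k + 1 ≤ k * k := by nlinarith
    calc 2 * k * w + w = (2 * k + 1) * w := by ring
      _ ≤ k * k * w := Nat.mul_le_mul_right _ h1
      _ ≤ s := hs1
  · have h1 : 32 / ε < (k : ℝ) := hK.trans (by rw [hk]; push_cast; linarith)
    rw [div_lt_iff₀ hε] at h1
    have h2 : (k : ℝ) * k * w ≤ s := by exact_mod_cast hs1
    have h3 : (0:ℝ) ≤ w := Nat.cast_nonneg _
    have h4 : 0 < ε / (16 * k) / 2 := by positivity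
    calc (w : ℝ) = 1 * w := (one_mul _).symm
      _ ≤ (k * ε / 32) * w := mul_le_mul_of_nonneg_right (by linarith) h3
      _ = ε / (16 * k) / 2 * (k * k * w) := by field_simp; ring
      _ ≤ ε / (16 * k) / 2 * s := mul_le_mul_of_nonneg_left h2 h4.le
  have hw0 : (0:ℝ) < w := by exact_mod_cast hw1
  have hb2 : (2:ℝ) ≤ b := by exact_mod_cast hb
  have hb0 : (0:ℝ) < b := by linarith
  have hb1 : (1:ℝ) ≤ b := by linarith
  have hlogb : Real.log 2 ≤ Real.log b := Real.log_le_log (by norm_num) hb2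
  have hlogb0 : 0 < Real.log b := lt_of_lt_of_le hlog2 hlogb
  have hs1' : (k : ℝ) * k * w ≤ s := by exact_mod_cast hs1
  have hs2' : (s : ℝ) ≤ 2 * (k * k * w) := by exact_mod_cast hs2
  have hs0 : (0:ℝ) < s := lt_of_lt_of_le (by positivity) hs1'
  have hs1'' : (1:ℝ) ≤ s := by
    have : 1 ≤ s := by
      have : 0 < k * k * w := by positivity
      omega
    exact_mod_cast this
  unfold par
  -- first term
  have e1 : ((2 * k * w : ℕ) : ℝ) / (s : ℝ) ≤ 2 / k := by
    rw [div_le_div_iff₀ hs0 hk0]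
    push_cast
    calc 2 * (k : ℝ) * w * k = 2 * (k * k * w) := by ring
      _ ≤ 2 * s := by linarith
  -- kappa / lambda
  have e2 : 5 * (b : ℝ) ^ (w + 1) / b ^ (2 * k * w + 1) / (1 / (b : ℝ) ^ (k * w)) ≤ 5 * (1 / 2 ^ w) := by
    have h1 : 5 * (b : ℝ) ^ (w + 1) / b ^ (2 * k * w + 1) / (1 / (b : ℝ) ^ (k * w)) =
        5 * ((b : ℝ) ^ w / b ^ (k * w)) := by
      have h2 : (b : ℝ) ^ (2 * k * w + 1) = b ^ (k * w) * b ^ (k * w) * b := by
        rw [← pow_add, pow_succ]
        congr 2
        ring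
      rw [h2, pow_succ]
      field_simp
    rw [h1]
    refine mul_le_mul_of_nonneg_left ?_ (by norm_num)
    rw [div_le_div_iff₀ (by positivity) (by positivity), one_mul]
    calc (b : ℝ) ^ w * 2 ^ w ≤ b ^ w * b ^ w :=
          mul_le_mul_of_nonneg_left (pow_le_pow_left₀ (by norm_num) hb2 _) (by positivity)
      _ = (b : ℝ) ^ (2 * w) := by rw [← pow_add]; congr 1; ring
      _ ≤ b ^ (k * w) := pow_le_pow_right₀ hb1 (Nat.mul_le_mul_right _ hk2)
  -- log (1 / lambda)
  have e3 : Real.log (1 / (1 / (b : ℝ) ^ (k * w))) = k * w * Real.log b := by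
    rw [one_div_one_div, Real.log_pow]
    push_cast
    ring
  have e3' : 0 < k * w * Real.log b := by positivity
  -- log (1 + B)
  have hc0 : 0 < ε / (16 * k) := by positivity
  have e4 : Real.log (1 + s * (5 * (b : ℝ) ^ (w + 1) * (36 * ((b : ℝ) ^ s) ^ (ε / (16 * k))))) ≤
      Real.log (720 * k * k) + Real.log w + (w + 1) * Real.log b +
        ε / (16 * k) * (2 * (k * k * w)) * Real.log b := by
    have h1 : (1:ℝ) ≤ ((b : ℝ) ^ s) ^ (ε / (16 * k)) :=
      Real.one_le_rpow (one_le_pow₀ hb1) hc0.le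
    have h2 : (1:ℝ) ≤ (b:ℝ) ^ (w + 1) := one_le_pow₀ hb1
    set X : ℝ := ((b : ℝ) ^ s) ^ (ε / (16 * k)) with hX
    have h3 : (1:ℝ) ≤ s * (5 * (b : ℝ) ^ (w + 1) * (36 * X)) := by
      have h5 : (1:ℝ) ≤ 5 * (b : ℝ) ^ (w + 1) := by linarith
      have h6 : (1:ℝ) ≤ 5 * (b : ℝ) ^ (w + 1) * (36 * X) := by
        calc (1:ℝ) = 1 * 1 := by ring
          _ ≤ _ := mul_le_mul h5 (by linarith) (by norm_num) (by linarith)
      calc (1:ℝ) = 1 * 1 := by ring
        _ ≤ _ := mul_le_mul hs1'' h6 (by norm_num) (by linarith)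
    have hX0 : 0 < X := by linarith
    calc Real.log (1 + s * (5 * (b : ℝ) ^ (w + 1) * (36 * X)))
        ≤ Real.log ((720 * k * k) * w * b ^ (w + 1) * X) := by
          refine Real.log_le_log (by linarith) ?_
          have h7 : (s : ℝ) * (5 * (b : ℝ) ^ (w + 1) * (36 * X)) ≤
              (2 * (k * k * w)) * (5 * (b : ℝ) ^ (w + 1) * (36 * X)) :=
            mul_le_mul_of_nonneg_right hs2' (by positivity)
          have h8 : (720 * (k:ℝ) * k) * w * b ^ (w + 1) * X =
              2 * ((2 * (k * k * w)) * (5 * (b : ℝ) ^ (w + 1) * (36 * X))) := by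
            ring
          rw [h8]
          linarith
      _ = Real.log (720 * k * k) + Real.log w + (w + 1) * Real.log b +
            ε / (16 * k) * s * Real.log b := by
          rw [Real.log_mul (by positivity) hX0.ne', Real.log_mul (by positivity) (by positivity),
            Real.log_mul (by positivity) hw0.ne', Real.log_pow, hX, Real.log_rpow (by positivity),
            Real.log_pow]
          push_cast
          ring
      _ ≤ _ := by
          refine add_le_add le_rfl ?_
          refine mul_le_mul_of_nonneg_right ?_ hlogb0.le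
          exact mul_le_mul_of_nonneg_left hs2' hc0.le
  -- last term
  have e5 : 56 * (s : ℝ) * w / (b : ℝ) ^ w ≤ 112 * (k * k) * (w ^ 2 / 2 ^ w) := by
    calc 56 * (s : ℝ) * w / (b : ℝ) ^ w ≤ 56 * (2 * (k * k * w)) * w / (b : ℝ) ^ w := by
          refine div_le_div_of_nonneg_right ?_ (by positivity)
          refine mul_le_mul_of_nonneg_right ?_ hw0.le
          linarith
      _ ≤ 56 * (2 * (k * k * w)) * w / 2 ^ w :=
          div_le_div_of_nonneg_left (by positivity) (by positivity)
            (pow_le_pow_left₀ (by norm_num) hb2 _)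
      _ = _ := by ring
  rw [e3]
  set P : ℝ := 5 * (b : ℝ) ^ (w + 1) / b ^ (2 * k * w + 1) / (1 / (b : ℝ) ^ (k * w)) with hP
  set Q : ℝ := Real.log (1 + s * (5 * (b : ℝ) ^ (w + 1) *
    (36 * ((b : ℝ) ^ s) ^ (ε / (16 * k))))) with hQ
  have hP0 : 0 ≤ P := by positivity
  have e6 : (P + Q) / (k * w * Real.log b) ≤ 5 * (1 / 2 ^ w) / Real.log 2 +
      (Real.log (720 * k * k) / Real.log 2 * (1 / w) + 1 / Real.log 2 * (Real.log w / w)) +
      2 / k + ε / 8 := by
    have hk1 : (1:ℝ) ≤ k := by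
      have : 1 ≤ k := by omega
      exact_mod_cast this
    have hw1' : (1:ℝ) ≤ w := by exact_mod_cast hw1
    have h1 : (P + Q) / (k * w * Real.log b) ≤ (5 * (1 / 2 ^ w) + (Real.log (720 * k * k) +
        Real.log w + (w + 1) * Real.log b + ε / (16 * k) * (2 * (k * k * w)) * Real.log b)) /
          (k * w * Real.log b) :=
      div_le_div_of_nonneg_right (add_le_add e2 e4) e3'.le
    refine h1.trans ?_
    have h2 : (5 * (1 / 2 ^ w) + (Real.log (720 * k * k) +
        Real.log w + (w + 1) * Real.log b + ε / (16 * k) * (2 * (k * k * w)) * Real.log b)) /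
          (k * w * Real.log b) =
        5 * (1 / 2 ^ w) / (k * w * Real.log b) +
        (Real.log (720 * k * k) + Real.log w) / (k * w * Real.log b) +
        (w + 1) / (k * w) + ε / 8 := by
      field_simp
      ring
    rw [h2]
    have hlogC : 0 ≤ Real.log (720 * k * k) := Real.log_nonneg (by
      have h11 : (1:ℝ) ≤ 720 * k := by linarith
      calc (1:ℝ) = 1 * 1 := by ring
          _ ≤ _ := mul_le_mul h11 hk1 (by norm_num) (by linarith))
    have hlogw : 0 ≤ Real.log w := Real.log_nonneg hw1'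
    have hden1 : Real.log 2 ≤ k * w * Real.log b := by
      calc Real.log 2 ≤ Real.log b := hlogb
        _ = 1 * 1 * Real.log b := by ring
        _ ≤ k * w * Real.log b := by
          refine mul_le_mul_of_nonneg_right ?_ hlogb0.le
          exact mul_le_mul hk1 hw1' (by norm_num) (by linarith)
    have hden2 : w * Real.log 2 ≤ k * w * Real.log b := by
      calc w * Real.log 2 ≤ w * Real.log b := mul_le_mul_of_nonneg_left hlogb hw0.le
        _ = 1 * (w * Real.log b) := by ring
        _ ≤ k * (w * Real.log b) := mul_le_mul_of_nonneg_right hk1 (by positivity)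
        _ = _ := by ring
    have h3 : 5 * (1 / 2 ^ w) / (k * w * Real.log b) ≤ 5 * (1 / 2 ^ w) / Real.log 2 :=
      div_le_div_of_nonneg_left (by positivity) hlog2 hden1
    have h4 : (Real.log (720 * k * k) + Real.log w) / (k * w * Real.log b) ≤
        (Real.log (720 * k * k) + Real.log w) / (w * Real.log 2) :=
      div_le_div_of_nonneg_left (by positivity) (by positivity) hden2
    have h5 : (Real.log (720 * k * k) + Real.log w) / (w * Real.log 2) =
        Real.log (720 * k * k) / Real.log 2 * (1 / w) + 1 / Real.log 2 * (Real.log w / w) := by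
      field_simp
    have h6 : ((w : ℝ) + 1) / (k * w) ≤ 2 / k := by
      rw [div_le_div_iff₀ (by positivity) hk0]
      have : (w : ℝ) + 1 ≤ 2 * w := by linarith
      calc ((w : ℝ) + 1) * k ≤ (2 * w) * k := mul_le_mul_of_nonneg_right this hk0.le
        _ = _ := by ring
    rw [h5] at h4
    linarith
  have e7 : (5 + 5 / Real.log 2) * (1 / 2 ^ w) = 5 * (1 / 2 ^ w) + 5 * (1 / 2 ^ w) / Real.log 2 := by
    ring
  rw [e7] at hw
  linarith

end Pool.Agent.V7H66.AK
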