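import Pool.Agent.V7H66.AK.GenY
import Pool.Agent.V7H66.AK.Num2
import Pool.Agent.V7H66.AK.Fin

/-!
# The windows with the chosen parameters, with the excess
-/

set_option autoImplicit false

open Finset
open scoped Classical

noncomputable section

namespace Pool.Agent.V7H66.AK

variable {α β ρ χ : Type*}

variable {c : ℕ → α → β} {A : Finset α} {T : ℕ}

/-- the largest value of `log⁺ (g l / (M q ^ l g 0))`, `l ≤ s` -/
def growth (q M : ℝ) (s : ℕ) (g : ℕ → ℝ) : ℝ :=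
  (range (s + 1)).sup' nonempty_range_add_one fun l => max 0 (Real.log (g l / (M * q ^ l * g 0)))

lemma growth_nonneg (q M : ℝ) (s : ℕ) (g : ℕ → ℝ) : 0 ≤ growth q M s g := by
  unfold growth
  exact (le_max_left 0 _).trans (le_sup' (fun l => max 0 (Real.log (g l / (M * q ^ l * g 0))))
    (mem_range.2 (Nat.succ_pos s)))

lemma growth_spec {q M : ℝ} {s : ℕ} {g : ℕ → ℝ} (hq : 0 < q) (hM : 0 < M) (hg : 0 < g 0) {l : ℕ}
    (hl : l ≤ s) : g l ≤ M * q ^ l * Real.exp (growth q M s g) * g 0 := by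
  have h1 : Real.log (g l / (M * q ^ l * g 0)) ≤ growth q M s g :=
    (le_max_right 0 _).trans (le_sup' (fun l => max 0 (Real.log (g l / (M * q ^ l * g 0))))
      (mem_range.2 (Nat.lt_succ_of_le hl)))
  have h2 : g l / (M * q ^ l * g 0) ≤ Real.exp (growth q M s g) :=
    (Real.le_exp_log _).trans (Real.exp_le_exp.2 h1)
  rw [div_le_iff₀ (by positivity)] at h2
  calc g l ≤ Real.exp (growth q M s g) * (M * q ^ l * g 0) := h2
    _ = _ := by ring

lemma growth_zero {q M : ℝ} {s : ℕ} {g : ℕ → ℝ} (hq : 1 ≤ q) (hM : 1 ≤ M) (hg : 0 < g 0)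
    (h0 : ∀ l, 0 ≤ g l) (h : ∀ l, l ≤ s → g l ≤ g 0) : growth q M s g = 0 := by
  refine le_antisymm ?_ (growth_nonneg q M s g)
  unfold growth
  refine sup'_le _ _ fun l hl => max_le le_rfl ?_
  have hl' : l ≤ s := Nat.lt_succ_iff.1 (mem_range.1 hl)
  have h1 : (1:ℝ) ≤ q ^ l := one_le_pow₀ hq
  have h2 : 1 ≤ M * q ^ l := by
    calc (1:ℝ) = 1 * 1 := by ring
      _ ≤ M * q ^ l := mul_le_mul hM h1 (by norm_num) (by linarith)
  refine Real.log_nonpos (div_nonneg (h0 l) (by positivity)) ?_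
  rw [div_le_one (by positivity)]
  calc g l ≤ 1 * g 0 := by rw [one_mul]; exact h l hl'
    _ ≤ M * q ^ l * g 0 := mul_le_mul_of_nonneg_right h2 hg.le

/-- a finite sum is at most the sum of the series -/
lemma sum_eq_tsum (f : ℕ → ℝ) (W : ℕ) (h0 : ∀ n, W ≤ n → f n = 0) :
    ∑ n ∈ range W, f n = ∑' n, f n := by
  rw [tsum_eq_sum (s := range W)]
  intro n hn
  rw [mem_range, not_lt] at hn
  exact h0 n hn

theorem finY_ineq (h : Nested c A T) (hA : A.Nonempty) (S : Finset ρ) (hS : S.Nonempty)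
    (π : ρ → α → χ) (k w b s s' : ℕ) (hk : 2 ≤ k) (hw : 1 ≤ w) (hb : 2 ≤ b)
    (hs : 2 * k * w ≤ s') (hs' : s' ≤ s) (hs'' : s ≤ s' + w) (C M : ℝ) (hM : 0 ≤ M) (hMC : M ≤ C)
    (bad : ℕ → α → Prop) (E : ℕ → α → ℝ) (hE : ∀ n, ∀ a ∈ A, 0 ≤ E n a) (ε : ℝ)
    (hpar : par b s w k C ≤ ε)
    (hP : ∀ n, ∀ a ∈ A, ∀ x ∈ A, ¬ bad n a → ∀ l, 2 * k * w < l → l ≤ s' → l ≤ n →
      c (n - l) a = c (n - l) x → c (n - l + 1) a ≠ c (n - l + 1) x →
      wt c A π S n a x ≤ 5 * (b : ℝ) ^ (w + 1) / (b : ℝ) ^ l)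
    (hY : ∀ n, ∀ a ∈ A, ¬ bad n a → ∀ l, 2 * k * w < l → l ≤ s' → l ≤ n →
      cn c A (n - l) a ≤ M * (b : ℝ) ^ l * Real.exp (E n a) * cn c A n a) :
    (A.card : ℝ) * ((1 - w / s - ε + 56 * s * w / (b : ℝ) ^ w) * Real.log A.card) ≤
      A.card * ((∑ r ∈ S, Real.log ((A.image (π r)).card : ℝ)) / S.card) +
      (∑ n ∈ range (T + s'), ∑ a ∈ A.filter (bad (n + 1)),
        Real.log (cn c A (n + 1 - s') a / cn c A (n + 1) a)) / s +
      (∑ n ∈ range (T + s'), ∑ a ∈ A, E (n + 1) a) / s := by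
  have hb2 : (2:ℝ) ≤ b := by exact_mod_cast hb
  have hb0 : (0:ℝ) < b := by linarith
  have hb1 : (1:ℝ) < b := by linarith
  have hkw : 1 ≤ k * w := Nat.mul_pos (by omega) hw
  have hs1 : 1 ≤ s' := by
    have : 2 * k * w = 2 * (k * w) := by ring
    omega
  have hl0 : (0:ℝ) < 1 / (b : ℝ) ^ (k * w) := by positivity
  have hl1 : 1 / (b : ℝ) ^ (k * w) < 1 := by
    rw [div_lt_one (by positivity)]
    exact one_lt_pow₀ hb1 (by omega)
  have key := totalY_pow h hA S hS π s' (2 * k * w) hs1 hs bad E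
    (5 * (b : ℝ) ^ (w + 1)) b (1 / (b : ℝ) ^ (k * w)) M hE
    (by positivity) hb1 hM hl0 hl1 hP hY
  set mean : ℝ := (∑ r ∈ S, Real.log ((A.image (π r)).card : ℝ)) / S.card with hmean
  set Bd : ℝ := ∑ n ∈ range (T + s'), ∑ a ∈ A.filter (bad (n + 1)),
        Real.log (cn c A (n + 1 - s') a / cn c A (n + 1) a) with hBd
  set Ed : ℝ := ∑ n ∈ range (T + s'), ∑ a ∈ A, E (n + 1) a with hEd
  set P : ℝ := 5 * (b : ℝ) ^ (w + 1) / (b : ℝ) ^ (2 * k * w + 1) / (1 / (b : ℝ) ^ (k * w)) with hPdef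
  have hP0 : 0 ≤ P := by positivity
  set G : ℝ := Real.log (1 / (1 / (b : ℝ) ^ (k * w))) with hG
  have hG0 : 0 < G := by
    rw [hG, one_div_one_div]
    exact Real.log_pos (one_lt_pow₀ hb1 (by omega))
  have hmean0 : 0 ≤ mean := by
    rw [hmean]
    refine div_nonneg (sum_nonneg fun r _ => Real.log_natCast_nonneg _) (Nat.cast_nonneg _)
  have hL0 : 0 ≤ Real.log (A.card : ℝ) := Real.log_natCast_nonneg _
  have hAc : (0:ℝ) < A.card := by exact_mod_cast card_pos.2 hA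
  have hs0 : (0:ℝ) < s := by
    have : 0 < s := by omega
    exact_mod_cast this
  have hs'0 : (0:ℝ) < s' := by exact_mod_cast hs1
  have hs's : (s' : ℝ) ≤ s := by exact_mod_cast hs'
  have hsw : (s : ℝ) ≤ s' + w := by exact_mod_cast hs''
  set τ' : ℝ := P + (P + Real.log (1 + s' * (5 * (b : ℝ) ^ (w + 1) * M))) / G with hτ'
  set τ : ℝ := P + (P + Real.log (1 + s * (5 * (b : ℝ) ^ (w + 1) * C))) / G with hτ
  have hC : 0 ≤ C := hM.trans hMC
  have hττ : τ' ≤ τ := by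
    rw [hτ, hτ']
    refine add_le_add le_rfl (div_le_div_of_nonneg_right (add_le_add le_rfl ?_) hG0.le)
    refine Real.log_le_log (by positivity) (add_le_add le_rfl ?_)
    refine mul_le_mul hs's ?_ (by positivity) hs0.le
    exact mul_le_mul_of_nonneg_left hMC (by positivity)
  have hτ'0 : 0 ≤ τ' := by
    rw [hτ']
    have : 0 ≤ Real.log (1 + s' * (5 * (b : ℝ) ^ (w + 1) * M)) := Real.log_nonneg (by
      have : (0:ℝ) ≤ s' * (5 * (b : ℝ) ^ (w + 1) * M) := by positivity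
      linarith)
    positivity
  set m : ℝ := ((2 * k * w : ℕ) : ℝ) with hm
  have hm0 : 0 ≤ m := Nat.cast_nonneg _
  -- multiply by s' / s
  have h1 := mul_le_mul_of_nonneg_left key (div_nonneg hs'0.le hs0.le)
  have e1 : (s' : ℝ) / s * (A.card * ((1 - m / s' - τ') * Real.log A.card)) =
      A.card * ((s' / s - m / s - s' / s * τ') * Real.log A.card) := by
    field_simp
  have e2 : (s' : ℝ) / s * (A.card * mean + Bd / s' + Ed / s') =
      s' / s * (A.card * mean) + Bd / s + Ed / s := by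
    field_simp
  rw [e1, e2] at h1
  have h2 : (s' : ℝ) / s * (A.card * mean) ≤ A.card * mean := by
    have : (s' : ℝ) / s ≤ 1 := by
      rw [div_le_one hs0]
      exact hs's
    exact mul_le_of_le_one_left (by positivity) this
  have h3 : 1 - w / s - ε + 56 * s * w / (b : ℝ) ^ w ≤ s' / s - m / s - s' / s * τ' := by
    have h4 : (s' : ℝ) / s * τ' ≤ τ := by
      calc (s' : ℝ) / s * τ' ≤ 1 * τ' := by
            refine mul_le_mul_of_nonneg_right ?_ hτ'0
            rw [div_le_one hs0]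
            exact hs's
        _ ≤ τ := by rw [one_mul]; exact hττ
    have h5 : 1 - (w : ℝ) / s ≤ s' / s := by
      rw [le_div_iff₀ hs0, sub_mul, div_mul_cancel₀ _ hs0.ne']
      linarith
    have h6 : m / s + τ + 56 * s * w / (b : ℝ) ^ w ≤ ε := hpar
    linarith
  have h7 : (A.card : ℝ) * ((1 - w / s - ε + 56 * s * w / (b : ℝ) ^ w) * Real.log A.card) ≤
      A.card * ((s' / s - m / s - s' / s * τ') * Real.log A.card) := by
    refine mul_le_mul_of_nonneg_left ?_ hAc.le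
    exact mul_le_mul_of_nonneg_right h3 hL0
  linarith

end Pool.Agent.V7H66.AK
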