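import Pool.Agent.V7H66.AK.Total

/-!
# Windows for partitions with a power law
-/

set_option autoImplicit false

open Finset
open scoped Classical

noncomputable section

namespace Pool.Agent.V7H66.AK

variable {α β ρ χ : Type*}

variable {c : ℕ → α → β} {A : Finset α} {T : ℕ}

/-- the number of the classes of level `n` in a class -/
lemma sum_inv_eq (h : Nested c A T) {j n : ℕ} (hjn : j ≤ n) {b : α} (hb : b ∈ A) :
    ∑ a ∈ cls c A j b, 1 / cn c A n a = (((cls c A j b).image (c n)).card : ℝ) := by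
  rw [← sum_fiberwise_of_maps_to (fun a ha => mem_image_of_mem (c n) ha)]
  have h1 : ∀ x ∈ (cls c A j b).image (c n), ∑ a ∈ (cls c A j b).filter (fun a => c n a = x),
      1 / cn c A n a = 1 := by
    intro x hx
    obtain ⟨a₀, ha₀, rfl⟩ := mem_image.1 hx
    have h2 := mem_cls.1 ha₀
    have h3 : (cls c A j b).filter (fun a => c n a = c n a₀) = cls c A n a₀ := by
      ext y
      rw [mem_filter, mem_cls, mem_cls]
      constructor
      · rintro ⟨⟨h4, _⟩, h5⟩
        exact ⟨h4, h5⟩
      · rintro ⟨h4, h5⟩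
        refine ⟨⟨h4, ?_⟩, h5⟩
        rw [h.le hjn h4 h2.1 h5, h2.2]
    rw [h3]
    exact sum_inv_cls h2.1
  rw [sum_congr rfl h1, sum_const, nsmul_eq_mul, mul_one]

/-- the level at which two points are separated -/
lemma exists_sep_level (h : Nested c A T) {n s m : ℕ} {a b : α} (ha : a ∈ A)
    (hb : b ∈ sep c A (n - s) (n - m) a) (hms : m ≤ s) :
    ∃ l, m < l ∧ l ≤ s ∧ l ≤ n ∧ c (n - l) a = c (n - l) b ∧ c (n - l + 1) a ≠ c (n - l + 1) b := by
  have hb1 := mem_sep.1 hb
  have hex : ∃ l, c (n - l) a = c (n - l) b := ⟨s, hb1.2.1.symm⟩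
  refine ⟨Nat.find hex, ?_, Nat.find_min' hex hb1.2.1.symm, ?_, Nat.find_spec hex, ?_⟩
  · by_contra hcon
    have h1 : Nat.find hex ≤ m := not_lt.1 hcon
    exact hb1.2.2 (h.le (by omega : n - m ≤ n - Nat.find hex) hb1.1 ha (Nat.find_spec hex).symm)
  · by_contra hcon
    have h1 : n < Nat.find hex := not_le.1 hcon
    refine Nat.find_min hex h1 ?_
    have h2 := Nat.find_spec hex
    have h3 : n - Nat.find hex = 0 := by omega
    have h4 : n - n = 0 := by omega
    rw [h3] at h2
    rw [h4]
    exact h2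
  · have hpos : 0 < Nat.find hex := by
      by_contra hcon
      have h1 : Nat.find hex = 0 := by omega
      have h2 := Nat.find_spec hex
      rw [h1] at h2
      exact hb1.2.2 (h.le (by omega : n - m ≤ n - 0) hb1.1 ha h2.symm)
    have hle : Nat.find hex ≤ n := by
      by_contra hcon
      have h1 : n < Nat.find hex := not_le.1 hcon
      refine Nat.find_min hex h1 ?_
      have h2 := Nat.find_spec hex
      have h3 : n - Nat.find hex = 0 := by omega
      have h4 : n - n = 0 := by omega
      rw [h3] at h2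
      rw [h4]
      exact h2
    intro heq
    refine Nat.find_min hex (show Nat.find hex - 1 < Nat.find hex by omega) ?_
    have h3 : n - (Nat.find hex - 1) = n - Nat.find hex + 1 := by omega
    rw [h3]
    exact heq

/-- power means -/
lemma pow_mean {θ : ℝ} (hθ0 : 0 ≤ θ) (hθ1 : θ ≤ 1) (h : Nested c A T) {s l n : ℕ} (hls : l ≤ s)
    {K : ℝ} (hK0 : 0 < K) {b : α} (hb : b ∈ A)
    (hK : (((cls c A (n - l) b).image (c n)).card : ℝ) ≤ K) :
    ∑ a ∈ cls c A (n - l) b, 1 / cn c A n a * (cn c A n a / cn c A (n - s) a) ^ θ ≤ K ^ (1 - θ) := by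
  have hKθ : 0 < K ^ θ := Real.rpow_pos_of_pos hK0 θ
  have hU : 0 < cn c A (n - s) b := cn_pos hb
  have h1 : ∀ a ∈ cls c A (n - l) b,
      1 / cn c A n a * (cn c A n a / cn c A (n - s) a) ^ θ ≤
      (1 / cn c A n a * (1 - θ) + θ * (K / cn c A (n - s) b)) / K ^ θ := by
    intro a ha
    have ha1 := mem_cls.1 ha
    have hN : 0 < cn c A n a := cn_pos ha1.1
    have hUa : cn c A (n - s) a = cn c A (n - s) b :=
      cn_eq (h.le (by omega : n - s ≤ n - l) ha1.1 hb ha1.2)
    rw [hUa, le_div_iff₀ hKθ, mul_assoc, ← Real.mul_rpow (by positivity) hK0.le]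
    have h2 := _root_.rpow_one_add_le_one_add_mul_self
      (s := cn c A n a / cn c A (n - s) b * K - 1) (by
        have : 0 < cn c A n a / cn c A (n - s) b * K := by positivity
        linarith) hθ0 hθ1
    rw [add_sub_cancel] at h2
    calc 1 / cn c A n a * (cn c A n a / cn c A (n - s) b * K) ^ θ
        ≤ 1 / cn c A n a * (1 + θ * (cn c A n a / cn c A (n - s) b * K - 1)) :=
          mul_le_mul_of_nonneg_left h2 (by positivity)
      _ = _ := by
          field_simp
          ring
  refine (sum_le_sum h1).trans ?_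
  rw [← sum_div, sum_add_distrib, ← sum_mul, sum_inv_eq h (by omega) hb, sum_const, nsmul_eq_mul]
  have h3 : ((cls c A (n - l) b).card : ℝ) * (θ * (K / cn c A (n - s) b)) ≤ θ * K := by
    have h4 : ((cls c A (n - l) b).card : ℝ) ≤ cn c A (n - s) b :=
      cn_anti h (by omega : n - s ≤ n - l) hb
    calc ((cls c A (n - l) b).card : ℝ) * (θ * (K / cn c A (n - s) b))
        ≤ cn c A (n - s) b * (θ * (K / cn c A (n - s) b)) :=
          mul_le_mul_of_nonneg_right h4 (by positivity)
      _ = θ * K := by field_simp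
  rw [div_le_iff₀ hKθ, ← Real.rpow_add hK0]
  have h5 : (1 - θ + θ) = 1 := by ring
  rw [h5, Real.rpow_one]
  have h6 : (((cls c A (n - l) b).image (c n)).card : ℝ) * (1 - θ) ≤ K * (1 - θ) :=
    mul_le_mul_of_nonneg_right hK (by linarith)
  linarith

theorem total_pow (h : Nested c A T) (hA : A.Nonempty) (S : Finset ρ) (hS : S.Nonempty)
    (π : ρ → α → χ) (s m : ℕ) (hs : 1 ≤ s) (hms : m ≤ s) (bad : ℕ → α → Prop) (θ D q lam : ℝ)
    (K : ℕ → ℝ) (hθ0 : 0 ≤ θ) (hθ1 : θ ≤ 1) (hD : 0 ≤ D) (hq : 1 < q) (hl0 : 0 < lam)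
    (hl1 : lam < 1) (hK0 : ∀ l, 0 < K l)
    (hP : ∀ n, ∀ a ∈ A, ∀ b ∈ A, ¬ bad n a → ∀ l, m < l → l ≤ s → l ≤ n →
      c (n - l) a = c (n - l) b → c (n - l + 1) a ≠ c (n - l + 1) b →
      wt c A π S n a b ≤ D / q ^ l)
    (hK : ∀ n l, l ≤ s → l ≤ n → ∀ b ∈ A, (((cls c A (n - l) b).image (c n)).card : ℝ) ≤ K l) :
    (A.card : ℝ) * ((1 - m / s - (θ + D / q ^ (m + 1) / lam + (D / q ^ (m + 1) / lam +
        Real.log (1 + ∑ l ∈ Ioc m s, D / q ^ l * K l ^ (1 - θ))) / Real.log (1 / lam))) *
        Real.log A.card) ≤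
      A.card * ((∑ r ∈ S, Real.log ((A.image (π r)).card : ℝ)) / S.card) +
      (∑ n ∈ range (T + s), ∑ a ∈ A.filter (bad (n + 1)),
        Real.log (cn c A (n + 1 - s) a / cn c A (n + 1) a)) / s := by
  have hq0 : 0 < q := by linarith
  refine total h hA S hS π s m hs hms bad θ (D / q ^ (m + 1))
    (∑ l ∈ Ioc m s, D / q ^ l * K l ^ (1 - θ)) lam hθ0 (by positivity) ?_ hl0 hl1 ?_ ?_
  · exact sum_nonneg fun l _ => mul_nonneg (by positivity) (Real.rpow_nonneg (hK0 l).le _)
  · intro n a ha hg b hb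
    obtain ⟨l, hl1, hl2, hl3, hl4, hl5⟩ := exists_sep_level h ha hb hms
    refine (hP n a ha b (mem_sep.1 hb).1 hg l hl1 hl2 hl3 hl4 hl5).trans ?_
    refine div_le_div_of_nonneg_left hD (by positivity) ?_
    exact pow_le_pow_right₀ hq.le hl1
  · intro n b hb
    set f : α → ℝ := fun a => 1 / cn c A n a * (cn c A n a / cn c A (n - s) a) ^ θ with hf
    have f0 : ∀ a ∈ A, 0 ≤ f a := fun a ha => by
      have h1 : 0 < cn c A n a := cn_pos ha
      have h2 : 0 < cn c A (n - s) a := cn_pos ha
      simp only [hf]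
      positivity
    have h1 : ∀ a ∈ (sep c A (n - s) (n - m) b).filter (fun a => ¬ bad n a),
        wt c A π S n a b / cn c A n a * (cn c A n a / cn c A (n - s) a) ^ θ ≤
          ∑ l ∈ Ioc m s, if l ≤ n ∧ a ∈ cls c A (n - l) b then D / q ^ l * f a else 0 := by
      intro a ha
      have ha1 := mem_filter.1 ha
      have haA := (mem_sep.1 ha1.1).1
      obtain ⟨l, hl1, hl2, hl3, hl4, hl5⟩ := exists_sep_level h haA (sep_symm hb ha1.1) hms
      have h2 := hP n a haA b hb ha1.2 l hl1 hl2 hl3 hl4 hl5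
      calc wt c A π S n a b / cn c A n a * (cn c A n a / cn c A (n - s) a) ^ θ
          = wt c A π S n a b * f a := by simp only [hf]; ring
        _ ≤ D / q ^ l * f a := mul_le_mul_of_nonneg_right h2 (f0 a haA)
        _ = (fun l => if l ≤ n ∧ a ∈ cls c A (n - l) b then D / q ^ l * f a else 0) l := by
            have : l ≤ n ∧ a ∈ cls c A (n - l) b := ⟨hl3, mem_cls.2 ⟨haA, hl4⟩⟩
            simp only [this, and_self, if_true]
        _ ≤ _ := by
            refine single_le_sum (f := fun l => if l ≤ n ∧ a ∈ cls c A (n - l) b then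
              D / q ^ l * f a else 0) ?_ (mem_Ioc.2 ⟨hl1, hl2⟩)
            intro l _
            split_ifs
            · exact mul_nonneg (by positivity) (f0 a haA)
            · exact le_rfl
    refine (sum_le_sum h1).trans ?_
    rw [sum_comm]
    refine sum_le_sum fun l hl => ?_
    have hl' := mem_Ioc.1 hl
    by_cases hln : l ≤ n
    · calc ∑ a ∈ (sep c A (n - s) (n - m) b).filter (fun a => ¬ bad n a),
            (if l ≤ n ∧ a ∈ cls c A (n - l) b then D / q ^ l * f a else 0)
          ≤ ∑ a ∈ A, (if l ≤ n ∧ a ∈ cls c A (n - l) b then D / q ^ l * f a else 0) := by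
            refine sum_le_sum_of_subset_of_nonneg ?_ ?_
            · intro a ha
              exact (mem_sep.1 (mem_filter.1 ha).1).1
            · intro a ha _
              split_ifs
              · exact mul_nonneg (by positivity) (f0 a ha)
              · exact le_rfl
        _ = ∑ a ∈ cls c A (n - l) b, D / q ^ l * f a := by
            rw [← sum_filter]
            refine sum_congr ?_ fun _ _ => rfl
            ext a
            rw [mem_filter]
            constructor
            · rintro ⟨_, _, h2⟩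
              exact h2
            · intro h2
              exact ⟨(mem_cls.1 h2).1, hln, h2⟩
        _ = D / q ^ l * ∑ a ∈ cls c A (n - l) b, f a := by
            rw [mul_sum]
        _ ≤ _ := mul_le_mul_of_nonneg_left
            (pow_mean hθ0 hθ1 h hl'.2 (hK0 l) hb (hK n l hl'.2 hln b hb)) (by positivity)
    · rw [sum_eq_zero]
      · exact mul_nonneg (by positivity) (Real.rpow_nonneg (hK0 l).le _)
      · intro a _
        rw [if_neg]
        intro h2
        exact hln h2.1

end Pool.Agent.V7H66.AK
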