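import Pool.Agent.V7H66.AK.TotalY
import Pool.Agent.V7H66.AK.Gen

/-!
# Windows for partitions, with the excess of the growth of the classes
-/

set_option autoImplicit false

open Finset
open scoped Classical

noncomputable section

namespace Pool.Agent.V7H66.AK

variable {α β ρ χ : Type*}

variable {c : ℕ → α → β} {A : Finset α} {T : ℕ}

theorem totalY_pow (h : Nested c A T) (hA : A.Nonempty) (S : Finset ρ) (hS : S.Nonempty)
    (π : ρ → α → χ) (s m : ℕ) (hs : 1 ≤ s) (hms : m ≤ s) (bad : ℕ → α → Prop) (E : ℕ → α → ℝ)
    (D q lam M : ℝ) (hE : ∀ n, ∀ a ∈ A, 0 ≤ E n a) (hD : 0 ≤ D) (hq : 1 < q) (hM : 0 ≤ M)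
    (hl0 : 0 < lam) (hl1 : lam < 1)
    (hP : ∀ n, ∀ a ∈ A, ∀ b ∈ A, ¬ bad n a → ∀ l, m < l → l ≤ s → l ≤ n →
      c (n - l) a = c (n - l) b → c (n - l + 1) a ≠ c (n - l + 1) b →
      wt c A π S n a b ≤ D / q ^ l)
    (hY : ∀ n, ∀ a ∈ A, ¬ bad n a → ∀ l, m < l → l ≤ s → l ≤ n →
      cn c A (n - l) a ≤ M * q ^ l * Real.exp (E n a) * cn c A n a) :
    (A.card : ℝ) * ((1 - m / s - (D / q ^ (m + 1) / lam + (D / q ^ (m + 1) / lam +
        Real.log (1 + s * (D * M))) / Real.log (1 / lam))) *
        Real.log A.card) ≤
      A.card * ((∑ r ∈ S, Real.log ((A.image (π r)).card : ℝ)) / S.card) +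
      (∑ n ∈ range (T + s), ∑ a ∈ A.filter (bad (n + 1)),
        Real.log (cn c A (n + 1 - s) a / cn c A (n + 1) a)) / s +
      (∑ n ∈ range (T + s), ∑ a ∈ A, E (n + 1) a) / s := by
  have hq0 : 0 < q := by linarith
  have key := totalY h hA S hS π s m hs hms bad (fun n a => Real.exp (- E n a)) (D / q ^ (m + 1))
    (s * (D * M)) lam (fun n a _ => Real.exp_pos _)
    (fun n a ha => Real.exp_le_one_iff.2 (by have := hE n a ha; linarith))
    (by positivity) (by positivity) hl0 hl1 ?_ ?_
  · refine key.trans (le_of_eq ?_)
    congr 2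
    refine sum_congr rfl fun n _ => sum_congr rfl fun a _ => ?_
    rw [Real.log_exp, neg_neg]
  · intro n a ha hg b hb
    obtain ⟨l, hl1, hl2, hl3, hl4, hl5⟩ := exists_sep_level h ha hb hms
    refine (hP n a ha b (mem_sep.1 hb).1 hg l hl1 hl2 hl3 hl4 hl5).trans ?_
    refine div_le_div_of_nonneg_left hD (by positivity) ?_
    exact pow_le_pow_right₀ hq.le hl1
  · intro n b hb
    set f : α → ℝ := fun a => 1 / cn c A n a * Real.exp (- E n a) with hf
    have f0 : ∀ a ∈ A, 0 ≤ f a := fun a ha => by
      have h1 : 0 < cn c A n a := cn_pos ha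
      simp only [hf]
      positivity
    have h1 : ∀ a ∈ (sep c A (n - s) (n - m) b).filter (fun a => ¬ bad n a),
        wt c A π S n a b / cn c A n a * Real.exp (- E n a) ≤
          ∑ l ∈ Ioc m s, if l ≤ n ∧ a ∈ cls c A (n - l) b then D * M * (1 / cn c A (n - l) a)
            else 0 := by
      intro a ha
      have ha1 := mem_filter.1 ha
      have haA := (mem_sep.1 ha1.1).1
      obtain ⟨l, hl1, hl2, hl3, hl4, hl5⟩ := exists_sep_level h haA (sep_symm hb ha1.1) hms
      have h2 := hP n a haA b hb ha1.2 l hl1 hl2 hl3 hl4 hl5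
      have h3 := hY n a haA ha1.2 l hl1 hl2 hl3
      have hN : 0 < cn c A n a := cn_pos haA
      have hNl : 0 < cn c A (n - l) a := cn_pos haA
      have h4 : f a ≤ M * q ^ l * (1 / cn c A (n - l) a) := by
        simp only [hf]
        rw [Real.exp_neg, ← one_div, one_div_mul_one_div, mul_one_div, div_le_div_iff₀ (by positivity) hNl,
          one_mul]
        calc cn c A (n - l) a ≤ M * q ^ l * Real.exp (E n a) * cn c A n a := h3
          _ = _ := by ring
      calc wt c A π S n a b / cn c A n a * Real.exp (- E n a)
          = wt c A π S n a b * f a := by simp only [hf]; ring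
        _ ≤ D / q ^ l * f a := mul_le_mul_of_nonneg_right h2 (f0 a haA)
        _ ≤ D / q ^ l * (M * q ^ l * (1 / cn c A (n - l) a)) :=
            mul_le_mul_of_nonneg_left h4 (by positivity)
        _ = D * M * (1 / cn c A (n - l) a) := by
            field_simp
        _ = (fun l => if l ≤ n ∧ a ∈ cls c A (n - l) b then D * M * (1 / cn c A (n - l) a)
              else 0) l := by
            have : l ≤ n ∧ a ∈ cls c A (n - l) b := ⟨hl3, mem_cls.2 ⟨haA, hl4⟩⟩
            simp only [this, and_self, if_true]
        _ ≤ _ := by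
            refine single_le_sum (f := fun l => if l ≤ n ∧ a ∈ cls c A (n - l) b then
              D * M * (1 / cn c A (n - l) a) else 0) ?_ (mem_Ioc.2 ⟨hl1, hl2⟩)
            intro l _
            split_ifs
            · have : 0 < cn c A (n - l) a := cn_pos haA
              positivity
            · exact le_rfl
    refine (sum_le_sum h1).trans ?_
    rw [sum_comm]
    have h5 : ∀ l ∈ Ioc m s, ∑ a ∈ (sep c A (n - s) (n - m) b).filter (fun a => ¬ bad n a),
            (if l ≤ n ∧ a ∈ cls c A (n - l) b then D * M * (1 / cn c A (n - l) a) else 0) ≤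
          D * M := by
      intro l hl
      by_cases hln : l ≤ n
      · calc ∑ a ∈ (sep c A (n - s) (n - m) b).filter (fun a => ¬ bad n a),
              (if l ≤ n ∧ a ∈ cls c A (n - l) b then D * M * (1 / cn c A (n - l) a) else 0)
            ≤ ∑ a ∈ A, (if l ≤ n ∧ a ∈ cls c A (n - l) b then D * M * (1 / cn c A (n - l) a)
                else 0) := by
              refine sum_le_sum_of_subset_of_nonneg ?_ ?_
              · intro a ha
                exact (mem_sep.1 (mem_filter.1 ha).1).1
              · intro a ha _
                split_ifs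
                · have : 0 < cn c A (n - l) a := cn_pos ha
                  positivity
                · exact le_rfl
          _ = ∑ a ∈ cls c A (n - l) b, D * M * (1 / cn c A (n - l) a) := by
              rw [← sum_filter]
              refine sum_congr ?_ fun _ _ => rfl
              ext a
              rw [mem_filter]
              constructor
              · rintro ⟨_, _, h2⟩
                exact h2
              · intro h2
                exact ⟨(mem_cls.1 h2).1, hln, h2⟩
          _ = D * M * ∑ a ∈ cls c A (n - l) b, 1 / cn c A (n - l) a := by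
              rw [mul_sum]
          _ = D * M := by rw [sum_inv_cls hb, mul_one]
      · rw [sum_eq_zero]
        · positivity
        · intro a _
          rw [if_neg]
          intro h2
          exact hln h2.1
    refine (sum_le_sum h5).trans ?_
    rw [sum_const, nsmul_eq_mul, Nat.card_Ioc]
    refine mul_le_mul_of_nonneg_right ?_ (by positivity)
    have : s - m ≤ s := Nat.sub_le _ _
    exact_mod_cast this

end Pool.Agent.V7H66.AK
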