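import Pool.Agent.V7H66.AK.CorQ

/-!
# MP_169869: an inequality for all sets, and the arithmetic Kakeya conjecture for sets of bounded
# local dimension, of all heights

There is an absolute constant `K` such that the following holds for all `0 < ε ≤ 1`, all
`s ≥ K (1 + log (1 / ε)) / ε ^ 2` and all `b ≥ 2`. Let `R = b ^ s` and `c = ε ^ 2 / K`. The slopes are
`S = {r / R : 0 ≤ r < R}`; their number is `exp (O(ε ^ (-2) log (1 / ε)))` for fixed `b`.

1. For ALL finite nonempty `A ⊂ ℤ × ℤ`

   `(1 - ε) log |A| ≤ 1 / R ∑_{r ∈ S} log |π_r(A)| + excess(A)`,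

   `excess(A) = 1 / (s |A|) ∑_{i ≥ 0} ∑_{a ∈ A} max_{t ≤ s} log⁺ (N_{i+t}(a) / (R ^ c b ^ t N_i(a)))`,

   where `N_i(a)` is the number of the points `x` of `A` with `R |x - a| < b ^ i` (maximum norm).
   Only the places and the scales count at which the number of the points of `A` in balls grows
   faster than linearly, by more than the factor `R ^ c`.
2. The inequality of the conjecture, `|π_{-1}(A)| ≤ max_{r ∈ S} |π_r(A)| ^ (1 + ε)`, holds for `A` if
   there is any subset `A'` of `A` with `|π_{-1}(A)| ≤ |A'| ^ (1 + ε / 8)` and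
   `excess(A') ≤ (ε / 8) log |A'|`. (For example `A'` consists of one point for each of the values of
   `x - y`, or of a part of them.) So in a counterexample to the conjecture the balls must grow
   faster than linearly for a positive proportion of the scales, in all large subsets.
3. If `A` has local dimension at most `d ≥ 1` with the constant `R ^ c` for the ratios of scales up
   to `R` (`CellDimLE`: for all `j` and all `t ≤ s` every cell of side `b ^ (j + t)` contains at most
   `R ^ c b ^ (t d)` cells of side `b ^ j` which meet `A`), then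

   `|A| ^ (1 / d - ε) ≤ (∏_{r ∈ S} |π_r(A)|) ^ (1 / R)`.

   The exponent `d` is the right one: squares and segments are examples for `d = 2` and `d = 1`.
4. Let `1 ≤ d ≤ 2`. The inequality of the conjecture holds for the sets in 3 for which
   `|π_{-1}(A)| ^ (d - ε / 8) ≤ |A|` (the fibres of `x - y` are as large as the dimension suggests;
   this is no condition for `d ≤ 1 + ε / 8`).
5. It holds for all STICKY sets: given `x - y` to the precision `b ^ j`, `y` takes at most `C`
   values to the same precision, for all `j`; where `C ≤ R ^ c`.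
6. The same as 1, 2, 3, 4 is true for primes `b = p` with residue classes modulo `p ^ i` in place of
   balls and cells, and with the slopes `0, 1, …, R - 1`; `N_i(a)` is then the number of the points
   `x ≡ a` modulo `p ^ i`, and `N_{i+t}(a)` is replaced by `N_{i-t}(a)`.

The size of `A` and the size of the coordinates of its points are not related in any way.

The starting result `LocalDimensionOne` has an inequality for all sets (part 1) with the loss of a
constant factor on each scale; therefore its consequences (parts 2, 3, 5) need that the coordinates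
of `A` are at most `|A| ^ K`, and the slopes depend on `K`. `LabelledTrees` needs that `A` is not
smaller than a fixed power of the number of all words. By the same starting result (part 6) the
conjecture itself is equivalent to the statement that in 5 the slopes can be chosen independent of
`C`; here the number `R` of slopes is a power of `C`.

Proof. Local entropy averages over all windows of `s` consecutive levels, for the tree of the residue
classes or of the cells of a shifted grid. Given the class `u` of a point of `A` `s` levels up, the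
entropy of its class `c` on the level `n`, given the projection, is to be small. The last `m = o(s)`
levels of the window are estimated trivially; this costs the proportion `m / s` of the entropy of `A`.
Classes which are separated before the last `m` levels of the window have disjoint projections for
all but a proportion `b ^ (- m)` of the slopes. So heavy classes (with more than the proportion
`b ^ (- m / 2)` of the points of `u`) are separated from all others for most slopes, and the
points in light classes are at most the proportion `(entropy) / (m / 2 log b)`. For them the number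
of the classes in the same fibre is weighted (with the power `1 / d - 1` of the mass in 3, with
`exp (- log⁺ ...)` in 1), which gives the
entropy divided by `d`, or the excess, up to a logarithm of the number of levels. All the losses are
small multiples of the entropy of the window, so windows in which `A` does not branch cost nothing. In
the grid a point is near the boundary of a cell of side `b ^ i` with the probability `O(b ^ (- w))`,
`w = o(m)`; the entropy which is lost for this reason is, on the average over the shift of the grid,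
at most `O(s w b ^ (- w))` times the entropy of `A`, because the entropy of a window is compared with the
growth of the balls.
-/

set_option autoImplicit false

open Finset

namespace Pool.Agent.V7H66.AK.LocalDimension

/-- the projection `π_r(A) = {x + r y : (x, y) ∈ A}` -/
def proj (r : ℚ) (A : Finset (ℤ × ℤ)) : Finset ℚ :=
  A.image (fun p : ℤ × ℤ => (p.1 : ℚ) + r * (p.2 : ℚ))

/-- the projection `π_∞(A) = {y : (x, y) ∈ A}` -/
def projInf (A : Finset (ℤ × ℤ)) : Finset ℚ := A.image (fun p : ℤ × ℤ => (p.2 : ℚ))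

/-- the largest size of a projection of `A` with slope `∞` or in `S` -/
def big (S : Finset ℚ) (A : Finset (ℤ × ℤ)) : ℕ :=
  max (projInf A).card (S.sup fun r => (proj r A).card)

/-- the inequality of the conjecture for the set `A` -/
def Ineq (S : Finset ℚ) (ε : ℝ) (A : Finset (ℤ × ℤ)) : Prop :=
  ((proj (-1) A).card : ℝ) ≤ (big S A : ℝ) ^ (1 + ε)

/-- the slopes `r / R`, `0 ≤ r < R` -/
def slopes (R : ℕ) : Finset ℚ := (range R).image (fun r : ℕ => (r : ℚ) / (R : ℚ))

/-- the largest value of `log⁺ (g t / (M q ^ t g 0))`, `t ≤ s` -/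
noncomputable def growth (q M : ℝ) (s : ℕ) (g : ℕ → ℝ) : ℝ :=
  (range (s + 1)).sup' nonempty_range_add_one fun t => max 0 (Real.log (g t / (M * q ^ t * g 0)))

/-- the number `N_i(a)` of the points `x` of `A` with `b ^ s |x - a| < b ^ i` (maximum norm) -/
def ballNum (b s : ℕ) (A : Finset (ℤ × ℤ)) (a : ℤ × ℤ) (i : ℕ) : ℝ :=
  ((A.filter fun x => (b : ℤ) ^ s * |x.1 - a.1| < (b : ℤ) ^ i ∧
    (b : ℤ) ^ s * |x.2 - a.2| < (b : ℤ) ^ i).card : ℝ)

/-- the excess: the growth of the balls which is faster than linear, summed over all scales (for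
all large `i` the terms are `0`) and points, divided by `s |A|` -/
noncomputable def cellExcess (b s : ℕ) (M : ℝ) (A : Finset (ℤ × ℤ)) : ℝ :=
  (∑' i : ℕ, ∑ a ∈ A, growth b M s fun t => ballNum b s A a (i + t)) / (s * A.card)

/-- the cell `(⌊x / q⌋, ⌊y / q⌋)` of side `q` which contains the point `(x, y)` -/
def cell (q : ℤ) (p : ℤ × ℤ) : ℤ × ℤ := (p.1 / q, p.2 / q)

/-- the cells of side `q` which meet `A` -/
def cells (q : ℤ) (A : Finset (ℤ × ℤ)) : Finset (ℤ × ℤ) := A.image (cell q)

/-- for all `j` and all `t ≤ s` every cell of side `b ^ t q` contains at most `C (b ^ t) ^ d` cells of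
side `q = b ^ j` which meet `A` -/
def CellDimLE (b s : ℕ) (C d : ℝ) (A : Finset (ℤ × ℤ)) : Prop :=
  ∀ (j t : ℕ) (z : ℤ × ℤ), t ≤ s → (((cells ((b : ℤ) ^ j) A).filter
    fun c => cell ((b : ℤ) ^ t) c = z).card : ℝ) ≤ C * ((b : ℝ) ^ t) ^ d

/-- given `x - y` to the precision `b ^ j`, `y` takes at most `C` values to the same precision -/
def Sticky (b C : ℕ) (A : Finset (ℤ × ℤ)) : Prop :=
  ∀ (j : ℕ) (e : ℤ), ((A.filter fun p => (p.1 - p.2) / (b : ℤ) ^ j = e).image
    fun p => p.2 / (b : ℤ) ^ j).card ≤ C

/-- the residues of the coordinates modulo `q` -/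
def res (q : ℤ) (p : ℤ × ℤ) : ℤ × ℤ := (p.1 % q, p.2 % q)

/-- the number of the points of `A` which are congruent to `a` modulo `q` -/
def resNum (A : Finset (ℤ × ℤ)) (a : ℤ × ℤ) (q : ℤ) : ℝ :=
  ((A.filter fun x => res q x = res q a).card : ℝ)

/-- the excess for residue classes (for all large `n` the terms are `0`) -/
noncomputable def resExcess (p s : ℕ) (M : ℝ) (A : Finset (ℤ × ℤ)) : ℝ :=
  (∑' n : ℕ, ∑ a ∈ A, growth p M s fun t => resNum A a ((p : ℤ) ^ (n - t))) / (s * A.card)

/-- for all `j` and all `t ≤ s` every residue class modulo `p ^ j` contains at most `C (p ^ t) ^ d`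
residue classes modulo `p ^ (j + t)` which meet `A` -/
def ResDimLE (p s : ℕ) (C d : ℝ) (A : Finset (ℤ × ℤ)) : Prop :=
  ∀ (j t : ℕ) (z : ℤ × ℤ), t ≤ s → (((A.filter fun a => res ((p : ℤ) ^ j) a = z).image
    (res ((p : ℤ) ^ (j + t)))).card : ℝ) ≤ C * ((p : ℝ) ^ t) ^ d

/-- the slopes `0, 1, …, R - 1` -/
def intSlopes (R : ℕ) : Finset ℚ := (range R).image (fun r : ℕ => (r : ℚ))

theorem result : ∃ K : ℝ, 0 < K ∧ ∀ ε : ℝ, 0 < ε → ε ≤ 1 → ∀ s : ℕ,
      K * (1 + Real.log (1 / ε)) / ε ^ 2 ≤ s →
    (∀ b : ℕ, 2 ≤ b → (-1 : ℚ) ∉ slopes (b ^ s) ∧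
      -- 1. all sets
      (∀ A : Finset (ℤ × ℤ), A.Nonempty →
        (1 - ε) * Real.log A.card ≤
          (∑ r ∈ range (b ^ s), Real.log ((proj ((r : ℚ) / ((b ^ s : ℕ) : ℚ)) A).card : ℝ)) /
            ((b ^ s : ℕ) : ℝ) + cellExcess b s (((b : ℝ) ^ s) ^ (ε ^ 2 / K)) A) ∧
      -- 2. small excess
      (∀ A A' : Finset (ℤ × ℤ), A' ⊆ A → A'.Nonempty →
        ((proj (-1) A).card : ℝ) ≤ (A'.card : ℝ) ^ (1 + ε / 8) →
        cellExcess b s (((b : ℝ) ^ s) ^ (ε ^ 2 / K)) A' ≤ ε / 8 * Real.log A'.card →
        Ineq (slopes (b ^ s)) ε A) ∧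
      -- 3. local dimension `d`
      (∀ (d : ℝ) (A : Finset (ℤ × ℤ)), 1 ≤ d → A.Nonempty →
        CellDimLE b s (((b : ℝ) ^ s) ^ (ε ^ 2 / K)) d A →
        (A.card : ℝ) ^ (1 / d - ε) ≤
          (∏ r ∈ range (b ^ s), ((proj ((r : ℚ) / ((b ^ s : ℕ) : ℚ)) A).card : ℝ)) ^
            (1 / ((b ^ s : ℕ) : ℝ))) ∧
      -- 4. the inequality of the conjecture
      (∀ (d : ℝ) (A : Finset (ℤ × ℤ)), 1 ≤ d → d ≤ 2 →
        CellDimLE b s (((b : ℝ) ^ s) ^ (ε ^ 2 / K)) d A →
        ((proj (-1) A).card : ℝ) ^ (d - ε / 8) ≤ A.card → Ineq (slopes (b ^ s)) ε A) ∧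
      -- 5. sticky sets
      (∀ (C : ℕ) (A : Finset (ℤ × ℤ)), (C : ℝ) ≤ ((b : ℝ) ^ s) ^ (ε ^ 2 / K) → Sticky b C A →
        Ineq (slopes (b ^ s)) ε A)) ∧
    -- 6. residue classes
    (∀ p : ℕ, p.Prime →
      (∀ A : Finset (ℤ × ℤ), A.Nonempty →
        (1 - ε) * Real.log A.card ≤
          (∑ r ∈ range (p ^ s), Real.log ((proj (r : ℚ) A).card : ℝ)) / ((p ^ s : ℕ) : ℝ) +
            resExcess p s (((p : ℝ) ^ s) ^ (ε ^ 2 / K)) A) ∧
      (∀ A A' : Finset (ℤ × ℤ), A' ⊆ A → A'.Nonempty →
        ((proj (-1) A).card : ℝ) ≤ (A'.card : ℝ) ^ (1 + ε / 8) →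
        resExcess p s (((p : ℝ) ^ s) ^ (ε ^ 2 / K)) A' ≤ ε / 8 * Real.log A'.card →
        Ineq (intSlopes (p ^ s)) ε A) ∧
      (∀ (d : ℝ) (A : Finset (ℤ × ℤ)), 1 ≤ d → A.Nonempty →
        ResDimLE p s (((p : ℝ) ^ s) ^ (ε ^ 2 / K)) d A →
        (A.card : ℝ) ^ (1 / d - ε) ≤
          (∏ r ∈ range (p ^ s), ((proj (r : ℚ) A).card : ℝ)) ^ (1 / ((p ^ s : ℕ) : ℝ))) ∧
      (∀ (d : ℝ) (A : Finset (ℤ × ℤ)), 1 ≤ d → d ≤ 2 →
        ResDimLE p s (((p : ℝ) ^ s) ^ (ε ^ 2 / K)) d A →
        ((proj (-1) A).card : ℝ) ^ (d - ε / 8) ≤ A.card →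
        Ineq (intSlopes (p ^ s)) ε A)) := by
  obtain ⟨K, hK, h⟩ := Pool.Agent.V7H66.AK.quant
  refine ⟨K, hK, fun ε hε hε1 s hs => ?_⟩
  obtain ⟨h1, h2⟩ := h ε hε hε1 s hs
  exact ⟨fun b hb => ⟨Pool.Agent.V7H66.AK.neg_one_notMem_slopes _, h1 b hb⟩, fun p hp => h2 p hp⟩

end Pool.Agent.V7H66.AK.LocalDimension
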