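import Pool.Agent.V7H66.AK.Block

/-!
# All windows together
-/

set_option autoImplicit false

open Finset
open scoped Classical

noncomputable section

namespace Pool.Agent.V7H66.AK

variable {α β ρ χ : Type*}

variable {c : ℕ → α → β} {A : Finset α} {T : ℕ}

lemma pn_split (h : Nested c A T) (π : α → χ) {u e : ℕ} (hue : u ≤ e) {a : α} (ha : a ∈ A) :
    pn π c A u a = pn π c A e a + (((sep c A u e a).filter fun b => π b = π a).card : ℝ) := by
  unfold pn
  rw [← Nat.cast_add, ← card_union_of_disjoint]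
  · congr 2
    ext b
    simp only [mem_union, mem_filter, mem_sep, mem_cls]
    constructor
    · rintro ⟨⟨h1, h2⟩, h3⟩
      by_cases h4 : c e b = c e a
      · exact Or.inl ⟨⟨h1, h4⟩, h3⟩
      · exact Or.inr ⟨⟨h1, h2, h4⟩, h3⟩
    · rintro (⟨⟨h1, h2⟩, h3⟩ | ⟨⟨h1, h2, _⟩, h3⟩)
      · exact ⟨⟨h1, h.le hue h1 ha h2⟩, h3⟩
      · exact ⟨⟨h1, h2⟩, h3⟩
  · rw [disjoint_left]
    intro b hb hb'
    exact (mem_sep.1 (mem_filter.1 hb').1).2.2 (mem_cls.1 (mem_filter.1 hb).1).2

lemma cn_split (h : Nested c A T) {u e : ℕ} (hue : u ≤ e) {a : α} (ha : a ∈ A) :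
    cn c A u a = cn c A e a + ((sep c A u e a).card : ℝ) := by
  unfold cn
  rw [← Nat.cast_add, ← card_union_of_disjoint]
  · congr 2
    ext b
    simp only [mem_union, mem_sep, mem_cls]
    constructor
    · rintro ⟨h1, h2⟩
      by_cases h4 : c e b = c e a
      · exact Or.inl ⟨h1, h4⟩
      · exact Or.inr ⟨h1, h2, h4⟩
    · rintro (⟨h1, h2⟩ | ⟨h1, h2, _⟩)
      · exact ⟨h1, h.le hue h1 ha h2⟩
      · exact ⟨h1, h2⟩
  · rw [disjoint_left]
    intro b hb hb'
    exact (mem_sep.1 hb').2.2 (mem_cls.1 hb).2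

lemma sep_congr (h : Nested c A T) {u e n : ℕ} (hue : u ≤ e) (hen : e ≤ n) {a b : α} (ha : a ∈ A)
    (hb : b ∈ A) (hab : c n a = c n b) : sep c A u e a = sep c A u e b := by
  unfold sep
  rw [cls_eq (h.le (hue.trans hen) ha hb hab), cls_eq (h.le hen ha hb hab)]

/-- conditional entropy in the early levels -/
lemma early (h : Nested c A T) (π : ρ → α → χ) (r : ρ) {u e n : ℕ} (hue : u ≤ e) (hen : e ≤ n) :
    ∑ a ∈ A, (Real.log (pn (π r) c A u a) - Real.log (pn (π r) c A e a)) ≤
      ∑ a ∈ A, Real.log (1 + (((sep c A u e a).filter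
        (fun b => Rel c A π n r a b)).card : ℝ) / cn c A n a) := by
  have h1 := jensen (c := c) (A := A) (π r) n (sep c A u e)
    (fun a _ b hb => (mem_sep.1 hb).1) (fun a ha b hb hab => sep_congr h hue hen ha hb hab)
  refine (sum_le_sum fun a ha => ?_).trans (h1.trans (sum_le_sum fun a ha => ?_))
  · rw [← Real.log_div (pn_pos ha).ne' (pn_pos ha).ne', pn_split h (π r) hue ha, add_div,
      div_self (pn_pos ha).ne']
    refine Real.log_le_log ?_ ?_
    · have : 0 ≤ (((sep c A u e a).filter fun b => π r b = π r a).card : ℝ) / pn (π r) c A e a :=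
        div_nonneg (Nat.cast_nonneg _) (pn_pos ha).le
      linarith
    · refine add_le_add le_rfl ?_
      exact div_le_div_of_nonneg_left (Nat.cast_nonneg _) (pn_pos ha) (pn_anti h hen ha)
  · refine Real.log_le_log ?_ ?_
    · have : 0 ≤ (((sep c A u e a).filter fun b => ∃ x ∈ cls c A n a, π r x = π r b).card : ℝ) /
          cn c A n a := div_nonneg (Nat.cast_nonneg _) (cn_pos ha).le
      linarith
    · refine add_le_add le_rfl (div_le_div_of_nonneg_right ?_ (cn_pos ha).le)
      have : ((sep c A u e a).filter fun b => ∃ x ∈ cls c A n a, π r x = π r b).card ≤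
          ((sep c A u e a).filter (fun b => Rel c A π n r a b)).card := by
        refine card_le_card fun b hb => ?_
        rw [mem_filter] at hb ⊢
        refine ⟨hb.1, ?_⟩
        obtain ⟨x, hx, hxb⟩ := hb.2
        exact ⟨x, hx, b, self_mem_cls (mem_sep.1 hb.1).1, hxb⟩
      exact_mod_cast this

/-- conditional entropy in the late levels -/
lemma late (h : Nested c A T) (π : α → χ) {e n : ℕ} (hen : e ≤ n) :
    ∑ a ∈ A, (Real.log (pn π c A e a) - Real.log (pn π c A n a)) ≤
      ∑ a ∈ A, (Real.log (cn c A e a) - Real.log (cn c A n a)) := by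
  have h1 := jensen (c := c) (A := A) π n (sep c A e n)
    (fun a _ b hb => (mem_sep.1 hb).1) (fun a ha b hb hab => sep_congr h hen le_rfl ha hb hab)
  refine (sum_le_sum fun a ha => ?_).trans (h1.trans (sum_le_sum fun a ha => ?_))
  · rw [← Real.log_div (pn_pos ha).ne' (pn_pos ha).ne', pn_split h π hen ha, add_div,
      div_self (pn_pos ha).ne']
  · rw [← Real.log_div (cn_pos ha).ne' (cn_pos ha).ne', cn_split h hen ha, add_div,
      div_self (cn_pos ha).ne']
    refine Real.log_le_log ?_ ?_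
    · have : 0 ≤ (((sep c A e n a).filter fun b => ∃ x ∈ cls c A n a, π x = π b).card : ℝ) /
          cn c A n a := div_nonneg (Nat.cast_nonneg _) (cn_pos ha).le
      linarith
    · refine add_le_add le_rfl (div_le_div_of_nonneg_right ?_ (cn_pos ha).le)
      exact_mod_cast card_le_card (filter_subset _ _)

/-- the entropy of a projection -/
lemma log_image (π : α → χ) (hA : A.Nonempty) :
    (A.card : ℝ) * Real.log A.card -
      ∑ a ∈ A, Real.log (((A.filter fun b => π b = π a).card : ℝ)) ≤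
      A.card * Real.log ((A.image π).card : ℝ) := by
  have hA0 : (0:ℝ) < A.card := by exact_mod_cast card_pos.2 hA
  have hP0 : (0:ℝ) < (A.image π).card := by exact_mod_cast card_pos.2 (hA.image _)
  have hF : ∀ a ∈ A, (0:ℝ) < ((A.filter fun b => π b = π a).card : ℝ) := fun a ha => by
    have : 0 < (A.filter fun b => π b = π a).card := card_pos.2 ⟨a, mem_filter.2 ⟨ha, rfl⟩⟩
    exact_mod_cast this
  have h1 : ∑ a ∈ A, 1 / (((A.filter fun b => π b = π a).card : ℝ)) = (A.image π).card := by
    rw [← sum_fiberwise_of_maps_to (fun a ha => mem_image_of_mem π ha)]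
    have : ∀ x ∈ A.image π, ∑ a ∈ A.filter (fun a => π a = x),
        1 / (((A.filter fun b => π b = π a).card : ℝ)) = 1 := by
      intro x hx
      obtain ⟨a₀, ha₀, rfl⟩ := mem_image.1 hx
      have h2 : ∀ a ∈ A.filter (fun a => π a = π a₀), 1 / (((A.filter fun b => π b = π a).card : ℝ)) =
          1 / (((A.filter fun b => π b = π a₀).card : ℝ)) := fun a ha => by
        rw [(mem_filter.1 ha).2]
      rw [sum_congr rfl h2, sum_const, nsmul_eq_mul]
      exact mul_one_div_cancel (hF a₀ ha₀).ne'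
    rw [sum_congr rfl this, sum_const, nsmul_eq_mul, mul_one]
  have h2 : ∀ a ∈ A, Real.log A.card - Real.log (((A.filter fun b => π b = π a).card : ℝ)) -
      Real.log ((A.image π).card : ℝ) ≤
      A.card / (A.image π).card * (1 / (((A.filter fun b => π b = π a).card : ℝ))) - 1 := by
    intro a ha
    have h3 := Real.log_le_sub_one_of_pos (div_pos hA0 (mul_pos (hF a ha) hP0))
    rw [Real.log_div hA0.ne' (mul_pos (hF a ha) hP0).ne', Real.log_mul (hF a ha).ne' hP0.ne'] at h3
    have h4 : (A.card : ℝ) / (((A.filter fun b => π b = π a).card : ℝ) * (A.image π).card) =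
        A.card / (A.image π).card * (1 / (((A.filter fun b => π b = π a).card : ℝ))) := by
      field_simp
    rw [h4] at h3
    linarith
  have h3 := sum_le_sum h2
  rw [sum_sub_distrib, sum_sub_distrib, sum_const, sum_const, sum_sub_distrib, sum_const,
    ← mul_sum, h1, div_mul_cancel₀ _ hP0.ne', nsmul_eq_mul, nsmul_eq_mul, nsmul_eq_mul,
    mul_one] at h3
  linarith

theorem total (h : Nested c A T) (hA : A.Nonempty) (S : Finset ρ) (hS : S.Nonempty)
    (π : ρ → α → χ) (s m : ℕ) (hs : 1 ≤ s) (hms : m ≤ s) (bad : ℕ → α → Prop) (θ κ B lam : ℝ)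
    (hθ : 0 ≤ θ) (hκ : 0 ≤ κ) (hB : 0 ≤ B) (hl0 : 0 < lam) (hl1 : lam < 1)
    (H1 : ∀ n, ∀ a ∈ A, ¬ bad n a → ∀ b ∈ sep c A (n - s) (n - m) a, wt c A π S n a b ≤ κ)
    (H2 : ∀ n, ∀ b ∈ A, ∑ a ∈ (sep c A (n - s) (n - m) b).filter (fun a => ¬ bad n a),
      wt c A π S n a b / cn c A n a * (cn c A n a / cn c A (n - s) a) ^ θ ≤ B) :
    (A.card : ℝ) * ((1 - m / s -
        (θ + κ / lam + (κ / lam + Real.log (1 + B)) / Real.log (1 / lam))) * Real.log A.card) ≤
      A.card * ((∑ r ∈ S, Real.log ((A.image (π r)).card : ℝ)) / S.card) +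
      (∑ n ∈ range (T + s), ∑ a ∈ A.filter (bad (n + 1)),
        Real.log (cn c A (n + 1 - s) a / cn c A (n + 1) a)) / s := by
  have hSc : (0:ℝ) < S.card := by exact_mod_cast card_pos.2 hS
  have hAc : (0:ℝ) < A.card := by exact_mod_cast card_pos.2 hA
  have hs0 : (0:ℝ) < s := by exact_mod_cast hs
  set τ : ℝ := θ + κ / lam + (κ / lam + Real.log (1 + B)) / Real.log (1 / lam) with hτ
  set W := T + s with hW
  set Bd : ℝ := ∑ n ∈ range W, ∑ a ∈ A.filter (bad (n + 1)),
        Real.log (cn c A (n + 1 - s) a / cn c A (n + 1) a) with hBd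
  -- telescoping
  have telP : ∀ r, ∀ a ∈ A, (s : ℝ) * Real.log (((A.filter fun b => π r b = π r a).card : ℝ)) =
      ∑ n ∈ range W, (Real.log (pn (π r) c A (n + 1 - s) a) -
        Real.log (pn (π r) c A (n + 1) a)) := by
    intro r a ha
    have := tele (fun n => Real.log (pn (π r) c A n a)) T
      (fun k hk => by rw [pn_bot h hk ha, Real.log_one]) W s le_rfl
    rw [this, pn_zero h ha]
  have telN : ∀ t, t ≤ s → ∀ a ∈ A, ∑ n ∈ range W, (Real.log (cn c A (n + 1 - t) a) -
        Real.log (cn c A (n + 1) a)) = (t : ℝ) * Real.log A.card := by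
    intro t ht a ha
    have := tele (fun n => Real.log (cn c A n a)) T
      (fun k hk => by rw [cn_bot h hk ha, Real.log_one]) W t (by omega)
    rw [this, cn_zero h ha]
  -- one window
  have win : ∀ n, ∑ r ∈ S, ∑ a ∈ A, (Real.log (pn (π r) c A (n + 1 - s) a) -
        Real.log (pn (π r) c A (n + 1) a)) ≤
      S.card * (∑ a ∈ A.filter (bad (n + 1)),
        Real.log (cn c A (n + 1 - s) a / cn c A (n + 1) a) +
        τ * ∑ a ∈ A, (Real.log (cn c A (n + 1 - s) a) - Real.log (cn c A (n + 1) a)) +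
        ∑ a ∈ A, (Real.log (cn c A (n + 1 - m) a) - Real.log (cn c A (n + 1) a))) := by
    intro n
    have hue : n + 1 - s ≤ n + 1 - m := by omega
    have hen : n + 1 - m ≤ n + 1 := by omega
    have h1 := block h hue hen S hS π (bad (n + 1)) θ κ B lam hθ hκ hB hl0 hl1 (H1 (n + 1))
      (H2 (n + 1))
    have h2 : ∀ r ∈ S, ∑ a ∈ A, (Real.log (pn (π r) c A (n + 1 - s) a) -
        Real.log (pn (π r) c A (n + 1) a)) ≤
        ∑ a ∈ A, Real.log (1 + (((sep c A (n + 1 - s) (n + 1 - m) a).filter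
          (fun b => Rel c A π (n + 1) r a b)).card : ℝ) / cn c A (n + 1) a) +
        ∑ a ∈ A, (Real.log (cn c A (n + 1 - m) a) - Real.log (cn c A (n + 1) a)) := by
      intro r _
      have e1 := early h π r hue hen
      have e2 := late h (π r) hen
      have e3 : ∑ a ∈ A, (Real.log (pn (π r) c A (n + 1 - s) a) -
          Real.log (pn (π r) c A (n + 1) a)) =
          ∑ a ∈ A, (Real.log (pn (π r) c A (n + 1 - s) a) -
            Real.log (pn (π r) c A (n + 1 - m) a)) +
          ∑ a ∈ A, (Real.log (pn (π r) c A (n + 1 - m) a) -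
            Real.log (pn (π r) c A (n + 1) a)) := by
        rw [← sum_add_distrib]
        refine sum_congr rfl fun a _ => ?_
        ring
      rw [e3]
      linarith
    refine (sum_le_sum h2).trans ?_
    rw [sum_add_distrib, sum_const, nsmul_eq_mul, sum_comm]
    have h3 : ∑ a ∈ A, Real.log (cn c A (n + 1 - s) a / cn c A (n + 1) a) =
        ∑ a ∈ A, (Real.log (cn c A (n + 1 - s) a) - Real.log (cn c A (n + 1) a)) :=
      sum_congr rfl fun a ha => Real.log_div (cn_pos ha).ne' (cn_pos ha).ne'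
    rw [h3] at h1
    rw [mul_add (S.card : ℝ) (_ + _)]
    linarith
  have h4 : (s : ℝ) * ∑ r ∈ S, ∑ a ∈ A, Real.log (((A.filter fun b => π r b = π r a).card : ℝ)) ≤
      S.card * (Bd + τ * (A.card * (s * Real.log A.card)) + A.card * (m * Real.log A.card)) := by
    have e1 : (s : ℝ) * ∑ r ∈ S, ∑ a ∈ A, Real.log (((A.filter fun b => π r b = π r a).card : ℝ)) =
        ∑ n ∈ range W, ∑ r ∈ S, ∑ a ∈ A, (Real.log (pn (π r) c A (n + 1 - s) a) -
          Real.log (pn (π r) c A (n + 1) a)) := by
      rw [sum_comm (s := range W) (t := S), mul_sum]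
      refine sum_congr rfl fun r _ => ?_
      rw [sum_comm (s := range W), mul_sum]
      refine sum_congr rfl ?_
      intro a ha
      exact telP r a ha
    rw [e1]
    refine (sum_le_sum (fun n (_ : n ∈ range W) => win n)).trans ?_
    rw [← mul_sum]
    refine mul_le_mul_of_nonneg_left (le_of_eq ?_) hSc.le
    rw [sum_add_distrib, sum_add_distrib, ← mul_sum]
    congr 1
    · congr 1
      congr 1
      rw [sum_comm, sum_congr rfl fun a ha => telN s le_rfl a ha, sum_const, nsmul_eq_mul]
    · rw [sum_comm, sum_congr rfl fun a ha => telN m hms a ha, sum_const, nsmul_eq_mul]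
  have h5 : (S.card : ℝ) * (A.card * Real.log A.card) -
      ∑ r ∈ S, ∑ a ∈ A, Real.log (((A.filter fun b => π r b = π r a).card : ℝ)) ≤
      A.card * ∑ r ∈ S, Real.log ((A.image (π r)).card : ℝ) := by
    have := sum_le_sum (fun r (_ : r ∈ S) => log_image (A := A) (π r) hA)
    rw [sum_sub_distrib, sum_const, nsmul_eq_mul, ← mul_sum] at this
    exact this
  -- conclusion
  set X := ∑ r ∈ S, ∑ a ∈ A, Real.log (((A.filter fun b => π r b = π r a).card : ℝ)) with hX
  set Y := ∑ r ∈ S, Real.log ((A.image (π r)).card : ℝ) with hY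
  set L := Real.log (A.card : ℝ) with hL
  have h6 : X ≤ S.card * (Bd + τ * (A.card * (s * L)) + A.card * (m * L)) / s := by
    rw [le_div_iff₀ hs0]
    linarith
  have h7 : (S.card : ℝ) * (A.card * L) ≤ A.card * Y +
      S.card * (Bd + τ * (A.card * (s * L)) + A.card * (m * L)) / s := by linarith
  have h8 : (A.card : ℝ) * L ≤ A.card * (Y / S.card) +
      (Bd + τ * (A.card * (s * L)) + A.card * (m * L)) / s := by
    have h9 := div_le_div_of_nonneg_right h7 hSc.le
    rw [mul_div_assoc, mul_comm, div_mul_cancel₀ _ hSc.ne'] at h9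
    refine h9.trans (le_of_eq ?_)
    field_simp
  have h10 : (Bd + τ * (A.card * (s * L)) + A.card * (m * L)) / s =
      Bd / s + τ * (A.card * L) + A.card * (m / s * L) := by
    field_simp
  rw [h10] at h8
  have h11 : (A.card : ℝ) * ((1 - m / s - τ) * L) =
      A.card * L - A.card * (m / s * L) - τ * (A.card * L) := by ring
  rw [h11]
  linarith

end Pool.Agent.V7H66.AK
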