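import Pool.Agent.V7H66.AK.BlockY
import Pool.Agent.V7H66.AK.Total

/-!
# All windows together, general weights
-/

set_option autoImplicit false

open Finset
open scoped Classical

noncomputable section

namespace Pool.Agent.V7H66.AK

variable {α β ρ χ : Type*}

variable {c : ℕ → α → β} {A : Finset α} {T : ℕ}

theorem totalY (h : Nested c A T) (hA : A.Nonempty) (S : Finset ρ) (hS : S.Nonempty)
    (π : ρ → α → χ) (s m : ℕ) (hs : 1 ≤ s) (hms : m ≤ s) (bad : ℕ → α → Prop) (y : ℕ → α → ℝ)
    (κ B lam : ℝ) (hy0 : ∀ n, ∀ a ∈ A, 0 < y n a) (hy1 : ∀ n, ∀ a ∈ A, y n a ≤ 1) (hκ : 0 ≤ κ) (hB : 0 ≤ B) (hl0 : 0 < lam) (hl1 : lam < 1)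
    (H1 : ∀ n, ∀ a ∈ A, ¬ bad n a → ∀ b ∈ sep c A (n - s) (n - m) a, wt c A π S n a b ≤ κ)
    (H2 : ∀ n, ∀ b ∈ A, ∑ a ∈ (sep c A (n - s) (n - m) b).filter (fun a => ¬ bad n a),
      wt c A π S n a b / cn c A n a * y n a ≤ B) :
    (A.card : ℝ) * ((1 - m / s -
        (κ / lam + (κ / lam + Real.log (1 + B)) / Real.log (1 / lam))) * Real.log A.card) ≤
      A.card * ((∑ r ∈ S, Real.log ((A.image (π r)).card : ℝ)) / S.card) +
      (∑ n ∈ range (T + s), ∑ a ∈ A.filter (bad (n + 1)),
        Real.log (cn c A (n + 1 - s) a / cn c A (n + 1) a)) / s +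
      (∑ n ∈ range (T + s), ∑ a ∈ A, - Real.log (y (n + 1) a)) / s := by
  have hSc : (0:ℝ) < S.card := by exact_mod_cast card_pos.2 hS
  have hAc : (0:ℝ) < A.card := by exact_mod_cast card_pos.2 hA
  have hs0 : (0:ℝ) < s := by exact_mod_cast hs
  set τ : ℝ := κ / lam + (κ / lam + Real.log (1 + B)) / Real.log (1 / lam) with hτ
  set W := T + s with hW
  set Bd : ℝ := ∑ n ∈ range W, ∑ a ∈ A.filter (bad (n + 1)),
        Real.log (cn c A (n + 1 - s) a / cn c A (n + 1) a) with hBd
  set Yd : ℝ := ∑ n ∈ range W, ∑ a ∈ A, - Real.log (y (n + 1) a) with hYd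
  -- telescoping
  have telP : ∀ r, ∀ a ∈ A, (s : ℝ) * Real.log (((A.filter fun b => π r b = π r a).card : ℝ)) =
      ∑ n ∈ range W, (Real.log (pn (π r) c A (n + 1 - s) a) -
        Real.log (pn (π r) c A (n + 1) a)) := by
    intro r a ha
    have := tele (fun n => Real.log (pn (π r) c A n a)) T
      (fun k hk => by rw [pn_bot h hk ha, Real.log_one]) W s le_rfl
    rw [this, pn_zero h ha]
  have telN : ∀ t, t ≤ s → ∀ a ∈ A, ∑ n ∈ range W, (Real.log (cn c A (n + 1 - t) a) -
        Real.log (cn c A (n + 1) a)) = (t : ℝ) * Real.log A.card := by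
    intro t ht a ha
    have := tele (fun n => Real.log (cn c A n a)) T
      (fun k hk => by rw [cn_bot h hk ha, Real.log_one]) W t (by omega)
    rw [this, cn_zero h ha]
  -- one window
  have win : ∀ n, ∑ r ∈ S, ∑ a ∈ A, (Real.log (pn (π r) c A (n + 1 - s) a) -
        Real.log (pn (π r) c A (n + 1) a)) ≤
      S.card * (∑ a ∈ A.filter (bad (n + 1)),
        Real.log (cn c A (n + 1 - s) a / cn c A (n + 1) a) +
        τ * ∑ a ∈ A, (Real.log (cn c A (n + 1 - s) a) - Real.log (cn c A (n + 1) a)) +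
        ∑ a ∈ A, (Real.log (cn c A (n + 1 - m) a) - Real.log (cn c A (n + 1) a)) +
        ∑ a ∈ A, - Real.log (y (n + 1) a)) := by
    intro n
    have hue : n + 1 - s ≤ n + 1 - m := by omega
    have hen : n + 1 - m ≤ n + 1 := by omega
    have h1 := blockY h hue hen S hS π (bad (n + 1)) (y (n + 1)) κ B lam (hy0 (n + 1))
      (hy1 (n + 1)) hκ hB hl0 hl1 (H1 (n + 1)) (H2 (n + 1))
    have h2 : ∀ r ∈ S, ∑ a ∈ A, (Real.log (pn (π r) c A (n + 1 - s) a) -
        Real.log (pn (π r) c A (n + 1) a)) ≤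
        ∑ a ∈ A, Real.log (1 + (((sep c A (n + 1 - s) (n + 1 - m) a).filter
          (fun b => Rel c A π (n + 1) r a b)).card : ℝ) / cn c A (n + 1) a) +
        ∑ a ∈ A, (Real.log (cn c A (n + 1 - m) a) - Real.log (cn c A (n + 1) a)) := by
      intro r _
      have e1 := early h π r hue hen
      have e2 := late h (π r) hen
      have e3 : ∑ a ∈ A, (Real.log (pn (π r) c A (n + 1 - s) a) -
          Real.log (pn (π r) c A (n + 1) a)) =
          ∑ a ∈ A, (Real.log (pn (π r) c A (n + 1 - s) a) -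
            Real.log (pn (π r) c A (n + 1 - m) a)) +
          ∑ a ∈ A, (Real.log (pn (π r) c A (n + 1 - m) a) -
            Real.log (pn (π r) c A (n + 1) a)) := by
        rw [← sum_add_distrib]
        refine sum_congr rfl fun a _ => ?_
        ring
      rw [e3]
      linarith
    refine (sum_le_sum h2).trans ?_
    rw [sum_add_distrib, sum_const, nsmul_eq_mul, sum_comm]
    have h3 : ∑ a ∈ A, Real.log (cn c A (n + 1 - s) a / cn c A (n + 1) a) =
        ∑ a ∈ A, (Real.log (cn c A (n + 1 - s) a) - Real.log (cn c A (n + 1) a)) :=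
      sum_congr rfl fun a ha => Real.log_div (cn_pos ha).ne' (cn_pos ha).ne'
    rw [h3] at h1
    rw [mul_add (S.card : ℝ)] at h1
    rw [mul_add (S.card : ℝ) (_ + _), mul_add (S.card : ℝ) (_ + _)]
    linarith
  have h4 : (s : ℝ) * ∑ r ∈ S, ∑ a ∈ A, Real.log (((A.filter fun b => π r b = π r a).card : ℝ)) ≤
      S.card * (Bd + τ * (A.card * (s * Real.log A.card)) + A.card * (m * Real.log A.card) +
        Yd) := by
    have e1 : (s : ℝ) * ∑ r ∈ S, ∑ a ∈ A, Real.log (((A.filter fun b => π r b = π r a).card : ℝ)) =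
        ∑ n ∈ range W, ∑ r ∈ S, ∑ a ∈ A, (Real.log (pn (π r) c A (n + 1 - s) a) -
          Real.log (pn (π r) c A (n + 1) a)) := by
      rw [sum_comm (s := range W) (t := S), mul_sum]
      refine sum_congr rfl fun r _ => ?_
      rw [sum_comm (s := range W), mul_sum]
      refine sum_congr rfl ?_
      intro a ha
      exact telP r a ha
    rw [e1]
    refine (sum_le_sum (fun n (_ : n ∈ range W) => win n)).trans ?_
    rw [← mul_sum]
    refine mul_le_mul_of_nonneg_left (le_of_eq ?_) hSc.le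
    rw [sum_add_distrib, sum_add_distrib, sum_add_distrib, ← mul_sum]
    congr 1
    congr 1
    · congr 1
      congr 1
      rw [sum_comm, sum_congr rfl fun a ha => telN s le_rfl a ha, sum_const, nsmul_eq_mul]
    · rw [sum_comm, sum_congr rfl fun a ha => telN m hms a ha, sum_const, nsmul_eq_mul]
  have h5 : (S.card : ℝ) * (A.card * Real.log A.card) -
      ∑ r ∈ S, ∑ a ∈ A, Real.log (((A.filter fun b => π r b = π r a).card : ℝ)) ≤
      A.card * ∑ r ∈ S, Real.log ((A.image (π r)).card : ℝ) := by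
    have := sum_le_sum (fun r (_ : r ∈ S) => log_image (A := A) (π r) hA)
    rw [sum_sub_distrib, sum_const, nsmul_eq_mul, ← mul_sum] at this
    exact this
  -- conclusion
  set X := ∑ r ∈ S, ∑ a ∈ A, Real.log (((A.filter fun b => π r b = π r a).card : ℝ)) with hX
  set Y := ∑ r ∈ S, Real.log ((A.image (π r)).card : ℝ) with hY
  set L := Real.log (A.card : ℝ) with hL
  have h6 : X ≤ S.card * (Bd + τ * (A.card * (s * L)) + A.card * (m * L) + Yd) / s := by
    rw [le_div_iff₀ hs0]
    linarith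
  have h7 : (S.card : ℝ) * (A.card * L) ≤ A.card * Y +
      S.card * (Bd + τ * (A.card * (s * L)) + A.card * (m * L) + Yd) / s := by linarith
  have h8 : (A.card : ℝ) * L ≤ A.card * (Y / S.card) +
      (Bd + τ * (A.card * (s * L)) + A.card * (m * L) + Yd) / s := by
    have h9 := div_le_div_of_nonneg_right h7 hSc.le
    rw [mul_div_assoc, mul_comm, div_mul_cancel₀ _ hSc.ne'] at h9
    refine h9.trans (le_of_eq ?_)
    field_simp
  have h10 : (Bd + τ * (A.card * (s * L)) + A.card * (m * L) + Yd) / s =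
      Bd / s + τ * (A.card * L) + A.card * (m / s * L) + Yd / s := by
    field_simp
  rw [h10] at h8
  have h11 : (A.card : ℝ) * ((1 - m / s - τ) * L) =
      A.card * L - A.card * (m / s * L) - τ * (A.card * L) := by ring
  rw [h11]
  linarith

end Pool.Agent.V7H66.AK
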